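import Mathlib

/-!
The iterated cone `FF V M = V ⊗ Λ(e_0, …, e_(M-1))`, by recursion on `M`; `(a, b)` stands for
`a + e_M b`.
-/

set_option autoImplicit false

set_option linter.unusedSectionVars false

noncomputable section
namespace Pool.Agent.Lib.H44X
universe u

/-- `V ⊗ Λ(e_0, …, e_(M-1))`; the pair `(a, b) : FF V (M+1)` stands for `a + e_M b`. -/
def FF (V : Type u) : ℕ → Type u
  | 0 => V
  | (M + 1) => FF V M × FF V M

instance FF.acg (V : Type u) [AddCommGroup V] : ∀ M, AddCommGroup (FF V M)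
  | 0 => inferInstanceAs (AddCommGroup V)
  | (M + 1) => letI := FF.acg V M; inferInstanceAs (AddCommGroup (FF V M × FF V M))

instance FF.mod (C : Type u) [CommRing C] (V : Type u) [AddCommGroup V]
    [Module C V] : ∀ M, Module C (FF V M)
  | 0 => inferInstanceAs (Module C V)
  | (M + 1) => letI := FF.mod C V M; inferInstanceAs (Module C (FF V M × FF V M))

section ops
variable {C : Type u} [CommRing C] {V : Type u} [AddCommGroup V] [Module C V]

/-- `a + e_M b` as an element of `FF V (M+1)`. -/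
def mkF {V : Type u} {M : ℕ} (a b : FF V M) : FF V (M + 1) := (a, b)

/-- the part without `e_M`. -/
def fstF {V : Type u} {M : ℕ} (v : FF V (M + 1)) : FF V M := v.1

/-- the coefficient of `e_M`. -/
def sndF {V : Type u} {M : ℕ} (v : FF V (M + 1)) : FF V M := v.2

/-- the map `a + e_M b ↦ f a + e_M (g a + h b)`. -/
def conF {M : ℕ} (f g h : FF V M →ₗ[C] FF V M) : FF V (M + 1) →ₗ[C] FF V (M + 1) :=
  (LinearMap.prod (f ∘ₗ LinearMap.fst C (FF V M) (FF V M))
    (g ∘ₗ LinearMap.fst C (FF V M) (FF V M) + h ∘ₗ LinearMap.snd C (FF V M) (FF V M)) :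
    (FF V M × FF V M) →ₗ[C] (FF V M × FF V M))

variable (C V) in
/-- left multiplication by `e_i`. -/
def EE : ∀ (M : ℕ) (_ : ℕ), FF V M →ₗ[C] FF V M
  | 0, _ => 0
  | (M + 1), i => if i = M then conF 0 LinearMap.id 0 else conF (EE M i) 0 (-(EE M i))

/-- the odd extension of an operator `T` of `V`: `a + e_M b ↦ T a - e_M (T b)`. -/
def TT (T : V →ₗ[C] V) : ∀ M : ℕ, FF V M →ₗ[C] FF V M
  | 0 => T
  | (M + 1) => conF (TT T M) 0 (-(TT T M))

/-- the operator `∑ β_i e_i + T`. -/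
def DD (β : ℕ → C) (T : V →ₗ[C] V) : ∀ M : ℕ, FF V M →ₗ[C] FF V M
  | 0 => T
  | (M + 1) => conF (DD β T M) (β M • LinearMap.id) (-(DD β T M))

/-- the inclusion of `V`. -/
def incF (C : Type u) [CommRing C] (V : Type u) [AddCommGroup V] [Module C V] :
    ∀ M : ℕ, V →ₗ[C] FF V M
  | 0 => LinearMap.id
  | (M + 1) => (LinearMap.inl C (FF V M) (FF V M) ∘ₗ incF C V M : V →ₗ[C] (FF V M × FF V M))

/-- the component without `e`'s. -/
def botF (C : Type u) [CommRing C] (V : Type u) [AddCommGroup V] [Module C V] :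
    ∀ M : ℕ, FF V M →ₗ[C] V
  | 0 => LinearMap.id
  | (M + 1) => (botF C V M ∘ₗ LinearMap.fst C (FF V M) (FF V M) : (FF V M × FF V M) →ₗ[C] V)

/-- the coefficient of `e_(M-1) ⋯ e_0`. -/
def topF (C : Type u) [CommRing C] (V : Type u) [AddCommGroup V] [Module C V] :
    ∀ M : ℕ, FF V M →ₗ[C] V
  | 0 => LinearMap.id
  | (M + 1) => (topF C V M ∘ₗ LinearMap.snd C (FF V M) (FF V M) : (FF V M × FF V M) →ₗ[C] V)

/-- the degree in the `e`'s is at most `a`. -/
def Ele {V : Type u} [AddCommGroup V] : ∀ (M : ℕ) (_ : ℕ), FF V M → Prop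
  | 0, _, _ => True
  | (M + 1), 0, v => Ele M 0 (fstF v) ∧ sndF v = 0
  | (M + 1), (a + 1), v => Ele M (a + 1) (fstF v) ∧ Ele M a (sndF v)

/-- all coefficients satisfy `P`. -/
def AllIn {V : Type u} (P : V → Prop) : ∀ M : ℕ, FF V M → Prop
  | 0, v => P v
  | (M + 1), v => AllIn P M (fstF v) ∧ AllIn P M (sndF v)

/-- coefficientwise application of a map. -/
def mapF {V W : Type u} (f : V → W) : ∀ M : ℕ, FF V M → FF W M
  | 0, v => f v
  | (M + 1), v => mkF (mapF f M (fstF v)) (mapF f M (sndF v))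

/-- left multiplication by a form `x ∈ V` (with the sign rule given by the involution `σ`). -/
def LM (C : Type u) [CommRing C] {V : Type u} [Ring V] [Algebra C V] (σ : V → V) :
    ∀ (M : ℕ) (_ : V), FF V M →ₗ[C] FF V M
  | 0, x => LinearMap.mulLeft C x
  | (M + 1), x => (LinearMap.prodMap (LM C σ M x) (LM C σ M (σ x)) :
      (FF V M × FF V M) →ₗ[C] (FF V M × FF V M))

/-- `(β_0, …, β_(M-1))` is a regular sequence on `V`. -/
def RegSeq (β : ℕ → C) (V : Type u) [AddCommGroup V] [Module C V] (M : ℕ) : Prop :=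
  ∀ j < M, ∀ v : V, β j • v ∈ (Ideal.span (β '' {i | i < j})) • (⊤ : Submodule C V) →
    v ∈ (Ideal.span (β '' {i | i < j})) • (⊤ : Submodule C V)

end ops

section lemmas
variable {C : Type u} [CommRing C] {V : Type u} [AddCommGroup V] [Module C V]

@[simp] lemma fstF_mkF {M : ℕ} (a b : FF V M) : fstF (mkF a b) = a := rfl
@[simp] lemma sndF_mkF {M : ℕ} (a b : FF V M) : sndF (mkF a b) = b := rfl
lemma extF {M : ℕ} {v w : FF V (M + 1)} (h1 : fstF v = fstF w) (h2 : sndF v = sndF w) : v = w :=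
  Prod.ext h1 h2
@[simp] lemma fstF_add {M : ℕ} (v w : FF V (M + 1)) : fstF (v + w) = fstF v + fstF w := rfl
@[simp] lemma sndF_add {M : ℕ} (v w : FF V (M + 1)) : sndF (v + w) = sndF v + sndF w := rfl
@[simp] lemma fstF_neg {M : ℕ} (v : FF V (M + 1)) : fstF (-v) = -fstF v := rfl
@[simp] lemma sndF_neg {M : ℕ} (v : FF V (M + 1)) : sndF (-v) = -sndF v := rfl
@[simp] lemma fstF_sub {M : ℕ} (v w : FF V (M + 1)) : fstF (v - w) = fstF v - fstF w := rfl
@[simp] lemma sndF_sub {M : ℕ} (v w : FF V (M + 1)) : sndF (v - w) = sndF v - sndF w := rfl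
@[simp] lemma fstF_zero {M : ℕ} : fstF (0 : FF V (M + 1)) = 0 := rfl
@[simp] lemma sndF_zero {M : ℕ} : sndF (0 : FF V (M + 1)) = 0 := rfl
@[simp] lemma fstF_smul {M : ℕ} (c : C) (v : FF V (M + 1)) : fstF (c • v) = c • fstF v := rfl
@[simp] lemma sndF_smul {M : ℕ} (c : C) (v : FF V (M + 1)) : sndF (c • v) = c • sndF v := rfl

@[simp] lemma fstF_conF {M : ℕ} (f g h : FF V M →ₗ[C] FF V M) (v : FF V (M + 1)) :
    fstF (conF f g h v) = f (fstF v) := rfl
@[simp] lemma sndF_conF {M : ℕ} (f g h : FF V M →ₗ[C] FF V M) (v : FF V (M + 1)) :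
    sndF (conF f g h v) = g (fstF v) + h (sndF v) := rfl

lemma fstF_sum {M : ℕ} {ι : Type*} (s : Finset ι) (f : ι → FF V (M + 1)) :
    fstF (∑ i ∈ s, f i) = ∑ i ∈ s, fstF (f i) :=
  map_sum (LinearMap.fst ℤ (FF V M) (FF V M)) f s
lemma sndF_sum {M : ℕ} {ι : Type*} (s : Finset ι) (f : ι → FF V (M + 1)) :
    sndF (∑ i ∈ s, f i) = ∑ i ∈ s, sndF (f i) :=
  map_sum (LinearMap.snd ℤ (FF V M) (FF V M)) f s

lemma EE_zero (i : ℕ) (v : FF V 0) : EE C V 0 i v = 0 := rfl
lemma EE_self (M : ℕ) (v : FF V (M + 1)) : EE C V (M + 1) M v = mkF 0 (fstF v) := by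
  simp only [EE, if_true]
  apply extF
  · simp
  · simp
lemma EE_ne (M i : ℕ) (h : i ≠ M) (v : FF V (M + 1)) :
    EE C V (M + 1) i v = mkF (EE C V M i (fstF v)) (-(EE C V M i (sndF v))) := by
  simp only [EE, if_neg h]
  apply extF
  · simp
  · simp

lemma LM_zero {W : Type u} [Ring W] [Algebra C W] (σ : W → W) (x : W) (v : FF W 0) :
    LM C σ 0 x v = (x * (show W from v) : W) := rfl

lemma LM_succ {W : Type u} [Ring W] [Algebra C W] (σ : W → W) (M : ℕ) (x : W)
    (v : FF W (M + 1)) :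
    LM C σ (M + 1) x v = mkF (LM C σ M x (fstF v)) (LM C σ M (σ x) (sndF v)) := rfl

lemma TT_succ (T : V →ₗ[C] V) (M : ℕ) (v : FF V (M + 1)) :
    TT T (M + 1) v = mkF (TT T M (fstF v)) (-(TT T M (sndF v))) := by
  apply extF
  · simp [TT]
  · simp [TT]

lemma DD_succ (β : ℕ → C) (T : V →ₗ[C] V) (M : ℕ) (v : FF V (M + 1)) :
    DD β T (M + 1) v = mkF (DD β T M (fstF v)) (β M • fstF v - DD β T M (sndF v)) := by
  apply extF
  · simp [DD]
  · simp [DD, sub_eq_add_neg]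

end lemmas

end Pool.Agent.Lib.H44X
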