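import Mathlib

/-!
Definitions for H44X (MP_fa772a_ag, graded case in characteristic zero).
-/

set_option autoImplicit false
open TensorProduct

namespace Pool.Agent.Lib.H44X
universe u

section forms
variable (k : Type u) [Field k] (d : ℕ)

/-- the exterior algebra over `k` with generators `dy_1, …, dy_d`. -/
abbrev Lam : Type u := ExteriorAlgebra k (Fin d → k)

/-- differential forms `∑ c dy_J` with coefficients in the `k`-algebra `C`. -/
abbrev VV (C : Type u) [CommRing C] [Algebra k C] : Type u := C ⊗[k] Lam k d

variable (C : Type u) [CommRing C] [Algebra k C]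

/-- the generator `dy_j`. -/
noncomputable def dy (j : Fin d) : VV k d C :=
  (1 : C) ⊗ₜ[k] (ExteriorAlgebra.ι k (Pi.single j (1 : k)))

variable {k d C}

/-- the one-form `∑ a_j dy_j`. -/
noncomputable def onef (a : Fin d → C) : VV k d C := ∑ j, a j • dy k d C j

/-- the coefficient functional `c ⊗ x ↦ l(x) c`. -/
noncomputable def coef (l : Module.Dual k (Lam k d)) : VV k d C →ₗ[C] C :=
  Module.Dual.baseChange C l

/-- contraction with the vector field `∑ a_j ∂/∂y_j`. -/
noncomputable def con (a : Fin d → C) : VV k d C →ₗ[C] VV k d C :=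
  ∑ j, a j • LinearMap.baseChange C
    (CliffordAlgebra.contractLeft (Q := (0 : QuadraticForm k (Fin d → k)))
      (LinearMap.proj (R := k) (φ := fun _ : Fin d => k) j))

/-- the grade involution, `dy_j ↦ - dy_j`. -/
noncomputable def inv : VV k d C →ₐ[C] VV k d C :=
  Algebra.TensorProduct.map (AlgHom.id C C)
    (CliffordAlgebra.involute (Q := (0 : QuadraticForm k (Fin d → k))))

end forms

section derivations
variable {k : Type u} [Field k] {d : ℕ} {K : Type u} [Field K] [Algebra k K]

/-- the differential `du = ∑ D_j(u) dy_j`. -/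
noncomputable def dK (D : Fin d → Derivation k K K) (a : K) : VV k d K := onef fun j => D j a

/-- the `A`-submodule generated by the products `du_1 ⋯ du_a` with `u_i ∈ A`. -/
inductive IsForm (A : Type u) [CommRing A] [Algebra A K] (D : Fin d → Derivation k K K) :
    VV k d K → Prop
  | zero : IsForm A D 0
  | one : IsForm A D 1
  | add (x y : VV k d K) : IsForm A D x → IsForm A D y → IsForm A D (x + y)
  | smul (a : A) (x : VV k d K) : IsForm A D x → IsForm A D (algebraMap A K a • x)
  | mul (a : A) (x : VV k d K) : IsForm A D x → IsForm A D (dK D (algebraMap A K a) * x)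

end derivations

section gradients
variable {k : Type u} [Field k] {n : ℕ}

/-- `(∂f/∂x_1, …, ∂f/∂x_n)` in a `P`-algebra `C`. -/
noncomputable def grad (C : Type u) [CommRing C] [Algebra (MvPolynomial (Fin n) k) C]
    (f : MvPolynomial (Fin n) k) : Fin n → C :=
  fun l => algebraMap (MvPolynomial (Fin n) k) C (MvPolynomial.pderiv l f)

variable (k) in
/-- the coefficients `w_l x_l` of the weighted Euler field. -/
noncomputable def eul (w : Fin n → ℕ) (C : Type u) [CommRing C]
    [Algebra (MvPolynomial (Fin n) k) C] : Fin n → C :=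
  fun l => (w l : C) * algebraMap (MvPolynomial (Fin n) k) C (MvPolynomial.X l)

/-- the submodule `𝓙` generated by `f v`, `df v`, `f ∈ F`. -/
def JJ (F : Set (MvPolynomial (Fin n) k)) (C : Type u) [CommRing C] [Algebra k C]
    [Algebra (MvPolynomial (Fin n) k) C] : Submodule C (VV k n C) :=
  Submodule.span C ({x | ∃ f ∈ F, ∃ v, x = algebraMap (MvPolynomial (Fin n) k) C f • v} ∪
    {x | ∃ f ∈ F, ∃ v, x = (onef (grad C f) : VV k n C) * v})

end gradients

section origin
variable (k : Type u) [Field k] (n : ℕ)

/-- the maximal ideal `(x_1, …, x_n)` of `k[x_1, …, x_n]`. -/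
noncomputable def org : Ideal (MvPolynomial (Fin n) k) :=
  RingHom.ker (MvPolynomial.constantCoeff (R := k) (σ := Fin n))

instance org_isPrime : (org k n).IsPrime := RingHom.ker_isPrime _

/-- the local ring `k[x_1, …, x_n]_(x)`. -/
abbrev SS : Type u := Localization.AtPrime (org k n)

variable {k n}

/-- the local homomorphism `k[y]_(y) → k[x]_(x)`, `y_j ↦ Y_j`, for polynomials `Y_j` without
constant term. -/
noncomputable def psi {d : ℕ} (Y : Fin d → MvPolynomial (Fin n) k)
    (hY : ∀ j, MvPolynomial.constantCoeff (Y j) = 0) : SS k d →+* SS k n :=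
  Localization.localRingHom (org k d) (org k n)
    (MvPolynomial.aeval Y : MvPolynomial (Fin d) k →ₐ[k] MvPolynomial (Fin n) k).toRingHom (by
      ext b
      simp only [org, RingHom.mem_ker, Ideal.mem_comap]
      have h : (MvPolynomial.constantCoeff : MvPolynomial (Fin n) k →+* k).comp
          (MvPolynomial.aeval Y : MvPolynomial (Fin d) k →ₐ[k] MvPolynomial (Fin n) k).toRingHom =
          MvPolynomial.constantCoeff := by
        apply MvPolynomial.ringHom_ext
        · intro r
          simp
        · intro j
          simp [hY j]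
      rw [← h]
      rfl)

end origin

end Pool.Agent.Lib.H44X
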