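import Pool.Agent.Lib.H44V.Fin
import Pool.Agent.Lib.H44X.Defs
import Pool.Agent.Lib.H78A.D3
import Pool.Agent.Lib.H78A.G2

/-!
Interface of the modules C and D (regular sequences, dimensions).
-/

set_option autoImplicit false
open CategoryTheory CategoryTheory.Abelian IsLocalRing
open Pool.Agent.Lib.Helper92 Pool.Agent.Lib.H44V

namespace Pool.Agent.Lib.H44X
universe u

/-- D_main. If `dim S/J + s < dim S/Q`, `Q = Q₀ S`, `S = k[x]_(x)`, and `k[y]_(y) → S/Q` is a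
homogeneous Noether normalisation, then there is a regular sequence `β_0, …, β_s` of `k[y]_(y)`
whose images in `S` lie in `J + Q`. -/
theorem D_main {k : Type u} [Field k] [CharZero k] {n : ℕ} (w : Fin n → ℕ) (hw : ∀ i, 0 < w i)
    (Q₀ : Ideal (MvPolynomial (Fin n) k)) [Q₀.IsPrime]
    (hQ : ∀ f ∈ Q₀, ∀ m, MvPolynomial.weightedHomogeneousComponent w m f ∈ Q₀)
    (N d : ℕ) (Y : Fin d → MvPolynomial (Fin n) k) (hN : 0 < N)
    (hY : ∀ j, MvPolynomial.IsWeightedHomogeneous w (Y j) N)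
    (hY0 : ∀ j, MvPolynomial.constantCoeff (Y j) = 0)
    (hinj : Function.Injective (MvPolynomial.aeval (R := k) fun j => Ideal.Quotient.mk Q₀ (Y j)))
    (hfin : (MvPolynomial.aeval (R := k) fun j => Ideal.Quotient.mk Q₀ (Y j)).toRingHom.Finite)
    (J : Ideal (SS k n)) (s : ℕ)
    (hdim : ringKrullDim (SS k n ⧸ J) + (s : WithBot ℕ∞) <
      ringKrullDim (SS k n ⧸ Q₀.map (algebraMap (MvPolynomial (Fin n) k) (SS k n)))) :
    ∃ β : ℕ → SS k d, (∀ i < s + 1, psi Y hY0 (β i) ∈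
        J ⊔ Q₀.map (algebraMap (MvPolynomial (Fin n) k) (SS k n))) ∧
      ∀ j < s + 1, IsSMulRegular (SS k d ⧸ Jx β j) (β j) := by
  exact Pool.Agent.H78A.D_main w hw Q₀ hQ N d Y hN hY hY0 hinj hfin J s hdim

/-- G_prime. Choice of the homogeneous prime `Q₀` of maximal dimension. -/
theorem G_prime {k : Type u} [Field k] {n : ℕ} (w : Fin n → ℕ) (hw : ∀ i, 0 < w i)
    (F : Set (MvPolynomial (Fin n) k))
    (hF : ∀ f ∈ F, ∃ m, MvPolynomial.IsWeightedHomogeneous w f m) (hF0 : ∀ f ∈ F, f ∈ org k n) :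
    ∃ Q₀ : Ideal (MvPolynomial (Fin n) k), Q₀.IsPrime ∧ F ⊆ Q₀ ∧ Q₀ ≤ org k n ∧
      (∀ f ∈ Q₀, ∀ m, MvPolynomial.weightedHomogeneousComponent w m f ∈ Q₀) ∧
      ringKrullDim (SS k n ⧸ Q₀.map (algebraMap (MvPolynomial (Fin n) k) (SS k n))) =
        ringKrullDim (SS k n ⧸
          (Ideal.span F).map (algebraMap (MvPolynomial (Fin n) k) (SS k n))) := by
  exact Pool.Agent.H78A.G_prime w hw F hF hF0

end Pool.Agent.Lib.H44X
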