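import Pool.Agent.Lib.H44X.EDef

/-!
E0 (M). Existence of an injective resolution of `B` (structure `IRes`, file EDef.lean).

Every `B`-module `M : Type u` embeds into an injective one `J(M) : Type u`:
`CategoryTheory.EnoughInjectives (ModuleCat B)` (`Injective.ι`, mono = injective:
`ModuleCat.mono_iff_injective`) and `Module.injective_iff_injective_object` /
`Module.injective_module_of_injective_object`. State this first as a lemma
`e0_emb : ∃ (J : Type u) (_ : AddCommGroup J) (_ : Module B J) (i : M →ₗ[B] J), injective i ∧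
Module.Injective B J`.
Construct recursively (`Nat.rec` on a bundled type, e.g. a structure consisting of a module
`C : ModuleCat B`): `C_0 = B`, `E_t = J(C_t)`, `C_(t+1) = E_t / i(C_t)`, `d_t : E_t → C_(t+1) → E_(t+1)`.
Then `ker d_t = i(C_t)` (as `C_(t+1) → E_(t+1)` is injective) and `i(C_(t+1)) = im d_t` because
`E_t → C_(t+1)` is surjective.
Alternative: Mathlib's `CategoryTheory.InjectiveResolution` (`injectiveResolution`) of
`ModuleCat.of B B`, translating exactness; choose what is shorter.
-/

set_option autoImplicit false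

namespace Pool.Agent.Lib.H44X
universe u

/-- Auxiliary: an injective module containing M. -/
theorem e0_emb {B : Type u} [CommRing B] (M : ModuleCat.{u} B) :
    ∃ (J : ModuleCat.{u} B) (i : M →ₗ[B] J), Function.Injective i ∧ Module.Injective B J := by
  refine ⟨CategoryTheory.Injective.under M, (CategoryTheory.Injective.ι M).hom, ?_, ?_⟩
  · exact (ModuleCat.mono_iff_injective _).1 inferInstance
  · have hI : ∀ J : ModuleCat.{u} B, CategoryTheory.Injective J → Module.Injective B J :=
      fun J hJ => (Module.injective_iff_injective_object B J).2 hJ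
    exact hI _ inferInstance

noncomputable def e0_J {B : Type u} [CommRing B] (M : ModuleCat.{u} B) : ModuleCat.{u} B :=
  (e0_emb M).choose

noncomputable def e0_i {B : Type u} [CommRing B] (M : ModuleCat.{u} B) : M →ₗ[B] e0_J M :=
  (e0_emb M).choose_spec.choose

theorem e0_i_inj {B : Type u} [CommRing B] (M : ModuleCat.{u} B) : Function.Injective (e0_i M) :=
  (e0_emb M).choose_spec.choose_spec.1

theorem e0_J_inj {B : Type u} [CommRing B] (M : ModuleCat.{u} B) : Module.Injective B (e0_J M) :=
  (e0_emb M).choose_spec.choose_spec.2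

/-- Auxiliary: the cosyzygies. -/
noncomputable def e0_C (B : Type u) [CommRing B] : ℕ → ModuleCat.{u} B := fun n =>
  Nat.rec (ModuleCat.of B B) (fun _ M => ModuleCat.of B (e0_J M ⧸ LinearMap.range (e0_i M))) n

noncomputable def e0_q (B : Type u) [CommRing B] (t : ℕ) : e0_J (e0_C B t) →ₗ[B] e0_C B (t + 1) :=
  (LinearMap.range (e0_i (e0_C B t))).mkQ

theorem e0_q_surj (B : Type u) [CommRing B] (t : ℕ) : Function.Surjective (e0_q B t) :=
  Submodule.mkQ_surjective _

theorem e0_q_ker (B : Type u) [CommRing B] (t : ℕ) (x : e0_J (e0_C B t)) :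
    e0_q B t x = 0 ↔ ∃ y, e0_i (e0_C B t) y = x := by
  have h : e0_q B t x = 0 ↔ x ∈ LinearMap.range (e0_i (e0_C B t)) :=
    Submodule.Quotient.mk_eq_zero _
  rw [h, LinearMap.mem_range]

theorem e0_exists (B : Type u) [CommRing B] : Nonempty (IRes B) := by
  have hd : ∀ (t : ℕ) (x : e0_J (e0_C B t)),
      ((e0_i (e0_C B (t + 1))) ∘ₗ e0_q B t) x = 0 ↔ ∃ y, e0_i (e0_C B t) y = x := by
    intro t x
    rw [LinearMap.comp_apply, map_eq_zero_iff _ (e0_i_inj _), e0_q_ker]
  refine ⟨{ E := fun t => e0_J (e0_C B t)
            acg := fun t => inferInstance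
            mod := fun t => inferInstance
            aug := e0_i (e0_C B 0)
            d := fun t => (e0_i (e0_C B (t + 1))) ∘ₗ e0_q B t
            aug_inj := e0_i_inj _
            ex0 := fun x => hd 0 x
            ex := fun t x => ?_
            inj := fun t => e0_J_inj _ }⟩
  rw [hd]
  constructor
  · rintro ⟨y, rfl⟩
    obtain ⟨z, rfl⟩ := e0_q_surj B t y
    exact ⟨z, rfl⟩
  · rintro ⟨y, rfl⟩
    exact ⟨e0_q B t y, rfl⟩

end Pool.Agent.Lib.H44X
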