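import Pool.Agent.Lib.H44X.EDef
import Pool.Agent.Lib.H44V.Defs

/-!
E1 (M). From `Ext^t(H, B) = 0` (Mathlib's Ext in `ModuleCat B`) to `EVan X H t`.

`C_t = LinearMap.ker (X.d t)`; `C_0 ≅ B` by `aug` (`LinearEquiv.ofInjective` and `ex0`). Short exact
sequences `0 → C_t → E_t → C_(t+1) → 0` (`X.ex t`, `X.d (t+1) ∘ X.d t = 0`; the map
`E_t → C_(t+1)` is `(X.d t).codRestrict`), compare `sesI_exact` (Helper92/ExtGen.lean) or
`LinearMap.shortExact_shortComplexKer` (used in H44V/D2.lean) for how to build them.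
`E_t` is injective in `ModuleCat B` (`Module.injective_object_of_injective_module`, field `inj`), so
`Ext^i(H, E_t) = 0` for `i ≥ 1` (`Ext.eq_zero_of_injective`). By the long exact sequence in the
second variable (`Ext.covariant_sequence_exact₁`, `₂`, `₃`) `Ext^(i+1)(H, C_t) = 0` implies
`Ext^i(H, C_(t+1)) = 0` for `i ≥ 1`, so `Ext^(t+1)(H, B) = 0` implies `Ext^1(H, C_t) = 0`, and
`Ext^1(H, C_t) = 0` implies that every `H → C_(t+1)` lifts to `H → E_t` (`covariant_sequence_exact₃`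
in degree 0, `Ext.mk₀`, `Ext.homEquiv₀` or `Ext.mk₀_surjective`-type lemma).
For `t = 0`: `Hom(H, B) = 0`: `u h ∈ C_0`, so `u = aug ∘ u'` with `u' : H → B` linear
(`LinearEquiv` `B ≅ C_0`), and `Ext.mk₀ (ofHom u') = 0` implies `u' = 0` (`Ext.mk₀` is injective).
(If you prefer, replace Ext by an elementary induction; only the statement matters.)
-/

set_option autoImplicit false
open CategoryTheory CategoryTheory.Abelian

namespace Pool.Agent.Lib.H44X
universe u

section
variable {B : Type u} [CommRing B]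

lemma e1_iso {A A' W : ModuleCat.{u} B} (e : A ≅ A') (j : ℕ) (h : Subsingleton (Ext W A j)) :
    Subsingleton (Ext W A' j) := by
  refine ⟨fun a b => ?_⟩
  rw [← sub_eq_zero]
  have h1 : (a - b).comp (Ext.mk₀ e.inv) (add_zero j) = 0 := @Subsingleton.elim _ h _ _
  calc a - b = (a - b).comp (Ext.mk₀ (𝟙 A')) (add_zero j) := (Ext.comp_mk₀_id (a - b)).symm
    _ = (a - b).comp (Ext.mk₀ (e.inv ≫ e.hom)) (add_zero j) := by rw [e.inv_hom_id]
    _ = ((a - b).comp (Ext.mk₀ e.inv) (add_zero j)).comp (Ext.mk₀ e.hom) (add_zero j) := by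
        rw [Ext.comp_assoc_of_third_deg_zero, Ext.mk₀_comp_mk₀]
    _ = 0 := by rw [h1, Ext.zero_comp]

/-- the map onto the next kernel. -/
noncomputable def e1_q (X : IRes B) (t : ℕ) : X.E t →ₗ[B] LinearMap.ker (X.d (t + 1)) :=
  (X.d t).codRestrict (LinearMap.ker (X.d (t + 1))) fun x =>
    LinearMap.mem_ker.2 ((X.ex t (X.d t x)).2 ⟨x, rfl⟩)

lemma e1_q_apply (X : IRes B) (t : ℕ) (x : X.E t) : ((e1_q X t x : LinearMap.ker (X.d (t + 1))) : X.E (t + 1)) = X.d t x :=
  rfl

lemma e1_mem (X : IRes B) (t : ℕ) (x : X.E t) (h : e1_q X t x = 0) : x ∈ LinearMap.ker (X.d t) := by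
  rw [LinearMap.mem_ker, ← e1_q_apply, h]
  rfl

noncomputable abbrev e1_s (X : IRes B) (t : ℕ) : ShortComplex (ModuleCat.{u} B) :=
  ModuleCat.shortComplexOfCompEqZero (Submodule.subtype (LinearMap.ker (X.d t))) (e1_q X t)
    (by
      ext x
      have h : X.d t (x : X.E t) = 0 := x.2
      change ((e1_q X t (x : X.E t) : LinearMap.ker (X.d (t + 1))) : X.E (t + 1)) = 0
      rw [e1_q_apply, h])

lemma e1_ex (X : IRes B) (t : ℕ) : (e1_s X t).ShortExact :=
  ModuleCat.shortComplex_shortExact _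
    (by
      intro y
      constructor
      · intro h
        exact ⟨⟨y, e1_mem X t y h⟩, rfl⟩
      · rintro ⟨x, rfl⟩
        have h : X.d t (x : X.E t) = 0 := x.2
        apply Subtype.ext
        change ((e1_q X t (x : X.E t) : LinearMap.ker (X.d (t + 1))) : X.E (t + 1)) = 0
        rw [e1_q_apply, h])
    (by exact Subtype.val_injective)
    (by
      rintro ⟨y, hy⟩
      obtain ⟨x, hx⟩ := (X.ex t y).1 hy
      exact ⟨x, Subtype.ext hx⟩)

lemma e1_inj (X : IRes B) (t : ℕ) : Injective (ModuleCat.of B (X.E t)) := by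
  have := X.inj t
  exact Module.injective_object_of_injective_module B (X.E t)

lemma e1_down (X : IRes B) (W : ModuleCat.{u} B) (t i : ℕ)
    (h : Subsingleton (Ext W (ModuleCat.of B (LinearMap.ker (X.d t))) (i + 1 + 1))) :
    Subsingleton (Ext W (ModuleCat.of B (LinearMap.ker (X.d (t + 1)))) (i + 1)) := by
  have := e1_inj X t
  refine ⟨fun a b => ?_⟩
  rw [← sub_eq_zero]
  obtain ⟨x, hx⟩ := Ext.covariant_sequence_exact₃ (X := W) (e1_ex X t) (a - b) (n₁ := i + 1 + 1) rfl
    (@Subsingleton.elim _ h _ _)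
  rw [← hx]
  have h2 : x = 0 := Ext.eq_zero_of_injective (I := ModuleCat.of B (X.E t)) x
  rw [h2, Ext.zero_comp]

lemma e1_lift (X : IRes B) (H : Type u) [AddCommGroup H] [Module B H] (t : ℕ)
    (h : Subsingleton (Ext (ModuleCat.of B H) (ModuleCat.of B (LinearMap.ker (X.d t))) 1))
    (f : H →ₗ[B] LinearMap.ker (X.d (t + 1))) : ∃ g : H →ₗ[B] X.E t, ∀ x, e1_q X t (g x) = f x := by
  obtain ⟨x, hx⟩ := Ext.covariant_sequence_exact₃ (X := ModuleCat.of B H) (e1_ex X t)
    (Ext.mk₀ (ModuleCat.ofHom f)) (n₁ := 1) rfl (@Subsingleton.elim _ h _ _)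
  obtain ⟨g, rfl⟩ := (Ext.mk₀_bijective _ _).2 x
  rw [Ext.mk₀_comp_mk₀] at hx
  have h2 := (Ext.mk₀_bijective _ _).1 hx
  refine ⟨g.hom, fun x => ?_⟩
  have h3 := congrArg (fun k : ModuleCat.of B H ⟶ ModuleCat.of B (LinearMap.ker (X.d (t + 1))) => k.hom x) h2
  exact h3

/-- `B ≅ C_0`. -/
noncomputable def e1_e0 (X : IRes B) : B ≃ₗ[B] LinearMap.ker (X.d 0) :=
  LinearEquiv.ofBijective (X.aug.codRestrict (LinearMap.ker (X.d 0)) fun b =>
    LinearMap.mem_ker.2 ((X.ex0 (X.aug b)).2 ⟨b, rfl⟩)) (by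
      constructor
      · intro a b h
        exact X.aug_inj (congrArg Subtype.val h)
      · rintro ⟨y, hy⟩
        obtain ⟨b, hb⟩ := (X.ex0 y).1 hy
        exact ⟨b, Subtype.ext hb⟩)

lemma e1_all (X : IRes B) (W : ModuleCat.{u} B) : ∀ (t i : ℕ), Subsingleton (Ext W (ModuleCat.of B B) (i + 1 + t)) →
    Subsingleton (Ext W (ModuleCat.of B (LinearMap.ker (X.d t))) (i + 1)) := by
  intro t
  induction t with
  | zero =>
    intro i h
    exact e1_iso (e1_e0 X).toModuleIso (i + 1) h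
  | succ t ih =>
    intro i h
    apply e1_down X W t i
    apply ih (i + 1)
    have e : i + 1 + 1 + t = i + 1 + (t + 1) := by omega
    rw [e]
    exact h

end

theorem e1_van {B : Type u} [CommRing B] (X : IRes B) (H : Type u) [AddCommGroup H] [Module B H]
    (t : ℕ) (h : Subsingleton (Ext (ModuleCat.of B H) (ModuleCat.of B B) t)) : EVan X H t := by
  cases t with
  | zero =>
    intro u hu x
    let f : H →ₗ[B] LinearMap.ker (X.d 0) := u.codRestrict _ fun x => LinearMap.mem_ker.2 (hu x)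
    let u' : H →ₗ[B] B := (e1_e0 X).symm.toLinearMap.comp f
    have h1 : Ext.mk₀ (ModuleCat.ofHom u') = Ext.mk₀ 0 := @Subsingleton.elim _ h _ _
    have h2 := (Ext.mk₀_bijective _ _).1 h1
    have h3 : u' x = 0 := congrArg (fun k : ModuleCat.of B H ⟶ ModuleCat.of B B => k.hom x) h2
    have h4 : f x = 0 := (e1_e0 X).symm.map_eq_zero_iff.1 h3
    exact congrArg Subtype.val h4
  | succ t =>
    intro u hu
    let f : H →ₗ[B] LinearMap.ker (X.d (t + 1)) := u.codRestrict _ fun x => LinearMap.mem_ker.2 (hu x)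
    have h1 : Subsingleton (Ext (ModuleCat.of B H) (ModuleCat.of B (LinearMap.ker (X.d t))) 1) := by
      apply e1_all X (ModuleCat.of B H) t 0
      have e : 0 + 1 + t = t + 1 := by omega
      rw [e]
      exact h
    obtain ⟨g, hg⟩ := e1_lift X H t h1 f
    refine ⟨g, fun x => ?_⟩
    rw [← e1_q_apply, hg]
    rfl

end Pool.Agent.Lib.H44X
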