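import Pool.Agent.Lib.H44X.EDef
import Pool.Agent.Lib.H44V.Defs

/-!
E2 (M). `Ext^t(H, B) = 0` if `H` is killed by a regular sequence of length `m > t`.

Claim: `Ext^i(H, B/Jx β j) = 0` if `i + j < m`. Induction on `i` for all `j`.
`i = 0`: a map `u : H → B/Jx β j` satisfies `β_j u(h) = u(β_j h) = 0`, and `β_j` is regular on
`B/Jx β j` (`j < m`), so `u = 0`; `Ext^0` is `Hom` (`Ext.homEquiv₀` or `Ext.mk₀` surjective).
`i + 1`: the sequence `0 → B/Jx β j → B/Jx β j → B/Jx β (j+1) → 0` (multiplication by `β_j`;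
`Helper92.sesT_exact (Jx β j) (β j)`, see Helper92/ExtGen.lean and its use in `van_quot`,
Helper92/Normal.lean) gives `Ext^i(H, B/Jx β (j+1)) → Ext^(i+1)(H, B/Jx β j) → Ext^(i+1)(H, B/Jx β j)`
exact; the second map is multiplication by `β_j`, which is zero on `Ext(H, _)` because it is also
induced by multiplication by `β_j` on `H` (`Ext.mk₀_smul`, `Ext.comp_smul`, `Ext.smul_comp`,
`Ext.mk₀_id_comp`: `β_j • v = (β_j • 𝟙 H) ≫ v = 0`). The first group is zero by induction.
`j = 0`: `Jx β 0 = ⊥` and `B/⊥ ≅ B`; see `van_quot` for the isomorphism.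
-/

set_option autoImplicit false
open CategoryTheory CategoryTheory.Abelian
open Pool.Agent.Lib.Helper92 Pool.Agent.Lib.H44V

namespace Pool.Agent.Lib.H44X
universe u

/-- the claim: `Ext^i(H, B/Jx β j) = 0` if `i + j < m`. -/
lemma e2_van {B : Type u} [CommRing B] (β : ℕ → B) (m : ℕ)
    (hreg : ∀ j < m, IsSMulRegular (B ⧸ Jx β j) (β j)) (H : Type u) [AddCommGroup H] [Module B H]
    (hkill : ∀ j < m, ∀ h : H, β j • h = 0) (i : ℕ) (j : ℕ) (hij : i + j < m) :
    Subsingleton (Ext (ModuleCat.of B H) (Qt (Jx β j)) i) := by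
  induction i generalizing j with
  | zero =>
    have hj : j < m := by omega
    refine ⟨fun a b => ?_⟩
    obtain ⟨f, rfl⟩ := (Ext.mk₀_bijective _ _).2 a
    obtain ⟨g, rfl⟩ := (Ext.mk₀_bijective _ _).2 b
    have key : ∀ f : ModuleCat.of B H ⟶ Qt (Jx β j), f = 0 := by
      intro f
      ext h
      have h1 : β j • f.hom h = β j • (0 : B ⧸ Jx β j) := by
        rw [smul_zero]
        have h2 : β j • f.hom h = f.hom (β j • h) := (map_smul f.hom (β j) h).symm
        rw [h2, hkill j hj h, map_zero]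
      exact hreg j hj h1
    rw [key f, key g]
  | succ i ih =>
    have hj : j < m := by omega
    refine ⟨fun a b => ?_⟩
    rw [← sub_eq_zero]
    set v : Ext (ModuleCat.of B H) (Qt (Jx β j)) (i + 1) := a - b with hv
    have hT := sesT_exact (Jx β j) (β j) (hreg j hj)
    have hf : (sesT (Jx β j) (β j)).f = β j • 𝟙 (Qt (Jx β j)) := by
      ext
      rfl
    have hH : β j • 𝟙 (ModuleCat.of B H) = 0 := by
      ext h
      exact hkill j hj h
    have h1 : v.comp (Ext.mk₀ (sesT (Jx β j) (β j)).f) (add_zero (i + 1)) = 0 := by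
      rw [hf, Ext.mk₀_smul, Ext.comp_smul]
      have h2 : v.comp (Ext.mk₀ (𝟙 (Qt (Jx β j)))) (add_zero (i + 1)) = v := Ext.comp_mk₀_id v
      have h3 : β j • v = 0 := by
        rw [← Ext.mk₀_id_comp v, ← Ext.smul_comp, ← Ext.mk₀_smul, hH, Ext.mk₀_zero, Ext.zero_comp]
      exact (congrArg (β j • ·) h2).trans h3
    obtain ⟨w, hw⟩ := Ext.covariant_sequence_exact₁ (ModuleCat.of B H) hT v h1 rfl
    have h0 : Subsingleton (Ext (ModuleCat.of B H) (sesT (Jx β j) (β j)).X₃ i) :=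
      ih (j + 1) (by omega)
    rw [← hw, @Subsingleton.elim _ h0 w 0, Ext.zero_comp]

theorem e2_ext {B : Type u} [CommRing B] (β : ℕ → B) (m : ℕ)
    (hreg : ∀ j < m, IsSMulRegular (B ⧸ Jx β j) (β j)) (H : Type u) [AddCommGroup H] [Module B H]
    (hkill : ∀ j < m, ∀ h : H, β j • h = 0) (t : ℕ) (ht : t < m) :
    Subsingleton (Ext (ModuleCat.of B H) (ModuleCat.of B B) t) := by
  have h0 := e2_van β m hreg H hkill t 0 (by omega)
  change Subsingleton (Ext (ModuleCat.of B H) (Qt (⊥ : Ideal B)) t) at h0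
  refine ⟨fun a b => ?_⟩
  rw [← sub_eq_zero]
  have e : Qt (⊥ : Ideal B) ≅ ModuleCat.of B B :=
    (Submodule.quotEquivOfEqBot (⊥ : Ideal B) rfl).toModuleIso
  have h1 : (a - b).comp (Ext.mk₀ e.inv) (add_zero t) = 0 :=
    @Subsingleton.elim _ h0 _ _
  calc a - b = (a - b).comp (Ext.mk₀ (𝟙 (ModuleCat.of B B))) (add_zero t) :=
        (Ext.comp_mk₀_id (a - b)).symm
    _ = (a - b).comp (Ext.mk₀ (e.inv ≫ e.hom)) (add_zero t) := by rw [e.inv_hom_id]
    _ = ((a - b).comp (Ext.mk₀ e.inv) (add_zero t)).comp (Ext.mk₀ e.hom) (add_zero t) := by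
        rw [Ext.comp_assoc_of_third_deg_zero, Ext.mk₀_comp_mk₀]
    _ = 0 := by rw [h1, Ext.zero_comp]

end Pool.Agent.Lib.H44X
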