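import Pool.Agent.Lib.H44X.EDef

/-!
E3 (M). One step of the chase with injective modules.

`f : V → V'`, `g : V' → V''`, `g f = 0`, `HH f g = ker g / im f`.
(1) Extend `lam` along `f`: `V/ker f ↪ V'` (`LinearMap.quotKerEquivRange`, or
`(LinearMap.ker f).liftQ f`), `lam` factors through `V/ker f`, and `X.E t` is injective
(`(X.inj t).out`): `y₀ : V' → X.E t` with `y₀ (f x) = lam x`.
(2) `u = (Gm - d_t ∘ y₀)` restricted to `ker g`: zero on `im f` (hG1), closed (hG2 and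
`d_(t+1) ∘ d_t = 0`, from `X.ex t`); so it induces `ū : HH f g → X.E (t+1)` (`Submodule.liftQ`) with
`d ū = 0`, and `EVan` gives `v̄ : HH f g → X.E t` with `d_t v̄ = ū`.
(3) `HH f g → V'/im f` is injective (`Submodule.mapQ` of the inclusion of `ker g`), so `v̄` extends to
`V'/im f → X.E t`; composed with `V' → V'/im f` this is `v'`. Put `y = y₀ + v'`.
-/

set_option autoImplicit false

namespace Pool.Agent.Lib.H44X
universe u

theorem e3_ext {B : Type u} [CommRing B] {E : Type u} [AddCommGroup E] [Module B E]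
    (hE : Module.Injective B E) {V V' : Type u} [AddCommGroup V] [Module B V] [AddCommGroup V']
    [Module B V'] (f : V →ₗ[B] V') (lam : V →ₗ[B] E) (hlam : ∀ x, f x = 0 → lam x = 0) :
    ∃ y : V' →ₗ[B] E, ∀ x, y (f x) = lam x := by
  have hle : LinearMap.ker f ≤ LinearMap.ker lam := fun x hx => hlam x hx
  have hinj : Function.Injective ((LinearMap.ker f).liftQ f le_rfl) := by
    rw [← LinearMap.ker_eq_bot]
    exact Submodule.ker_liftQ_eq_bot _ _ _ le_rfl
  obtain ⟨y, hy⟩ := hE.out ((LinearMap.ker f).liftQ f le_rfl) hinj ((LinearMap.ker f).liftQ lam hle)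
  refine ⟨y, fun x => ?_⟩
  have h1 := hy (Submodule.Quotient.mk x)
  rw [Submodule.liftQ_apply, Submodule.liftQ_apply] at h1
  exact h1

theorem e3_step {B : Type u} [CommRing B] (X : IRes B) {V V' V'' : Type u} [AddCommGroup V]
    [Module B V] [AddCommGroup V'] [Module B V'] [AddCommGroup V''] [Module B V'']
    (f : V →ₗ[B] V') (g : V' →ₗ[B] V'') (hgf : ∀ x, g (f x) = 0) (t : ℕ)
    (hE : EVan X (HH f g) (t + 1)) (lam : V →ₗ[B] X.E t) (hlam : ∀ x, f x = 0 → lam x = 0)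
    (Gm : V' →ₗ[B] X.E (t + 1)) (hG1 : ∀ x, Gm (f x) = X.d t (lam x))
    (hG2 : ∀ x, g x = 0 → X.d (t + 1) (Gm x) = 0) :
    ∃ y : V' →ₗ[B] X.E t, (∀ x, y (f x) = lam x) ∧ ∀ x, g x = 0 → X.d t (y x) = Gm x := by
  obtain ⟨y₀, hy₀⟩ := e3_ext (X.inj t) f lam hlam
  have hdd : ∀ z, X.d (t + 1) (X.d t z) = 0 := fun z => (X.ex t _).2 ⟨z, rfl⟩
  obtain ⟨u, hu⟩ : ∃ u : LinearMap.ker g →ₗ[B] X.E (t + 1), ∀ z, u z = Gm z.1 - X.d t (y₀ z.1) :=
    ⟨(Gm - X.d t ∘ₗ y₀) ∘ₗ (LinearMap.ker g).subtype, fun z => rfl⟩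
  have hker : (LinearMap.range f).comap (LinearMap.ker g).subtype ≤ LinearMap.ker u := by
    rintro z ⟨x, hx⟩
    have hx' : f x = z.1 := hx
    rw [LinearMap.mem_ker, hu, ← hx', hG1, hy₀, sub_self]
  obtain ⟨v, hv⟩ := hE (((LinearMap.range f).comap (LinearMap.ker g).subtype).liftQ u hker) (by
    intro h
    obtain ⟨z, rfl⟩ := Submodule.Quotient.mk_surjective _ h
    have hz : g z.1 = 0 := z.2
    rw [Submodule.liftQ_apply, hu, map_sub, hG2 z.1 hz, hdd, sub_zero])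
  obtain ⟨j, hj⟩ : ∃ j : HH f g →ₗ[B] V' ⧸ LinearMap.range f, ∀ z : LinearMap.ker g,
      j (Submodule.Quotient.mk z) = Submodule.Quotient.mk z.1 :=
    ⟨Submodule.mapQ _ _ (LinearMap.ker g).subtype le_rfl, fun z => rfl⟩
  obtain ⟨w, hw⟩ := e3_ext (X.inj t) j v (by
    intro h hh
    obtain ⟨z, rfl⟩ := Submodule.Quotient.mk_surjective _ h
    rw [hj, Submodule.Quotient.mk_eq_zero] at hh
    have h2 : (Submodule.Quotient.mk z : HH f g) = 0 := by
      rw [Submodule.Quotient.mk_eq_zero]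
      exact hh
    rw [h2, map_zero])
  refine ⟨y₀ + w ∘ₗ (LinearMap.range f).mkQ, fun x => ?_, fun x hx => ?_⟩
  · have h3 : (LinearMap.range f).mkQ (f x) = 0 := by
      rw [Submodule.mkQ_apply, Submodule.Quotient.mk_eq_zero]
      exact ⟨x, rfl⟩
    rw [LinearMap.add_apply, LinearMap.comp_apply, h3, map_zero, add_zero, hy₀]
  · have h4 := hv (Submodule.Quotient.mk ⟨x, hx⟩)
    rw [Submodule.liftQ_apply, hu, ← hw, hj] at h4
    rw [LinearMap.add_apply, LinearMap.comp_apply, Submodule.mkQ_apply, map_add, h4]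
    abel

end Pool.Agent.Lib.H44X
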