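import Pool.Agent.Lib.H44X.E3

/-!
E4 (M). The two towers.

`V_0 → V_1 → V_2 → …` a complex of `B`-modules.
* e4_y: Let `P_i(y)`, for `y : V_(i+1) → E_i`, be: `d_i (y x) = 0` for all `x` with `δ_(i+1) x = 0`.
  Base: e3_step with `f = δ_0`, `g = δ_1`, `t = 0`, `lam = aug ∘ lam`, `Gm = 0`
  (`d_0 (aug b) = 0` by `X.ex0`). Step: given `y_i` with `P_i`, e3_step with `f = δ_(i+1)`,
  `g = δ_(i+2)`, `t = i + 1`, `lam = d_i ∘ y_i` (zero on `ker δ_(i+1)` by `P_i`), `Gm = 0`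
  (`d_(i+1) d_i = 0`). Build the sequence in the subtypes `{y // P_i y}` by `Nat.rec` (or
  `exists_seq`-type argument with `Classical.choose`; the relation to the previous term is kept
  because the next term is a function of the previous one).
* e4_z: `lam_0 = gm_0` vanishes on `ker δ_1`: restricted to `ker δ_1` it vanishes on `im δ_0`
  and is closed (`d_0 (gm_0 x) = gm_1 (δ_1 x) = 0`), so it is zero by `EVan X (HH δ_0 δ_1) 0`.
  e3_step with `f = δ_1`, `g = δ_2`, `t = 0`, `lam = gm_0`, `Gm = gm_1` gives `z_0` with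
  `z_0 δ_1 = gm_0` and `d_0 z_0 = gm_1` on `ker δ_2`. Step: given `z_i : V_(i+2) → E_i` with
  `d_i z_i = gm_(i+1)` on `ker δ_(i+2)`: e3_step with `f = δ_(i+2)`, `g = δ_(i+3)`, `t = i + 1`,
  `lam = gm_(i+1) - d_i z_i`, `Gm = gm_(i+2)`.
-/

set_option autoImplicit false

namespace Pool.Agent.Lib.H44X
universe u

theorem e4_y {B : Type u} [CommRing B] (X : IRes B) (V : ℕ → Type u) [∀ i, AddCommGroup (V i)]
    [∀ i, Module B (V i)] (δ : ∀ i, V i →ₗ[B] V (i + 1)) (hδ : ∀ i x, δ (i + 1) (δ i x) = 0)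
    (hE : ∀ i, EVan X (HH (δ i) (δ (i + 1))) (i + 1)) (lam : V 0 →ₗ[B] B)
    (hlam : ∀ x, δ 0 x = 0 → lam x = 0) :
    ∃ y : ∀ i, V (i + 1) →ₗ[B] X.E i, (∀ x, y 0 (δ 0 x) = X.aug (lam x)) ∧
      ∀ i x, y (i + 1) (δ (i + 1) x) = X.d i (y i x) := by
  classical
  have base : ∃ y : V (0 + 1) →ₗ[B] X.E 0, (∀ x, y (δ 0 x) = X.aug (lam x)) ∧
      ∀ x, δ (0 + 1) x = 0 → X.d 0 (y x) = 0 := by
    obtain ⟨y, h1, h2⟩ := e3_step X (δ 0) (δ (0 + 1)) (hδ 0) 0 (hE 0) (X.aug ∘ₗ lam)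
      (by intro x hx; rw [LinearMap.comp_apply, hlam x hx, map_zero]) 0
      (by
        intro x
        rw [LinearMap.zero_apply, LinearMap.comp_apply]
        exact ((X.ex0 _).2 ⟨_, rfl⟩).symm)
      (by intro x _; rw [LinearMap.zero_apply, map_zero])
    exact ⟨y, h1, fun x hx => by rw [h2 x hx, LinearMap.zero_apply]⟩
  have step : ∀ (i : ℕ) (y : V (i + 1) →ₗ[B] X.E i),
      (∀ x, δ (i + 1) x = 0 → X.d i (y x) = 0) →
      ∃ y' : V (i + 1 + 1) →ₗ[B] X.E (i + 1), (∀ x, y' (δ (i + 1) x) = X.d i (y x)) ∧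
        ∀ x, δ (i + 1 + 1) x = 0 → X.d (i + 1) (y' x) = 0 := by
    intro i y hy
    obtain ⟨y', h1, h2⟩ := e3_step X (δ (i + 1)) (δ (i + 1 + 1)) (hδ (i + 1)) (i + 1)
      (hE (i + 1)) (X.d i ∘ₗ y)
      (by intro x hx; rw [LinearMap.comp_apply]; exact hy x hx) 0
      (by
        intro x
        rw [LinearMap.zero_apply, LinearMap.comp_apply]
        exact ((X.ex i _).2 ⟨_, rfl⟩).symm)
      (by intro x _; rw [LinearMap.zero_apply, map_zero])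
    exact ⟨y', fun x => by rw [h1, LinearMap.comp_apply],
      fun x hx => by rw [h2 x hx, LinearMap.zero_apply]⟩
  obtain ⟨y0, h0, h0'⟩ := base
  choose F hF hF' using step
  let S : ∀ i : ℕ, {y : V (i + 1) →ₗ[B] X.E i // ∀ x, δ (i + 1) x = 0 → X.d i (y x) = 0} :=
    fun i => Nat.rec ⟨y0, h0'⟩ (fun i s => ⟨F i s.1 s.2, hF' i s.1 s.2⟩) i
  exact ⟨fun i => (S i).1, h0, fun i x => hF i (S i).1 (S i).2 x⟩

theorem e4_z {B : Type u} [CommRing B] (X : IRes B) (V : ℕ → Type u) [∀ i, AddCommGroup (V i)]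
    [∀ i, Module B (V i)] (δ : ∀ i, V i →ₗ[B] V (i + 1)) (hδ : ∀ i x, δ (i + 1) (δ i x) = 0)
    (hE : ∀ i, EVan X (HH (δ i) (δ (i + 1))) i) (gm : ∀ i, V (i + 1) →ₗ[B] X.E i)
    (h0 : ∀ x, gm 0 (δ 0 x) = 0) (h1 : ∀ i x, gm (i + 1) (δ (i + 1) x) = X.d i (gm i x)) :
    ∃ z : ∀ i, V (i + 2) →ₗ[B] X.E i, (∀ x, z 0 (δ 1 x) = gm 0 x) ∧
      ∀ i x, z (i + 1) (δ (i + 2) x) = gm (i + 1) x - X.d i (z i x) := by
  classical
  have hz : ∀ x, δ 1 x = 0 → gm 0 x = 0 := by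
    intro x hx
    let u : HH (δ 0) (δ 1) →ₗ[B] X.E 0 :=
      Submodule.liftQ _ ((gm 0) ∘ₗ (LinearMap.ker (δ 1)).subtype) (by
        rintro ⟨v, hv⟩ hv'
        obtain ⟨w, hw⟩ := hv'
        rw [LinearMap.mem_ker, LinearMap.comp_apply]
        have hw' : δ 0 w = v := hw
        show gm 0 v = 0
        rw [← hw']
        exact h0 w)
    have hu : ∀ h, X.d 0 (u h) = 0 := by
      intro h
      obtain ⟨⟨v, hv⟩, rfl⟩ := Submodule.mkQ_surjective _ h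
      show X.d 0 (gm 0 v) = 0
      rw [← h1 0 v]
      have hv' : δ 1 v = 0 := hv
      show gm 1 (δ 1 v) = 0
      rw [hv', map_zero]
    exact hE 0 u hu (Submodule.Quotient.mk ⟨x, hx⟩)
  have base : ∃ z : V (0 + 2) →ₗ[B] X.E 0, (∀ x, z (δ 1 x) = gm 0 x) ∧
      ∀ x, δ (0 + 2) x = 0 → X.d 0 (z x) = gm (0 + 1) x := by
    obtain ⟨z, k1, k2⟩ := e3_step X (δ 1) (δ 2) (hδ 1) 0 (hE 1) (gm 0) hz (gm 1)
      (fun x => h1 0 x)
      (by
        intro x hx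
        have h := h1 1 x
        rw [← h]
        show gm 2 (δ 2 x) = 0
        rw [hx, map_zero])
    exact ⟨z, k1, k2⟩
  have step : ∀ (i : ℕ) (z : V (i + 2) →ₗ[B] X.E i),
      (∀ x, δ (i + 2) x = 0 → X.d i (z x) = gm (i + 1) x) →
      ∃ z' : V (i + 1 + 2) →ₗ[B] X.E (i + 1),
        (∀ x, z' (δ (i + 2) x) = gm (i + 1) x - X.d i (z x)) ∧
        ∀ x, δ (i + 1 + 2) x = 0 → X.d (i + 1) (z' x) = gm (i + 1 + 1) x := by
    intro i z hzz
    obtain ⟨z', k1, k2⟩ := e3_step X (δ (i + 2)) (δ (i + 2 + 1)) (hδ (i + 2)) (i + 1)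
      (hE (i + 2)) (gm (i + 1) - X.d i ∘ₗ z)
      (by
        intro x hx
        rw [LinearMap.sub_apply, LinearMap.comp_apply, hzz x hx, sub_self])
      (gm (i + 2))
      (by
        intro x
        rw [LinearMap.sub_apply, LinearMap.comp_apply, map_sub,
          (X.ex i (X.d i (z x))).2 ⟨_, rfl⟩, sub_zero]
        exact h1 (i + 1) x)
      (by
        intro x hx
        have h := h1 (i + 2) x
        rw [← h]
        show gm (i + 3) (δ (i + 2 + 1) x) = 0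
        rw [hx, map_zero])
    exact ⟨z', fun x => by rw [k1, LinearMap.sub_apply, LinearMap.comp_apply], k2⟩
  obtain ⟨z0, k0, k0'⟩ := base
  choose F hF hF' using step
  let S : ∀ i : ℕ, {z : V (i + 2) →ₗ[B] X.E i //
      ∀ x, δ (i + 2) x = 0 → X.d i (z x) = gm (i + 1) x} :=
    fun i => Nat.rec ⟨z0, k0'⟩ (fun i s => ⟨F i s.1 s.2, hF' i s.1 s.2⟩) i
  exact ⟨fun i => (S i).1, k0, fun i x => hF i (S i).1 (S i).2 x⟩

end Pool.Agent.Lib.H44X
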