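import Pool.Agent.Lib.H44X.EDef

/-!
E5 (M). Descending lifting on a projective module.

There are `N_i : W → E_i` with `d_i N_i = μ_(i+1) + N_(i+1) ι` for all `i`: for `i ≥ s` take
`N_i = 0` (`μ_(i+1) = 0`). If `N_i` is known for the index `i ≥ 1` (with its relation), then
`d_i (μ_i + N_i ι) = - μ_(i+1) ι + (μ_(i+1) + N_(i+1) ι) ι = 0` (`ι ι = 0`), so
`μ_i + N_i ι` has values in the image of `d_(i-1)` (`X.ex`) and, `W` being projective
(`Module.projective_lifting_property` for `W → LinearMap.range (d_(i-1))`), equals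
`d_(i-1) N_(i-1)`. State the induction as: for all `j ≤ s` there are `N N' : W → E_(s-j), E_(s-j+1)`
…, or better: claim(i) := `∃ (N : W → E_i) (N' : W → E_(i+1)), d_i N = μ_(i+1) + N' ι`, prove
claim(s) and claim(i+1) → claim(i) (if `d_(i+1) N = μ_(i+2) + N' ι` then
`d_(i+1) (μ_(i+1) + N ι) = 0`, so `μ_(i+1) + N ι = d_i M`: claim(i) holds with `(M, N)`).
From claim(0): `d_0 N = μ_1 + N' ι`, so `d_0 (μ_0 + N ι) = 0`, `μ_0 + N ι = aug ∘ m`
(`X.ex0`, aug injective: `LinearEquiv.ofInjective` and `LinearMap.codRestrict`), and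
`aug (m (ι η)) = μ_0 (ι η) + N (ι (ι η)) = μ_0 (ι η)`.
-/

set_option autoImplicit false

namespace Pool.Agent.Lib.H44X
universe u

theorem e5_proj {B : Type u} [CommRing B] {W M M' : Type u} [AddCommGroup W] [Module B W]
    [Module.Projective B W] [AddCommGroup M] [Module B M] [AddCommGroup M'] [Module B M']
    (g : M →ₗ[B] M') (f : W →ₗ[B] M') (h : ∀ x, ∃ y, g y = f x) :
    ∃ l : W →ₗ[B] M, ∀ x, g (l x) = f x := by
  obtain ⟨l, hl⟩ := Module.projective_lifting_property g.rangeRestrict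
    (f.codRestrict (LinearMap.range g) (fun x => h x)) g.surjective_rangeRestrict
  refine ⟨l, fun x => ?_⟩
  have h1 := congrArg Subtype.val (LinearMap.congr_fun hl x)
  exact h1

theorem e5_lift {B : Type u} [CommRing B] (X : IRes B) {W : Type u} [AddCommGroup W] [Module B W]
    [Module.Projective B W] (ι : W →ₗ[B] W) (hι : ∀ x, ι (ι x) = 0) (μ : ∀ i, W →ₗ[B] X.E i)
    (hμ : ∀ i x, X.d i (μ i x) = -μ (i + 1) (ι x)) (s : ℕ) (hs : ∀ i, s ≤ i → μ i = 0) :
    ∃ m : W →ₗ[B] B, ∀ x, X.aug (m (ι x)) = μ 0 (ι x) := by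
  have hstep : ∀ i (N : W →ₗ[B] X.E i) (N' : W →ₗ[B] X.E (i + 1)),
      (∀ x, X.d i (N x) = μ (i + 1) x + N' (ι x)) → ∀ x, X.d i ((μ i + N.comp ι) x) = 0 := by
    intro i N N' h x
    rw [LinearMap.add_apply, map_add, hμ, LinearMap.comp_apply, h, hι, map_zero, add_zero,
      neg_add_cancel]
  have hclaim : ∀ j i, i + j = s → ∃ (N : W →ₗ[B] X.E i) (N' : W →ₗ[B] X.E (i + 1)),
      ∀ x, X.d i (N x) = μ (i + 1) x + N' (ι x) := by
    intro j
    induction j with
    | zero =>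
      intro i hi
      refine ⟨0, 0, fun x => ?_⟩
      rw [hs (i + 1) (by omega)]
      simp
    | succ j ih =>
      intro i hi
      obtain ⟨N, N', h⟩ := ih (i + 1) (by omega)
      have h1 := hstep (i + 1) N N' h
      obtain ⟨l, hl⟩ := e5_proj (X.d i) (μ (i + 1) + N.comp ι) (fun x => (X.ex i _).1 (h1 x))
      exact ⟨l, N, hl⟩
  obtain ⟨N, N', h⟩ := hclaim s 0 (by omega)
  have h1 := hstep 0 N N' h
  obtain ⟨m, hm⟩ := e5_proj X.aug (μ 0 + N.comp ι) (fun x => (X.ex0 _).1 (h1 x))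
  refine ⟨m, fun x => ?_⟩
  rw [hm, LinearMap.add_apply, LinearMap.comp_apply, hι, map_zero, add_zero]

end Pool.Agent.Lib.H44X
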