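import Pool.Agent.Lib.H44X.EDef

/-!
E6 (S/M). The cohomology of `Hom(F, T)` is killed by the ideals `HJ`.

* e6_dd: `dm_i dm_(i+1) = 0`: column by column, `dm_i (dm_(i+1) w) = 0` by `G.ex i` (if
  `v = dm_(i+1) w` then `dm_i v = 0`), take `w = Pi.single c 1`. So `dl (dm_(i+1)) (dl (dm_i) z) = 0`:
  it is `dl (dm_i dm_(i+1)) z` (double sum, `mul_smul`, `Finset.sum_comm`).
* e6_kill: let `dm_(i+1) h + h' dm_i = a • 1` and `z : Fin (b (i+1)) → T` with
  `dl (dm_(i+1)) z = 0`. Then `a • z = dl (a • 1) z = dl (h) (dl (dm_(i+1)) z) + dl (dm_i) (dl h' z)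
  = dl (dm_i) (dl h' z)`, where `dl (A * B) z = dl B (dl A z)` (e6_mul) and
  `dl (A + B) z = dl A z + dl B z`. And `β • z = a • z` componentwise.
-/

set_option autoImplicit false
open IsLocalRing

namespace Pool.Agent.Lib.H44X
universe u

theorem e6_mul {R T : Type u} (B : Type u) [CommRing R] [CommRing B] [AddCommGroup T]
    [Module R T] [Module B T] [SMulCommClass R B T] {p q r : ℕ} (A : Matrix (Fin p) (Fin q) R)
    (A' : Matrix (Fin q) (Fin r) R) (z : Fin p → T) : dl B (A * A') z = dl B A' (dl B A z) := by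
  funext c
  simp only [dl_apply, Matrix.mul_apply, Finset.sum_smul, Finset.smul_sum, smul_smul]
  rw [Finset.sum_comm]
  refine Finset.sum_congr rfl fun b _ => Finset.sum_congr rfl fun a _ => ?_
  rw [mul_comm]

theorem e6_zero {R N : Type u} [CommRing R] [IsLocalRing R] [AddCommGroup N] [Module R N] (G : MRes R N) (i : ℕ) :
    G.dm i * G.dm (i + 1) = 0 := by
  ext a c
  have h1 : (G.dm i).mulVec ((G.dm (i + 1)).mulVec (Pi.single c 1)) = 0 := (G.ex i _).2 ⟨_, rfl⟩
  rw [Matrix.mulVec_mulVec, Matrix.mulVec_single_one] at h1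
  exact congrFun h1 a

theorem e6_dd {R N T : Type u} (B : Type u) [CommRing R] [IsLocalRing R] [AddCommGroup N]
    [Module R N] [CommRing B] [AddCommGroup T] [Module R T] [Module B T] [SMulCommClass R B T]
    (G : MRes R N) (i : ℕ) (z : Fin (G.b i) → T) :
    dl B (G.dm (i + 1)) (dl B (G.dm i) z) = 0 := by
  rw [← e6_mul, e6_zero]
  funext c
  simp only [dl_apply, Matrix.zero_apply, zero_smul, Finset.sum_const_zero, Pi.zero_apply]

theorem e6_kill {R N T : Type u} (B : Type u) [CommRing R] [IsLocalRing R] [AddCommGroup N]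
    [Module R N] [CommRing B] [AddCommGroup T] [Module R T] [Module B T] [SMulCommClass R B T]
    (G : MRes R N) (i : ℕ) (a : R) (ha : a ∈ HJ G i) (β : B) (hβ : ∀ x : T, β • x = a • x)
    (z : Fin (G.b (i + 1)) → T) (hz : dl B (G.dm (i + 1)) z = 0) :
    ∃ w : Fin (G.b i) → T, dl B (G.dm i) w = β • z := by
  obtain ⟨h, h', e⟩ := ha
  refine ⟨dl B h' z, ?_⟩
  rw [← e6_mul]
  have h1 : dl B (G.dm (i + 1) * h) z = 0 := by
    rw [e6_mul, hz, map_zero]
  have h2 : dl B (G.dm (i + 1) * h) z + dl B (h' * G.dm i) z =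
      dl B (a • (1 : Matrix (Fin (G.b (i + 1))) (Fin (G.b (i + 1))) R)) z := by
    rw [← e]
    funext c
    simp only [dl_apply, Pi.add_apply, Matrix.add_apply, add_smul, Finset.sum_add_distrib]
  rw [h1, zero_add] at h2
  rw [h2]
  funext c
  simp only [dl_apply, Matrix.smul_apply, Matrix.one_apply, smul_eq_mul, mul_ite, mul_one, mul_zero, ite_smul, zero_smul,
    Pi.smul_apply]
  rw [Finset.sum_ite_eq', if_pos (Finset.mem_univ c), hβ]

end Pool.Agent.Lib.H44X
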