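import Pool.Agent.Lib.H44X.E0
import Pool.Agent.Lib.H44X.E1
import Pool.Agent.Lib.H44X.E2
import Pool.Agent.Lib.H44X.E4
import Pool.Agent.Lib.H44X.E5
import Pool.Agent.Lib.H44X.E6

/-!
E7 (M). The main algebraic statement.

`V_i(T) = (Fin (b i) → T)` with `δ_i = dl B (dm i)`, same for `U`; `κ : T → U` commutes with `R`, so
`κ ∘ (dl A z) = dl A (κ ∘ z)` (map_sum). Let `X` be an injective resolution (e0_exists).
1. `HH δ_i δ_(i+1)` is killed by `β_0, …, β_(i+1)` of `hann i` (e6_kill, for `T` and for `U`), so e2_ext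
   (`m = i + 2`) and e1_van give `EVan X _ i` and `EVan X _ (i+1)`.
2. e4_y for `U`, `lam = Λ0`: `y_i`. Put `gm_0 = aug ∘ Λ1 - y_0 ∘ κ`, `gm_(i+1) = - y_(i+1) ∘ κ`
   (`κ` on tuples: `LinearMap.compLeft κ (Fin _)`). Then `gm_0 (δ_0 x) = aug (Λ0 (κ x)) -
   y_0 (δ_0 (κ x)) = 0`, `gm_1 (δ_1 x) = - y_1 (δ_1 κ x) = - d_0 y_0 (κ x) = d_0 (gm_0 x)`
   (`d_0 aug = 0`), `gm_(i+2) (δ_(i+2) x) = d_(i+1) (gm_(i+1) x)`. e4_z for `T`: `z_i`.
3. `μ_i = y_i ∘ Um_i + z_i ∘ Xm_(i+1)`. Then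
   `d_i μ_i = y_(i+1) (δ_(i+1) Um_i) + d_i z_i Xm_(i+1)
   = y_(i+1) κ Xm_(i+1) - y_(i+1) Um_(i+1) ι + (gm_(i+1) Xm_(i+1) - z_(i+1) δ_(i+2) Xm_(i+1))
   = - y_(i+1) Um_(i+1) ι - z_(i+1) Xm_(i+2) ι = - μ_(i+1) ι`.
   `μ_0 ι = y_0 κ Xm_0 + z_0 Xm_1 ι = y_0 κ Xm_0 + z_0 δ_1 Xm_0 = aug Λ1 Xm_0`.
   `μ_i = 0` for `i ≥ s`: `b (i+1) = 0`, `b (i+2) = 0`, so the tuples are all equal to `0`.
4. e5_lift; `aug` is injective.
-/

set_option autoImplicit false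
open IsLocalRing
open Pool.Agent.Lib.Helper92 Pool.Agent.Lib.H44V

namespace Pool.Agent.Lib.H44X
universe u

theorem e7_van {B R N T : Type u} [CommRing B] [CommRing R] [IsLocalRing R]
    [AddCommGroup N] [Module R N] [AddCommGroup T] [Module R T] [Module B T]
    [SMulCommClass R B T] (G : MRes R N) (X : IRes B) (i : ℕ) (β : ℕ → B)
    (hreg : ∀ j < i + 2, IsSMulRegular (B ⧸ Jx β j) (β j))
    (hk : ∀ j < i + 2, ∃ a ∈ HJ G i, ∀ x : T, β j • x = a • x) (t : ℕ) (ht : t < i + 2) :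
    EVan X (HH (dl (T := T) B (G.dm i)) (dl (T := T) B (G.dm (i + 1)))) t := by
  refine e1_van X _ t (e2_ext β (i + 2) hreg _ ?_ t ht)
  intro j hj h
  obtain ⟨⟨z, hz⟩, rfl⟩ := Submodule.Quotient.mk_surjective _ h
  obtain ⟨a, ha, hax⟩ := hk j hj
  obtain ⟨w, hw⟩ := e6_kill B G i a ha (β j) hax z (LinearMap.mem_ker.1 hz)
  rw [← Submodule.Quotient.mk_smul, Submodule.Quotient.mk_eq_zero, Submodule.mem_comap]
  exact ⟨w, hw⟩

theorem e7_main {B R N T U W : Type u} [CommRing B] [CommRing R] [IsLocalRing R]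
    [AddCommGroup N] [Module R N] [AddCommGroup T] [Module R T] [Module B T]
    [SMulCommClass R B T] [AddCommGroup U] [Module R U] [Module B U] [SMulCommClass R B U]
    [AddCommGroup W] [Module B W] [Module.Projective B W] (G : MRes R N) (s : ℕ)
    (hb : ∀ j, s < j → G.b j = 0) (κ : T →ₗ[B] U) (hκ : ∀ (r : R) (x : T), κ (r • x) = r • κ x)
    (hann : ∀ i, ∃ β : ℕ → B, (∀ j < i + 2, IsSMulRegular (B ⧸ Jx β j) (β j)) ∧
      ∀ j < i + 2, ∃ a ∈ HJ G i, (∀ x : T, β j • x = a • x) ∧ ∀ x : U, β j • x = a • x)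
    (Λ1 : (Fin (G.b 1) → T) →ₗ[B] B) (Λ0 : (Fin (G.b 0) → U) →ₗ[B] B)
    (h01 : ∀ z : Fin (G.b 0) → T, Λ1 (dl B (G.dm 0) z) = Λ0 (fun a => κ (z a)))
    (h0 : ∀ z : Fin (G.b 0) → U, dl B (G.dm 0) z = 0 → Λ0 z = 0)
    (ι : W →ₗ[B] W) (hι : ∀ x, ι (ι x) = 0) (Um : ∀ i, W →ₗ[B] (Fin (G.b (i + 1)) → U))
    (Xm : ∀ i, W →ₗ[B] (Fin (G.b (i + 1)) → T))
    (hU : ∀ i η, dl B (G.dm (i + 1)) (Um i η) = (fun a => κ (Xm (i + 1) η a)) - Um (i + 1) (ι η))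
    (hX : ∀ i η, dl B (G.dm (i + 1)) (Xm i η) = Xm (i + 1) (ι η))
    (hU1 : ∀ η, Um 0 (ι η) = fun a => κ (Xm 0 η a)) :
    ∃ m : W →ₗ[B] B, ∀ η, m (ι η) = Λ1 (Xm 0 η) := by
  obtain ⟨X⟩ := e0_exists B
  have hvT : ∀ i t, t < i + 2 →
      EVan X (HH (dl (T := T) B (G.dm i)) (dl (T := T) B (G.dm (i + 1)))) t := by
    intro i t ht
    obtain ⟨β, hreg, hk⟩ := hann i
    refine e7_van G X i β hreg (fun j hj => ?_) t ht
    obtain ⟨a, ha, h1, -⟩ := hk j hj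
    exact ⟨a, ha, h1⟩
  have hvU : ∀ i t, t < i + 2 →
      EVan X (HH (dl (T := U) B (G.dm i)) (dl (T := U) B (G.dm (i + 1)))) t := by
    intro i t ht
    obtain ⟨β, hreg, hk⟩ := hann i
    refine e7_van G X i β hreg (fun j hj => ?_) t ht
    obtain ⟨a, ha, -, h1⟩ := hk j hj
    exact ⟨a, ha, h1⟩
  obtain ⟨y, hy0, hy⟩ := e4_y X (fun i => Fin (G.b i) → U) (fun i => dl (T := U) B (G.dm i))
    (fun i z => e6_dd B G i z) (fun i => hvU i (i + 1) (by omega)) Λ0 h0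
  have hKd : ∀ i (x : Fin (G.b i) → T), (κ.compLeft (Fin (G.b (i + 1)))) (dl B (G.dm i) x) =
      dl B (G.dm i) ((κ.compLeft (Fin (G.b i))) x) := by
    intro i x
    funext c
    simp only [LinearMap.compLeft_apply, Function.comp_apply, dl_apply, map_sum, hκ]
  let gm : ∀ i, (Fin (G.b (i + 1)) → T) →ₗ[B] X.E i := fun i =>
    match i with
    | 0 => X.aug.comp Λ1 - (y 0).comp (κ.compLeft (Fin (G.b 1)))
    | (i + 1) => -((y (i + 1)).comp (κ.compLeft (Fin (G.b (i + 2)))))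
  have hgm0 : ∀ x, gm 0 x = X.aug (Λ1 x) - y 0 ((κ.compLeft (Fin (G.b 1))) x) := fun x => rfl
  have hgmS : ∀ i x, gm (i + 1) x = -(y (i + 1) ((κ.compLeft (Fin (G.b (i + 2)))) x)) :=
    fun i x => rfl
  obtain ⟨z, hz0, hz⟩ := e4_z X (fun i => Fin (G.b i) → T) (fun i => dl (T := T) B (G.dm i))
    (fun i z => e6_dd B G i z) (fun i => hvT i i (by omega)) gm
    (by
      intro x
      have h1 := hy0 ((κ.compLeft (Fin (G.b 0))) x)
      have h2 := h01 x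
      rw [hgm0, hKd 0 x, h1, h2]
      exact sub_self _)
    (by
      intro i x
      rw [hgmS, hKd (i + 1) x]
      have h1 := hy i ((κ.compLeft (Fin (G.b (i + 1)))) x)
      rw [h1]
      cases i with
      | zero =>
        have h2 : X.d 0 (X.aug (Λ1 x)) = 0 := (X.ex0 _).2 ⟨_, rfl⟩
        rw [hgm0, map_sub, h2, zero_sub]
      | succ i => rw [hgmS, map_neg])
  let μ : ∀ i, W →ₗ[B] X.E i := fun i => (y i).comp (Um i) + (z i).comp (Xm (i + 1))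
  have hμa : ∀ i x, μ i x = y i (Um i x) + z i (Xm (i + 1) x) := fun i x => rfl
  obtain ⟨m, hm⟩ := e5_lift X ι hι μ
    (by
      intro i x
      have h1 := hy i (Um i x)
      have h2 := hU i x
      have h3 := hz i (Xm (i + 1) x)
      have h4 := hX (i + 1) x
      have h5 : (fun a => κ (Xm (i + 1) x a)) = (κ.compLeft (Fin (G.b (i + 2)))) (Xm (i + 1) x) :=
        rfl
      rw [h2, h5, map_sub] at h1
      rw [h4, hgmS] at h3
      rw [hμa, hμa, map_add, ← h1]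
      have h6 : X.d i (z i (Xm (i + 1) x)) =
          -(y (i + 1) ((κ.compLeft (Fin (G.b (i + 2)))) (Xm (i + 1) x))) -
            z (i + 1) (Xm (i + 1 + 1) (ι x)) := by
        rw [h3]
        abel
      rw [h6]
      abel) s
    (by
      intro i hi
      refine LinearMap.ext fun x => ?_
      have hb1 : G.b (i + 1) = 0 := hb (i + 1) (by omega)
      have hb2 : G.b (i + 1 + 1) = 0 := hb (i + 1 + 1) (by omega)
      have h1 : Um i x = 0 := funext fun a => (Fin.cast hb1 a).elim0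
      have h2 : Xm (i + 1) x = 0 := funext fun a => (Fin.cast hb2 a).elim0
      rw [hμa, h1, h2, map_zero, map_zero, add_zero]
      rfl)
  refine ⟨m, fun η => X.aug_inj ?_⟩
  have h1 := hz0 (Xm 0 η)
  have h2 := hX 0 η
  rw [h2] at h1
  have h5 : (fun a => κ (Xm 0 η a)) = (κ.compLeft (Fin (G.b 1))) (Xm 0 η) := rfl
  rw [hm, hμa, hU1, h5]
  have h6 : z 0 (Xm (0 + 1) (ι η)) = gm 0 (Xm 0 η) := h1
  rw [h6, hgm0]
  abel

end Pool.Agent.Lib.H44X
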