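import Pool.Agent.Lib.H44X.RDefs

/-!
Definitions for the modules E, Q, J: injective resolutions of `B`, vanishing of `Ext^t(H, B)`,
the transpose of a matrix acting on tuples, the ideals `HJ`.
-/

set_option autoImplicit false
open IsLocalRing

namespace Pool.Agent.Lib.H44X
universe u

/-- an injective resolution of the `B`-module `B`. -/
structure IRes (B : Type u) [CommRing B] where
  E : ℕ → Type u
  [acg : ∀ t, AddCommGroup (E t)]
  [mod : ∀ t, Module B (E t)]
  aug : B →ₗ[B] E 0
  d : ∀ t, E t →ₗ[B] E (t + 1)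
  aug_inj : Function.Injective aug
  ex0 : ∀ x, d 0 x = 0 ↔ ∃ b, aug b = x
  ex : ∀ t x, d (t + 1) x = 0 ↔ ∃ y, d t y = x
  inj : ∀ t, Module.Injective B (E t)

attribute [instance] IRes.acg IRes.mod

/-- `Ext^t(H, B) = 0`, in terms of the injective resolution `X`. -/
def EVan {B : Type u} [CommRing B] (X : IRes B) (H : Type u) [AddCommGroup H] [Module B H] :
    ℕ → Prop
  | 0 => ∀ u : H →ₗ[B] X.E 0, (∀ h, X.d 0 (u h) = 0) → ∀ h, u h = 0
  | (t + 1) => ∀ u : H →ₗ[B] X.E (t + 1), (∀ h, X.d (t + 1) (u h) = 0) →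
      ∃ v : H →ₗ[B] X.E t, ∀ h, X.d t (v h) = u h

/-- the homology `ker g / im f`. -/
abbrev HH {B V V' V'' : Type u} [CommRing B] [AddCommGroup V] [Module B V] [AddCommGroup V']
    [Module B V'] [AddCommGroup V''] [Module B V''] (f : V →ₗ[B] V') (g : V' →ₗ[B] V'') :
    Type u := LinearMap.ker g ⧸ (LinearMap.range f).comap (LinearMap.ker g).subtype

/-- the transpose of the matrix `A` acting on tuples: `(A^T z)_c = ∑_a A_ac z_a`. -/
def dl {R T : Type u} (B : Type u) [CommRing R] [CommRing B] [AddCommGroup T] [Module R T]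
    [Module B T] [SMulCommClass R B T] {p q : ℕ} (A : Matrix (Fin p) (Fin q) R) :
    (Fin p → T) →ₗ[B] (Fin q → T) where
  toFun z := fun c => ∑ a, A a c • z a
  map_add' z z' := by
    funext c
    simp [smul_add, Finset.sum_add_distrib]
  map_smul' b z := by
    funext c
    simp only [Pi.smul_apply, RingHom.id_apply, Finset.smul_sum]
    exact Finset.sum_congr rfl fun a _ => smul_comm _ _ _

@[simp] theorem dl_apply {R T : Type u} (B : Type u) [CommRing R] [CommRing B] [AddCommGroup T]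
    [Module R T] [Module B T] [SMulCommClass R B T] {p q : ℕ} (A : Matrix (Fin p) (Fin q) R)
    (z : Fin p → T) (c : Fin q) : dl B A z c = ∑ a, A a c • z a := rfl

/-- the elements `u` such that `u` times the identity of `F_(i+1)` is null homotopic. -/
def HJ {R : Type u} [CommRing R] [IsLocalRing R] {N : Type u} [AddCommGroup N] [Module R N]
    (G : MRes R N) (i : ℕ) : Ideal R where
  carrier := {u | ∃ (h : Matrix (Fin (G.b (i + 2))) (Fin (G.b (i + 1))) R)
    (h' : Matrix (Fin (G.b (i + 1))) (Fin (G.b i)) R),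
    G.dm (i + 1) * h + h' * G.dm i = u • (1 : Matrix (Fin (G.b (i + 1))) (Fin (G.b (i + 1))) R)}
  zero_mem' := ⟨0, 0, by simp⟩
  add_mem' := by
    rintro u v ⟨h, h', e⟩ ⟨g, g', e'⟩
    refine ⟨h + g, h' + g', ?_⟩
    rw [add_smul, ← e, ← e', Matrix.mul_add, Matrix.add_mul]
    abel
  smul_mem' := by
    rintro c u ⟨h, h', e⟩
    refine ⟨c • h, c • h', ?_⟩
    rw [smul_eq_mul, mul_smul, ← e, Matrix.mul_smul, Matrix.smul_mul, smul_add]

end Pool.Agent.Lib.H44X
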