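import Pool.Agent.Lib.H44X.Cone

/-!
F1 (S/M). The creation operators on the iterated cone anticommute.
Elements of `FF V (M+1)` are pairs `(a, b) = a + e_M b`, and the rules are in Cone.lean:
`EE_zero`, `EE_self : EE (M+1) M v = mkF 0 (fstF v)`, `EE_ne : i ≠ M → EE (M+1) i v =
mkF (EE M i (fstF v)) (-(EE M i (sndF v)))`, `TT_succ`, `DD_succ`.

* f1_anti: induction on `M` for all `v`. `M = 0`: both sides are 0. Step: cases `i = M`, `j = M`
  (four cases), then `extF` and simp; e.g. `i = M ≠ j`: `e_M e_j (a,b) = (0, e_j a)` and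
  `e_j e_M (a, b) = e_j (0, a) = (0, - e_j a)`.
* f1_TT: `e_i T = - T e_i`. Same induction with `TT_succ` (`T` on the cone is
  `(a,b) ↦ (T a, - T b)`).
* f1_DD: `DD = ∑_{i<M} β_i e_i + TT`. Induction on `M`: `Finset.sum_range_succ`; for `i < M` use
  `EE_ne` (`i ≠ M`), for `i = M` use `EE_self`; compare the components with `fstF_sum`, `sndF_sum`.
-/

set_option autoImplicit false

namespace Pool.Agent.Lib.H44X
universe u
variable {C : Type u} [CommRing C] {V : Type u} [AddCommGroup V] [Module C V]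

theorem f1_anti (M : ℕ) (i j : ℕ) (v : FF V M) :
    EE C V M i (EE C V M j v) = -(EE C V M j (EE C V M i v)) := by
  induction M with
  | zero => rw [EE_zero, EE_zero]; exact neg_zero.symm
  | succ M ih =>
    by_cases hi : i = M
    · subst hi
      by_cases hj : j = i
      · subst hj
        rw [EE_self, EE_self]
        refine extF ?_ ?_
        · rw [fstF_mkF, fstF_neg, fstF_mkF, neg_zero]
        · rw [sndF_mkF, fstF_mkF, sndF_neg, sndF_mkF, neg_zero]
      · rw [EE_self, EE_ne _ _ hj, EE_ne _ _ hj, EE_self]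
        refine extF ?_ ?_
        · rw [fstF_mkF, fstF_neg, fstF_mkF, fstF_mkF, map_zero, neg_zero]
        · rw [sndF_mkF, fstF_mkF, sndF_neg, sndF_mkF, sndF_mkF, neg_neg]
    · by_cases hj : j = M
      · subst hj
        rw [EE_self, EE_self, EE_ne _ _ hi, EE_ne _ _ hi]
        refine extF ?_ ?_
        · rw [fstF_mkF, fstF_neg, fstF_mkF, fstF_mkF, map_zero, neg_zero]
        · rw [sndF_mkF, sndF_mkF, sndF_neg, sndF_mkF, fstF_mkF]
      · rw [EE_ne _ _ hi, EE_ne _ _ hj, EE_ne _ _ hj, EE_ne _ _ hi]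
        refine extF ?_ ?_
        · rw [fstF_mkF, fstF_neg, fstF_mkF, fstF_mkF, fstF_mkF, ih]
        · rw [sndF_mkF, sndF_neg, sndF_mkF, sndF_mkF, sndF_mkF, map_neg, map_neg, ih]

theorem f1_TT (T : V →ₗ[C] V) (M : ℕ) (i : ℕ) (v : FF V M) :
    EE C V M i (TT T M v) = -(TT T M (EE C V M i v)) := by
  induction M with
  | zero =>
    rw [EE_zero, EE_zero, map_zero, neg_zero]
  | succ M ih =>
    by_cases hi : i = M
    · subst hi
      rw [EE_self, EE_self, TT_succ, TT_succ]
      refine extF ?_ ?_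
      · rw [fstF_mkF, fstF_neg, fstF_mkF, fstF_mkF, map_zero, neg_zero]
      · rw [sndF_mkF, fstF_mkF, sndF_neg, sndF_mkF, sndF_mkF, neg_neg]
    · rw [EE_ne _ _ hi, EE_ne _ _ hi, TT_succ, TT_succ]
      refine extF ?_ ?_
      · rw [fstF_mkF, fstF_neg, fstF_mkF, fstF_mkF, fstF_mkF, ih]
      · rw [sndF_mkF, sndF_neg, sndF_mkF, sndF_mkF, sndF_mkF, map_neg, map_neg, ih]

theorem f1_DD (β : ℕ → C) (T : V →ₗ[C] V) (M : ℕ) (v : FF V M) :
    DD β T M v = ∑ i ∈ Finset.range M, β i • EE C V M i v + TT T M v := by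
  induction M with
  | zero =>
    rw [Finset.sum_range_zero, zero_add]
    rfl
  | succ M ih =>
    rw [Finset.sum_range_succ, DD_succ, TT_succ, EE_self]
    refine extF ?_ ?_
    · rw [fstF_mkF, fstF_add, fstF_add, fstF_sum, fstF_smul, fstF_mkF, fstF_mkF, smul_zero, add_zero, ih]
      congr 1
      refine Finset.sum_congr rfl fun i hi => ?_
      rw [fstF_smul, EE_ne _ _ (Finset.mem_range.1 hi).ne, fstF_mkF]
    · rw [sndF_mkF, sndF_add, sndF_add, sndF_sum, sndF_smul, sndF_mkF, sndF_mkF, ih]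
      have h1 : ∑ i ∈ Finset.range M, sndF (β i • EE C V (M + 1) i v) =
          -∑ i ∈ Finset.range M, β i • EE C V M i (sndF v) := by
        rw [← Finset.sum_neg_distrib]
        refine Finset.sum_congr rfl fun i hi => ?_
        rw [sndF_smul, EE_ne _ _ (Finset.mem_range.1 hi).ne, sndF_mkF, smul_neg]
      rw [h1]
      abel

end Pool.Agent.Lib.H44X
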