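import Pool.Agent.Lib.H44X.Cone

/-!
F2 (S/M). Squares of the operators and the Leibniz rule on the iterated cone.
Rules in Cone.lean: `DD_succ : DD β T (M+1) v = mkF (DD β T M (fstF v))
(β M • fstF v - DD β T M (sndF v))`, `TT_succ`, `LM_succ : LM (M+1) x v =
mkF (LM M x (fstF v)) (LM M (σ x) (sndF v))`, `extF`.

* f2_TT, f2_DD: induction on `M`; e.g. `D(D(a,b)) = (DDa, β_M Da - D(β_M a - D b)) = (0, 0)`.
* f2_LM_add, f2_LM_smul, f2_LM_neg, f2_LM_zero: `LM` is linear in the form `x` (here `σ` is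
  `C`-linear); induction on `M` for all `x`.
* f2_leib: if `T(x y) = T(x) y + σ(x) T(y)`, `T(σ x) = -σ(T x)` and `σ(σ x) = x`, then
  `D(x · v) = T(x) · v + σ(x) · D v`. Induction on `M` for all `x` and `v`: with `v = (a, b)`,
  `x · v = (x·a, σx·b)`, `D(x·v) = (D(x·a), β_M (x·a) - D(σx·b))` and
  `D(σx·b) = T(σx)·b + σσx·Db = -σ(Tx)·b + x·Db`, while `T(x)·v + σ(x)·Dv =
  (Tx·a + σx·Da, σ(Tx)·b + σσx·(β_M a - Db))`. Equal by `σσx = x` and f2_LM_neg.
-/

set_option autoImplicit false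

namespace Pool.Agent.Lib.H44X
universe u
variable {C : Type u} [CommRing C]

theorem f2_TT {V : Type u} [AddCommGroup V] [Module C V] (T : V →ₗ[C] V)
    (hT : ∀ x, T (T x) = 0) (M : ℕ) (v : FF V M) : TT T M (TT T M v) = 0 := by
  induction M with
  | zero => exact hT v
  | succ M ih =>
    rw [TT_succ, TT_succ]
    apply extF
    · rw [fstF_mkF, fstF_mkF, fstF_zero]
      exact ih _
    · rw [sndF_mkF, sndF_mkF, sndF_zero, map_neg, neg_neg]
      exact ih _

theorem f2_DD {V : Type u} [AddCommGroup V] [Module C V] (β : ℕ → C) (T : V →ₗ[C] V)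
    (hT : ∀ x, T (T x) = 0) (M : ℕ) (v : FF V M) : DD β T M (DD β T M v) = 0 := by
  induction M with
  | zero => exact hT v
  | succ M ih =>
    rw [DD_succ, DD_succ]
    apply extF
    · rw [fstF_mkF, fstF_mkF, fstF_zero]
      exact ih _
    · rw [sndF_mkF, fstF_mkF, sndF_mkF, sndF_zero, map_sub, map_smul, ih, sub_zero, sub_self]

variable {V : Type u} [Ring V] [Algebra C V]

theorem f2_LM_add (σ : V →ₗ[C] V) (M : ℕ) (x y : V) (v : FF V M) :
    LM C σ M (x + y) v = LM C σ M x v + LM C σ M y v := by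
  induction M generalizing x y with
  | zero => exact add_mul x y (show V from v)
  | succ M ih =>
    rw [LM_succ, LM_succ, LM_succ, map_add]
    apply extF
    · rw [fstF_mkF, fstF_add, fstF_mkF, fstF_mkF, ih]
    · rw [sndF_mkF, sndF_add, sndF_mkF, sndF_mkF, ih]

theorem f2_LM_smul (σ : V →ₗ[C] V) (M : ℕ) (c : C) (x : V) (v : FF V M) :
    LM C σ M (c • x) v = c • LM C σ M x v := by
  induction M generalizing x with
  | zero => exact smul_mul_assoc c x (show V from v)
  | succ M ih =>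
    rw [LM_succ, LM_succ, map_smul]
    apply extF
    · rw [fstF_mkF, fstF_smul, fstF_mkF, ih]
    · rw [sndF_mkF, sndF_smul, sndF_mkF, ih]

theorem f2_LM_neg (σ : V →ₗ[C] V) (M : ℕ) (x : V) (v : FF V M) :
    LM C σ M (-x) v = -(LM C σ M x v) := by
  have h := f2_LM_smul (C := C) σ M (-1 : C) x v
  rwa [neg_one_smul, neg_one_smul] at h

theorem f2_LM_zero (σ : V →ₗ[C] V) (M : ℕ) (v : FF V M) : LM C σ M 0 v = 0 := by
  have h := f2_LM_smul (C := C) σ M (0 : C) 0 v
  rwa [zero_smul, zero_smul] at h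

theorem f2_leib (σ : V →ₗ[C] V) (hσ : ∀ x, σ (σ x) = x) (T : V →ₗ[C] V)
    (hT : ∀ x y, T (x * y) = T x * y + σ x * T y) (hTσ : ∀ x, T (σ x) = -(σ (T x)))
    (β : ℕ → C) (M : ℕ) (x : V) (v : FF V M) :
    DD β T M (LM C σ M x v) = LM C σ M (T x) v + LM C σ M (σ x) (DD β T M v) := by
  induction M generalizing x with
  | zero => exact hT x (show V from v)
  | succ M ih =>
    rw [LM_succ, DD_succ, LM_succ, DD_succ, LM_succ]
    apply extF
    · rw [fstF_mkF, fstF_mkF, fstF_add, fstF_mkF, fstF_mkF, fstF_mkF, ih]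
    · rw [sndF_mkF, fstF_mkF, sndF_mkF, sndF_add, sndF_mkF, sndF_mkF, sndF_mkF, ih, hTσ, hσ, f2_LM_neg, map_sub,
        map_smul]
      abel

end Pool.Agent.Lib.H44X
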