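import Pool.Agent.Lib.H44X.Cone

/-!
F3 (M). Bookkeeping on the iterated cone: the degree in the `e`'s, the bottom and the top
component. All by induction on `M` (for all `v`, `x`, `a`), with the rules of Cone.lean
(`EE_zero`, `EE_self`, `EE_ne`, `LM_succ`, `mkF`, `fstF`, `sndF`, `extF`); `Ele`, `botF`, `topF`
unfold by `rfl`/`simp [Ele]` after a case distinction on the degree `a`.

* f3_ele_zero, f3_ele_add, f3_ele_smul, f3_ele_sum: `Ele M a` is a submodule.
* f3_ele_mono: monotone in `a` (first one step: `Ele M a v → Ele M (a+1) v`; note that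
  `Ele M 0 v` means: `sndF v = 0` and so on recursively).
* f3_ele_inc: `incF x` has degree 0. f3_ele_EE: `e_i` raises the degree by at most one.
* f3_ele_LM: left multiplication by a form keeps the degree.
* f3_top: an element of degree `< M` has no top component.
* f3_bot_EE, f3_bot_LM, f3_bot_inc, f3_bot_DD: bottom components:
  `bot (e_i v) = 0`, `bot (x · v) = x * bot v`, `bot (inc x) = x`, `bot (D v) = T (bot v)`.
-/

set_option autoImplicit false

namespace Pool.Agent.Lib.H44X
universe u
variable {C : Type u} [CommRing C] {V : Type u} [AddCommGroup V] [Module C V]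

theorem f3_ele_zero (M a : ℕ) : Ele M a (0 : FF V M) := by
  induction M generalizing a with
  | zero => trivial
  | succ M ih =>
    cases a with
    | zero => exact ⟨ih 0, rfl⟩
    | succ a => exact ⟨ih _, ih _⟩

theorem f3_ele_add (M a : ℕ) (v w : FF V M) (hv : Ele M a v) (hw : Ele M a w) :
    Ele M a (v + w) := by
  induction M generalizing a with
  | zero => trivial
  | succ M ih =>
    cases a with
    | zero =>
      obtain ⟨h1, h2⟩ := hv
      obtain ⟨h3, h4⟩ := hw
      exact ⟨ih 0 _ _ h1 h3, by rw [sndF_add, h2, h4, add_zero]⟩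
    | succ a => exact ⟨ih _ _ _ hv.1 hw.1, ih _ _ _ hv.2 hw.2⟩

theorem f3_ele_neg (M a : ℕ) (v : FF V M) (hv : Ele M a v) : Ele M a (-v) := by
  induction M generalizing a with
  | zero => trivial
  | succ M ih =>
    cases a with
    | zero =>
      obtain ⟨h1, h2⟩ := hv
      exact ⟨ih 0 _ h1, by rw [sndF_neg, h2, neg_zero]⟩
    | succ a => exact ⟨ih _ _ hv.1, ih _ _ hv.2⟩

theorem f3_ele_smul (M a : ℕ) (c : C) (v : FF V M) (hv : Ele M a v) : Ele M a (c • v) := by
  induction M generalizing a with
  | zero => trivial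
  | succ M ih =>
    cases a with
    | zero =>
      obtain ⟨h1, h2⟩ := hv
      exact ⟨ih 0 _ h1, by rw [sndF_smul, h2, smul_zero]⟩
    | succ a => exact ⟨ih _ _ hv.1, ih _ _ hv.2⟩

theorem f3_ele_sum (M a : ℕ) {ι : Type*} (s : Finset ι) (f : ι → FF V M)
    (hf : ∀ i ∈ s, Ele M a (f i)) : Ele M a (∑ i ∈ s, f i) := by
  exact Finset.sum_induction f (Ele M a) (fun v w hv hw => f3_ele_add M a v w hv hw)
    (f3_ele_zero M a) hf

theorem f3_ele_step (M a : ℕ) (v : FF V M) (hv : Ele M a v) : Ele M (a + 1) v := by
  induction M generalizing a with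
  | zero => trivial
  | succ M ih =>
    cases a with
    | zero =>
      obtain ⟨h1, h2⟩ := hv
      exact ⟨ih 0 _ h1, by rw [h2]; exact f3_ele_zero _ _⟩
    | succ a => exact ⟨ih _ _ hv.1, ih _ _ hv.2⟩

theorem f3_ele_mono (M a b : ℕ) (hab : a ≤ b) (v : FF V M) (hv : Ele M a v) : Ele M b v := by
  induction b, hab using Nat.le_induction with
  | base => exact hv
  | succ n _ ih => exact f3_ele_step M n v ih

theorem f3_ele_inc (M : ℕ) (x : V) : Ele M 0 (incF C V M x) := by
  induction M with
  | zero => trivial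
  | succ M ih => exact ⟨ih, rfl⟩

theorem f3_ele_EE (M i a : ℕ) (v : FF V M) (hv : Ele M a v) : Ele M (a + 1) (EE C V M i v) := by
  induction M generalizing a with
  | zero => trivial
  | succ M ih =>
    by_cases h : i = M
    · subst h
      rw [EE_self]
      refine ⟨f3_ele_zero _ _, ?_⟩
      cases a with
      | zero => exact hv.1
      | succ a => exact hv.1
    · rw [EE_ne _ _ h]
      cases a with
      | zero =>
        obtain ⟨h1, h2⟩ := hv
        refine ⟨ih 0 _ h1, ?_⟩
        rw [sndF_mkF, h2, map_zero, neg_zero]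
        exact f3_ele_zero _ _
      | succ a =>
        exact ⟨ih _ _ hv.1, f3_ele_neg _ _ _ (ih _ _ hv.2)⟩

theorem f3_ele_LM {W : Type u} [Ring W] [Algebra C W] (σ : W → W) (M a : ℕ) (x : W)
    (v : FF W M) (hv : Ele M a v) : Ele M a (LM C σ M x v) := by
  induction M generalizing a x with
  | zero => trivial
  | succ M ih =>
    rw [LM_succ]
    cases a with
    | zero =>
      obtain ⟨h1, h2⟩ := hv
      exact ⟨ih 0 x _ h1, by rw [sndF_mkF, h2, map_zero]⟩
    | succ a => exact ⟨ih _ _ _ hv.1, ih _ _ _ hv.2⟩

theorem f3_top (M a : ℕ) (ha : a < M) (v : FF V M) (hv : Ele M a v) : topF C V M v = 0 := by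
  induction M generalizing a with
  | zero => exact absurd ha (Nat.not_lt_zero a)
  | succ M ih =>
    change topF C V M (sndF v) = 0
    cases a with
    | zero =>
      obtain ⟨h1, h2⟩ := hv
      rw [h2, map_zero]
    | succ a => exact ih a (Nat.lt_of_succ_lt_succ ha) _ hv.2

theorem f3_bot_EE (M i : ℕ) (v : FF V M) : botF C V M (EE C V M i v) = 0 := by
  induction M with
  | zero => exact map_zero (botF C V 0)
  | succ M ih =>
    change botF C V M (fstF (EE C V (M + 1) i v)) = 0
    by_cases h : i = M
    · subst h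
      rw [EE_self, fstF_mkF, map_zero]
    · rw [EE_ne _ _ h, fstF_mkF]
      exact ih _

theorem f3_bot_LM {W : Type u} [Ring W] [Algebra C W] (σ : W → W) (M : ℕ) (x : W)
    (v : FF W M) : botF C W M (LM C σ M x v) = x * botF C W M v := by
  induction M generalizing x with
  | zero => rfl
  | succ M ih => exact ih x (fstF v)

theorem f3_bot_inc (M : ℕ) (x : V) : botF C V M (incF C V M x) = x := by
  induction M with
  | zero => rfl
  | succ M ih => exact ih

theorem f3_bot_DD (β : ℕ → C) (T : V →ₗ[C] V) (M : ℕ) (v : FF V M) :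
    botF C V M (DD β T M v) = T (botF C V M v) := by
  induction M with
  | zero => rfl
  | succ M ih => exact ih (fstF v)

end Pool.Agent.Lib.H44X
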