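import Pool.Agent.Lib.H44X.Cone

/-!
F4 (S/M). Coefficientwise properties and maps on the iterated cone. All by induction on `M`
(for all `v`, `x`), with the rules of Cone.lean.

* f4_add, f4_smul, f4_zero, f4_sum: if `P` is stable under the corresponding operation of `V`, so
  is `AllIn P M`.
* f4_EE, f4_inc: `e_i` and the inclusion (`P 0`, `P x → P (-x)`).
* f4_LM: if `P` is stable under left multiplication by all `x` with `Q x`, and `Q x → Q (σ x)`,
  then `AllIn P M` is stable under `LM x`, `Q x`.
* f4_map_*: coefficientwise application of a map `f : V → W` commutes with `D`, `bot`, `top`, `Ele`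
  under the obvious hypotheses; f4_lift: if all coefficients lie in the image of `f`, the element
  is `mapF f w`; f4_inj: `mapF f` is injective if `f` is.
-/

set_option autoImplicit false

namespace Pool.Agent.Lib.H44X
universe u
variable {C : Type u} [CommRing C] {V : Type u} [AddCommGroup V] [Module C V]

theorem f4_zero (P : V → Prop) (h0 : P 0) (M : ℕ) : AllIn P M (0 : FF V M) := by
  induction M with
  | zero => exact h0
  | succ M ih => exact ⟨ih, ih⟩

theorem f4_add (P : V → Prop) (h : ∀ x y, P x → P y → P (x + y)) (M : ℕ) (v w : FF V M)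
    (hv : AllIn P M v) (hw : AllIn P M w) : AllIn P M (v + w) := by
  induction M with
  | zero => exact h _ _ hv hw
  | succ M ih => exact ⟨ih _ _ hv.1 hw.1, ih _ _ hv.2 hw.2⟩

theorem f4_neg (P : V → Prop) (h : ∀ x, P x → P (-x)) (M : ℕ) (v : FF V M)
    (hv : AllIn P M v) : AllIn P M (-v) := by
  induction M with
  | zero => exact h _ hv
  | succ M ih => exact ⟨ih _ hv.1, ih _ hv.2⟩

theorem f4_smul (P : V → Prop) (c : C) (h : ∀ x, P x → P (c • x)) (M : ℕ) (v : FF V M)
    (hv : AllIn P M v) : AllIn P M (c • v) := by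
  induction M with
  | zero => exact h _ hv
  | succ M ih => exact ⟨ih _ hv.1, ih _ hv.2⟩

theorem f4_sum (P : V → Prop) (h0 : P 0) (h : ∀ x y, P x → P y → P (x + y)) (M : ℕ)
    {ι : Type*} (s : Finset ι) (f : ι → FF V M) (hf : ∀ i ∈ s, AllIn P M (f i)) :
    AllIn P M (∑ i ∈ s, f i) := by
  exact Finset.sum_induction f (AllIn P M) (fun v w hv hw => f4_add P h M v w hv hw)
    (f4_zero P h0 M) hf

theorem f4_EE (P : V → Prop) (h0 : P 0) (hn : ∀ x, P x → P (-x)) (M i : ℕ) (v : FF V M)
    (hv : AllIn P M v) : AllIn P M (EE C V M i v) := by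
  induction M with
  | zero => exact h0
  | succ M ih =>
    by_cases hi : i = M
    · subst hi
      rw [EE_self]
      exact ⟨f4_zero P h0 _, hv.1⟩
    · rw [EE_ne _ _ hi]
      exact ⟨ih _ hv.1, f4_neg P hn _ _ (ih _ hv.2)⟩

theorem f4_inc (P : V → Prop) (h0 : P 0) (M : ℕ) (x : V) (hx : P x) :
    AllIn P M (incF C V M x) := by
  induction M with
  | zero => exact hx
  | succ M ih => exact ⟨ih, f4_zero P h0 _⟩

theorem f4_LM {W : Type u} [Ring W] [Algebra C W] (σ : W → W) (P Q : W → Prop)
    (h : ∀ x y, Q x → P y → P (x * y)) (hσ : ∀ x, Q x → Q (σ x)) (M : ℕ) (x : W) (hx : Q x)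
    (v : FF W M) (hv : AllIn P M v) : AllIn P M (LM C σ M x v) := by
  induction M generalizing x with
  | zero => exact h x _ hx hv
  | succ M ih => exact ⟨ih x hx _ hv.1, ih (σ x) (hσ x hx) _ hv.2⟩

variable {C' : Type u} [CommRing C'] {W : Type u} [AddCommGroup W] [Module C' W]

theorem f4_map_sub (f : V →+ W) (M : ℕ) (v w : FF V M) :
    mapF f M (v - w) = mapF f M v - mapF f M w := by
  induction M with
  | zero => exact map_sub f v w
  | succ M ih => exact extF (ih _ _) (ih _ _)

theorem f4_map_smul (f : V →+ W) (c : C) (c' : C') (h : ∀ x, f (c • x) = c' • f x) (M : ℕ)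
    (v : FF V M) : mapF f M (c • v) = c' • mapF f M v := by
  induction M with
  | zero => exact h v
  | succ M ih => exact extF (ih _) (ih _)

theorem f4_map_DD (f : V →+ W) (β : ℕ → C) (β' : ℕ → C') (T : V →ₗ[C] V) (T' : W →ₗ[C'] W)
    (hβ : ∀ i x, f (β i • x) = β' i • f x) (hT : ∀ x, f (T x) = T' (f x)) (M : ℕ) (v : FF V M) :
    mapF f M (DD β T M v) = DD β' T' M (mapF f M v) := by
  induction M with
  | zero => exact hT v
  | succ M ih =>
    rw [DD_succ, DD_succ]
    refine extF (ih (fstF v)) ?_
    change mapF f M (β M • fstF v - DD β T M (sndF v)) = β' M • mapF f M (fstF v) - DD β' T' M (mapF f M (sndF v))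
    rw [f4_map_sub, f4_map_smul f (β M) (β' M) (hβ M), ih]

theorem f4_map_zero (f : V →+ W) (M : ℕ) : mapF f M (0 : FF V M) = 0 := by
  induction M with
  | zero => exact map_zero f
  | succ M ih => exact extF ih ih

theorem f4_map_bot (f : V →+ W) (M : ℕ) (v : FF V M) :
    botF C' W M (mapF f M v) = f (botF C V M v) := by
  induction M with
  | zero => rfl
  | succ M ih => exact ih _

theorem f4_map_top (f : V →+ W) (M : ℕ) (v : FF V M) :
    topF C' W M (mapF f M v) = f (topF C V M v) := by
  induction M with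
  | zero => rfl
  | succ M ih => exact ih _

theorem f4_lift (f : V →+ W) (M : ℕ) (w : FF W M) (hw : AllIn (fun y => ∃ x, f x = y) M w) :
    ∃ v : FF V M, mapF f M v = w := by
  induction M with
  | zero => exact hw
  | succ M ih =>
    obtain ⟨a, ha⟩ := ih _ hw.1
    obtain ⟨b, hb⟩ := ih _ hw.2
    exact ⟨mkF a b, extF ha hb⟩

theorem f4_inj (f : V →+ W) (hf : Function.Injective f) (M : ℕ) (v v' : FF V M)
    (h : mapF f M v = mapF f M v') : v = v' := by
  induction M with
  | zero => exact hf h
  | succ M ih => exact extF (ih _ _ (congrArg fstF h)) (ih _ _ (congrArg sndF h))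

theorem f4_map_all (f : V → W) (P : V → Prop) (Q : W → Prop) (h : ∀ x, P x → Q (f x)) (M : ℕ)
    (v : FF V M) (hv : AllIn P M v) : AllIn Q M (mapF f M v) := by
  induction M with
  | zero => exact h _ hv
  | succ M ih => exact ⟨ih _ hv.1, ih _ hv.2⟩

end Pool.Agent.Lib.H44X
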