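import Pool.Agent.Lib.H44X.F2
import Pool.Agent.Lib.H44X.F3

/-!
F5 (M). The Koszul argument. `RegSeq β V M`: `β_j` is a non zero divisor on
`V/(β_0, …, β_(j-1))V`, `j < M`, written with `Ideal.span (β '' {i | i < j}) • ⊤`.

* f5_top: if `top b = 0` then `top (D b) ∈ (β_0, …, β_(M-1)) V`. Induction on `M` for all `b`.
  `M = 0`: `D b = T b = T (top b) = 0`. Step `b = (a', b')`, `top b = top b' = 0`:
  `top (D b) = top (β_M a' - D b') = β_M top a' - top (D b')`, and `(β_0..β_(M-1))V ⊆ (β_0..β_M)V`
  (Ideal.span_mono, Submodule.smul_mono_left), `β_M • x ∈ (β_0..β_M)V` (Submodule.smul_mem_smul).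
* f5_surj: `top` is surjective (induction: `top (0, b) = top b`).
* f5_lift: every `z ∈ (β_0, …, β_(M-1)) V` is `top (D u)` for some `u` with `top u = 0`.
  Induction on `M` for all `z`. `M = 0`: `z = 0`, `u = 0`. Step: `β '' {i | i < M+1} =
  β '' {i | i < M} ∪ {β M}`, so `z = z' + β_M z''` (Submodule.sup_smul, Ideal.span_union,
  Submodule.ideal_span_singleton_smul, Submodule.mem_sup; or Submodule.smul_induction_on); take
  `b'` with `top b' = 0`, `top (D b') = -z'` and `a'` with `top a' = z''`; `u = (a', b')`: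
  `top u = top b' = 0`, `top (D u) = β_M top a' - top (D b') = z`.
* f5_claim: if `D v = 0` and `top v = 0` then `bot v ∈ T(V)`. Induction on `M` for all `v`.
  `M = 0`: `v = top v = 0`. Step `v = (a, b)`: `D a = 0`, `β_M a = D b` and `top b = 0`. By f5_top
  `β_M top a = top (D b) ∈ (β_0..β_(M-1))V`, so `top a ∈ (β_0..β_(M-1))V` by regularity, and
  `top a = top (D u)` with `top u = 0` by f5_lift. `a' = a - D u` has `D a' = 0` (f2_DD) and
  `top a' = 0`, so `bot a' ∈ T(V)` by induction (`RegSeq β V M` from `RegSeq β V (M+1)`), and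
  `bot v = bot a = bot a' + bot (D u) = bot a' + T (bot u)` (f3_bot_DD).
-/

set_option autoImplicit false

namespace Pool.Agent.Lib.H44X
universe u
variable {C : Type u} [CommRing C] {V : Type u} [AddCommGroup V] [Module C V]

theorem f5_ts (M : ℕ) (v : FF V (M + 1)) : topF C V (M + 1) v = topF C V M (sndF v) := rfl

theorem f5_bs (M : ℕ) (v : FF V (M + 1)) : botF C V (M + 1) v = botF C V M (fstF v) := rfl

theorem f5_mono (β : ℕ → C) (M : ℕ) : Ideal.span (β '' {i | i < M}) • (⊤ : Submodule C V) ≤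
    Ideal.span (β '' {i | i < M + 1}) • (⊤ : Submodule C V) :=
  Submodule.smul_mono_left (Ideal.span_mono (Set.image_mono fun _ hi => Nat.lt_succ_of_lt hi))

theorem f5_top (β : ℕ → C) (T : V →ₗ[C] V) (M : ℕ) (b : FF V M) (hb : topF C V M b = 0) :
    topF C V M (DD β T M b) ∈ Ideal.span (β '' {i | i < M}) • (⊤ : Submodule C V) := by
  induction M with
  | zero =>
    have h : b = 0 := hb
    rw [h, map_zero, map_zero]
    exact zero_mem _
  | succ M ih =>
    rw [f5_ts] at hb
    rw [f5_ts, DD_succ, sndF_mkF, map_sub, map_smul]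
    refine sub_mem ?_ (f5_mono β M (ih _ hb))
    exact Submodule.smul_mem_smul (Ideal.subset_span ⟨M, Nat.lt_succ_self M, rfl⟩) trivial

theorem f5_surj (M : ℕ) (z : V) : ∃ v : FF V M, topF C V M v = z := by
  induction M with
  | zero => exact ⟨z, rfl⟩
  | succ M ih =>
    obtain ⟨v, hv⟩ := ih
    exact ⟨mkF 0 v, hv⟩

theorem f5_lift (β : ℕ → C) (T : V →ₗ[C] V) (M : ℕ) (z : V)
    (hz : z ∈ Ideal.span (β '' {i | i < M}) • (⊤ : Submodule C V)) :
    ∃ u : FF V M, topF C V M u = 0 ∧ topF C V M (DD β T M u) = z := by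
  induction M generalizing z with
  | zero =>
    have e : β '' {i | i < 0} = ∅ := by
      ext x
      constructor
      · rintro ⟨i, hi, -⟩
        exact absurd hi (Nat.not_lt_zero i)
      · intro h
        exact absurd h (Set.notMem_empty x)
    rw [e, Ideal.span_empty, Submodule.bot_smul, Submodule.mem_bot] at hz
    refine ⟨0, map_zero _, ?_⟩
    rw [hz, map_zero, map_zero]
  | succ M ih =>
    have e : β '' {i | i < M + 1} = β '' {i | i < M} ∪ {β M} := by
      ext x
      constructor
      · rintro ⟨i, hi, rfl⟩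
        rcases Nat.lt_succ_iff_lt_or_eq.1 hi with h | h
        · exact Or.inl ⟨i, h, rfl⟩
        · right
          rw [h]
          rfl
      · rintro (⟨i, hi, rfl⟩ | h)
        · exact ⟨i, Nat.lt_succ_of_lt hi, rfl⟩
        · have h' : x = β M := h
          exact ⟨M, Nat.lt_succ_self M, h'.symm⟩
    rw [e, Ideal.span_union, Submodule.sup_smul, Submodule.mem_sup] at hz
    obtain ⟨z1, hz1, y, hy, rfl⟩ := hz
    rw [Submodule.ideal_span_singleton_smul, Submodule.mem_smul_pointwise_iff_exists] at hy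
    obtain ⟨z2, -, rfl⟩ := hy
    obtain ⟨b', hb1, hb2⟩ := ih (-z1) (neg_mem hz1)
    obtain ⟨a', ha'⟩ := f5_surj (C := C) M z2
    refine ⟨mkF a' b', hb1, ?_⟩
    rw [f5_ts, DD_succ, sndF_mkF, fstF_mkF, sndF_mkF, map_sub, map_smul, ha', hb2]
    abel

theorem f5_claim (β : ℕ → C) (T : V →ₗ[C] V) (hT : ∀ x, T (T x) = 0) (M : ℕ)
    (hreg : RegSeq β V M) (v : FF V M) (hD : DD β T M v = 0) (htop : topF C V M v = 0) :
    botF C V M v ∈ LinearMap.range T := by
  induction M with
  | zero =>
    have h : v = 0 := htop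
    rw [h, map_zero]
    exact zero_mem _
  | succ M ih =>
    rw [f5_ts] at htop
    rw [f5_bs]
    have h1 : DD β T M (fstF v) = 0 := by
      have h := congrArg fstF hD
      rwa [DD_succ, fstF_mkF, fstF_zero] at h
    have h2 : β M • fstF v = DD β T M (sndF v) := by
      have h := congrArg sndF hD
      rw [DD_succ, sndF_mkF, sndF_zero] at h
      exact sub_eq_zero.1 h
    have h3 : β M • topF C V M (fstF v) ∈ Ideal.span (β '' {i | i < M}) • (⊤ : Submodule C V) := by
      rw [← map_smul, h2]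
      exact f5_top β T M _ htop
    have h4 := hreg M (Nat.lt_succ_self M) _ h3
    obtain ⟨u, hu1, hu2⟩ := f5_lift β T M _ h4
    have h5 := ih (fun j hj => hreg j (Nat.lt_succ_of_lt hj)) (fstF v - DD β T M u)
      (by rw [map_sub, h1, f2_DD β T hT, sub_zero]) (by rw [map_sub, hu2, sub_self])
    have h6 : botF C V M (fstF v) = botF C V M (fstF v - DD β T M u) + T (botF C V M u) := by
      rw [map_sub, f3_bot_DD]
      abel
    rw [h6]
    exact add_mem h5 (LinearMap.mem_range_self T _)

end Pool.Agent.Lib.H44X
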