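import Pool.Agent.Lib.H21V.Z6A

/-!
H1 (M). Projective dimension over a polynomial ring in one variable.

For an `R[X]`-module `M` there is the exact sequence of `R[X]`-modules
`0 → R[X] ⊗_R M → R[X] ⊗_R M → M → 0`, `p ⊗ m ↦ p X ⊗ m - p ⊗ X m`, `p ⊗ m ↦ p m`, and
`R[X] ⊗_R M` has projective dimension `< n` over `R[X]` by `H21V.pd_tensor` (`R[X]` is free over `R`).
So `HasProjectiveDimensionLT M (n+1)` by `ShortComplex.ShortExact.hasProjectiveDimensionLT_X₃`
(see the use in H44V/Fin.lean, `Fin_pd`, and `LinearMap.shortExact_shortComplexKer`, or build the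
short complex as in Helper92/ExtGen.lean `sesT_exact`).
Exactness: write an element of `R[X] ⊗_R M` as `∑ X^i ⊗ m_i` (`Polynomial` is free with basis `X^i`;
`R[X] ⊗_R M ≅ (ℕ →₀ M)`, for instance via `TensorProduct.finsuppScalarLeft` and
`Polynomial.toFinsuppIso`, or use Mathlib's `PolynomialModule`); the image of `∑ X^i ⊗ m_i` has the
coefficients `m_(i-1) - X m_i`: injectivity by looking at the top coefficient. If
`∑ X^i m_i = 0` in `M` then `∑ X^i ⊗ m_i = ∑ (X^i ⊗ m_i - 1 ⊗ X^i m_i)`, and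
`X^i ⊗ m - 1 ⊗ X^i m` is in the image (induction on `i`).
It is allowed to work with any presentation of this sequence, e.g. with `PolynomialModule R M` or
with the polynomials `M[X]` as `ℕ →₀ M`.
-/

set_option autoImplicit false
open CategoryTheory Polynomial TensorProduct

namespace Pool.Agent.Lib.H44X
universe u

section

variable (R : Type u) [CommRing R] (Y : Type u) [AddCommGroup Y] [Module R[X] Y] [Module R Y] [IsScalarTower R R[X] Y]

/-- multiplication by `X`. -/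
noncomputable def h1_m : Y →ₗ[R] Y where
  toFun m := (X : R[X]) • m
  map_add' a b := smul_add _ _ _
  map_smul' r m := (smul_comm _ _ _)

noncomputable def h1_f : R[X] ⊗[R] Y →ₗ[R[X]] R[X] ⊗[R] Y :=
  (X : R[X]) • LinearMap.id - (h1_m R Y).baseChange R[X]

noncomputable def h1_g : R[X] ⊗[R] Y →ₗ[R[X]] Y := (LinearMap.id : Y →ₗ[R] Y).liftBaseChange R[X]

/-- the coefficients. -/
noncomputable def h1_c (i : ℕ) : R[X] ⊗[R] Y →ₗ[R] Y :=
  TensorProduct.lift ((LinearMap.lsmul R Y).comp (lcoeff R i))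

theorem h1_f_tmul (p : R[X]) (m : Y) : h1_f R Y (p ⊗ₜ m) = (X * p) ⊗ₜ m - p ⊗ₜ ((X : R[X]) • m) := rfl

theorem h1_g_tmul (p : R[X]) (m : Y) : h1_g R Y (p ⊗ₜ m) = p • m := rfl

theorem h1_c_tmul (i : ℕ) (p : R[X]) (m : Y) : h1_c R Y i (p ⊗ₜ m) = coeff p i • m := rfl

theorem h1_cf (i : ℕ) (z : R[X] ⊗[R] Y) : h1_c R Y (i + 1) (h1_f R Y z) = h1_c R Y i z - (X : R[X]) • h1_c R Y (i + 1) z := by
  induction z using TensorProduct.induction_on with
  | zero => simp
  | tmul p m =>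
    rw [h1_f_tmul, map_sub, h1_c_tmul, h1_c_tmul, h1_c_tmul, h1_c_tmul, coeff_X_mul, smul_comm]
  | add a b ha hb =>
    rw [map_add, map_add, ha, hb, map_add, map_add, smul_add]
    abel

theorem h1_rep (z : R[X] ⊗[R] Y) : ∃ N : ℕ, ∀ n ≥ N, z = ∑ i ∈ Finset.range n, ((X : R[X]) ^ i) ⊗ₜ[R] h1_c R Y i z := by
  induction z using TensorProduct.induction_on with
  | zero => exact ⟨0, fun n _ => by simp⟩
  | tmul p m =>
    refine ⟨p.natDegree + 1, fun n hn => ?_⟩
    have h1 := as_sum_range' p n (by omega)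
    have h2 : p ⊗ₜ[R] m = (∑ i ∈ Finset.range n, monomial i (coeff p i)) ⊗ₜ[R] m := by rw [← h1]
    have h3 : (∑ i ∈ Finset.range n, monomial i (coeff p i)) ⊗ₜ[R] m =
        ∑ i ∈ Finset.range n, ((X : R[X]) ^ i) ⊗ₜ[R] h1_c R Y i (p ⊗ₜ[R] m) := by
      rw [TensorProduct.sum_tmul]
      refine Finset.sum_congr rfl fun i _ => ?_
      rw [h1_c_tmul, TensorProduct.tmul_smul, TensorProduct.smul_tmul', smul_X_eq_monomial]
    exact h2.trans h3
  | add a b ha hb =>
    obtain ⟨N, hN⟩ := ha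
    obtain ⟨N', hN'⟩ := hb
    refine ⟨max N N', fun n hn => ?_⟩
    have h1 := hN n (le_trans (le_max_left _ _) hn)
    have h2 := hN' n (le_trans (le_max_right _ _) hn)
    have h3 : ∑ i ∈ Finset.range n, ((X : R[X]) ^ i) ⊗ₜ[R] h1_c R Y i (a + b) =
        ∑ i ∈ Finset.range n, ((X : R[X]) ^ i) ⊗ₜ[R] h1_c R Y i a + ∑ i ∈ Finset.range n, ((X : R[X]) ^ i) ⊗ₜ[R] h1_c R Y i b := by
      rw [← Finset.sum_add_distrib]
      refine Finset.sum_congr rfl fun i _ => ?_
      rw [map_add, TensorProduct.tmul_add]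
    rw [h3, ← h1, ← h2]

theorem h1_fin (z : R[X] ⊗[R] Y) : ∃ N : ℕ, ∀ n ≥ N, h1_c R Y n z = 0 := by
  obtain ⟨N, hN⟩ := h1_rep R Y z
  refine ⟨N, fun n hn => ?_⟩
  rw [hN N le_rfl, map_sum]
  refine Finset.sum_eq_zero fun i hi => ?_
  rw [Finset.mem_range] at hi
  rw [h1_c_tmul, coeff_X_pow, if_neg (by omega), zero_smul]

theorem h1_inj : Function.Injective (h1_f R Y) := by
  rw [injective_iff_map_eq_zero]
  intro z hz
  have h1 : ∀ i, h1_c R Y i z = (X : R[X]) • h1_c R Y (i + 1) z := by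
    intro i
    have h2 := h1_cf R Y i z
    rw [hz, map_zero] at h2
    exact (sub_eq_zero.1 h2.symm)
  obtain ⟨N, hN⟩ := h1_fin R Y z
  have h3 : ∀ k i, N ≤ i + k → h1_c R Y i z = 0 := by
    intro k
    induction k with
    | zero => exact fun i hi => hN i hi
    | succ k ih =>
      intro i hi
      rw [h1 i, ih (i + 1) (by omega), smul_zero]
  obtain ⟨N', hN'⟩ := h1_rep R Y z
  rw [hN' N' le_rfl]
  refine Finset.sum_eq_zero fun i _ => ?_
  rw [h3 N i (by omega), TensorProduct.tmul_zero]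

theorem h1_gf (z : R[X] ⊗[R] Y) : h1_g R Y (h1_f R Y z) = 0 := by
  induction z using TensorProduct.induction_on with
  | zero => simp
  | tmul p m =>
    rw [h1_f_tmul, map_sub, h1_g_tmul, h1_g_tmul, smul_smul, mul_comm, sub_self]
  | add a b ha hb => rw [map_add, map_add, ha, hb, add_zero]

theorem h1_pow (n : ℕ) : ∀ m : Y, ((X : R[X]) ^ n) ⊗ₜ[R] m - (1 : R[X]) ⊗ₜ[R] (((X : R[X]) ^ n) • m) ∈ LinearMap.range (h1_f R Y) := by
  induction n with
  | zero =>
    intro m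
    rw [pow_zero, one_smul, sub_self]
    exact Submodule.zero_mem _
  | succ n ih =>
    intro m
    have h1 := ih ((X : R[X]) • m)
    have h2 : h1_f R Y (((X : R[X]) ^ n) ⊗ₜ[R] m) ∈ LinearMap.range (h1_f R Y) := ⟨_, rfl⟩
    have h3 := Submodule.add_mem _ h2 h1
    rw [h1_f_tmul, smul_smul, ← pow_succ, ← pow_succ'] at h3
    have h4 : ((X : R[X]) ^ (n + 1)) ⊗ₜ[R] m - (1 : R[X]) ⊗ₜ[R] (((X : R[X]) ^ (n + 1)) • m) =
        ((X : R[X]) ^ (n + 1)) ⊗ₜ[R] m - ((X : R[X]) ^ n) ⊗ₜ[R] ((X : R[X]) • m) +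
          (((X : R[X]) ^ n) ⊗ₜ[R] ((X : R[X]) • m) - (1 : R[X]) ⊗ₜ[R] (((X : R[X]) ^ (n + 1)) • m)) := by abel
    rw [h4]
    exact h3

theorem h1_tm (p : R[X]) (m : Y) : p ⊗ₜ[R] m - (1 : R[X]) ⊗ₜ[R] (p • m) ∈ LinearMap.range (h1_f R Y) := by
  induction p using Polynomial.induction_on' with
  | add p q hp hq =>
    have h1 := Submodule.add_mem _ hp hq
    have h2 : (p + q) ⊗ₜ[R] m - (1 : R[X]) ⊗ₜ[R] ((p + q) • m) =
        p ⊗ₜ[R] m - (1 : R[X]) ⊗ₜ[R] (p • m) + (q ⊗ₜ[R] m - (1 : R[X]) ⊗ₜ[R] (q • m)) := by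
      rw [add_smul, TensorProduct.add_tmul, TensorProduct.tmul_add]
      abel
    rw [h2]
    exact h1
  | monomial n a =>
    have h1 := h1_pow R Y n (a • m)
    have h2 : (monomial n a : R[X]) = a • (X : R[X]) ^ n := (smul_X_eq_monomial).symm
    rw [h2, TensorProduct.smul_tmul, smul_assoc, smul_comm]
    exact h1

theorem h1_ker (z : R[X] ⊗[R] Y) : z - (1 : R[X]) ⊗ₜ[R] (h1_g R Y z) ∈ LinearMap.range (h1_f R Y) := by
  induction z using TensorProduct.induction_on with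
  | zero =>
    rw [map_zero, TensorProduct.tmul_zero, sub_zero]
    exact Submodule.zero_mem _
  | tmul p m => exact h1_tm R Y p m
  | add a b ha hb =>
    have h1 := Submodule.add_mem _ ha hb
    have h2 : a + b - (1 : R[X]) ⊗ₜ[R] (h1_g R Y (a + b)) =
        a - (1 : R[X]) ⊗ₜ[R] (h1_g R Y a) + (b - (1 : R[X]) ⊗ₜ[R] (h1_g R Y b)) := by
      rw [map_add, TensorProduct.tmul_add]
      abel
    rw [h2]
    exact h1

theorem h1_exact : Function.Exact (h1_f R Y) (h1_g R Y) := by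
  intro z
  constructor
  · intro h
    have h1 := h1_ker R Y z
    rw [h, TensorProduct.tmul_zero, sub_zero] at h1
    exact h1
  · rintro ⟨w, rfl⟩
    exact h1_gf R Y w

theorem h1_surj : Function.Surjective (h1_g R Y) := by
  intro y
  exact ⟨1 ⊗ₜ y, by rw [h1_g_tmul, one_smul]⟩

end

theorem h1_poly (R : Type u) [CommRing R] (n : ℕ)
    (h : ∀ (Y : Type u) [AddCommGroup Y] [Module R Y],
      HasProjectiveDimensionLT (ModuleCat.of R Y) n) :
    ∀ (Y : Type u) [AddCommGroup Y] [Module R[X] Y],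
      HasProjectiveDimensionLT (ModuleCat.of R[X] Y) (n + 1) := by
  intro Y _ _
  letI : Module R Y := Module.compHom Y (algebraMap R R[X])
  haveI : IsScalarTower R R[X] Y := ⟨fun r q z => by
    change (r • q) • z = algebraMap R R[X] r • (q • z)
    rw [Algebra.smul_def, mul_smul]⟩
  have h1 : HasProjectiveDimensionLT (ModuleCat.of R[X] (R[X] ⊗[R] Y)) n :=
    Pool.Agent.H21V.pd_tensor n Y (h Y)
  have hS := H44V.K1_sc_exact (h1_f R Y) (h1_g R Y) (h1_inj R Y) (h1_surj R Y) (h1_exact R Y)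
  have h2 : HasProjectiveDimensionLT (ModuleCat.of R[X] (R[X] ⊗[R] Y)) (n + 1) :=
    hasProjectiveDimensionLT_of_ge _ n (n + 1) (by omega)
  exact hS.hasProjectiveDimensionLT_X₃ n h1 h2

end Pool.Agent.Lib.H44X
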