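import Pool.Agent.Lib.H44X.H1
import Pool.Agent.Lib.H44X.Defs

/-!
H2 (S/M). Hilbert's syzygy theorem for `k[x_1, …, x_n]` and `k[x]_(x)`, in the form of finite
projective dimension of all modules.

* h2_mv: induction on `n`. `n = 0`: `MvPolynomial (Fin 0) k ≅ k` (`MvPolynomial.isEmptyAlgEquiv`) is a
  field, every module is projective, so has projective dimension `< 1`
  (`projective_iff_hasProjectiveDimensionLT_one`, `IsProjective.iff_projective`,
  `Module.Projective` of a module over a field; transport along the ring isomorphism).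
  Step: `MvPolynomial.finSuccEquiv k n : MvPolynomial (Fin (n+1)) k ≃ₐ[k] (MvPolynomial (Fin n) k)[X]`
  and h1_poly. Transport along a ring isomorphism: h2_equiv, with
  `hasProjectiveDimensionLE_of_semiLinearEquiv`
  (Mathlib/Algebra/Category/ModuleCat/ProjectiveDimension.lean) or by `Module.compHom`.
* h2_loc: an `SS k n`-module `Y` is a `P`-module (`Module.compHom` or
  `Module.restrictScalars`-type), and `SS k n ⊗_P Y ≅ Y` as `SS k n`-modules (localisation:
  `IsLocalizedModule`, or `IsLocalization.moduleTensorEquiv`-type lemma); `H21V.pd_tensor` (a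
  localisation is flat).
-/

set_option autoImplicit false
open CategoryTheory

namespace Pool.Agent.Lib.H44X
universe u

attribute [local instance] RingHomInvPair.of_ringEquiv in
theorem h2_equiv {R R' : Type u} [CommRing R] [CommRing R'] (e : R ≃+* R') (n : ℕ)
    (h : ∀ (Y : Type u) [AddCommGroup Y] [Module R Y],
      HasProjectiveDimensionLT (ModuleCat.of R Y) n) :
    ∀ (Y : Type u) [AddCommGroup Y] [Module R' Y],
      HasProjectiveDimensionLT (ModuleCat.of R' Y) n := by
  intro Y _ _
  cases n with
  | zero =>
    have h1 := h R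
    rw [hasProjectiveDimensionLT_zero_iff_isZero, ModuleCat.isZero_iff_subsingleton] at h1 ⊢
    have h2 : Subsingleton R := h1
    have h3 : Subsingleton R' := e.symm.toEquiv.subsingleton
    exact Module.subsingleton R' Y
  | succ n =>
    letI : Module R Y := Module.compHom Y e.toRingHom
    haveI h1 : HasProjectiveDimensionLE (ModuleCat.of R Y) n := h Y
    let e' : (ModuleCat.of R Y) ≃ₛₗ[RingHomClass.toRingHom e] (ModuleCat.of R' Y) :=
      { toFun := fun y => y
        invFun := fun y => y
        map_add' := fun _ _ => rfl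
        map_smul' := fun _ _ => rfl
        left_inv := fun _ => rfl
        right_inv := fun _ => rfl }
    exact ModuleCat.hasProjectiveDimensionLE_of_semiLinearEquiv e e' n

theorem h2_mv (k : Type u) [Field k] (n : ℕ) : ∀ (Y : Type u) [AddCommGroup Y]
    [Module (MvPolynomial (Fin n) k) Y],
    HasProjectiveDimensionLT (ModuleCat.of (MvPolynomial (Fin n) k) Y) (n + 1) := by
  induction n with
  | zero =>
    refine h2_equiv (MvPolynomial.isEmptyAlgEquiv k (Fin 0)).symm.toRingEquiv 1 ?_
    intro Y _ _
    rw [← projective_iff_hasProjectiveDimensionLT_one]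
    have h1 : Module.Projective k Y := inferInstance
    exact (IsProjective.iff_projective (R := k) Y).1 h1
  | succ n ih =>
    exact h2_equiv (MvPolynomial.finSuccEquiv k n).symm.toRingEquiv (n + 1 + 1)
      (h1_poly (MvPolynomial (Fin n) k) (n + 1) ih)

theorem h2_loc (k : Type u) [Field k] (n : ℕ) : ∀ (Y : Type u) [AddCommGroup Y]
    [Module (SS k n) Y], HasProjectiveDimensionLT (ModuleCat.of (SS k n) Y) (n + 1) := by
  intro Y _ _
  letI : Module (MvPolynomial (Fin n) k) Y :=
    Module.compHom Y (algebraMap (MvPolynomial (Fin n) k) (SS k n))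
  refine H21V.pd_base (R := MvPolynomial (Fin n) k) (R' := SS k n) (org k n).primeCompl (n + 1) Y
    (h2_mv k n Y) Y (AddMonoidHom.id Y) (fun r y => rfl) ?_ ?_
  · intro z
    exact ⟨1, Submonoid.one_mem _, z, by rw [map_one, one_smul]; rfl⟩
  · intro y hy
    have hy' : y = 0 := hy
    exact ⟨1, Submonoid.one_mem _, by rw [hy', smul_zero]⟩

end Pool.Agent.Lib.H44X
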