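import Mathlib

/-!
H3 (S/M). Weighted homogeneous ideals are generated by finitely many weighted homogeneous
polynomials of positive degree (weights `w_i > 0`, the ideal proper).

`I₀` is finitely generated (Noetherian): `I₀ = span {g_1, …, g_r}`; the finitely many non-zero
weighted homogeneous components of the `g_i` (`MvPolynomial.weightedHomogeneousComponent_finsupp`,
`MvPolynomial.sum_weightedHomogeneousComponent`) lie in `I₀` and generate it. Remove the component
of degree 0: it is a constant (`w_i > 0`: a monomial of weight 0 is 1) in `I₀`, so it is 0 because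
`I₀ ≠ ⊤`. List the remaining pairs `(i, m)`, `m > 0`, by `Fin m'` (`Finset.equivFin`, or take the
finite set of pairs as index type and transport).
-/

set_option autoImplicit false

namespace Pool.Agent.Lib.H44X
universe u

theorem h3_gen {k : Type u} [Field k] {n : ℕ} (w : Fin n → ℕ) (hw : ∀ i, 0 < w i)
    (I₀ : Ideal (MvPolynomial (Fin n) k))
    (hI : ∀ f ∈ I₀, ∀ m, MvPolynomial.weightedHomogeneousComponent w m f ∈ I₀) (hne : I₀ ≠ ⊤) :
    ∃ (m : ℕ) (f : Fin m → MvPolynomial (Fin n) k) (δ : Fin m → ℕ), (∀ v, 0 < δ v) ∧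
      (∀ v, MvPolynomial.IsWeightedHomogeneous w (f v) (δ v)) ∧
      Ideal.span (Set.range f) = I₀ := by
  classical
  obtain ⟨G, hG⟩ : I₀.FG := IsNoetherian.noetherian I₀
  have hGI : ∀ g ∈ G, g ∈ I₀ := fun g hg => by
    rw [← hG]
    exact Ideal.subset_span hg
  let U : Finset ℕ := G.biUnion fun g => (MvPolynomial.weightedHomogeneousComponent_finsupp (w := w) g).toFinset
  let T : Finset (MvPolynomial (Fin n) k × ℕ) := (G ×ˢ U).filter fun p => 0 < p.2
  have hT : ∀ p, p ∈ T ↔ (p.1 ∈ G ∧ p.2 ∈ U) ∧ 0 < p.2 := fun p => by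
    simp only [T, Finset.mem_filter, Finset.mem_product]
  refine ⟨T.card, fun v => MvPolynomial.weightedHomogeneousComponent w (T.equivFin.symm v).1.2 (T.equivFin.symm v).1.1,
    fun v => (T.equivFin.symm v).1.2, fun v => ((hT _).1 (T.equivFin.symm v).2).2, fun v =>
      MvPolynomial.weightedHomogeneousComponent_isWeightedHomogeneous _ _, ?_⟩
  apply le_antisymm
  · rw [Ideal.span_le]
    rintro _ ⟨v, rfl⟩
    exact hI _ (hGI _ ((hT _).1 (T.equivFin.symm v).2).1.1) _
  · have hle : (G : Set (MvPolynomial (Fin n) k)) ⊆ (Ideal.span (Set.range fun v =>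
        MvPolynomial.weightedHomogeneousComponent w (T.equivFin.symm v).1.2 (T.equivFin.symm v).1.1) :
          Ideal (MvPolynomial (Fin n) k)) := by
      intro g hg
      have h1 := MvPolynomial.sum_weightedHomogeneousComponent w g
      have h2 : g = ∑ m ∈ (MvPolynomial.weightedHomogeneousComponent_finsupp (w := w) g).toFinset,
          MvPolynomial.weightedHomogeneousComponent w m g := by
        rw [← finsum_eq_sum _ (MvPolynomial.weightedHomogeneousComponent_finsupp (w := w) g)]
        exact h1.symm
      rw [SetLike.mem_coe, h2]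
      refine Ideal.sum_mem _ fun m hm => ?_
      rcases Nat.eq_zero_or_pos m with h0 | h0
      · have h3 : MvPolynomial.weightedHomogeneousComponent w 0 g = MvPolynomial.C (MvPolynomial.coeff 0 g) :=
          MvPolynomial.weightedHomogeneousComponent_zero g fun i => (hw i).ne'
        have h4 := hI g (hGI g hg) 0
        rw [h3] at h4
        have h5 : MvPolynomial.coeff 0 g = 0 := by
          by_contra h6
          apply hne
          exact Ideal.eq_top_of_isUnit_mem _ h4 ((IsUnit.mk0 _ h6).map MvPolynomial.C)
        rw [h0, h3, h5, MvPolynomial.C_0]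
        exact Ideal.zero_mem _
      · apply Ideal.subset_span
        have h6 : (g, m) ∈ T := (hT _).2 ⟨⟨hg, Finset.mem_biUnion.2 ⟨g, hg, hm⟩⟩, h0⟩
        refine ⟨T.equivFin ⟨(g, m), h6⟩, ?_⟩
        simp only [Equiv.symm_apply_apply]
    have h7 := Ideal.span_le.2 hle
    have h8 : Ideal.span (G : Set (MvPolynomial (Fin n) k)) = I₀ := hG
    rw [h8] at h7
    exact h7

end Pool.Agent.Lib.H44X
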