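import Pool.Agent.Lib.H44X.RDefs

/-!
J1. Weak regularity of syzygies.
-/

set_option autoImplicit false
open CategoryTheory CategoryTheory.Abelian IsLocalRing
open Pool.Agent.Lib.Helper92 Pool.Agent.Lib.H44V

namespace Pool.Agent.Lib.H44X
universe u
variable {R : Type u} [CommRing R]

theorem j1_mono {M : Type u} [AddCommGroup M] [Module R M] {x : ℕ → R} {k l : ℕ} (h : WReg M x k)
    (hl : l ≤ k) : WReg M x l := fun j hj m hm => h j (lt_of_lt_of_le hj hl) m hm

/-- the kernel of a surjection gains one. -/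
theorem j1_ker {F X : Type u} [AddCommGroup F] [Module R F] [AddCommGroup X] [Module R X]
    (f : F →ₗ[R] X) (hf : Function.Surjective f) (x : ℕ → R) (k : ℕ) (hX : WReg X x k)
    (hF : WReg F x (k + 1)) : WReg (LinearMap.ker f) x (k + 1) := by
  intro j hj m hm
  have hmap : Submodule.map (LinearMap.ker f).subtype
      (Jx x j • (⊤ : Submodule R (LinearMap.ker f))) = Jx x j • LinearMap.ker f := by
    rw [Submodule.map_smul'', Submodule.map_subtype_top]
  have h1 : x j • (m : F) ∈ Jx x j • LinearMap.ker f := by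
    rw [← hmap]; exact Submodule.mem_map_of_mem (f := (LinearMap.ker f).subtype) hm
  have h2 : (m : F) ∈ Jx x j • (⊤ : Submodule R F) :=
    hF j hj m (Submodule.smul_mono le_rfl le_top h1)
  have h3 := wreg_inter f hf x j (fun i hi => hX i (by omega)) m m.2 h2
  rw [← hmap] at h3
  obtain ⟨m', hm', hmm'⟩ := h3
  have : m' = m := Subtype.ext hmm'
  rwa [this] at hm'

/-- the image of `H j` in a sequence of matrices. -/
abbrev RG {c : ℕ → ℕ} (H : ∀ j, Matrix (Fin (c j)) (Fin (c (j + 1))) R) (j : ℕ) :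
    Submodule R (Fin (c j) → R) := LinearMap.range (H j).mulVecLin

theorem j1_ker_eq {c : ℕ → ℕ} (H : ∀ j, Matrix (Fin (c j)) (Fin (c (j + 1))) R)
    (hex : ∀ j v, (H j).mulVec v = 0 ↔ ∃ w, v = (H (j + 1)).mulVec w) (j : ℕ) :
    LinearMap.ker ((H j).mulVecLin.rangeRestrict) = RG H (j + 1) := by
  rw [LinearMap.ker_rangeRestrict]
  ext v
  rw [LinearMap.mem_ker, Matrix.mulVecLin_apply, hex, LinearMap.mem_range]
  simp only [Matrix.mulVecLin_apply]
  exact ⟨fun ⟨w, hw⟩ => ⟨w, hw.symm⟩, fun ⟨w, hw⟩ => ⟨w, hw.symm⟩⟩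

theorem j1_wreg {c : ℕ → ℕ} (H : ∀ j, Matrix (Fin (c j)) (Fin (c (j + 1))) R)
    (hex : ∀ j v, (H j).mulVec v = 0 ↔ ∃ w, v = (H (j + 1)).mulVec w) (x : ℕ → R) (k : ℕ)
    (hR : WReg R x k) (j : ℕ) : ∀ l ≤ k, l ≤ j + 1 → WReg (RG H j) x l := by
  induction j with
  | zero =>
    intro l hl hlj
    rcases Nat.eq_zero_or_pos l with h0 | h0
    · subst h0
      exact fun i hi => absurd hi (Nat.not_lt_zero i)
    · have h1 : l = 0 + 1 := by omega
      subst h1
      have h2 := j1_ker (Submodule.mkQ (RG H 0)) (Submodule.mkQ_surjective _) x 0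
        (fun i hi => absurd hi (Nat.not_lt_zero i)) (j1_mono (wreg_pi x k hR _) hl)
      rwa [Submodule.ker_mkQ] at h2
  | succ j ih =>
    intro l hl hlj
    rcases Nat.eq_zero_or_pos l with h0 | h0
    · subst h0
      exact fun i hi => absurd hi (Nat.not_lt_zero i)
    · obtain ⟨l, rfl⟩ : ∃ l', l = l' + 1 := ⟨l - 1, by omega⟩
      have h2 := j1_ker ((H j).mulVecLin.rangeRestrict) (LinearMap.surjective_rangeRestrict _) x l
        (ih l (by omega) (by omega)) (j1_mono (wreg_pi x k hR _) hl)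
      rwa [j1_ker_eq H hex j] at h2

theorem j1_pd {c : ℕ → ℕ} (H : ∀ j, Matrix (Fin (c j)) (Fin (c (j + 1))) R)
    (hex : ∀ j v, (H j).mulVec v = 0 ↔ ∃ w, v = (H (j + 1)).mulVec w) (s : ℕ)
    (hs : ∀ j, s < j → c j = 0) (j : ℕ) :
    ∃ n, HasProjectiveDimensionLT (ModuleCat.of R (RG H j)) n := by
  have key : ∀ t j, s < j + t → ∃ n, HasProjectiveDimensionLT (ModuleCat.of R (RG H j)) n := by
    intro t
    induction t with
    | zero =>
      intro j hj
      refine ⟨0, ?_⟩
      rw [hasProjectiveDimensionLT_zero_iff_isZero]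
      have hc : c j = 0 := hs j (by omega)
      have h1 : IsEmpty (Fin (c j)) := by rw [hc]; exact Fin.isEmpty
      have h2 : Subsingleton (RG H j) := ⟨fun a b => Subtype.ext (Subsingleton.elim _ _)⟩
      exact ModuleCat.isZero_of_subsingleton _
    | succ t ih =>
      intro j hj
      obtain ⟨n, hn⟩ := ih (j + 1) (by omega)
      have hsurj : Function.Surjective ((H j).mulVecLin.rangeRestrict) :=
        LinearMap.surjective_rangeRestrict _
      have hses := LinearMap.shortExact_shortComplexKer hsurj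
      have hproj : Projective (ModuleCat.of R (Fin (c (j + 1)) → R)) := inferInstance
      refine ⟨n + 2, (hses.hasProjectiveDimensionLT_X₃_iff n hproj).mpr ?_⟩
      have hK : HasProjectiveDimensionLT
          (ModuleCat.of R (LinearMap.ker ((H j).mulVecLin.rangeRestrict))) n := by
        rw [j1_ker_eq H hex j]
        exact hn
      exact hasProjectiveDimensionLT_of_ge _ n (n + 1) (by omega)
  exact key (s + 1) j (by omega)

end Pool.Agent.Lib.H44X
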