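import Pool.Agent.Lib.H44X.J1

/-!
J2. Over a local ring of dimension at most `i + 1`, an exact sequence of free modules splits at the place `i + 2`.
-/

set_option autoImplicit false
open CategoryTheory CategoryTheory.Abelian IsLocalRing
open Pool.Agent.Lib.Helper92 Pool.Agent.Lib.H44V

namespace Pool.Agent.Lib.H44X
universe u
variable {R : Type u} [CommRing R]

theorem j2_free [IsNoetherianRing R] [IsLocalRing R] {c : ℕ → ℕ}
    (H : ∀ j, Matrix (Fin (c j)) (Fin (c (j + 1))) R)
    (hex : ∀ j v, (H j).mulVec v = 0 ↔ ∃ w, v = (H (j + 1)).mulVec w) (s : ℕ)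
    (hs : ∀ j, s < j → c j = 0) (i : ℕ) (hdim : ringKrullDim R ≤ ((i + 1 : ℕ) : WithBot ℕ∞)) :
    Module.Free R (RG H i) := by
  have hd : ∀ rs : List R, RingTheory.Sequence.IsRegular R rs → rs.length ≤ i + 1 := by
    intro rs hrs
    have h1 := ringKrullDim_add_length_eq_ringKrullDim_of_isRegular rs hrs
    have h2 : (0 : WithBot ℕ∞) ≤ ringKrullDim (R ⧸ Ideal.ofList rs) := by
      have h3 : Nontrivial (R ⧸ Ideal.ofList rs) := by
        rw [Ideal.Quotient.nontrivial_iff]
        intro h4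
        apply hrs.top_ne_smul
        rw [h4, Submodule.top_smul]
      exact ringKrullDim_nonneg_of_nontrivial
    have h5 : ((rs.length : ℕ) : WithBot ℕ∞) ≤ ringKrullDim R := by
      rw [← h1]
      exact le_add_of_nonneg_left h2
    have h6 := h5.trans hdim
    exact_mod_cast h6
  obtain ⟨k, hk, x, hx, z, hz, hzm⟩ := exists_max_regular (i + 1) hd
  have hw := wreg_of_isSMulRegular x k hx
  obtain ⟨n, hn⟩ := j1_pd H hex s hs i
  exact free_of_pd x k hw z hz hzm n (RG H i) (j1_wreg H hex x k hw i k le_rfl hk) hn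

/-- a projective image: the sequence splits one step before. -/
theorem j2_split {c : ℕ → ℕ} (H : ∀ j, Matrix (Fin (c j)) (Fin (c (j + 1))) R)
    (hex : ∀ j v, (H j).mulVec v = 0 ↔ ∃ w, v = (H (j + 1)).mulVec w) (i : ℕ)
    (hfree : Module.Projective R (RG H i)) :
    ∃ (h : Matrix (Fin (c (i + 3))) (Fin (c (i + 2))) R)
      (h' : Matrix (Fin (c (i + 2))) (Fin (c (i + 1))) R),
      (1 : Matrix (Fin (c (i + 2))) (Fin (c (i + 2))) R) = H (i + 2) * h + h' * H (i + 1) := by
  classical
  obtain ⟨σ, hσ⟩ := Module.projective_lifting_property ((H i).mulVecLin.rangeRestrict) LinearMap.id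
    (LinearMap.surjective_rangeRestrict _)
  -- `v - σ (H i v)` is in the image of `H (i+1)`
  have h1 : ∀ v : Fin (c (i + 1)) → R, ∃ w : Fin (c (i + 2)) → R,
      v - σ ((H i).mulVecLin.rangeRestrict v) = (H (i + 1)).mulVec w := by
    intro v
    rw [← hex]
    have h2 : (H i).mulVecLin.rangeRestrict (v - σ ((H i).mulVecLin.rangeRestrict v)) = 0 := by
      rw [map_sub]
      have h3 := LinearMap.congr_fun hσ ((H i).mulVecLin.rangeRestrict v)
      rw [LinearMap.comp_apply, LinearMap.id_apply] at h3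
      rw [h3, sub_self]
    have h4 := congrArg Subtype.val h2
    exact h4
  choose w hw using fun b : Fin (c (i + 1)) => h1 (Pi.single b 1)
  let h' : Matrix (Fin (c (i + 2))) (Fin (c (i + 1))) R := Matrix.of fun a b => w b a
  have hh' : ∀ v : Fin (c (i + 1)) → R, v - σ ((H i).mulVecLin.rangeRestrict v) =
      (H (i + 1)).mulVec (h'.mulVec v) := by
    intro v
    let L : (Fin (c (i + 1)) → R) →ₗ[R] (Fin (c (i + 1)) → R) :=
      LinearMap.id - σ ∘ₗ ((H i).mulVecLin.rangeRestrict)
    let L' : (Fin (c (i + 1)) → R) →ₗ[R] (Fin (c (i + 1)) → R) :=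
      (H (i + 1)).mulVecLin ∘ₗ h'.mulVecLin
    have h2 : L = L' := by
      refine LinearMap.pi_ext' fun b => ?_
      refine LinearMap.ext_ring ?_
      show (Pi.single b (1 : R) : Fin (c (i + 1)) → R) - σ ((H i).mulVecLin.rangeRestrict (Pi.single b 1)) =
        (H (i + 1)).mulVec (h'.mulVec (Pi.single b 1))
      rw [hw b]
      congr 1
      rw [Matrix.mulVec_single_one]
      rfl
    exact LinearMap.congr_fun h2 v
  -- `v - h' (H (i+1) v)` is in the image of `H (i+2)`
  have h3 : ∀ v : Fin (c (i + 2)) → R, ∃ w : Fin (c (i + 3)) → R,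
      v - h'.mulVec ((H (i + 1)).mulVec v) = (H (i + 2)).mulVec w := by
    intro v
    rw [← hex, Matrix.mulVec_sub, ← hh']
    have h4 : (H i).mulVec ((H (i + 1)).mulVec v) = 0 := (hex i _).2 ⟨v, rfl⟩
    have h5 : (H i).mulVecLin.rangeRestrict ((H (i + 1)).mulVec v) = 0 := Subtype.ext h4
    rw [h5, map_zero, sub_zero, sub_self]
  choose z hz using fun b : Fin (c (i + 2)) => h3 (Pi.single b 1)
  let h : Matrix (Fin (c (i + 3))) (Fin (c (i + 2))) R := Matrix.of fun a b => z b a
  refine ⟨h, h', ?_⟩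
  ext a b
  have h5 := congrFun (hz b) a
  rw [Pi.sub_apply] at h5
  have h6 : (H (i + 2) * h) a b = (H (i + 2)).mulVec (z b) a := by
    rw [Matrix.mul_apply]
    rfl
  have h7 : (h' * H (i + 1)) a b = h'.mulVec ((H (i + 1)).mulVec (Pi.single b 1)) a := by
    rw [Matrix.mulVec_mulVec, Matrix.mulVec_single_one]
    rfl
  rw [Matrix.add_apply, h6, h7, ← h5, sub_add_cancel, Matrix.one_apply, Pi.single_apply]

end Pool.Agent.Lib.H44X
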