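import Pool.Agent.Lib.H44X.J2

/-!
J3. Localisation: the splitting holds up to an element outside a prime ideal `q` with `dim R_q ≤ i + 1`.
-/

set_option autoImplicit false
open CategoryTheory CategoryTheory.Abelian IsLocalRing
open Pool.Agent.Lib.Helper92 Pool.Agent.Lib.H44V

namespace Pool.Agent.Lib.H44X
universe u
variable {R : Type u} [CommRing R]

section
variable (M : Submonoid R) (A : Type u) [CommRing A] [Algebra R A] [IsLocalization M A]

include M in
theorem j3_vec {ι : Type} [Finite ι] (v : ι → A) :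
    ∃ t ∈ M, ∃ v0 : ι → R, ∀ a, algebraMap R A t * v a = algebraMap R A (v0 a) := by
  obtain ⟨t, ht⟩ := IsLocalization.exist_integer_multiples_of_finite M v
  choose v0 hv0 using ht
  refine ⟨t, t.2, v0, fun a => ?_⟩
  rw [hv0 a, Algebra.smul_def]

include M in
theorem j3_zero {ι : Type} [Finite ι] (v : ι → R) (hv : ∀ a, algebraMap R A (v a) = 0) :
    ∃ t ∈ M, ∀ a, t * v a = 0 := by
  classical
  have := Fintype.ofFinite ι
  choose t ht using fun a => (IsLocalization.map_eq_zero_iff M A (v a)).1 (hv a)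
  refine ⟨∏ a, (t a : R), Submonoid.prod_mem _ fun a _ => (t a).2, fun a => ?_⟩
  rw [← Finset.prod_erase_mul _ _ (Finset.mem_univ a), mul_assoc, ht a, mul_zero]

theorem j3_mulVec {p r : ℕ} (B : Matrix (Fin p) (Fin r) R) (v : Fin r → R) (a : Fin p) :
    ((B.map (algebraMap R A)).mulVec fun b => algebraMap R A (v b)) a =
      algebraMap R A (B.mulVec v a) := by
  simp only [Matrix.mulVec, dotProduct, map_sum, map_mul, Matrix.map_apply]

include M in
theorem j3_exact {c : ℕ → ℕ} (H : ∀ j, Matrix (Fin (c j)) (Fin (c (j + 1))) R)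
    (hex : ∀ j v, (H j).mulVec v = 0 ↔ ∃ w, v = (H (j + 1)).mulVec w) (j : ℕ)
    (v : Fin (c (j + 1)) → A) : ((H j).map (algebraMap R A)).mulVec v = 0 ↔
      ∃ w, v = ((H (j + 1)).map (algebraMap R A)).mulVec w := by
  constructor
  · intro hv
    obtain ⟨t, ht, v0, hv0⟩ := j3_vec M A v
    have h1 : ∀ a, algebraMap R A ((H j).mulVec v0 a) = 0 := by
      intro a
      rw [← j3_mulVec]
      have h2 : (fun b => algebraMap R A (v0 b)) = algebraMap R A t • v := by
        funext b
        rw [Pi.smul_apply, smul_eq_mul, hv0]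
      rw [h2, Matrix.mulVec_smul, hv, smul_zero, Pi.zero_apply]
    obtain ⟨t', ht', h3⟩ := j3_zero M A _ h1
    have h4 : (H j).mulVec (t' • v0) = 0 := by
      rw [Matrix.mulVec_smul]
      funext a
      exact h3 a
    obtain ⟨w, hw⟩ := (hex j _).1 h4
    have hu : IsUnit (algebraMap R A (t' * t)) := IsLocalization.map_units A ⟨t' * t, M.mul_mem ht' ht⟩
    obtain ⟨z, hz⟩ := hu.exists_left_inv
    refine ⟨z • fun b => algebraMap R A (w b), ?_⟩
    funext a
    rw [Matrix.mulVec_smul, Pi.smul_apply, j3_mulVec, ← hw, smul_eq_mul, Pi.smul_apply, smul_eq_mul,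
      map_mul, ← hv0, ← mul_assoc (algebraMap R A t'), ← map_mul, ← mul_assoc, hz, one_mul]
  · rintro ⟨w, rfl⟩
    have h1 : H j * H (j + 1) = 0 := by
      ext a b
      have h2 := (hex j ((H (j + 1)).mulVec (Pi.single b 1))).2 ⟨_, rfl⟩
      rw [Matrix.mulVec_mulVec, Matrix.mulVec_single_one] at h2
      exact congrFun h2 a
    rw [Matrix.mulVec_mulVec, ← Matrix.map_mul, h1, Matrix.map_zero _ (map_zero _), Matrix.zero_mulVec]

end

theorem j3_loc [IsNoetherianRing R] {c : ℕ → ℕ}
    (H : ∀ j, Matrix (Fin (c j)) (Fin (c (j + 1))) R)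
    (hex : ∀ j v, (H j).mulVec v = 0 ↔ ∃ w, v = (H (j + 1)).mulVec w) (s : ℕ)
    (hs : ∀ j, s < j → c j = 0) (i : ℕ) (q : Ideal R) [q.IsPrime]
    (hdim : ringKrullDim (Localization.AtPrime q) ≤ ((i + 1 : ℕ) : WithBot ℕ∞)) :
    ∃ u, u ∉ q ∧ ∃ (h : Matrix (Fin (c (i + 3))) (Fin (c (i + 2))) R)
      (h' : Matrix (Fin (c (i + 2))) (Fin (c (i + 1))) R),
      u • (1 : Matrix (Fin (c (i + 2))) (Fin (c (i + 2))) R) = H (i + 2) * h + h' * H (i + 1) := by
  classical
  let A := Localization.AtPrime q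
  have hexA := j3_exact q.primeCompl A H hex
  have hfree := j2_free (fun j => (H j).map (algebraMap R A)) hexA s hs i hdim
  obtain ⟨h, h', hh⟩ := j2_split (fun j => (H j).map (algebraMap R A)) hexA i inferInstance
  obtain ⟨t, ht, h0, hh0⟩ := j3_vec q.primeCompl A (fun p : Fin (c (i + 3)) × Fin (c (i + 2)) => h p.1 p.2)
  obtain ⟨t', ht', h0', hh0'⟩ := j3_vec q.primeCompl A (fun p : Fin (c (i + 2)) × Fin (c (i + 1)) => h' p.1 p.2)
  let B : Matrix (Fin (c (i + 2))) (Fin (c (i + 2))) R :=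
    (t * t') • (1 : Matrix (Fin (c (i + 2))) (Fin (c (i + 2))) R) -
      (H (i + 2) * (t' • Matrix.of fun a b => h0 (a, b)) + (t • Matrix.of fun a b => h0' (a, b)) * H (i + 1))
  have hB : ∀ p : Fin (c (i + 2)) × Fin (c (i + 2)), algebraMap R A (B p.1 p.2) = 0 := by
    rintro ⟨a, b⟩
    have h1 := congrFun (congrFun hh a) b
    rw [Matrix.add_apply, Matrix.mul_apply, Matrix.mul_apply] at h1
    simp only [B, Matrix.sub_apply, Matrix.add_apply, Matrix.smul_apply, Matrix.mul_apply, smul_eq_mul,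
      Matrix.of_apply, map_sub, map_add, map_mul, map_sum]
    have h2 : algebraMap R A ((1 : Matrix (Fin (c (i + 2))) (Fin (c (i + 2))) R) a b) =
        (1 : Matrix (Fin (c (i + 2))) (Fin (c (i + 2))) A) a b := by
      rw [Matrix.one_apply, Matrix.one_apply]
      split_ifs
      · exact map_one _
      · exact map_zero _
    rw [h2, h1, mul_add, Finset.mul_sum, Finset.mul_sum, sub_eq_zero]
    congr 1
    · refine Finset.sum_congr rfl fun e _ => ?_
      rw [← hh0 (e, b), Matrix.map_apply]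
      ring
    · refine Finset.sum_congr rfl fun e _ => ?_
      rw [← hh0' (a, e), Matrix.map_apply]
      ring
  obtain ⟨v, hv, hvB⟩ := j3_zero q.primeCompl A _ hB
  refine ⟨v * (t * t'), ?_, v • (t' • Matrix.of fun a b => h0 (a, b)), v • (t • Matrix.of fun a b => h0' (a, b)), ?_⟩
  · exact q.primeCompl.mul_mem hv (q.primeCompl.mul_mem ht ht')
  · rw [Matrix.mul_smul, Matrix.smul_mul, ← smul_add, mul_smul, ← sub_eq_zero, ← smul_sub]
    ext a b
    exact hvB (a, b)

end Pool.Agent.Lib.H44X
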