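import Pool.Agent.Lib.H44X.J3

/-!
J4. The resolution of a dual module `N = Hom(M, R)` prolonged to the left: an exact sequence of free modules
`H_0, H_1, dm_0, dm_1, …`.
-/

set_option autoImplicit false
open CategoryTheory CategoryTheory.Abelian IsLocalRing
open Pool.Agent.Lib.Helper92 Pool.Agent.Lib.H44V

namespace Pool.Agent.Lib.H44X
universe u
variable {R : Type u} [CommRing R]

/-- the sizes `b, a, g 0, g 1, …`. -/
def cx (b a : ℕ) (g : ℕ → ℕ) : ℕ → ℕ
  | 0 => b
  | 1 => a
  | (j + 2) => g j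

/-- the matrices `H_0, H_1, dm_0, dm_1, …`. -/
def Hx {b a : ℕ} {g : ℕ → ℕ} (H0 : Matrix (Fin b) (Fin a) R) (H1 : Matrix (Fin a) (Fin (g 0)) R)
    (dm : ∀ j, Matrix (Fin (g j)) (Fin (g (j + 1))) R) :
    ∀ j, Matrix (Fin (cx b a g j)) (Fin (cx b a g (j + 1))) R
  | 0 => H0
  | 1 => H1
  | (j + 2) => dm j

theorem j4_ext [IsNoetherianRing R] [IsLocalRing R] (M : Type u) [AddCommGroup M] [Module R M]
    [Module.Finite R M] (G : MRes R (M →ₗ[R] R)) :
    ∃ (b a : ℕ) (H0 : Matrix (Fin b) (Fin a) R) (H1 : Matrix (Fin a) (Fin (G.b 0)) R),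
      ∀ j v, (Hx H0 H1 G.dm j).mulVec v = 0 ↔ ∃ w, v = (Hx H0 H1 G.dm (j + 1)).mulVec w := by
  classical
  obtain ⟨a, p, hp⟩ := Module.Finite.exists_fin' R M
  obtain ⟨b, r, hr⟩ := Module.Finite.exists_fin' R (LinearMap.ker p)
  let r' : (Fin b → R) →ₗ[R] (Fin a → R) := (LinearMap.ker p).subtype ∘ₗ r
  let H0 : Matrix (Fin b) (Fin a) R := Matrix.of fun e i => r' (Pi.single e 1) i
  let H1 : Matrix (Fin a) (Fin (G.b 0)) R := Matrix.of fun i e => G.pi (Pi.single e 1) (p (Pi.single i 1))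
  have hsum : ∀ {m : ℕ} (v : Fin m → R), v = ∑ e, v e • (Pi.single e (1 : R) : Fin m → R) := by
    intro m v
    funext i
    rw [Finset.sum_apply]
    simp [Pi.single_apply]
  have hH1 : ∀ (w : Fin (G.b 0) → R) (i : Fin a), H1.mulVec w i = G.pi w (p (Pi.single i 1)) := by
    intro w i
    conv_rhs => rw [hsum w, map_sum, LinearMap.sum_apply]
    rw [Matrix.mulVec, dotProduct]
    refine Finset.sum_congr rfl fun e _ => ?_
    rw [map_smul, LinearMap.smul_apply, smul_eq_mul, mul_comm]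
    rfl
  have hgen : ∀ φ ψ : M →ₗ[R] R, (∀ i, φ (p (Pi.single i 1)) = ψ (p (Pi.single i 1))) → φ = ψ := by
    intro φ ψ h
    refine LinearMap.ext fun m => ?_
    obtain ⟨v, rfl⟩ := hp m
    rw [hsum v, map_sum, map_sum, map_sum]
    refine Finset.sum_congr rfl fun e _ => ?_
    rw [map_smul, map_smul, map_smul, h]
  refine ⟨b, a, H0, H1, ?_⟩
  intro j v
  match j, v with
  | 0, v =>
    change Fin a → R at v
    show H0.mulVec v = 0 ↔ ∃ w : Fin (G.b 0) → R, v = H1.mulVec w
    let φ0 : (Fin a → R) →ₗ[R] R := Fintype.linearCombination R v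
    have hφ0 : ∀ y : Fin a → R, φ0 y = ∑ i, y i * v i := fun y => rfl
    constructor
    · intro hv
      have h1 : ∀ y ∈ LinearMap.ker p, φ0 y = 0 := by
        intro y hy
        obtain ⟨z, hz⟩ := hr ⟨y, hy⟩
        have h2 : y = r' z := (congrArg Subtype.val hz).symm
        rw [h2, hsum z, map_sum, map_sum]
        refine Finset.sum_eq_zero fun e _ => ?_
        rw [map_smul, map_smul]
        have h3 : φ0 (r' (Pi.single e 1)) = 0 := congrFun hv e
        rw [h3, smul_zero]
      have h2 : LinearMap.ker p ≤ LinearMap.ker φ0 := h1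
      let q : M ≃ₗ[R] ((Fin a → R) ⧸ LinearMap.ker p) := (p.quotKerEquivOfSurjective hp).symm
      let φ : M →ₗ[R] R := ((LinearMap.ker p).liftQ φ0 h2) ∘ₗ q.toLinearMap
      obtain ⟨w, hw⟩ := G.surj φ
      refine ⟨w, ?_⟩
      funext i
      rw [hH1, hw]
      have h3 : q (p (Pi.single i 1)) = Submodule.Quotient.mk (Pi.single i 1) := by
        rw [LinearEquiv.symm_apply_eq]
        rfl
      show v i = ((LinearMap.ker p).liftQ φ0 h2) (q (p (Pi.single i 1)))
      rw [h3, Submodule.liftQ_apply, hφ0]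
      simp [Pi.single_apply]
    · rintro ⟨w, rfl⟩
      funext e
      have h1 : H0.mulVec (H1.mulVec w) e = ∑ i, r' (Pi.single e 1) i * G.pi w (p (Pi.single i 1)) := by
        rw [Matrix.mulVec, dotProduct]
        refine Finset.sum_congr rfl fun i _ => ?_
        rw [hH1]
        rfl
      rw [h1]
      have h2 : p (r' (Pi.single e 1)) = 0 := (r (Pi.single e 1)).2
      have h3 : G.pi w (p (r' (Pi.single e 1))) = ∑ i, r' (Pi.single e 1) i * G.pi w (p (Pi.single i 1)) := by
        conv_lhs => rw [hsum (r' (Pi.single e 1)), map_sum, map_sum]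
        refine Finset.sum_congr rfl fun i _ => ?_
        rw [map_smul, map_smul, smul_eq_mul]
      rw [← h3, h2, map_zero]
      rfl
  | 1, v =>
    change Fin (G.b 0) → R at v
    show H1.mulVec v = 0 ↔ ∃ w : Fin (G.b 1) → R, v = (G.dm 0).mulVec w
    rw [← G.ex0]
    constructor
    · intro h
      refine hgen _ _ fun i => ?_
      rw [← hH1, h]
      rfl
    · intro h
      funext i
      rw [hH1, h]
      rfl
  | (j + 2), v =>
    exact G.ex j v

end Pool.Agent.Lib.H44X
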