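import Mathlib

/-!
J5a. Dimension count.
-/

set_option autoImplicit false

namespace Pool.Agent.Lib.H44X

theorem j5_count {R : Type*} [CommRing R] [IsNoetherianRing R] [IsLocalRing R] (J : Ideal R) (t : ℕ)
    (h : ∀ (q : Ideal R) [q.IsPrime], J ≤ q →
      ¬ ringKrullDim (Localization.AtPrime q) ≤ ((t : ℕ) : WithBot ℕ∞)) :
    ringKrullDim (R ⧸ J) + ((t : ℕ) : WithBot ℕ∞) < ringKrullDim R := by
  by_cases hJ : J = ⊤
  · have h1 : Subsingleton (R ⧸ J) := Ideal.Quotient.subsingleton_iff.2 hJ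
    rw [ringKrullDim_eq_bot_of_subsingleton, WithBot.bot_add]
    exact lt_of_lt_of_le (WithBot.bot_lt_coe _) (ringKrullDim_nonneg_of_nontrivial (R := R))
  · have hnt : Nontrivial (R ⧸ J) := Ideal.Quotient.nontrivial_iff.2 hJ
    obtain ⟨ℓ, hℓ⟩ : ∃ ℓ : ℕ, ringKrullDim (R ⧸ J) = ((ℓ : ℕ) : WithBot ℕ∞) := by
      have h1 : ringKrullDim (R ⧸ J) < ⊤ :=
        lt_of_le_of_lt (ringKrullDim_quotient_le J) ringKrullDim_lt_top
      have h0 : (0 : WithBot ℕ∞) ≤ ringKrullDim (R ⧸ J) := ringKrullDim_nonneg_of_nontrivial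
      generalize ringKrullDim (R ⧸ J) = k at h0 h1
      induction k with
      | bot => exact absurd h0 (by simp)
      | coe k =>
        induction k with
        | top => exact absurd h1 (by simp)
        | coe k => exact ⟨k, rfl⟩
    obtain ⟨l, hl⟩ := Order.le_krullDim_iff.1 (le_of_eq hℓ.symm)
    have hf : StrictMono (PrimeSpectrum.comap (Ideal.Quotient.mk J)) := by
      have h2 : Monotone (PrimeSpectrum.comap (Ideal.Quotient.mk J)) := fun a b hab =>
        Ideal.comap_mono hab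
      exact h2.strictMono_of_injective
        (PrimeSpectrum.comap_injective_of_surjective _ Ideal.Quotient.mk_surjective)
    let l' := l.map _ hf
    have h3 : ((ℓ : ℕ) : ℕ∞) ≤ Order.coheight l'.head := by
      have h4 := Order.length_le_coheight_head (p := l')
      have h5 : l'.length = ℓ := hl
      rw [h5] at h4
      exact h4
    have hJq : J ≤ l'.head.asIdeal := by
      intro x hx
      show Ideal.Quotient.mk J x ∈ (l.head).asIdeal
      rw [Ideal.Quotient.eq_zero_iff_mem.2 hx]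
      exact Ideal.zero_mem _
    have h6 := h l'.head.asIdeal hJq
    rw [IsLocalization.AtPrime.ringKrullDim_eq_height l'.head.asIdeal] at h6
    have h7 : ((t + 1 : ℕ) : ℕ∞) ≤ Order.height l'.head := by
      have h8 : ¬ (l'.head.asIdeal.height ≤ ((t : ℕ) : ℕ∞)) := by
        intro h9
        apply h6
        exact_mod_cast h9
      rw [not_le, PrimeSpectrum.height_eq_orderHeight] at h8
      have h11 := Order.add_one_le_of_lt h8
      rw [Nat.cast_add, Nat.cast_one]
      exact h11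
    have hne : Nonempty (PrimeSpectrum R) := ⟨l'.head⟩
    have h12 : (((t + 1 : ℕ) : ℕ∞) + ((ℓ : ℕ) : ℕ∞)) ≤
        ⨆ a : PrimeSpectrum R, Order.height a + Order.coheight a :=
      (add_le_add h7 h3).trans (le_iSup (fun a : PrimeSpectrum R => Order.height a + Order.coheight a) l'.head)
    have h13 : ringKrullDim R = ((⨆ a : PrimeSpectrum R, Order.height a + Order.coheight a : ℕ∞) : WithBot ℕ∞) :=
      Order.krullDim_eq_iSup_height_add_coheight_of_nonempty
    rw [hℓ, h13]
    have h14 : (((ℓ + t : ℕ) : ℕ∞) : WithBot ℕ∞) < ((((t + 1 : ℕ) : ℕ∞) + ((ℓ : ℕ) : ℕ∞) : ℕ∞) : WithBot ℕ∞) := by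
      have h15 : ((ℓ + t : ℕ) : ℕ∞) < (((t + 1 : ℕ) : ℕ∞) + ((ℓ : ℕ) : ℕ∞)) := by
        exact_mod_cast (by omega : ℓ + t < t + 1 + ℓ)
      exact_mod_cast h15
    refine lt_of_lt_of_le ?_ (WithBot.coe_le_coe.2 h12)
    refine lt_of_eq_of_lt ?_ h14
    push_cast
    rfl

end Pool.Agent.Lib.H44X
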