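import Pool.Agent.Lib.H44X.RDefs

/-!
R2 (M). A minimal resolution of a module of projective dimension `≤ s` has `G_j = 0` for `j > s`.

Let `X_0 = N` and `X_(j+1) = range (dm_j) ≤ (Fin b_j → R)`. The sequences
`0 → X_(j+1) → (Fin b_j → R) → X_j → 0` are exact (`ex0`, `ex`), so by
`ShortComplex.ShortExact.hasProjectiveDimensionLT_X₁` (compare the proof of Helper92.free_of_pd)
`X_j` has projective dimension `< s + 1 - j` for `j ≤ s`. So `X_s` is projective and the
surjection `(Fin b_s → R) → X_s` splits: there is `τ` with kernel projection `ρ = 1 - τ ∘ f`,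
`ρ` is the identity on `X_(s+1)` and has image in `X_(s+1)`. Since `X_(s+1) ⊆ 𝔪 (Fin b_s → R)`
(`min`), `X_(s+1) = ρ(X_(s+1)) ⊆ 𝔪 X_(s+1)`, so `X_(s+1) = 0` by Nakayama
(Submodule.eq_bot_of_le_smul_of_le_jacobson_bot), i.e. `dm_s = 0`. Then by `ex s` every vector of
`Fin b_(s+1) → R` is in the range of `dm_(s+1)`, so has coordinates in `𝔪` (`min`); a unit vector
gives a contradiction unless `b_(s+1) = 0`. If `b_j = 0`, `j > s`, then `dm_j = 0` (no rows) and
the same argument gives `b_(j+1) = 0`.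
(`s = 0`: `N` itself is projective, `f = π`.)
-/

set_option autoImplicit false
open CategoryTheory CategoryTheory.Abelian IsLocalRing
open Pool.Agent.Lib.Helper92 Pool.Agent.Lib.H44V

namespace Pool.Agent.Lib.H44X
universe u

theorem r2_step {R : Type u} [CommRing R] [IsLocalRing R] {N : Type u}
    [AddCommGroup N] [Module R N] (G : MRes R N) (j : ℕ) (h : ∀ w, (G.dm j).mulVec w = 0) :
    G.b (j + 1) = 0 := by
  by_contra hb
  obtain ⟨i, -⟩ : ∃ i : Fin (G.b (j + 1)), i = i := ⟨⟨0, Nat.pos_of_ne_zero hb⟩, rfl⟩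
  obtain ⟨w, hw⟩ := (G.ex j (Pi.single i 1)).1 (h _)
  have h1 := congrFun hw i
  rw [Pi.single_eq_same] at h1
  have h2 : ((G.dm (j + 1)).mulVec w) i ∈ maximalIdeal R := by
    change ∑ c, G.dm (j + 1) i c * w c ∈ _
    exact Ideal.sum_mem _ fun c _ => Ideal.mul_mem_right _ _ (G.min _ _ _)
  rw [← h1] at h2
  exact (Ideal.ne_top_iff_one _).1 (maximalIdeal.isMaximal R).ne_top h2

/-- The first syzygy. -/
def r2_tail {R : Type u} [CommRing R] [IsLocalRing R] {N : Type u}
    [AddCommGroup N] [Module R N] (G : MRes R N) : MRes R (LinearMap.ker G.pi) where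
  b j := G.b (j + 1)
  dm j := G.dm (j + 1)
  pi := (Matrix.mulVecLin (G.dm 0)).codRestrict _ (fun w => (G.ex0 _).2 ⟨w, rfl⟩)
  surj := by
    rintro ⟨v, hv⟩
    obtain ⟨w, hw⟩ := (G.ex0 v).1 hv
    exact ⟨w, Subtype.ext hw.symm⟩
  ex0 v := Iff.trans Subtype.ext_iff (G.ex 0 v)
  ex j v := G.ex (j + 1) v
  min j := G.min (j + 1)

theorem r2_base {R : Type u} [CommRing R] [IsNoetherianRing R] [IsLocalRing R] (N : Type u)
    [AddCommGroup N] [Module R N] (G : MRes R N) (hN : Module.Projective R N) : G.b 1 = 0 := by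
  obtain ⟨τ, hτ⟩ := Module.projective_lifting_property G.pi LinearMap.id G.surj
  have hτ' : ∀ y, G.pi (τ y) = y := fun y => LinearMap.congr_fun hτ y
  have hmem : ∀ v ∈ LinearMap.ker G.pi, v ∈ maximalIdeal R • (⊤ : Submodule R (Fin (G.b 0) → R)) := by
    intro v hv
    obtain ⟨w, hw⟩ := (G.ex0 v).1 hv
    have h1 : v = ∑ i, v i • (Pi.single i 1 : Fin (G.b 0) → R) := by
      funext l
      rw [Finset.sum_apply, Finset.sum_eq_single l]
      · rw [Pi.smul_apply, Pi.single_eq_same, smul_eq_mul, mul_one]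
      · intro b _ hb
        rw [Pi.smul_apply, Pi.single_eq_of_ne hb.symm, smul_zero]
      · intro h
        exact absurd (Finset.mem_univ _) h
    rw [h1]
    refine Submodule.sum_mem _ fun i _ => Submodule.smul_mem_smul ?_ Submodule.mem_top
    rw [hw]
    change ∑ c, G.dm 0 i c * w c ∈ _
    exact Ideal.sum_mem _ fun c _ => Ideal.mul_mem_right _ _ (G.min _ _ _)
  let ρ : (Fin (G.b 0) → R) →ₗ[R] (Fin (G.b 0) → R) := LinearMap.id - τ ∘ₗ G.pi
  have hρ : ∀ v, ρ v = v - τ (G.pi v) := fun v => rfl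
  have hρr : LinearMap.range ρ ≤ LinearMap.ker G.pi := by
    rintro _ ⟨v, rfl⟩
    rw [LinearMap.mem_ker, hρ, map_sub, hτ', sub_self]
  have hle : LinearMap.ker G.pi ≤ maximalIdeal R • LinearMap.ker G.pi := by
    intro v hv
    have h1 : ρ v = v := by
      rw [hρ, LinearMap.mem_ker.1 hv, map_zero, sub_zero]
    have h2 := Submodule.mem_map_of_mem (f := ρ) (hmem v hv)
    rw [h1, Submodule.map_smul'', Submodule.map_top] at h2
    exact Submodule.smul_mono le_rfl hρr h2
  have hfg : (LinearMap.ker G.pi).FG := IsNoetherian.noetherian _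
  have hbot := Submodule.eq_bot_of_le_smul_of_le_jacobson_bot _ _ hfg hle
    (IsLocalRing.maximalIdeal_le_jacobson _)
  apply r2_step G 0
  intro w
  have h1 : (G.dm 0).mulVec w ∈ LinearMap.ker G.pi := (G.ex0 _).2 ⟨w, rfl⟩
  rw [hbot] at h1
  exact (Submodule.mem_bot R).1 h1

theorem r2_up {R : Type u} [CommRing R] [IsLocalRing R] {N : Type u}
    [AddCommGroup N] [Module R N] (G : MRes R N) (i : ℕ) (h : G.b (i + 1) = 0) (j : ℕ)
    (hj : i < j) : G.b j = 0 := by
  obtain ⟨k, rfl⟩ : ∃ k, j = i + 1 + k := ⟨j - (i + 1), by omega⟩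
  clear hj
  induction k with
  | zero => exact h
  | succ k ih =>
    apply r2_step G (i + 1 + k)
    intro w
    funext l
    have h5 := l.2
    omega

theorem r2_zero {R : Type u} [CommRing R] [IsNoetherianRing R] [IsLocalRing R] (N : Type u)
    [AddCommGroup N] [Module R N] [Module.Finite R N] (G : MRes R N) (s : ℕ)
    (h : HasProjectiveDimensionLT (ModuleCat.of R N) (s + 1)) (j : ℕ) (hj : s < j) :
    G.b j = 0 := by
  induction s generalizing N j with
  | zero =>
    have h1 : Projective (ModuleCat.of R N) := projective_iff_hasProjectiveDimensionLT_one.mpr h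
    have h2 : Module.Projective R N := (IsProjective.iff_projective (R := R) N).mpr h1
    exact r2_up G 0 (r2_base N G h2) j hj
  | succ s ih =>
    have hex := LinearMap.shortExact_shortComplexKer G.surj
    have hproj : Projective (ModuleCat.of R (Fin (G.b 0) → R)) := inferInstance
    have hK : HasProjectiveDimensionLT (ModuleCat.of R (LinearMap.ker G.pi)) (s + 1) :=
      (hex.hasProjectiveDimensionLT_X₃_iff s hproj).mp h
    have h3 := ih (LinearMap.ker G.pi) (r2_tail G) hK (j - 1) (by omega)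
    have h4 : (r2_tail G).b (j - 1) = G.b (j - 1 + 1) := rfl
    rw [h4, Nat.sub_add_cancel (by omega)] at h3
    exact h3

end Pool.Agent.Lib.H44X
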