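import Pool.Agent.Lib.H44X.J4
import Pool.Agent.Lib.H44X.J5a
import Pool.Agent.Lib.H44X.Dim
import Pool.Agent.Lib.H44X.EDef
import Pool.Agent.Lib.H44X.R2

/-!
J5. The ideal which kills `Ext^(i+1)(N, -)`, its dimension, and regular sequences in `k[y]_(y)`.
-/

set_option autoImplicit false
open CategoryTheory CategoryTheory.Abelian IsLocalRing
open Pool.Agent.Lib.Helper92 Pool.Agent.Lib.H44V

namespace Pool.Agent.Lib.H44X
universe u

theorem j5_split {R : Type u} [CommRing R] [IsNoetherianRing R] [IsLocalRing R] (M : Type u)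
    [AddCommGroup M] [Module R M] [Module.Finite R M] (G : MRes R (M →ₗ[R] R)) (s : ℕ)
    (hb : ∀ j, s < j → G.b j = 0) (i : ℕ) (q : Ideal R) [q.IsPrime] (hq : HJ G i ≤ q) :
    ¬ ringKrullDim (Localization.AtPrime q) ≤ ((i + 2 : ℕ) : WithBot ℕ∞) := by
  intro hdim
  obtain ⟨b, a, H0, H1, hex⟩ := j4_ext M G
  have hs : ∀ j, s + 2 < j → cx b a G.b j = 0 := by
    intro j hj
    match j, hj with
    | (j + 2), hj => exact hb j (by omega)
  obtain ⟨u, hu, h, h', hh⟩ := j3_loc (Hx H0 H1 G.dm) hex (s + 2) hs (i + 1) q hdim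
  exact hu (hq ⟨h, h', hh.symm⟩)

theorem j_dim {S : Type u} [CommRing S] [IsNoetherianRing S] [IsLocalRing S] (I : Ideal S)
    [IsLocalRing (S ⧸ I)] (G : MRes (S ⧸ I) (NN I))
    (hpd : ∃ m, HasProjectiveDimensionLT (ModuleCat.of (S ⧸ I) (NN I)) m) (i : ℕ) :
    ringKrullDim (S ⧸ (HJ G i).comap (Ideal.Quotient.mk I)) + ((i + 1 : ℕ) : WithBot ℕ∞) <
      ringKrullDim (S ⧸ I) := by
  have : Module.Finite S I.Cotangent := Module.Finite.of_surjective _ I.toCotangent_surjective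
  have : Module.Finite (S ⧸ I) I.Cotangent := Module.Finite.of_restrictScalars_finite S _ _
  have : IsNoetherian (S ⧸ I) (NN I) := isNoetherian_linearMap _ _ _
  obtain ⟨s, hs⟩ := hpd
  have hb : ∀ j, s < j → G.b j = 0 :=
    r2_zero (NN I) G s (hasProjectiveDimensionLT_of_ge _ s (s + 1) (by omega))
  have h1 := j5_count (R := S ⧸ I) (HJ G i) (i + 2) (fun q hq hle => j5_split I.Cotangent G s hb i q hle)
  have h2 : ringKrullDim (S ⧸ (HJ G i).comap (Ideal.Quotient.mk I)) ≤ ringKrullDim ((S ⧸ I) ⧸ HJ G i) := by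
    let g : (S ⧸ I) →+* S ⧸ (HJ G i).comap (Ideal.Quotient.mk I) :=
      Ideal.Quotient.lift I (Ideal.Quotient.mk _) (fun x hx => by
        rw [Ideal.Quotient.eq_zero_iff_mem, Ideal.mem_comap, Ideal.Quotient.eq_zero_iff_mem.2 hx]
        exact Ideal.zero_mem _)
    let g' : ((S ⧸ I) ⧸ HJ G i) →+* S ⧸ (HJ G i).comap (Ideal.Quotient.mk I) :=
      Ideal.Quotient.lift (HJ G i) g (fun y hy => by
        obtain ⟨x, rfl⟩ := Ideal.Quotient.mk_surjective y
        show Ideal.Quotient.mk _ x = 0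
        rw [Ideal.Quotient.eq_zero_iff_mem]
        exact hy)
    refine ringKrullDim_le_of_surjective g' ?_
    intro y
    obtain ⟨x, rfl⟩ := Ideal.Quotient.mk_surjective y
    exact ⟨Ideal.Quotient.mk _ (Ideal.Quotient.mk _ x), rfl⟩
  refine lt_of_le_of_lt ?_ h1
  refine add_le_add h2 ?_
  exact_mod_cast Nat.le_succ (i + 1)

/-- J_main. `i + 2` regular elements of `k[y]_(y)` which lie in `HJ G i` modulo `Q₀`. -/
theorem j_beta {k : Type u} [Field k] [CharZero k] {n : ℕ} (w : Fin n → ℕ) (hw : ∀ i, 0 < w i)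
    (F : Set (MvPolynomial (Fin n) k))
    (Q₀ : Ideal (MvPolynomial (Fin n) k)) [Q₀.IsPrime]
    (hQ : ∀ f ∈ Q₀, ∀ m, MvPolynomial.weightedHomogeneousComponent w m f ∈ Q₀)
    (hdimQ : ringKrullDim (SS k n ⧸ Q₀.map (algebraMap (MvPolynomial (Fin n) k) (SS k n))) =
        ringKrullDim (SS k n ⧸
          (Ideal.span F).map (algebraMap (MvPolynomial (Fin n) k) (SS k n))))
    (N d : ℕ) (Y : Fin d → MvPolynomial (Fin n) k) (hN : 0 < N)
    (hY : ∀ j, MvPolynomial.IsWeightedHomogeneous w (Y j) N)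
    (hY0 : ∀ j, MvPolynomial.constantCoeff (Y j) = 0)
    (hinj : Function.Injective (MvPolynomial.aeval (R := k) fun j => Ideal.Quotient.mk Q₀ (Y j)))
    (hfin : (MvPolynomial.aeval (R := k) fun j => Ideal.Quotient.mk Q₀ (Y j)).toRingHom.Finite)
    [IsLocalRing (SS k n ⧸ (Ideal.span F).map (algebraMap (MvPolynomial (Fin n) k) (SS k n)))]
    (G : MRes (SS k n ⧸ (Ideal.span F).map (algebraMap (MvPolynomial (Fin n) k) (SS k n)))
      (NN ((Ideal.span F).map (algebraMap (MvPolynomial (Fin n) k) (SS k n)))))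
    (hpd : ∃ m, HasProjectiveDimensionLT
      (ModuleCat.of (SS k n ⧸ (Ideal.span F).map (algebraMap (MvPolynomial (Fin n) k) (SS k n)))
        (NN ((Ideal.span F).map (algebraMap (MvPolynomial (Fin n) k) (SS k n))))) m) (i : ℕ) :
    ∃ β : ℕ → SS k d, (∀ j < i + 2, IsSMulRegular (SS k d ⧸ Jx β j) (β j)) ∧
      ∀ j < i + 2, ∃ a : SS k n,
        Ideal.Quotient.mk ((Ideal.span F).map (algebraMap (MvPolynomial (Fin n) k) (SS k n))) a ∈ HJ G i ∧
        psi Y hY0 (β j) - a ∈ Q₀.map (algebraMap (MvPolynomial (Fin n) k) (SS k n)) := by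
  have h1 := j_dim _ G hpd i
  rw [← hdimQ] at h1
  obtain ⟨β, hβ, hreg⟩ := D_main w hw Q₀ hQ N d Y hN hY hY0 hinj hfin _ (i + 1) h1
  refine ⟨β, hreg, fun l hl => ?_⟩
  obtain ⟨z, hz, q, hq, hzq⟩ := Submodule.mem_sup.1 (hβ l hl)
  refine ⟨z, hz, ?_⟩
  rw [← hzq, add_sub_cancel_left]
  exact hq

end Pool.Agent.Lib.H44X
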