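import Pool.Agent.Lib.H44X.R5
import Pool.Agent.Lib.H44V.A11
import Pool.Agent.Lib.H21V.Z6C

/-!
J6. A dual basis of the normal module at a prime `q ⊇ I` with `dim S/q = dim S/I`.
-/

set_option autoImplicit false
open CategoryTheory CategoryTheory.Abelian IsLocalRing
open Pool.Agent.Lib.Helper92 Pool.Agent.Lib.H44V

namespace Pool.Agent.Lib.H44X
universe u

theorem j6_step {S : Type u} [CommRing S] (q0 q : Ideal S) [q0.IsPrime] (h : q0 < q) :
    ringKrullDim (S ⧸ q) + 1 ≤ ringKrullDim (S ⧸ q0) := by
  obtain ⟨r, hr, hr0⟩ := SetLike.exists_of_lt h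
  have h1 : Ideal.Quotient.mk q0 r ∈ nonZeroDivisors (S ⧸ q0) := by
    rw [mem_nonZeroDivisors_iff_ne_zero]
    intro h2
    exact hr0 (Ideal.Quotient.eq_zero_iff_mem.1 h2)
  refine le_trans ?_ (ringKrullDim_quotient_succ_le_of_nonZeroDivisor h1)
  refine add_le_add ?_ le_rfl
  let g : (S ⧸ q0) →+* S ⧸ q := Ideal.Quotient.factor h.le
  let g' : ((S ⧸ q0) ⧸ Ideal.span {Ideal.Quotient.mk q0 r}) →+* S ⧸ q :=
    Ideal.Quotient.lift _ g (fun y hy => by
      rw [Ideal.mem_span_singleton'] at hy
      obtain ⟨a, rfl⟩ := hy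
      rw [map_mul]
      have h3 : g (Ideal.Quotient.mk q0 r) = 0 := by
        show Ideal.Quotient.mk q r = 0
        exact Ideal.Quotient.eq_zero_iff_mem.2 hr
      rw [h3, mul_zero])
  refine ringKrullDim_le_of_surjective g' ?_
  intro y
  obtain ⟨x, rfl⟩ := Ideal.Quotient.mk_surjective y
  exact ⟨Ideal.Quotient.mk _ (Ideal.Quotient.mk _ x), rfl⟩

theorem j6_dim {S : Type u} [CommRing S] [IsNoetherianRing S] [IsLocalRing S] (I q : Ideal S)
    [q.IsPrime] (hd : ringKrullDim (S ⧸ q) = ringKrullDim (S ⧸ I)) :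
    ringKrullDim (Localization.AtPrime q ⧸ I.map (algebraMap S (Localization.AtPrime q))) ≤ 0 := by
  rw [ringKrullDim, Order.krullDim_nonpos_iff_forall_isMin]
  intro x y hyx
  let f : S →+* (Localization.AtPrime q ⧸ I.map (algebraMap S (Localization.AtPrime q))) := (Ideal.Quotient.mk (I.map (algebraMap S (Localization.AtPrime q)))).comp (algebraMap S _)
  have hx : x.asIdeal.comap f ≤ q := by
    intro s hs
    by_contra hsq
    have h1 : IsUnit (algebraMap S (Localization.AtPrime q) s) :=
      IsLocalization.map_units (Localization.AtPrime q) (⟨s, hsq⟩ : q.primeCompl)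
    exact x.2.ne_top (Ideal.eq_top_of_isUnit_mem _ hs (h1.map (Ideal.Quotient.mk (I.map (algebraMap S (Localization.AtPrime q))))))
  have hI : I ≤ y.asIdeal.comap f := by
    intro s hs
    have h1 : f s = 0 := Ideal.Quotient.eq_zero_iff_mem.2 (Ideal.mem_map_of_mem _ hs)
    rw [Ideal.mem_comap, h1]
    exact Ideal.zero_mem _
  have hle : y.asIdeal.comap f ≤ x.asIdeal.comap f := Ideal.comap_mono hyx
  have heq : x.asIdeal.comap f ≤ y.asIdeal.comap f := by
    by_contra hne
    have hlt : y.asIdeal.comap f < q := lt_of_lt_of_le (lt_of_le_not_ge hle hne) hx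
    have h1 := j6_step (y.asIdeal.comap f) q hlt
    have h2 : ringKrullDim (S ⧸ y.asIdeal.comap f) ≤ ringKrullDim (S ⧸ I) :=
      ringKrullDim_le_of_surjective (Ideal.Quotient.factor hI) (Ideal.Quotient.factor_surjective hI)
    have h3 := h1.trans h2
    rw [← hd] at h3
    have h4 : ringKrullDim (S ⧸ q) < ⊤ := lt_of_le_of_lt (ringKrullDim_quotient_le q) ringKrullDim_lt_top
    have h5 : (0 : WithBot ℕ∞) ≤ ringKrullDim (S ⧸ q) := ringKrullDim_nonneg_of_nontrivial
    generalize ringKrullDim (S ⧸ q) = k at h3 h4 h5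
    induction k with
    | bot => exact absurd h5 (by simp)
    | coe k =>
      induction k with
      | top => exact absurd h4 (by simp)
      | coe k =>
        have h6 : k + 1 ≤ k := by exact_mod_cast h3
        omega
  intro z hz
  obtain ⟨z, rfl⟩ := Ideal.Quotient.mk_surjective z
  obtain ⟨s, t, rfl⟩ := IsLocalization.exists_mk'_eq q.primeCompl z
  have hu : IsUnit (Ideal.Quotient.mk (I.map (algebraMap S (Localization.AtPrime q))) (algebraMap S (Localization.AtPrime q) (t : S))) :=
    (IsLocalization.map_units (Localization.AtPrime q) t).map (Ideal.Quotient.mk (I.map (algebraMap S (Localization.AtPrime q))))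
  have h1 : Ideal.Quotient.mk (I.map (algebraMap S (Localization.AtPrime q))) (IsLocalization.mk' (Localization.AtPrime q) s t) *
      Ideal.Quotient.mk (I.map (algebraMap S (Localization.AtPrime q))) (algebraMap S (Localization.AtPrime q) (t : S)) = f s := by
    rw [← map_mul, IsLocalization.mk'_spec]
    rfl
  have h2 : s ∈ x.asIdeal.comap f := by
    rw [Ideal.mem_comap, ← h1]
    exact Ideal.mul_mem_right _ _ hz
  have h3 := heq h2
  rw [Ideal.mem_comap, ← h1] at h3
  exact (y.2.mem_or_mem h3).resolve_right fun h4 => y.2.ne_top (Ideal.eq_top_of_isUnit_mem _ h4 hu)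

theorem j_db {S : Type u} [CommRing S] [IsNoetherianRing S] [IsLocalRing S] (I : Ideal S)
    (hpdI : ∃ m, HasProjectiveDimensionLT (ModuleCat.of S I) m)
    (hpd : ∃ m, HasProjectiveDimensionLT (ModuleCat.of (S ⧸ I) (NN I)) m) (q : Ideal S) [q.IsPrime]
    (hIq : I ≤ q) (hd : ringKrullDim (S ⧸ q) = ringKrullDim (S ⧸ I)) : DB I q := by
  obtain ⟨n, hn⟩ := Fin_pd hpdI
  obtain ⟨m, hm⟩ := hpd
  have hJ : I.map (algebraMap S (Localization.AtPrime q)) ≠ ⊤ := by
    intro h
    have h1 : I.map (algebraMap S (Localization.AtPrime q)) ≤ maximalIdeal (Localization.AtPrime q) := by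
      rw [Ideal.map_le_iff_le_comap, ← Ideal.under_def, IsLocalization.AtPrime.under_maximalIdeal (Localization.AtPrime q) q]
      exact hIq
    rw [h] at h1
    exact (maximalIdeal.isMaximal (Localization.AtPrime q)).ne_top (top_le_iff.mp h1)
  have hnt : Nontrivial (Localization.AtPrime q ⧸ I.map (algebraMap S (Localization.AtPrime q))) :=
    Ideal.Quotient.nontrivial_iff.mpr hJ
  have hloc : IsLocalRing (Localization.AtPrime q ⧸ I.map (algebraMap S (Localization.AtPrime q))) :=
    IsLocalRing.of_surjective' _ Ideal.Quotient.mk_surjective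
  have hlen : ∀ rs : List (Localization.AtPrime q ⧸ I.map (algebraMap S (Localization.AtPrime q))),
      RingTheory.Sequence.IsRegular
        (Localization.AtPrime q ⧸ I.map (algebraMap S (Localization.AtPrime q))) rs → rs.length ≤ 0 := by
    intro rs hrs
    have h1 := ringKrullDim_add_length_eq_ringKrullDim_of_isRegular rs hrs
    have h2 : (0 : WithBot ℕ∞) ≤ ringKrullDim ((Localization.AtPrime q ⧸
        I.map (algebraMap S (Localization.AtPrime q))) ⧸ Ideal.ofList rs) := by
      have h3 : Nontrivial ((Localization.AtPrime q ⧸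
        I.map (algebraMap S (Localization.AtPrime q))) ⧸ Ideal.ofList rs) := by
        rw [Ideal.Quotient.nontrivial_iff]
        intro h4
        apply hrs.top_ne_smul
        rw [h4, Submodule.top_smul]
      exact ringKrullDim_nonneg_of_nontrivial
    have h5 : ((rs.length : ℕ) : WithBot ℕ∞) ≤ 0 := by
      refine le_trans ?_ (j6_dim I q hd)
      rw [← h1]
      exact le_add_of_nonneg_left h2
    exact_mod_cast h5
  have hN := Pool.Agent.H21V.pd_normal_loc q I m hm
  have hfree := Fin_free hJ (fun rs hrs => (hlen rs hrs).trans (by omega)) ⟨m, hN⟩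
  obtain ⟨r, h, hb⟩ := exists_nbasis hJ
  exact r5_db I q hIq r (A11_depthOne r (Localization.AtPrime q) _ hJ n (L1_qt q n I hn)
    (fun rs hrs => (hlen rs hrs).trans (by omega)) h hb)

end Pool.Agent.Lib.H44X
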