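import Pool.Agent.Lib.H44X.Defs

/-!
K1 (M). The top functional on the exterior algebra of `k^d`.

Let `c_j = contractLeft (proj j) : Λ → Λ`; `c_i c_j = - c_j c_i` (`CliffordAlgebra.contractLeft_comm`)
and `c_j c_j = 0` (`contractLeft_contractLeft`). Put `l = ε ∘ c_0 ∘ c_1 ∘ ⋯ ∘ c_(d-1)` with
`ε = ExteriorAlgebra.algebraMapInv` (define the composite as a product in `Module.End k (Lam k d)`
over the list `List.finRange d`, or by induction: for `m ≤ d` let `C_m = c_0 ∘ ⋯ ∘ c_(m-1)`,
`C_(m+1) = C_m ∘ c_m`).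
* `l (c_j x) = 0` for every `j < d`: `C_m (c_j x) = 0` for all `j < m`, by induction on `m`:
  `C_(m+1) (c_j x) = C_m (c_m (c_j x)) = - C_m (c_j (c_m x)) = 0` for `j < m`, and
  `c_m (c_m x) = 0` for `j = m`. Every `f` is `∑ f_j proj_j`, and `contractLeft` is linear in `f`.
* `η = e_(d-1) ∧ ⋯ ∧ e_0`, `η_0 = 1`, `η_(m+1) = ι(e_m) * η_m` (`e_m = Pi.single m 1`):
  `c_m (ι(e_m) * η_m) = η_m - ι(e_m) * c_m η_m` (`contractLeft_ι_mul`) and `c_j η_m = 0` for `j ≥ m`
  (induction on `m`), so `C_(m+1) η_(m+1) = C_m η_m = ⋯ = 1`, `l η_d = ε(1) = 1`.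
(Alternatively via determinants: `ExteriorAlgebra.liftAlternating`; any functional with the two
properties is fine.)
-/

set_option autoImplicit false

namespace Pool.Agent.Lib.H44X
universe u

/-- contraction with the coordinate `j`. -/
noncomputable def k1_c (k : Type u) [Field k] (d : ℕ) (j : Fin d) : Module.End k (Lam k d) :=
  CliffordAlgebra.contractLeft (Q := (0 : QuadraticForm k (Fin d → k)))
    (LinearMap.proj (R := k) (φ := fun _ : Fin d => k) j)

theorem k1_ind (k : Type u) [Field k] (d : ℕ) (m : ℕ) (hm : m ≤ d) :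
    ∃ (C : Module.End k (Lam k d)) (η : Lam k d),
      (∀ j : Fin d, j.val < m → ∀ x, C (k1_c k d j x) = 0) ∧
      (∀ j : Fin d, m ≤ j.val → k1_c k d j η = 0) ∧ C η = 1 := by
  induction m with
  | zero =>
    refine ⟨LinearMap.id, 1, fun j hj => absurd hj (Nat.not_lt_zero _), fun j _ => ?_, rfl⟩
    exact CliffordAlgebra.contractLeft_one (Q := (0 : QuadraticForm k (Fin d → k)))
      (d := (LinearMap.proj (R := k) (φ := fun _ : Fin d => k) j))
  | succ m ih =>
    obtain ⟨C, η, h1, h2, h3⟩ := ih (by omega)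
    have hlt : m < d := hm
    refine ⟨C ∘ₗ k1_c k d ⟨m, hlt⟩,
      CliffordAlgebra.ι (0 : QuadraticForm k (Fin d → k)) (Pi.single ⟨m, hlt⟩ 1) * η, ?_, ?_, ?_⟩
    · intro j hj x
      rw [LinearMap.comp_apply]
      rcases Nat.lt_succ_iff_lt_or_eq.mp hj with hj' | hj'
      · have e : k1_c k d ⟨m, hlt⟩ (k1_c k d j x) = - k1_c k d j (k1_c k d ⟨m, hlt⟩ x) :=
          CliffordAlgebra.contractLeft_comm _ _ _
        rw [e, map_neg, h1 j hj', neg_zero]
      · have hjm : j = ⟨m, hlt⟩ := Fin.ext hj'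
        subst hjm
        have e : k1_c k d ⟨m, hlt⟩ (k1_c k d ⟨m, hlt⟩ x) = 0 :=
          CliffordAlgebra.contractLeft_contractLeft _ _
        rw [e, map_zero]
    · intro j hj
      have e : k1_c k d j (CliffordAlgebra.ι (0 : QuadraticForm k (Fin d → k)) (Pi.single ⟨m, hlt⟩ 1) * η) =
          (Pi.single (⟨m, hlt⟩ : Fin d) (1 : k) : Fin d → k) j • η
          - CliffordAlgebra.ι (0 : QuadraticForm k (Fin d → k)) (Pi.single ⟨m, hlt⟩ 1) * k1_c k d j η :=
        CliffordAlgebra.contractLeft_ι_mul _ _ _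
      have hne : j ≠ ⟨m, hlt⟩ := by
        intro h0
        rw [h0] at hj
        exact absurd hj (Nat.not_succ_le_self m)
      rw [e, h2 j (by omega), mul_zero, sub_zero, Pi.single_eq_of_ne hne, zero_smul]
    · rw [LinearMap.comp_apply]
      have e : k1_c k d ⟨m, hlt⟩ (CliffordAlgebra.ι (0 : QuadraticForm k (Fin d → k)) (Pi.single ⟨m, hlt⟩ 1) * η) =
          (Pi.single (⟨m, hlt⟩ : Fin d) (1 : k) : Fin d → k) ⟨m, hlt⟩ • η
          - CliffordAlgebra.ι (0 : QuadraticForm k (Fin d → k)) (Pi.single ⟨m, hlt⟩ 1) * k1_c k d ⟨m, hlt⟩ η :=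
        CliffordAlgebra.contractLeft_ι_mul _ _ _
      rw [e, h2 ⟨m, hlt⟩ le_rfl, mul_zero, sub_zero, Pi.single_eq_same, one_smul, h3]

theorem k1_top (k : Type u) [Field k] (d : ℕ) : ∃ l : Module.Dual k (Lam k d),
    (∀ (f : Module.Dual k (Fin d → k)) (x : Lam k d),
      l (CliffordAlgebra.contractLeft (Q := (0 : QuadraticForm k (Fin d → k))) f x) = 0) ∧
    ∃ η : Lam k d, l η = 1 := by
  obtain ⟨C, η, h1, -, h3⟩ := k1_ind k d d le_rfl
  refine ⟨(ExteriorAlgebra.algebraMapInv : ExteriorAlgebra k (Fin d → k) →ₐ[k] k).toLinearMap ∘ₗ C, ?_, η, ?_⟩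
  · intro f x
    have hf : f = ∑ j, f (Pi.single j 1) • LinearMap.proj (R := k) (φ := fun _ : Fin d => k) j := by
      apply LinearMap.pi_ext'
      intro i
      apply LinearMap.ext_ring
      rw [LinearMap.comp_apply, LinearMap.comp_apply, LinearMap.sum_apply, LinearMap.single_apply]
      rw [Finset.sum_eq_single i]
      · rw [LinearMap.smul_apply, LinearMap.proj_apply, Pi.single_eq_same, smul_eq_mul, mul_one]
      · intro j _ hj
        rw [LinearMap.smul_apply, LinearMap.proj_apply, Pi.single_eq_of_ne hj, smul_zero]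
      · intro h
        exact absurd (Finset.mem_univ i) h
    have e : CliffordAlgebra.contractLeft (Q := (0 : QuadraticForm k (Fin d → k))) f x =
        ∑ j, f (Pi.single j 1) • k1_c k d j x := by
      conv_lhs => rw [hf]
      rw [map_sum, LinearMap.sum_apply]
      apply Finset.sum_congr rfl
      intro j _
      rw [map_smul, LinearMap.smul_apply]
      rfl
    rw [e, map_sum]
    apply Finset.sum_eq_zero
    intro j _
    rw [map_smul, LinearMap.comp_apply, h1 j j.2, map_zero, smul_zero]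
  · rw [LinearMap.comp_apply, h3]
    exact map_one (ExteriorAlgebra.algebraMapInv : ExteriorAlgebra k (Fin d → k) →ₐ[k] k)

end Pool.Agent.Lib.H44X
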