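import Pool.Agent.Lib.H44X.KDef

/-!
K2 (S/M). The top functional and contractions.

* k2_con: `coef l (con a x) = 0`: `con a x` is a sum of `a_j` times base changes of
  `contractLeft (proj j)`; on a pure tensor `c ⊗ y` the value is `a_j c l(contractLeft .. y) = 0`.
* k2_nuc: `dy_j = onef (Pi.single j 1)` (sum with one term), so by v1_con_onef_mul
  `dy_j * con a x = a_j • x - con a (dy_j * x)`; apply `coef l` and k2_con.
* k2_onef: `onef a * x = ∑_j a_j • (dy_j * x)` (Finset.sum_mul, smul_mul_assoc).
* k2_mem: `con e x` is a sum of multiples of the `e_j`, so a linear map `m : VV k d C → C` takes a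
  value in `𝔪` on it.
-/

set_option autoImplicit false
open TensorProduct

namespace Pool.Agent.Lib.H44X
universe u
variable {k : Type u} [Field k] {d : ℕ} {C : Type u} [CommRing C] [Algebra k C]
  (l : Module.Dual k (Lam k d))

theorem k2_coef_tmul (c : C) (x : Lam k d) : coef l (c ⊗ₜ[k] x) = (l x) • c := by
  rw [coef]
  exact Module.Dual.baseChange_apply_tmul C l c x

theorem k2_con (hl : ∀ (f : Module.Dual k (Fin d → k)) (x : Lam k d),
      l (CliffordAlgebra.contractLeft (Q := (0 : QuadraticForm k (Fin d → k))) f x) = 0)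
    (a : Fin d → C) (x : VV k d C) : coef l (con a x) = 0 := by
  induction x using TensorProduct.induction_on with
  | zero => rw [map_zero, map_zero]
  | add x x' hx hx' => rw [map_add, map_add, hx, hx', add_zero]
  | tmul c x =>
    rw [v1_con_tmul, map_sum]
    refine Finset.sum_eq_zero fun j _ => ?_
    rw [k2_coef_tmul, hl, zero_smul]

theorem k2_nuc (hl : ∀ (f : Module.Dual k (Fin d → k)) (x : Lam k d),
      l (CliffordAlgebra.contractLeft (Q := (0 : QuadraticForm k (Fin d → k))) f x) = 0)
    (a : Fin d → C) (x : VV k d C) : nuc l (con a x) = fun j => a j * coef l x := by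
  funext j
  rw [nuc_apply]
  have h1 : (dy k d C j : VV k d C) = onef (Pi.single j (1 : C)) := by
    rw [onef, Finset.sum_eq_single j]
    · rw [Pi.single_eq_same, one_smul]
    · intro i _ hi
      rw [Pi.single_eq_of_ne hi, zero_smul]
    · intro h
      exact absurd (Finset.mem_univ j) h
  have h2 := v1_con_onef_mul a (Pi.single j (1 : C)) x
  have h3 : (∑ i, a i * (Pi.single j (1 : C) : Fin d → C) i) = a j := by
    rw [Finset.sum_eq_single j]
    · rw [Pi.single_eq_same, mul_one]
    · intro i _ hi
      rw [Pi.single_eq_of_ne hi, mul_zero]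
    · intro h
      exact absurd (Finset.mem_univ j) h
  rw [h3] at h2
  have h4 : (onef (Pi.single j (1 : C)) : VV k d C) * con a x =
      a j • x - con a (onef (Pi.single j (1 : C)) * x) := by
    rw [h2]
    abel
  rw [h1, h4, map_sub, k2_con l hl, sub_zero, map_smul, smul_eq_mul]

theorem k2_onef (a : Fin d → C) (x : VV k d C) :
    coef l ((onef a : VV k d C) * x) = ∑ j, a j * nuc l x j := by
  rw [onef, Finset.sum_mul, map_sum]
  refine Finset.sum_congr rfl fun j _ => ?_
  rw [smul_mul_assoc, map_smul, nuc_apply, smul_eq_mul]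

theorem k2_mem (𝔪 : Ideal C) (e : Fin d → C) (he : ∀ j, e j ∈ 𝔪) (m : VV k d C →ₗ[C] C)
    (x : VV k d C) : m (con e x) ∈ 𝔪 := by
  rw [con, LinearMap.sum_apply, map_sum]
  refine Ideal.sum_mem _ fun j _ => ?_
  rw [LinearMap.smul_apply, map_smul, smul_eq_mul]
  exact Ideal.mul_mem_right _ _ (he j)

end Pool.Agent.Lib.H44X
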