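import Pool.Agent.Lib.H44X.Defs
import Pool.Agent.Lib.H78A.T16
import Pool.Agent.Lib.H78A.T12
import Pool.Agent.Lib.H78A.Z6
import Pool.Agent.Lib.H78A.Z8

/-!
Interface of the modules T (trace of forms) and Z (homogeneous Noether normalisation).
-/

set_option autoImplicit false
open TensorProduct

namespace Pool.Agent.Lib.H44X
universe u

/-- T_main. The trace of a form with coefficients integral over `k[y_1, …, y_d]` has coefficients
in `k[y_1, …, y_d]`. -/
theorem T_main {k : Type u} [Field k] [CharZero k] {d : ℕ} {A L K : Type u} [CommRing A]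
    [IsDomain A] [Field L] [Field K] [Algebra k K] [Algebra (MvPolynomial (Fin d) k) A]
    [Module.Finite (MvPolynomial (Fin d) k) A] [Algebra (MvPolynomial (Fin d) k) L]
    [IsFractionRing (MvPolynomial (Fin d) k) L] [Algebra A K] [IsFractionRing A K] [Algebra L K]
    [Algebra (MvPolynomial (Fin d) k) K] [IsScalarTower (MvPolynomial (Fin d) k) A K]
    [IsScalarTower (MvPolynomial (Fin d) k) L K] [IsScalarTower k (MvPolynomial (Fin d) k) K]
    (hinj : Function.Injective (algebraMap (MvPolynomial (Fin d) k) A))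
    (D : Fin d → Derivation k K K)
    (hD : ∀ j (b : MvPolynomial (Fin d) k), D j (algebraMap (MvPolynomial (Fin d) k) K b) =
      algebraMap (MvPolynomial (Fin d) k) K (MvPolynomial.pderiv j b))
    (v : VV k d K) (hv : IsForm A D v) (l : Module.Dual k (Lam k d)) :
    ∃ b : MvPolynomial (Fin d) k, Algebra.trace L K (coef l v) =
      algebraMap (MvPolynomial (Fin d) k) L b := by
  exact Pool.Agent.H78A.T_main hinj D hD v hv l

/-- T_der. The partial derivatives of `k[y_1, …, y_d]` extend to `K`. -/
theorem T_der {k : Type u} [Field k] [CharZero k] {d : ℕ} {K : Type u} [Field K] [Algebra k K]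
    [Algebra (MvPolynomial (Fin d) k) K] [IsScalarTower k (MvPolynomial (Fin d) k) K]
    (hinj : Function.Injective (algebraMap (MvPolynomial (Fin d) k) K))
    (halg : Algebra.IsAlgebraic (MvPolynomial (Fin d) k) K) :
    ∃ D : Fin d → Derivation k K K, ∀ j (b : MvPolynomial (Fin d) k),
      D j (algebraMap (MvPolynomial (Fin d) k) K b) =
      algebraMap (MvPolynomial (Fin d) k) K (MvPolynomial.pderiv j b) := by
  exact Pool.Agent.H78A.T_der hinj halg

/-- T_unique. A derivation of `K` is determined by its values on `y_1, …, y_d`. -/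
theorem T_unique {k : Type u} [Field k] [CharZero k] {d : ℕ} {K : Type u} [Field K] [Algebra k K]
    [Algebra (MvPolynomial (Fin d) k) K] [IsScalarTower k (MvPolynomial (Fin d) k) K]
    (hinj : Function.Injective (algebraMap (MvPolynomial (Fin d) k) K))
    (halg : Algebra.IsAlgebraic (MvPolynomial (Fin d) k) K) (D : Fin d → Derivation k K K)
    (hD : ∀ j (b : MvPolynomial (Fin d) k), D j (algebraMap (MvPolynomial (Fin d) k) K b) =
      algebraMap (MvPolynomial (Fin d) k) K (MvPolynomial.pderiv j b))
    (e : Derivation k K K) (u : K) :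
    e u = ∑ j, e (algebraMap (MvPolynomial (Fin d) k) K (MvPolynomial.X j)) * D j u := by
  exact Pool.Agent.H78A.T_unique hinj halg D hD e u

/-- Z_main. Homogeneous Noether normalisation of `k[x_1, …, x_n]/Q` for a weighted homogeneous
prime ideal `Q`. -/
theorem Z_main {k : Type u} [Field k] [CharZero k] {n : ℕ} (w : Fin n → ℕ) (hw : ∀ i, 0 < w i)
    (Q : Ideal (MvPolynomial (Fin n) k)) [Q.IsPrime]
    (hQ : ∀ f ∈ Q, ∀ m, MvPolynomial.weightedHomogeneousComponent w m f ∈ Q) :
    ∃ (N d : ℕ) (Y : Fin d → MvPolynomial (Fin n) k), 0 < N ∧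
      (∀ j, MvPolynomial.IsWeightedHomogeneous w (Y j) N) ∧
      Function.Injective (MvPolynomial.aeval (R := k) fun j => Ideal.Quotient.mk Q (Y j)) ∧
      (MvPolynomial.aeval (R := k) fun j => Ideal.Quotient.mk Q (Y j)).toRingHom.Finite := by
  exact Pool.Agent.H78A.Z_main w hw Q hQ

/-- Z_unit. A polynomial with non-zero constant term has a multiple, modulo `Q`, which is a
polynomial in `Y` with non-zero constant term. -/
theorem Z_unit {k : Type u} [Field k] [CharZero k] {n : ℕ} (w : Fin n → ℕ) (hw : ∀ i, 0 < w i)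
    (Q : Ideal (MvPolynomial (Fin n) k)) [Q.IsPrime]
    (hQ : ∀ f ∈ Q, ∀ m, MvPolynomial.weightedHomogeneousComponent w m f ∈ Q)
    (N d : ℕ) (Y : Fin d → MvPolynomial (Fin n) k) (hN : 0 < N)
    (hY : ∀ j, MvPolynomial.IsWeightedHomogeneous w (Y j) N)
    (hinj : Function.Injective (MvPolynomial.aeval (R := k) fun j => Ideal.Quotient.mk Q (Y j)))
    (hfin : (MvPolynomial.aeval (R := k) fun j => Ideal.Quotient.mk Q (Y j)).toRingHom.Finite)
    (f : MvPolynomial (Fin n) k) (hf : MvPolynomial.constantCoeff f ≠ 0) :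
    ∃ (g : MvPolynomial (Fin n) k) (b : MvPolynomial (Fin d) k),
      MvPolynomial.constantCoeff b ≠ 0 ∧ f * g - MvPolynomial.aeval Y b ∈ Q := by
  exact Pool.Agent.H78A.Z_unit w hw Q hQ N d Y hN hY hinj hfin f hf

end Pool.Agent.Lib.H44X
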