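import Pool.Agent.Lib.H44X.LDefs
import Pool.Agent.Lib.H44X.Tr

/-!
L1 (M). Closure properties of `LocForm` (LDefs.lean) and the trace of such forms.

`B = k[y_1, …, y_d]`, `P = k[x_1, …, x_n]`, `A` a domain, finite over `B`, `K = Frac A`,
`L = Frac B`, `φ : SS k n → K` extends `P → A → K`.
* l1_zero, l1_one (`b = 1`), l1_add (`b b'`: `b b' (v + v') = b'(b v) + b(b' v')`, an element of `B`
  acts through its image in `A`, IsForm.smul, IsForm.add), l1_neg (multiply by `-1 ∈ A`).
* l1_smul: `s = p/f ∈ SS k n`, `constantCoeff f ≠ 0`; by `hunit` `f g = b'` in `A`, so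
  `b' φ(s) = φ(p g)`-image of `p g ∈ P`, hence `(b b') • (φ(s) • v) = (image of p g) • (b • v)`.
* l1_mul: `b • (dx_l * v) = dx_l * (b • v)`, IsForm.mul with `a` = the image of `X l` in `A`;
  `dK D (..) = onef (tX A D l)` by definition.
* l1_trace: `T_main` (Tr.lean) for `b • v`: `trace (coef l (b • v)) = b₀`, and `coef l (b • v) =
  b coef l v`, so `trace (coef l v) = b₀ / b` (the trace is `L`-linear), the image of
  `b₀/b ∈ SS k d` (`IsLocalization.mk'`), because `b ∉ org`.
-/

set_option autoImplicit false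
open TensorProduct

namespace Pool.Agent.Lib.H44X
universe u
variable {k : Type u} [Field k] [CharZero k] {n d : ℕ} {A L K : Type u} [CommRing A] [IsDomain A]
  [Field L] [Field K] [Algebra k K] [Algebra (MvPolynomial (Fin n) k) A]
  [Algebra (MvPolynomial (Fin d) k) A] [Module.Finite (MvPolynomial (Fin d) k) A]
  [Algebra (MvPolynomial (Fin d) k) L] [IsFractionRing (MvPolynomial (Fin d) k) L]
  [Algebra A K] [IsFractionRing A K] [Algebra L K] [Algebra (MvPolynomial (Fin d) k) K]
  [IsScalarTower (MvPolynomial (Fin d) k) A K] [IsScalarTower (MvPolynomial (Fin d) k) L K]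
  [IsScalarTower k (MvPolynomial (Fin d) k) K] (D : Fin d → Derivation k K K)

theorem l1_zero : LocForm A D (0 : VV k d K) :=
  ⟨1, by rw [map_one]; exact one_ne_zero, by rw [smul_zero]; exact IsForm.zero⟩

theorem l1_one : LocForm A D (1 : VV k d K) :=
  ⟨1, by rw [map_one]; exact one_ne_zero, by rw [map_one, one_smul]; exact IsForm.one⟩

theorem l1_add (v v' : VV k d K) (hv : LocForm A D v) (hv' : LocForm A D v') :
    LocForm A D (v + v') := by
  obtain ⟨b, hb, h⟩ := hv
  obtain ⟨b', hb', h'⟩ := hv'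
  refine ⟨b * b', by rw [map_mul]; exact mul_ne_zero hb hb', ?_⟩
  have h1 : algebraMap (MvPolynomial (Fin d) k) K (b * b') • (v + v') =
      algebraMap A K (algebraMap (MvPolynomial (Fin d) k) A b') • (algebraMap (MvPolynomial (Fin d) k) K b • v) +
        algebraMap A K (algebraMap (MvPolynomial (Fin d) k) A b) •
          (algebraMap (MvPolynomial (Fin d) k) K b' • v') := by
    rw [← IsScalarTower.algebraMap_apply (MvPolynomial (Fin d) k) A K,
      ← IsScalarTower.algebraMap_apply (MvPolynomial (Fin d) k) A K, smul_smul, smul_smul, ← map_mul, ← map_mul,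
      mul_comm b' b, smul_add]
  rw [h1]
  exact IsForm.add _ _ (IsForm.smul _ _ h) (IsForm.smul _ _ h')

theorem l1_neg (v : VV k d K) (hv : LocForm A D v) : LocForm A D (-v) := by
  obtain ⟨b, hb, h⟩ := hv
  refine ⟨b, hb, ?_⟩
  have h1 : algebraMap (MvPolynomial (Fin d) k) K b • (-v) =
      algebraMap A K (-1) • (algebraMap (MvPolynomial (Fin d) k) K b • v) := by
    rw [map_neg, map_one, neg_smul, one_smul, smul_neg]
  rw [h1]
  exact IsForm.smul _ _ h

theorem l1_smul (hunit : ∀ f : MvPolynomial (Fin n) k, MvPolynomial.constantCoeff f ≠ 0 →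
      ∃ (g : MvPolynomial (Fin n) k) (b : MvPolynomial (Fin d) k),
        MvPolynomial.constantCoeff b ≠ 0 ∧ algebraMap (MvPolynomial (Fin n) k) A (f * g) =
          algebraMap (MvPolynomial (Fin d) k) A b)
    (φ : SS k n →+* K) (hφ : ∀ p : MvPolynomial (Fin n) k,
      φ (algebraMap (MvPolynomial (Fin n) k) (SS k n) p) =
        algebraMap A K (algebraMap (MvPolynomial (Fin n) k) A p))
    (s : SS k n) (v : VV k d K) (hv : LocForm A D v) : LocForm A D (φ s • v) := by
  obtain ⟨b, hb, h⟩ := hv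
  obtain ⟨p, f, hs⟩ := IsLocalization.exists_mk'_eq (org k n).primeCompl s
  have hf : MvPolynomial.constantCoeff (f : MvPolynomial (Fin n) k) ≠ 0 := fun h0 => f.2 h0
  obtain ⟨g, b', hb', hfg⟩ := hunit f hf
  refine ⟨b * b', by rw [map_mul]; exact mul_ne_zero hb hb', ?_⟩
  have h2 : s * algebraMap (MvPolynomial (Fin n) k) (SS k n) f = algebraMap (MvPolynomial (Fin n) k) (SS k n) p := by
    rw [← hs]
    exact IsLocalization.mk'_spec _ _ _
  have h3 : algebraMap (MvPolynomial (Fin d) k) K b' * φ s =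
      algebraMap A K (algebraMap (MvPolynomial (Fin n) k) A (p * g)) := by
    rw [IsScalarTower.algebraMap_apply (MvPolynomial (Fin d) k) A K, ← hfg, ← hφ, ← hφ, ← map_mul φ]
    refine congrArg φ ?_
    rw [map_mul, map_mul, ← h2]
    ring
  have h1 : algebraMap (MvPolynomial (Fin d) k) K (b * b') • (φ s • v) =
      algebraMap A K (algebraMap (MvPolynomial (Fin n) k) A (p * g)) •
        (algebraMap (MvPolynomial (Fin d) k) K b • v) := by
    rw [← h3, smul_smul, smul_smul, map_mul]
    congr 1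
    ring
  rw [h1]
  exact IsForm.smul _ _ h

theorem l1_mul (l : Fin n) (v : VV k d K) (hv : LocForm A D v) :
    LocForm A D ((onef (tX A D l) : VV k d K) * v) := by
  obtain ⟨b, hb, h⟩ := hv
  refine ⟨b, hb, ?_⟩
  rw [← mul_smul_comm]
  exact IsForm.mul (algebraMap (MvPolynomial (Fin n) k) A (MvPolynomial.X l)) _ h

theorem l1_trace (hinj : Function.Injective (algebraMap (MvPolynomial (Fin d) k) A))
    (hD : ∀ j (b : MvPolynomial (Fin d) k), D j (algebraMap (MvPolynomial (Fin d) k) K b) =
      algebraMap (MvPolynomial (Fin d) k) K (MvPolynomial.pderiv j b))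
    [Algebra (SS k d) L] [IsScalarTower (MvPolynomial (Fin d) k) (SS k d) L]
    (v : VV k d K) (hv : LocForm A D v) (l : Module.Dual k (Lam k d)) :
    ∃ r : SS k d, Algebra.trace L K (coef l v) = algebraMap (SS k d) L r := by
  obtain ⟨b, hb, h⟩ := hv
  obtain ⟨b₀, h0⟩ := T_main (L := L) hinj D hD _ h l
  have hbm : b ∈ (org k d).primeCompl := fun h1 => hb h1
  refine ⟨IsLocalization.mk' (SS k d) b₀ (⟨b, hbm⟩ : (org k d).primeCompl), ?_⟩
  have h1 : algebraMap (MvPolynomial (Fin d) k) L b * Algebra.trace L K (coef l v) =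
      algebraMap (MvPolynomial (Fin d) k) L b₀ := by
    rw [← h0, map_smul, smul_eq_mul, IsScalarTower.algebraMap_apply (MvPolynomial (Fin d) k) L K,
      ← Algebra.smul_def (algebraMap (MvPolynomial (Fin d) k) L b) (coef l v), map_smul, smul_eq_mul]
  have hu : IsUnit (algebraMap (MvPolynomial (Fin d) k) L b) := by
    rw [IsScalarTower.algebraMap_apply (MvPolynomial (Fin d) k) (SS k d) L]
    exact (IsLocalization.map_units (SS k d) (⟨b, hbm⟩ : (org k d).primeCompl)).map _
  refine mul_left_cancel₀ hu.ne_zero ?_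
  rw [h1, IsScalarTower.algebraMap_apply (MvPolynomial (Fin d) k) (SS k d) L b₀,
    IsScalarTower.algebraMap_apply (MvPolynomial (Fin d) k) (SS k d) L b, ← map_mul]
  refine congrArg _ ?_
  exact (IsLocalization.mk'_spec' (SS k d) b₀ (⟨b, hbm⟩ : (org k d).primeCompl)).symm

end Pool.Agent.Lib.H44X
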