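import Pool.Agent.Lib.H44X.PsiDef

/-!
V2 (M). Properties of the map of forms `Psi φ t` (PsiDef.lean).
`Psi` is a `k`-algebra map with `Psi (s ⊗ x) = (φ s ⊗ 1) * lamMap t x`
(`Algebra.TensorProduct.lift_tmul`).

* v2_smul: `Psi (s • v) = φ s • Psi v` (pure tensors).
* v2_dy: `Psi (dy l) = onef (t l)`; v2_onef: `Psi (onef a) = ∑_l φ(a_l) • onef (t l)`.
* v2_con: `con e (Psi v) = Psi (con a v)` if `∑_j e_j t_lj = φ(a_l)`. It suffices to take
  `v = 1 ⊗ x` (both sides are `φ`-semilinear), and then use induction on `x ∈ Λ`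
  (ExteriorAlgebra.induction or CliffordAlgebra.left_induction): for `x = ι(v) x'`,
  `Psi(1 ⊗ ι(v) x') = lamLin t v * Psi(1 ⊗ x')`, and v1_con_onef_mul (with lamLin_onef) on the
  left; on the right `con a (onef b * y) = (∑ a_l b_l) y - onef b * con a y` with `b = v`.
* v2_inv: `inv (Psi v) = Psi (inv v)`: both sides are algebra maps over `k`; compare on
  `S` and on `ι` (v1_inv_onef), or on pure tensors by induction.
* v2_JJ: `Psi` kills `JJ F S` if `φ(f) = 0` and `∑_l φ(∂_l f) • onef (t l) = 0` for `f ∈ F`:
  Submodule.span_induction; the two kinds of generators by v2_smul, v2_onef.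
* v2_closed: if a set `P` of forms contains 1, is stable under addition, under `φ(s) •` and under
  left multiplication by `onef (t l)`, then it is stable under left multiplication by
  `Psi v` for every `v` (and contains every `Psi v`): pure tensors `s ⊗ x`; induction on `x`.
-/

set_option autoImplicit false
open TensorProduct

namespace Pool.Agent.Lib.H44X
universe u
variable {k : Type u} [Field k] {n d : ℕ} {C : Type u} [CommRing C] [Algebra k C]
variable {S : Type u} [CommRing S] [Algebra k S] (φ : S →ₐ[k] C) (t : Fin n → Fin d → C)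

theorem v2_tmul (s : S) (x : Lam k n) : Psi φ t (s ⊗ₜ[k] x) = φ s • lamMap t x := by
  rw [Psi, Algebra.TensorProduct.lift_tmul, Algebra.smul_def]
  rfl

theorem v2_smul (s : S) (v : VV k n S) : Psi φ t (s • v) = φ s • Psi φ t v := by
  induction v using TensorProduct.induction_on with
  | zero => rw [smul_zero, map_zero, smul_zero]
  | add x y hx hy => rw [smul_add, map_add, hx, hy, map_add, smul_add]
  | tmul c x => rw [TensorProduct.smul_tmul', smul_eq_mul, v2_tmul, v2_tmul, map_mul, mul_smul]

theorem v2_dy (l : Fin n) : Psi φ t (dy k n S l) = onef (t l) := by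
  rw [dy, v2_tmul, map_one, one_smul, lamMap_ι, lamLin_apply, Finset.sum_eq_single l]
  · rw [Pi.single_eq_same, one_smul]
  · intro j _ hj
    rw [Pi.single_eq_of_ne hj, zero_smul]
  · intro h
    exact absurd (Finset.mem_univ l) h

theorem v2_onef (a : Fin n → S) :
    Psi φ t (onef a) = ∑ l, φ (a l) • (onef (t l) : VV k d C) := by
  rw [onef, map_sum]
  refine Finset.sum_congr rfl fun l _ => ?_
  rw [v2_smul, v2_dy]

theorem v2_lam_ι (m : Fin n → k) : (1 : S) ⊗ₜ[k] (ExteriorAlgebra.ι k m : Lam k n) =
    (onef (fun l => algebraMap k S (m l)) : VV k n S) := by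
  rw [v1_onef_tmul]
  have h1 : m = ∑ l, m l • (Pi.single l (1 : k) : Fin n → k) := by
    funext j
    rw [Finset.sum_apply, Finset.sum_eq_single j]
    · rw [Pi.smul_apply, Pi.single_eq_same, smul_eq_mul, mul_one]
    · intro i _ hi
      rw [Pi.smul_apply, Pi.single_eq_of_ne (Ne.symm hi), smul_zero]
    · intro h
      exact absurd (Finset.mem_univ j) h
  conv_lhs => rw [h1]
  rw [map_sum, TensorProduct.tmul_sum]
  refine Finset.sum_congr rfl fun l _ => ?_
  rw [map_smul, TensorProduct.tmul_smul, TensorProduct.smul_tmul', Algebra.algebraMap_eq_smul_one]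

theorem v2_Psi_ι (m : Fin n → k) :
    Psi φ t (onef (fun l => algebraMap k S (m l))) = lamLin t m := by
  rw [v2_onef, lamLin_apply]
  refine Finset.sum_congr rfl fun l _ => ?_
  rw [AlgHom.commutes, algebraMap_smul]

theorem v2_con_lam (e : Fin d → C) (a : Fin n → S) (h : ∀ l, ∑ j, e j * t l j = φ (a l))
    (x : Lam k n) : con e (lamMap t x) = Psi φ t (con a ((1 : S) ⊗ₜ[k] x)) := by
  induction x using CliffordAlgebra.left_induction with
  | algebraMap r =>
    have h1 : con a ((1 : S) ⊗ₜ[k] (algebraMap k (CliffordAlgebra (0 : QuadraticForm k (Fin n → k))) r : Lam k n)) =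
        (0 : VV k n S) := by
      rw [v1_con_tmul]
      refine Finset.sum_eq_zero fun j _ => ?_
      rw [CliffordAlgebra.contractLeft_algebraMap, TensorProduct.tmul_zero]
    have h2 : lamMap t (algebraMap k (CliffordAlgebra (0 : QuadraticForm k (Fin n → k))) r) =
        algebraMap k C r • (1 : VV k d C) := by
      refine (AlgHom.commutes (lamMap t) r).trans ?_
      rw [algebraMap_smul, Algebra.algebraMap_eq_smul_one]
    rw [h1, h2, map_zero, map_smul, v1_con_one, smul_zero]
  | add x y hx hy =>
    rw [map_add, map_add, hx, hy, TensorProduct.tmul_add, map_add, map_add]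
  | ι_mul x m hx =>
    have h1 : lamMap t (CliffordAlgebra.ι (0 : QuadraticForm k (Fin n → k)) m * x) = lamLin t m * lamMap t x := by
      refine (map_mul (lamMap t) _ _).trans ?_
      congr 1
      exact lamMap_ι t m
    have h2 : (1 : S) ⊗ₜ[k] (CliffordAlgebra.ι (0 : QuadraticForm k (Fin n → k)) m * x : Lam k n) =
        (onef (fun l => algebraMap k S (m l)) : VV k n S) * ((1 : S) ⊗ₜ[k] x) := by
      rw [← v2_lam_ι, Algebra.TensorProduct.tmul_mul_tmul, mul_one]
    have h3 : Psi φ t ((1 : S) ⊗ₜ[k] x) = lamMap t x := by rw [v2_tmul, map_one, one_smul]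
    rw [h1, h2, v1_con_onef_mul, map_sub, v2_smul, map_mul (Psi φ t), v2_Psi_ι, ← hx, h3, lamLin_onef, v1_con_onef_mul]
    congr 2
    rw [map_sum]
    simp only [Finset.mul_sum]
    rw [Finset.sum_comm]
    refine Finset.sum_congr rfl fun l _ => ?_
    rw [map_mul, AlgHom.commutes, ← h l, Finset.sum_mul]
    refine Finset.sum_congr rfl fun j _ => ?_
    ring

theorem v2_con (e : Fin d → C) (a : Fin n → S) (h : ∀ l, ∑ j, e j * t l j = φ (a l))
    (v : VV k n S) : con e (Psi φ t v) = Psi φ t (con a v) := by
  induction v using TensorProduct.induction_on with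
  | zero => rw [map_zero, map_zero, map_zero, map_zero]
  | add x y hx hy => rw [map_add, map_add, hx, hy, map_add, map_add]
  | tmul s x =>
    have h1 : s ⊗ₜ[k] x = s • ((1 : S) ⊗ₜ[k] x) := by rw [TensorProduct.smul_tmul', smul_eq_mul, mul_one]
    rw [h1, v2_smul, map_smul, map_smul, v2_smul, v2_tmul, map_one, one_smul, v2_con_lam φ t e a h]

theorem v2_inv_lam (x : Lam k n) : inv (lamMap t x : VV k d C) =
    lamMap t (CliffordAlgebra.involute (Q := (0 : QuadraticForm k (Fin n → k))) x) := by
  induction x using CliffordAlgebra.left_induction with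
  | algebraMap r =>
    have h0 : CliffordAlgebra.involute (Q := (0 : QuadraticForm k (Fin n → k)))
        (algebraMap k (CliffordAlgebra (0 : QuadraticForm k (Fin n → k))) r) =
        algebraMap k (CliffordAlgebra (0 : QuadraticForm k (Fin n → k))) r := AlgHom.commutes _ r
    have h2 : lamMap t (algebraMap k (CliffordAlgebra (0 : QuadraticForm k (Fin n → k))) r) =
        algebraMap C (VV k d C) (algebraMap k C r) := by
      refine (AlgHom.commutes (lamMap t) r).trans ?_
      rw [← IsScalarTower.algebraMap_apply]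
    rw [h0, h2, AlgHom.commutes]
  | add x y hx hy => rw [map_add, map_add, hx, hy, map_add, map_add]
  | ι_mul x m hx =>
    have h1 : ∀ y : Lam k n, lamMap t (CliffordAlgebra.ι (0 : QuadraticForm k (Fin n → k)) m * y) =
        lamLin t m * lamMap t y := by
      intro y
      refine (map_mul (lamMap t) _ _).trans ?_
      congr 1
      exact lamMap_ι t m
    rw [h1, map_mul, map_mul, CliffordAlgebra.involute_ι, neg_mul]
    have h3 : lamMap t (-(CliffordAlgebra.ι (0 : QuadraticForm k (Fin n → k)) m *
        CliffordAlgebra.involute (Q := (0 : QuadraticForm k (Fin n → k))) x)) =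
        -(lamLin t m * lamMap t (CliffordAlgebra.involute (Q := (0 : QuadraticForm k (Fin n → k))) x)) := by
      refine (map_neg (lamMap t) _).trans ?_
      rw [h1]
    rw [h3, hx, lamLin_onef, v1_inv_onef, neg_mul]

theorem v2_inv (v : VV k n S) : inv (Psi φ t v) = Psi φ t (inv v) := by
  induction v using TensorProduct.induction_on with
  | zero => rw [map_zero, map_zero, map_zero, map_zero]
  | add x y hx hy => rw [map_add, map_add, hx, hy, map_add, map_add]
  | tmul s x => rw [v2_tmul, v1_inv_tmul, v2_tmul, map_smul, v2_inv_lam]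

theorem v2_JJ [Algebra (MvPolynomial (Fin n) k) S] (F : Set (MvPolynomial (Fin n) k))
    (h1 : ∀ f ∈ F, φ (algebraMap (MvPolynomial (Fin n) k) S f) = 0)
    (h2 : ∀ f ∈ F, ∑ l, φ (grad S f l) • (onef (t l) : VV k d C) = 0)
    (v : VV k n S) (hv : v ∈ JJ F S) : Psi φ t v = 0 := by
  rw [JJ] at hv
  induction hv using Submodule.span_induction with
  | mem x hx =>
    rcases hx with ⟨f, hf, w, rfl⟩ | ⟨f, hf, w, rfl⟩
    · rw [v2_smul, h1 f hf, zero_smul]
    · rw [map_mul, v2_onef, h2 f hf, zero_mul]
  | zero => exact map_zero _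
  | add x y _ _ hx hy => rw [map_add, hx, hy, add_zero]
  | smul s x _ hx => rw [v2_smul, hx, smul_zero]

theorem v2_closed_lam (P : VV k d C → Prop) (h0 : P 0) (hadd : ∀ x y, P x → P y → P (x + y))
    (hsmul : ∀ (s : S) x, P x → P (φ s • x)) (hmul : ∀ l x, P x → P (onef (t l) * x))
    (y : Lam k n) (x : VV k d C) (hx : P x) : P (lamMap t y * x) := by
  have hk : ∀ (r : k) (z : VV k d C), P z → P (r • z) := by
    intro r z hz
    have h1 := hsmul (algebraMap k S r) z hz
    rwa [AlgHom.commutes, algebraMap_smul] at h1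
  induction y using CliffordAlgebra.left_induction with
  | algebraMap r =>
    have h2 : lamMap t (algebraMap k (CliffordAlgebra (0 : QuadraticForm k (Fin n → k))) r) =
        r • (1 : VV k d C) := by
      refine (AlgHom.commutes (lamMap t) r).trans ?_
      rw [Algebra.algebraMap_eq_smul_one]
    rw [h2, smul_mul_assoc, one_mul]
    exact hk r x hx
  | add y z hy hz =>
    have h2 : lamMap t (y + z) = lamMap t y + lamMap t z := map_add (lamMap t) y z
    rw [h2, add_mul]
    exact hadd _ _ hy hz
  | ι_mul y m hy =>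
    have h1 : lamMap t (CliffordAlgebra.ι (0 : QuadraticForm k (Fin n → k)) m * y) = lamLin t m * lamMap t y := by
      refine (map_mul (lamMap t) _ _).trans ?_
      congr 1
      exact lamMap_ι t m
    rw [h1, mul_assoc, lamLin_apply, Finset.sum_mul]
    refine Finset.sum_induction _ P hadd h0 fun l _ => ?_
    rw [smul_mul_assoc]
    exact hk _ _ (hmul l _ hy)

theorem v2_closed (P : VV k d C → Prop) (h0 : P 0) (hadd : ∀ x y, P x → P y → P (x + y))
    (hsmul : ∀ (s : S) x, P x → P (φ s • x)) (hmul : ∀ l x, P x → P (onef (t l) * x))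
    (v : VV k n S) (x : VV k d C) (hx : P x) : P (Psi φ t v * x) := by
  induction v using TensorProduct.induction_on with
  | zero =>
    rw [map_zero, zero_mul]
    exact h0
  | add y z hy hz =>
    rw [map_add, add_mul]
    exact hadd _ _ hy hz
  | tmul s y =>
    rw [v2_tmul, smul_mul_assoc]
    exact hsmul s _ (v2_closed_lam φ t P h0 hadd hsmul hmul y x hx)

end Pool.Agent.Lib.H44X
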