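import Pool.Agent.Lib.H44X.KDef
import Pool.Agent.Lib.H44X.L1
import Pool.Agent.Lib.H44X.V2

/-!
K3 (M). More closure properties of `LocForm`.

`B₀ = k[y_1, …, y_d]`, `C = SS k d`.
* k3_dy: `b • (dy_j * v) = dy_j * (b • v)`, and `dy_j = dK D (y_j)`, `y_j = algebraMap B₀ K (X j)`
  (`D_i (y_j) = pderiv i (X j) = δ_ij` by hD), `y_j` is the image of an element of `A`: IsForm.mul.
* k3_smul: `c = q/f ∈ SS k d` (`IsLocalization.mk'_surjective` or `IsLocalization.surj`),
  `constantCoeff f ≠ 0`; if `b • v` is a form over `A` then `(f b) • (c • v) = q • (b • v)` is one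
  (IsForm.smul with the image of `q` in `A`).
* k3_bc: `η ∈ VV k d C` is a sum of pure tensors `c ⊗ x`; `bcV (c ⊗ x) = c • bcV (1 ⊗ x)`, and
  for `1 ⊗ x` use induction on `x ∈ Λ` (CliffordAlgebra.left_induction or ExteriorAlgebra
  induction): `1 ⊗ ι(v) x' = ∑_j v_j • (dy_j * (1 ⊗ x'))`; `1` is a form (l1_one). The algebra map
  `f : C →ₐ[k] K` is `IsScalarTower.toAlgHom k C K`.
* k3_psi: v2_closed with `P = LocForm A D`, hypotheses by l1_zero, l1_add, l1_smul, l1_mul.
-/

set_option autoImplicit false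
open TensorProduct

namespace Pool.Agent.Lib.H44X
universe u
variable {k : Type u} [Field k] [CharZero k] {n d : ℕ} {A K : Type u} [CommRing A] [IsDomain A]
  [Field K] [Algebra k K] [Algebra (MvPolynomial (Fin n) k) A]
  [Algebra (MvPolynomial (Fin d) k) A] [Algebra A K] [IsFractionRing A K]
  [Algebra (MvPolynomial (Fin d) k) K] [IsScalarTower (MvPolynomial (Fin d) k) A K]
  [IsScalarTower k (MvPolynomial (Fin d) k) K] [Algebra (SS k d) K]
  [IsScalarTower (MvPolynomial (Fin d) k) (SS k d) K] [IsScalarTower k (SS k d) K]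
  (D : Fin d → Derivation k K K)

theorem k3_zero : LocForm A D (0 : VV k d K) :=
  ⟨1, by rw [map_one]; exact one_ne_zero, by rw [smul_zero]; exact IsForm.zero⟩

theorem k3_one : LocForm A D (1 : VV k d K) :=
  ⟨1, by rw [map_one]; exact one_ne_zero, by rw [map_one, one_smul]; exact IsForm.one⟩

theorem k3_add (v v' : VV k d K) (hv : LocForm A D v) (hv' : LocForm A D v') :
    LocForm A D (v + v') := by
  obtain ⟨b, hb, h⟩ := hv
  obtain ⟨b', hb', h'⟩ := hv'
  refine ⟨b * b', by rw [map_mul]; exact mul_ne_zero hb hb', ?_⟩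
  have h1 : algebraMap (MvPolynomial (Fin d) k) K (b * b') • (v + v') =
      algebraMap A K (algebraMap (MvPolynomial (Fin d) k) A b') • (algebraMap (MvPolynomial (Fin d) k) K b • v) +
        algebraMap A K (algebraMap (MvPolynomial (Fin d) k) A b) •
          (algebraMap (MvPolynomial (Fin d) k) K b' • v') := by
    rw [← IsScalarTower.algebraMap_apply (MvPolynomial (Fin d) k) A K,
      ← IsScalarTower.algebraMap_apply (MvPolynomial (Fin d) k) A K, smul_smul, smul_smul, ← map_mul, ← map_mul,
      mul_comm b' b, smul_add]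
  rw [h1]
  exact IsForm.add _ _ (IsForm.smul _ _ h) (IsForm.smul _ _ h')

theorem k3_lsmul (hunit : ∀ f : MvPolynomial (Fin n) k, MvPolynomial.constantCoeff f ≠ 0 →
      ∃ (g : MvPolynomial (Fin n) k) (b : MvPolynomial (Fin d) k),
        MvPolynomial.constantCoeff b ≠ 0 ∧ algebraMap (MvPolynomial (Fin n) k) A (f * g) =
          algebraMap (MvPolynomial (Fin d) k) A b)
    (φ : SS k n →+* K) (hφ : ∀ p : MvPolynomial (Fin n) k,
      φ (algebraMap (MvPolynomial (Fin n) k) (SS k n) p) =
        algebraMap A K (algebraMap (MvPolynomial (Fin n) k) A p))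
    (s : SS k n) (v : VV k d K) (hv : LocForm A D v) : LocForm A D (φ s • v) := by
  obtain ⟨b, hb, h⟩ := hv
  obtain ⟨p, f, hs⟩ := IsLocalization.exists_mk'_eq (org k n).primeCompl s
  have hf : MvPolynomial.constantCoeff (f : MvPolynomial (Fin n) k) ≠ 0 := fun h0 => f.2 h0
  obtain ⟨g, b', hb', hfg⟩ := hunit f hf
  refine ⟨b * b', by rw [map_mul]; exact mul_ne_zero hb hb', ?_⟩
  have h2 : s * algebraMap (MvPolynomial (Fin n) k) (SS k n) f = algebraMap (MvPolynomial (Fin n) k) (SS k n) p := by
    rw [← hs]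
    exact IsLocalization.mk'_spec _ _ _
  have h3 : algebraMap (MvPolynomial (Fin d) k) K b' * φ s =
      algebraMap A K (algebraMap (MvPolynomial (Fin n) k) A (p * g)) := by
    rw [IsScalarTower.algebraMap_apply (MvPolynomial (Fin d) k) A K, ← hfg, ← hφ, ← hφ, ← map_mul φ]
    refine congrArg φ ?_
    rw [map_mul, map_mul, ← h2]
    ring
  have h1 : algebraMap (MvPolynomial (Fin d) k) K (b * b') • (φ s • v) =
      algebraMap A K (algebraMap (MvPolynomial (Fin n) k) A (p * g)) •
        (algebraMap (MvPolynomial (Fin d) k) K b • v) := by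
    rw [← h3, smul_smul, smul_smul, map_mul]
    congr 1
    ring
  rw [h1]
  exact IsForm.smul _ _ h

theorem k3_lmul (l : Fin n) (v : VV k d K) (hv : LocForm A D v) :
    LocForm A D ((onef (tX A D l) : VV k d K) * v) := by
  obtain ⟨b, hb, h⟩ := hv
  refine ⟨b, hb, ?_⟩
  rw [← mul_smul_comm]
  exact IsForm.mul (algebraMap (MvPolynomial (Fin n) k) A (MvPolynomial.X l)) _ h

theorem k3_dyK (hD : ∀ j (b : MvPolynomial (Fin d) k),
      D j (algebraMap (MvPolynomial (Fin d) k) K b) =
      algebraMap (MvPolynomial (Fin d) k) K (MvPolynomial.pderiv j b)) (j : Fin d) :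
    dy k d K j = dK D (algebraMap A K (algebraMap (MvPolynomial (Fin d) k) A (MvPolynomial.X j))) := by
  rw [← IsScalarTower.algebraMap_apply (MvPolynomial (Fin d) k) A K, dK, onef, Finset.sum_eq_single j]
  · rw [hD, MvPolynomial.pderiv_X_self, map_one, one_smul]
  · intro i _ hi
    rw [hD, MvPolynomial.pderiv_X_of_ne (Ne.symm hi), map_zero, zero_smul]
  · intro h
    exact absurd (Finset.mem_univ j) h

theorem k3_dy (hD : ∀ j (b : MvPolynomial (Fin d) k),
      D j (algebraMap (MvPolynomial (Fin d) k) K b) =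
      algebraMap (MvPolynomial (Fin d) k) K (MvPolynomial.pderiv j b)) (j : Fin d)
    (v : VV k d K) (hv : LocForm A D v) : LocForm A D (dy k d K j * v) := by
  obtain ⟨b, hb, h⟩ := hv
  refine ⟨b, hb, ?_⟩
  rw [← mul_smul_comm, k3_dyK (A := A) D hD j]
  exact IsForm.mul _ _ h

theorem k3_smul (c : SS k d) (v : VV k d K) (hv : LocForm A D v) :
    LocForm A D (algebraMap (SS k d) K c • v) := by
  obtain ⟨b, hb, h⟩ := hv
  obtain ⟨p, f, hs⟩ := IsLocalization.exists_mk'_eq (org k d).primeCompl c
  have hf : MvPolynomial.constantCoeff (f : MvPolynomial (Fin d) k) ≠ 0 := fun h0 => f.2 h0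
  refine ⟨b * f, by rw [map_mul]; exact mul_ne_zero hb hf, ?_⟩
  have h2 : c * algebraMap (MvPolynomial (Fin d) k) (SS k d) f = algebraMap (MvPolynomial (Fin d) k) (SS k d) p := by
    rw [← hs]
    exact IsLocalization.mk'_spec _ _ _
  have h3 : algebraMap (MvPolynomial (Fin d) k) K f * algebraMap (SS k d) K c =
      algebraMap A K (algebraMap (MvPolynomial (Fin d) k) A p) := by
    rw [← IsScalarTower.algebraMap_apply (MvPolynomial (Fin d) k) A K,
      IsScalarTower.algebraMap_apply (MvPolynomial (Fin d) k) (SS k d) K p, ← h2, map_mul,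
      ← IsScalarTower.algebraMap_apply (MvPolynomial (Fin d) k) (SS k d) K, mul_comm]
  have h1 : algebraMap (MvPolynomial (Fin d) k) K (b * f) • (algebraMap (SS k d) K c • v) =
      algebraMap A K (algebraMap (MvPolynomial (Fin d) k) A p) •
        (algebraMap (MvPolynomial (Fin d) k) K b • v) := by
    rw [← h3, smul_smul, smul_smul, map_mul]
    congr 1
    ring
  rw [h1]
  exact IsForm.smul _ _ h

theorem k3_lam (hD : ∀ j (b : MvPolynomial (Fin d) k),
      D j (algebraMap (MvPolynomial (Fin d) k) K b) =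
      algebraMap (MvPolynomial (Fin d) k) K (MvPolynomial.pderiv j b)) (x : Lam k d) :
    LocForm A D ((1 : K) ⊗ₜ[k] x : VV k d K) := by
  have hk : ∀ (r : k) (v : VV k d K), LocForm A D v → LocForm A D (algebraMap k K r • v) := by
    intro r v hv
    rw [IsScalarTower.algebraMap_apply k (SS k d) K]
    exact k3_smul D _ _ hv
  induction x using CliffordAlgebra.left_induction with
  | algebraMap r =>
    have h1 : ((1 : K) ⊗ₜ[k] (algebraMap k (CliffordAlgebra (0 : QuadraticForm k (Fin d → k))) r : Lam k d) : VV k d K) =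
        algebraMap k K r • (1 : VV k d K) := by
      rw [Algebra.TensorProduct.one_def, TensorProduct.smul_tmul', smul_eq_mul, mul_one,
        Algebra.algebraMap_eq_smul_one (R := k) (A := K), TensorProduct.smul_tmul]
      congr 1
      exact Algebra.algebraMap_eq_smul_one (R := k) (A := CliffordAlgebra (0 : QuadraticForm k (Fin d → k))) r
    rw [h1]
    exact hk r _ (k3_one D)
  | add y z hy hz =>
    rw [TensorProduct.tmul_add]
    exact k3_add D _ _ hy hz
  | ι_mul y m hy =>
    have h2 : ((1 : K) ⊗ₜ[k] (CliffordAlgebra.ι (0 : QuadraticForm k (Fin d → k)) m * y : Lam k d) : VV k d K) =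
        (onef (fun l => algebraMap k K (m l)) : VV k d K) * ((1 : K) ⊗ₜ[k] y) := by
      rw [← v2_lam_ι, Algebra.TensorProduct.tmul_mul_tmul, mul_one]
    rw [h2, onef, Finset.sum_mul]
    refine Finset.sum_induction _ (LocForm A D) (k3_add D) (k3_zero D) fun l _ => ?_
    rw [smul_mul_assoc]
    exact hk _ _ (k3_dy D hD l _ hy)

theorem k3_bc (hD : ∀ j (b : MvPolynomial (Fin d) k),
      D j (algebraMap (MvPolynomial (Fin d) k) K b) =
      algebraMap (MvPolynomial (Fin d) k) K (MvPolynomial.pderiv j b)) (η : VV k d (SS k d)) :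
    LocForm A D (bcV (IsScalarTower.toAlgHom k (SS k d) K) η) := by
  induction η using TensorProduct.induction_on with
  | zero =>
    rw [map_zero]
    exact k3_zero D
  | add y z hy hz =>
    rw [map_add]
    exact k3_add D _ _ hy hz
  | tmul c x =>
    have h1 : bcV (IsScalarTower.toAlgHom k (SS k d) K) (c ⊗ₜ[k] x) =
        algebraMap (SS k d) K c • ((1 : K) ⊗ₜ[k] x : VV k d K) := by
      rw [w1_bct, TensorProduct.smul_tmul', smul_eq_mul, mul_one]
      rfl
    rw [h1]
    exact k3_smul D c _ (k3_lam D hD x)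

theorem k3_psi (hunit : ∀ f : MvPolynomial (Fin n) k, MvPolynomial.constantCoeff f ≠ 0 →
      ∃ (g : MvPolynomial (Fin n) k) (b : MvPolynomial (Fin d) k),
        MvPolynomial.constantCoeff b ≠ 0 ∧ algebraMap (MvPolynomial (Fin n) k) A (f * g) =
          algebraMap (MvPolynomial (Fin d) k) A b)
    (φ : SS k n →ₐ[k] K) (hφ : ∀ p : MvPolynomial (Fin n) k,
      φ (algebraMap (MvPolynomial (Fin n) k) (SS k n) p) =
        algebraMap A K (algebraMap (MvPolynomial (Fin n) k) A p))
    (z : VV k n (SS k n)) (v : VV k d K) (hv : LocForm A D v) :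
    LocForm A D (Psi φ (tX A D) z * v) := by
  exact v2_closed φ (tX A D) (LocForm A D) (k3_zero D) (k3_add D)
    (fun s x hx => k3_lsmul D hunit φ.toRingHom hφ s x hx) (fun l x hx => k3_lmul D l x hx) z v hv

end Pool.Agent.Lib.H44X
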