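import Pool.Agent.Lib.H44X.E7

/-!
K4 (M/L). e7_main for submodules of `K` and `K^d`.

`T = ↥sT ≤ K`, `U = ↥sU ≤ (Fin d → K)` are `B`-modules; with `letI` they become `R`-modules
(`r • x = φR r * x`, resp. `φR r • x`, by hT, hU; `Module R ↥sT` can be obtained by
`Module.ofMinimalAxioms` or by giving the fields directly, all by `Subtype.ext`), and
`SMulCommClass R B` holds (`Subtype.ext`, commutativity in `K`). `κ x = (j ↦ e_j x)`.
* Λ1: for `z : Fin (b 1) → T` put `λ1(z) = tr (∑_c φR (g c) * z c)`; the argument is in `T`, so by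
  htr the value is `algebraMap B L b`; `b` is unique (hinj), so `Λ1 z = b` is `B`-linear. (General
  lemma k4_lift: if `f : V →ₗ[B] L` has values in the range of `algebraMap B L`, which is
  injective, then `f = algebraMap ∘ F` for a linear `F : V →ₗ[B] B`: `LinearEquiv.ofInjective
  (Algebra.linearMap B L)` and `LinearMap.codRestrict`.) `tr` is `L`-linear, so it is `B`-linear
  (IsScalarTower B L K).
* Λ0: `λ0(z) = tr (∑_a ∑_j ρ a j * z a j)`, the argument is in `T` by hρ.
* h01: `λ1(dl (dm 0) z) = tr (∑_c φR (g c) ∑_a φR (dm_0 a c) z_a) = tr (∑_a (∑_j e_j ρ_aj) z_a)` by hgρ,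
  which is `λ0(κ z)`.
* hann: `a • x = φR a x = (algebraMap B K β) x = β • x` (Algebra.smul_def; for `K^d` componentwise).
* the other hypotheses of e7_main are the given ones, with `Um i η : Fin _ → U`,
  `(Um i η) c = ⟨Um i c η, _⟩` (LinearMap.pi and LinearMap.codRestrict).
-/

set_option autoImplicit false
open IsLocalRing
open Pool.Agent.Lib.Helper92 Pool.Agent.Lib.H44V

namespace Pool.Agent.Lib.H44X
universe u

theorem k4_lift {B L V : Type u} [CommRing B] [CommRing L] [Algebra B L] [AddCommGroup V]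
    [Module B V] (hinj : Function.Injective (algebraMap B L)) (f : V →ₗ[B] L)
    (hf : ∀ v, ∃ b, algebraMap B L b = f v) :
    ∃ F : V →ₗ[B] B, ∀ v, algebraMap B L (F v) = f v := by
  choose F hF using hf
  refine ⟨{ toFun := F, map_add' := fun v w => hinj ?_, map_smul' := fun b v => hinj ?_ }, hF⟩
  · rw [hF, map_add, map_add, hF, hF]
  · rw [hF, map_smul, RingHom.id_apply, smul_eq_mul, map_mul, hF, Algebra.smul_def]

/-- the action of `R` on a submodule. -/
@[reducible] def k4_mod {B R K M : Type u} [CommRing B] [CommRing R] [CommRing K] [AddCommGroup M]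
    [Module B M] [Module K M] (φ : R →+* K) (T : Submodule B M)
    (hT : ∀ r : R, ∀ x ∈ T, φ r • x ∈ T) : Module R T where
  smul r x := ⟨φ r • (x : M), hT r x x.2⟩
  one_smul x := Subtype.ext (by
    change φ 1 • (x : M) = x
    rw [map_one, one_smul])
  mul_smul r s x := Subtype.ext (by
    change φ (r * s) • (x : M) = φ r • (φ s • (x : M))
    rw [map_mul, mul_smul])
  smul_zero r := Subtype.ext (by
    change φ r • (0 : M) = 0
    exact smul_zero _)
  smul_add r x y := Subtype.ext (by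
    change φ r • ((x : M) + y) = φ r • (x : M) + φ r • (y : M)
    exact smul_add _ _ _)
  add_smul r s x := Subtype.ext (by
    change φ (r + s) • (x : M) = φ r • (x : M) + φ s • (x : M)
    rw [map_add, add_smul])
  zero_smul x := Subtype.ext (by
    change φ 0 • (x : M) = 0
    rw [map_zero, zero_smul])

theorem k4_abs {B R N L K W T U : Type u} {d : ℕ} [CommRing B] [CommRing R] [IsLocalRing R]
    [AddCommGroup N] [Module R N] [Field L] [Field K] [Algebra B L] [Algebra L K] [Algebra B K]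
    [IsScalarTower B L K] [AddCommGroup W] [Module B W] [Module.Projective B W]
    [AddCommGroup T] [Module R T] [Module B T] [SMulCommClass R B T]
    [AddCommGroup U] [Module R U] [Module B U] [SMulCommClass R B U]
    (hinj : Function.Injective (algebraMap B L)) (φR : R →+* K) (G : MRes R N) (s : ℕ)
    (hb : ∀ j, s < j → G.b j = 0) (jT : T →ₗ[B] K) (jU : U →ₗ[B] (Fin d → K))
    (hjT : Function.Injective jT) (hjU : Function.Injective jU)
    (hTr : ∀ (r : R) (x : T), jT (r • x) = φR r * jT x)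
    (hUr : ∀ (r : R) (x : U), jU (r • x) = φR r • jU x)
    (e : Fin d → K) (κ : T →ₗ[B] U) (hκ : ∀ x, jU (κ x) = fun j => e j * jT x)
    (hann : ∀ i, ∃ β : ℕ → B, (∀ j < i + 2, IsSMulRegular (B ⧸ Jx β j) (β j)) ∧
      ∀ j < i + 2, ∃ a ∈ HJ G i, φR a = algebraMap B K (β j))
    (tr : K →ₗ[L] L) (htr : ∀ x : T, ∃ b, algebraMap B L b = tr (jT x))
    (g : Fin (G.b 1) → R) (ρ : Fin (G.b 0) → Fin d → K)
    (hρ : ∀ a (x : U), ∃ y : T, jT y = ∑ j, ρ a j * jU x j)
    (hgρ : ∀ a, ∑ c, φR (G.dm 0 a c) * φR (g c) = ∑ j, e j * ρ a j)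
    (h0 : ∀ z : Fin (G.b 0) → U,
      (∀ c, ∑ a, φR (G.dm 0 a c) • jU (z a) = 0) → ∑ a, ∑ j, ρ a j * jU (z a) j = 0)
    (ι : W →ₗ[B] W) (hι : ∀ x, ι (ι x) = 0)
    (Um : ∀ i, Fin (G.b (i + 1)) → W →ₗ[B] U)
    (Xm : ∀ i, Fin (G.b (i + 1)) → W →ₗ[B] T)
    (hU1 : ∀ i c η, ∑ a, φR (G.dm (i + 1) a c) • jU (Um i a η) =
      (fun j => e j * jT (Xm (i + 1) c η)) - jU (Um (i + 1) c (ι η)))
    (hX1 : ∀ i c η, ∑ a, φR (G.dm (i + 1) a c) * jT (Xm i a η) = jT (Xm (i + 1) c (ι η)))
    (hU0 : ∀ c η, jU (Um 0 c (ι η)) = fun j => e j * jT (Xm 0 c η)) :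
    ∃ m : W →ₗ[B] B, ∀ η, algebraMap B L (m (ι η)) = tr (∑ c, φR (g c) * jT (Xm 0 c η)) := by
  have htrB : ∀ (b : B) (x : K), tr (b • x) = b • tr x := fun b x => (tr.restrictScalars B).map_smul b x
  have hdlT : ∀ {p q : ℕ} (A : Matrix (Fin p) (Fin q) R) (z : Fin p → T) (c : Fin q),
      jT (dl B A z c) = ∑ a, φR (A a c) * jT (z a) := by
    intro p q A z c
    rw [dl_apply, map_sum]
    exact Finset.sum_congr rfl fun a _ => hTr _ _
  have hdlU : ∀ {p q : ℕ} (A : Matrix (Fin p) (Fin q) R) (z : Fin p → U) (c : Fin q),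
      jU (dl B A z c) = ∑ a, φR (A a c) • jU (z a) := by
    intro p q A z c
    rw [dl_apply, map_sum]
    exact Finset.sum_congr rfl fun a _ => hUr _ _
  obtain ⟨Λ1, hΛ1⟩ := k4_lift (V := Fin (G.b 1) → T) hinj
    { toFun := fun z => tr (∑ c, φR (g c) * jT (z c))
      map_add' := fun z z' => by
        rw [← map_add, ← Finset.sum_add_distrib]
        congr 1
        refine Finset.sum_congr rfl fun c _ => ?_
        rw [Pi.add_apply, map_add, mul_add]
      map_smul' := fun b z => by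
        rw [RingHom.id_apply, ← htrB, Finset.smul_sum]
        congr 1
        refine Finset.sum_congr rfl fun c _ => ?_
        rw [Pi.smul_apply, map_smul, mul_smul_comm] } (fun z => by
      obtain ⟨b, hb⟩ := htr (∑ c, g c • z c)
      refine ⟨b, hb.trans ?_⟩
      rw [map_sum, Finset.sum_congr rfl (fun c _ => hTr (g c) (z c))]
      rfl)
  obtain ⟨Λ0, hΛ0⟩ := k4_lift (V := Fin (G.b 0) → U) hinj
    { toFun := fun z => tr (∑ a, ∑ j, ρ a j * jU (z a) j)
      map_add' := fun z z' => by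
        rw [← map_add, ← Finset.sum_add_distrib]
        congr 1
        refine Finset.sum_congr rfl fun a _ => ?_
        rw [← Finset.sum_add_distrib]
        refine Finset.sum_congr rfl fun j _ => ?_
        rw [Pi.add_apply, map_add, Pi.add_apply, mul_add]
      map_smul' := fun b z => by
        rw [RingHom.id_apply, ← htrB, Finset.smul_sum]
        congr 1
        refine Finset.sum_congr rfl fun a _ => ?_
        rw [Finset.smul_sum]
        refine Finset.sum_congr rfl fun j _ => ?_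
        rw [Pi.smul_apply, map_smul, Pi.smul_apply, mul_smul_comm] } (fun z => by
      choose y hy using fun a => hρ a (z a)
      obtain ⟨b, hb⟩ := htr (∑ a, y a)
      refine ⟨b, hb.trans ?_⟩
      rw [map_sum, Finset.sum_congr rfl (fun a _ => hy a)]
      rfl)
  have hL1 : ∀ z, algebraMap B L (Λ1 z) = tr (∑ c, φR (g c) * jT (z c)) := hΛ1
  have hL0 : ∀ z, algebraMap B L (Λ0 z) = tr (∑ a, ∑ j, ρ a j * jU (z a) j) := hΛ0
  obtain ⟨m, hm⟩ := e7_main G s hb κ (fun r x => hjU (by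
      rw [hκ, hTr, hUr, hκ]
      funext j
      rw [Pi.smul_apply, smul_eq_mul]
      ring))
    (fun i => by
      obtain ⟨β, hreg, hβ⟩ := hann i
      refine ⟨β, hreg, fun j hj => ?_⟩
      obtain ⟨a, ha, hab⟩ := hβ j hj
      refine ⟨a, ha, fun x => hjT ?_, fun x => hjU ?_⟩
      · rw [map_smul, hTr, hab, Algebra.smul_def]
      · rw [map_smul, hUr, hab, algebraMap_smul])
    Λ1 Λ0
    (fun z => hinj (by
      rw [hL1, hL0]
      congr 1
      have e1 : ∀ c, φR (g c) * jT (dl B (G.dm 0) z c) =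
          ∑ a, φR (G.dm 0 a c) * φR (g c) * jT (z a) := by
        intro c
        rw [hdlT, Finset.mul_sum]
        refine Finset.sum_congr rfl fun a _ => ?_
        ring
      rw [Finset.sum_congr rfl (fun c _ => e1 c), Finset.sum_comm]
      refine Finset.sum_congr rfl fun a _ => ?_
      rw [← Finset.sum_mul, hgρ, Finset.sum_mul, hκ]
      refine Finset.sum_congr rfl fun j _ => ?_
      ring))
    (fun z hz => hinj (by
      rw [hL0, map_zero, h0 z (fun c => by rw [← hdlU, hz, Pi.zero_apply, map_zero]), map_zero]))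
    ι hι (fun i => LinearMap.pi (Um i)) (fun i => LinearMap.pi (Xm i))
    (fun i η => funext fun c => hjU (by
      rw [hdlU, Pi.sub_apply, map_sub, hκ]
      exact hU1 i c η))
    (fun i η => funext fun c => hjT (by
      rw [hdlT]
      exact hX1 i c η))
    (fun η => funext fun c => hjU (by
      rw [hκ]
      exact hU0 c η))
  refine ⟨m, fun η => ?_⟩
  rw [hm, hL1]
  rfl

theorem k4_main {B R N L K W : Type u} {d : ℕ} [CommRing B] [CommRing R] [IsLocalRing R]
    [AddCommGroup N] [Module R N] [Field L] [Field K] [Algebra B L] [Algebra L K] [Algebra B K]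
    [IsScalarTower B L K] [AddCommGroup W] [Module B W] [Module.Projective B W]
    (hinj : Function.Injective (algebraMap B L)) (φR : R →+* K) (G : MRes R N) (s : ℕ)
    (hb : ∀ j, s < j → G.b j = 0) (T : Submodule B K) (U : Submodule B (Fin d → K))
    (hT : ∀ (r : R), ∀ x ∈ T, φR r * x ∈ T) (hU : ∀ (r : R), ∀ x ∈ U, φR r • x ∈ U)
    (e : Fin d → K) (hκ : ∀ x ∈ T, (fun j => e j * x) ∈ U)
    (hann : ∀ i, ∃ β : ℕ → B, (∀ j < i + 2, IsSMulRegular (B ⧸ Jx β j) (β j)) ∧
      ∀ j < i + 2, ∃ a ∈ HJ G i, φR a = algebraMap B K (β j))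
    (tr : K →ₗ[L] L) (htr : ∀ x ∈ T, ∃ b, algebraMap B L b = tr x)
    (g : Fin (G.b 1) → R) (ρ : Fin (G.b 0) → Fin d → K)
    (hρ : ∀ a, ∀ x ∈ U, ∑ j, ρ a j * x j ∈ T)
    (hgρ : ∀ a, ∑ c, φR (G.dm 0 a c) * φR (g c) = ∑ j, e j * ρ a j)
    (h0 : ∀ z : Fin (G.b 0) → Fin d → K, (∀ a, z a ∈ U) →
      (∀ c, ∑ a, φR (G.dm 0 a c) • z a = 0) → ∑ a, ∑ j, ρ a j * z a j = 0)
    (ι : W →ₗ[B] W) (hι : ∀ x, ι (ι x) = 0)
    (Um : ∀ i, Fin (G.b (i + 1)) → W →ₗ[B] (Fin d → K))
    (Xm : ∀ i, Fin (G.b (i + 1)) → W →ₗ[B] K)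
    (hUm : ∀ i c η, Um i c η ∈ U) (hXm : ∀ i c η, Xm i c η ∈ T)
    (hU1 : ∀ i c η, ∑ a, φR (G.dm (i + 1) a c) • Um i a η =
      (fun j => e j * Xm (i + 1) c η) - Um (i + 1) c (ι η))
    (hX1 : ∀ i c η, ∑ a, φR (G.dm (i + 1) a c) * Xm i a η = Xm (i + 1) c (ι η))
    (hU0 : ∀ c η, Um 0 c (ι η) = fun j => e j * Xm 0 c η) :
    ∃ m : W →ₗ[B] B, ∀ η, algebraMap B L (m (ι η)) = tr (∑ c, φR (g c) * Xm 0 c η) := by
  letI iT : Module R T := k4_mod φR T hT
  letI iU : Module R U := k4_mod φR U hU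
  haveI cT : SMulCommClass R B T := ⟨fun r b x => Subtype.ext (smul_comm (φR r) b (x : K))⟩
  haveI cU : SMulCommClass R B U := ⟨fun r b x => Subtype.ext (smul_comm (φR r) b (x : Fin d → K))⟩
  let κ : T →ₗ[B] U :=
    { toFun := fun x => ⟨fun j => e j * (x : K), hκ x x.2⟩
      map_add' := fun x y => Subtype.ext (funext fun j => mul_add (e j) (x : K) (y : K))
      map_smul' := fun b x => Subtype.ext (funext fun j => mul_smul_comm b (e j) (x : K)) }
  exact k4_abs (T := T) (U := U) hinj φR G s hb T.subtype U.subtype T.injective_subtype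
    U.injective_subtype (fun r x => rfl) (fun r x => rfl) e κ (fun x => rfl) hann tr
    (fun x => htr x x.2) g ρ (fun a x => ⟨⟨_, hρ a x x.2⟩, rfl⟩) hgρ
    (fun z hz => h0 (fun a => (z a : Fin d → K)) (fun a => (z a).2) hz) ι hι
    (fun i c => (Um i c).codRestrict U (hUm i c)) (fun i c => (Xm i c).codRestrict T (hXm i c))
    hU1 hX1 hU0

end Pool.Agent.Lib.H44X
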