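import Pool.Agent.Lib.H44X.RDefs

/-!
R3 (M). Homotopies on the resolution from a splitting of `u · id_N`.

* r3_lift: a matrix `X` with `dm_j X = 0` is `dm_(j+1) Y`: apply `ex j` to every column of `X`
  (`choose`; `Matrix.mulVec` of a unit vector is a column).
* r3_lift0: if `π (X v) = 0` for all `v` then `X = dm_0 Y`.
* r3_htpy: `hm_0` with `dm_0 hm_0 v = u v - σ(π v)`: apply r3_lift0 to the matrix of
  `v ↦ u v - σ(π v)` (`π(u v - σ(π v)) = u π v - u π v = 0`). Next `dm_0 (u - hm_0 dm_0) =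
  u dm_0 - (u - σπ) dm_0 = σ π dm_0 = 0`, so `u - hm_0 dm_0 = dm_1 hm_1` by r3_lift; in general, if
  `dm_j (u - hm_j dm_j) = 0` choose `hm_(j+1)` with `dm_(j+1) hm_(j+1) = u - hm_j dm_j`; then
  `dm_(j+1) (u - hm_(j+1) dm_(j+1)) = u dm_(j+1) - (u - hm_j dm_j) dm_(j+1) = 0` because
  `dm_j dm_(j+1) = 0` (`ex j`). Recursion: define by `Nat.rec` the sequence in the subtype
  `{h : Matrix .. // dm_j * (u • 1 - h * dm_j) = 0}` (dependent on `j`), or prove by induction on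
  `m` the existence of `hm_0, …, hm_m`; the first is easier.
-/

set_option autoImplicit false
open IsLocalRing

namespace Pool.Agent.Lib.H44X
universe u
variable {R : Type u} [CommRing R] [IsLocalRing R] {N : Type u} [AddCommGroup N] [Module R N]

set_option linter.unusedSectionVars false

private theorem r3_ext {m n : ℕ} {A B : Matrix (Fin m) (Fin n) R}
    (h : ∀ v, A.mulVec v = B.mulVec v) : A = B := by
  ext i j
  have h1 := congrFun (h (Pi.single j 1)) i
  simpa using h1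

private theorem r3_col {m n p : ℕ} (A : Matrix (Fin m) (Fin n) R) (X : Matrix (Fin n) (Fin p) R)
    (c : Fin p) : A.mulVec (fun i => X i c) = fun i => (A * X) i c := by
  funext i
  simp [Matrix.mulVec, Matrix.mul_apply, dotProduct]

theorem r3_dd (G : MRes R N) (j : ℕ) : G.dm j * G.dm (j + 1) = 0 := by
  refine r3_ext fun v => ?_
  rw [← Matrix.mulVec_mulVec, Matrix.zero_mulVec]
  exact (G.ex j _).mpr ⟨v, rfl⟩

theorem r3_lift (G : MRes R N) (j p : ℕ) (X : Matrix (Fin (G.b (j + 1))) (Fin p) R)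
    (hX : G.dm j * X = 0) : ∃ Y, X = G.dm (j + 1) * Y := by
  have h : ∀ c : Fin p, ∃ w, (fun i => X i c) = (G.dm (j + 1)).mulVec w := by
    intro c
    refine (G.ex j _).mp ?_
    rw [r3_col, hX]
    rfl
  choose w hw using h
  refine ⟨Matrix.of fun i c => w c i, ?_⟩
  ext i c
  have h1 := congrFun (hw c) i
  have h2 := congrFun (r3_col (G.dm (j + 1)) (Matrix.of fun i c => w c i) c) i
  exact h1.trans h2

theorem r3_lift0 (G : MRes R N) (p : ℕ) (X : Matrix (Fin (G.b 0)) (Fin p) R)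
    (hX : ∀ v, G.pi (X.mulVec v) = 0) : ∃ Y, X = G.dm 0 * Y := by
  have h : ∀ c : Fin p, ∃ w, (fun i => X i c) = (G.dm 0).mulVec w := by
    intro c
    refine (G.ex0 _).mp ?_
    have h1 := hX (Pi.single c 1)
    have h2 : X.mulVec (Pi.single c 1) = fun i => X i c := by
      funext i
      simp
    rw [h2] at h1
    exact h1
  choose w hw using h
  refine ⟨Matrix.of fun i c => w c i, ?_⟩
  ext i c
  have h1 := congrFun (hw c) i
  have h2 := congrFun (r3_col (G.dm 0) (Matrix.of fun i c => w c i) c) i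
  exact h1.trans h2

private theorem r3_step (G : MRes R N) (u : R) (j : ℕ)
    (h : Matrix (Fin (G.b (j + 1))) (Fin (G.b j)) R)
    (hh : G.dm j * (u • (1 : Matrix (Fin (G.b (j + 1))) (Fin (G.b (j + 1))) R) - h * G.dm j) = 0) :
    ∃ h' : Matrix (Fin (G.b (j + 2))) (Fin (G.b (j + 1))) R,
      G.dm (j + 1) * h' + h * G.dm j =
        u • (1 : Matrix (Fin (G.b (j + 1))) (Fin (G.b (j + 1))) R) ∧
      G.dm (j + 1) * (u • (1 : Matrix (Fin (G.b (j + 2))) (Fin (G.b (j + 2))) R) -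
        h' * G.dm (j + 1)) = 0 := by
  obtain ⟨Y, hY⟩ : ∃ Y : Matrix (Fin (G.b (j + 2))) (Fin (G.b (j + 1))) R,
      u • (1 : Matrix (Fin (G.b (j + 1))) (Fin (G.b (j + 1))) R) - h * G.dm j =
        G.dm (j + 1) * Y := r3_lift G j _ _ hh
  refine ⟨Y, ?_, ?_⟩
  · rw [← hY]
    abel
  · rw [Matrix.mul_sub, ← Matrix.mul_assoc, ← hY, Matrix.sub_mul, Matrix.mul_assoc h, r3_dd]
    simp

theorem r3_htpy (G : MRes R N) (u : R) (σ : N →ₗ[R] (Fin (G.b 0) → R))
    (hσ : ∀ x, G.pi (σ x) = u • x) :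
    ∃ hm : ∀ j, Matrix (Fin (G.b (j + 1))) (Fin (G.b j)) R,
      (∀ j, G.dm (j + 1) * hm (j + 1) + hm j * G.dm j =
        u • (1 : Matrix (Fin (G.b (j + 1))) (Fin (G.b (j + 1))) R)) ∧
      ∀ v, (G.dm 0 * hm 0).mulVec v = u • v - σ (G.pi v) := by
  classical
  have h0 : ∀ v, (LinearMap.toMatrix' (u • LinearMap.id - σ ∘ₗ G.pi)).mulVec v =
      u • v - σ (G.pi v) := by
    intro v
    rw [LinearMap.toMatrix'_mulVec]
    rfl
  obtain ⟨H0, hH0⟩ : ∃ H0 : Matrix (Fin (G.b 1)) (Fin (G.b 0)) R,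
      LinearMap.toMatrix' (u • LinearMap.id - σ ∘ₗ G.pi) = G.dm 0 * H0 :=
    r3_lift0 G _ (LinearMap.toMatrix' (u • LinearMap.id - σ ∘ₗ G.pi)) (by
      intro v
      rw [h0, map_sub, hσ, map_smul, sub_self])
  have h1 : ∀ v, (G.dm 0 * H0).mulVec v = u • v - σ (G.pi v) := by
    intro v
    rw [← hH0, h0]
  have hpi : ∀ v, G.pi ((G.dm 0).mulVec v) = 0 := fun v => (G.ex0 _).mpr ⟨v, rfl⟩
  have h2 : G.dm 0 * (u • (1 : Matrix (Fin (G.b 1)) (Fin (G.b 1)) R) - H0 * G.dm 0) = 0 := by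
    refine r3_ext fun v => ?_
    rw [Matrix.mul_sub, ← Matrix.mul_assoc, Matrix.sub_mulVec, ← Matrix.mulVec_mulVec v _ (G.dm 0),
      h1, hpi, map_zero, sub_zero, Matrix.zero_mulVec, Matrix.mul_smul, Matrix.mul_one,
      Matrix.smul_mulVec, sub_self]
  let T : ℕ → Type u := fun j => {h : Matrix (Fin (G.b (j + 1))) (Fin (G.b j)) R //
    G.dm j * (u • (1 : Matrix (Fin (G.b (j + 1))) (Fin (G.b (j + 1))) R) - h * G.dm j) = 0}
  let F : ∀ j, T j := fun j => Nat.rec (motive := T) ⟨H0, h2⟩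
    (fun j h => ⟨(r3_step G u j h.1 h.2).choose, (r3_step G u j h.1 h.2).choose_spec.2⟩) j
  refine ⟨fun j => (F j).1, fun j => ?_, h1⟩
  exact (r3_step G u j (F j).1 (F j).2).choose_spec.1

end Pool.Agent.Lib.H44X
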