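import Mathlib

/-!
X1 (M). The canonical cocycle `ξ = exp(h)(g + ρ)`: linear algebra only.

Data: a field `K` of characteristic 0, a `K`-module `𝓕` with operators `E_i` (`i < M`), `T` which
anticommute; numbers `b_j` and matrices `dm_j` (`b_j × b_(j+1)`), `hm_i,j` (`b_(j+1) × b_j`), the
homotopy relation `dm_(j+1) hm_(i,j+1) + hm_(i,j) dm_j = β_i` (on `G_(j+1)`), vectors
`ρ : Fin (b 0) → 𝓕`, `g : Fin (b 1) → 𝓕`.
`mv A v` is the matrix `A` applied to a vector `v` with entries in `𝓕`; `BB = ∑_{i<M} β_i E_i`.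

* x1_mv_*: `mv` is additive, compatible with matrix products, sums, scalars and linear maps.
* x1_eta: `dm_j η_(j+1) = BB η_j`. Induction on `j`. `j = 0`: `dm_0 η_1 = ∑_i E_i (dm_0 hm_(i,0) ρ)
  = ∑_i E_i (β_i ρ)` by hypothesis hρ. Step: `(j+2) dm_(j+1) η_(j+2) = ∑_i E_i (dm_(j+1)
  hm_(i,j+1) η_(j+1)) = ∑_i E_i (β_i η_(j+1) - hm_(i,j) dm_j η_(j+1)) = BB η_(j+1) -
  ∑_i E_i hm_(i,j) (BB η_j) = BB η_(j+1) + BB ∑_i E_i hm_(i,j) η_j = BB η_(j+1) + (j+1) BB η_(j+1)`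
  because `E_i BB = - BB E_i`.
* x1_gam: `dm_0 g = T ρ`, and `dm_(j+1) γ_(j+1) = BB γ_j + T η_(j+1)`. Induction on `j`:
  `(j+1) dm_(j+1) γ_(j+1) = ∑_i E_i (dm_(j+1) hm_(i,j+1) γ_j) = ∑_i E_i (β_i γ_j - hm_(i,j) dm_j γ_j)`.
  For `j = 0`: `dm_0 γ_0 = T ρ`, so this is `BB γ_0 - ∑_i E_i hm_(i,0) T ρ = BB γ_0 +
  T ∑_i E_i hm_(i,0) ρ = BB γ_0 + T η_1`. For `j = j'+1`: `dm_j γ_j = BB γ_(j-1) + T η_j`, so it is
  `BB γ_j + BB ∑_i E_i hm_(i,j) γ_(j-1) + T ∑_i E_i hm_(i,j) η_j = BB γ_j + j BB γ_j +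
  (j+1) T η_(j+1)`.
* x1_xi: `dm_j ξ_(j+1) = BB ξ_j + T ξ_j` where `ξ_0 = ρ`, `ξ_(j+1) = γ_j + η_(j+1)`: add the two,
  with `T γ_j = 0` (x1_Tgam: induction, `T E_i = - E_i T`, `T g = 0`).
-/

set_option autoImplicit false

namespace Pool.Agent.Lib.H44X
universe u
variable {K : Type u} [Field K] {𝓕 : Type u} [AddCommGroup 𝓕] [Module K 𝓕]

/-- a matrix applied to a vector with entries in a module. -/
def mv {p q : ℕ} (A : Matrix (Fin p) (Fin q) K) (v : Fin q → 𝓕) : Fin p → 𝓕 :=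
  fun a => ∑ c, A a c • v c

variable {b : ℕ → ℕ}

/-- `η_j = h^j ρ / j!`. -/
noncomputable def eta (E : ℕ → 𝓕 →ₗ[K] 𝓕) (M : ℕ)
    (hm : ℕ → ∀ j, Matrix (Fin (b (j + 1))) (Fin (b j)) K) (ρ : Fin (b 0) → 𝓕) :
    ∀ j, Fin (b j) → 𝓕
  | 0 => ρ
  | (j + 1) => fun a => (((j + 1 : ℕ) : K))⁻¹ •
      ∑ i ∈ Finset.range M, E i (mv (hm i j) (eta E M hm ρ j) a)

/-- `γ_j = h^j g / j!`. -/
noncomputable def gam (E : ℕ → 𝓕 →ₗ[K] 𝓕) (M : ℕ)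
    (hm : ℕ → ∀ j, Matrix (Fin (b (j + 1))) (Fin (b j)) K) (g : Fin (b 1) → 𝓕) :
    ∀ j, Fin (b (j + 1)) → 𝓕
  | 0 => g
  | (j + 1) => fun a => (((j + 1 : ℕ) : K))⁻¹ •
      ∑ i ∈ Finset.range M, E i (mv (hm i (j + 1)) (gam E M hm g j) a)

/-- `ξ_j`. -/
noncomputable def xi (E : ℕ → 𝓕 →ₗ[K] 𝓕) (M : ℕ)
    (hm : ℕ → ∀ j, Matrix (Fin (b (j + 1))) (Fin (b j)) K) (ρ : Fin (b 0) → 𝓕)
    (g : Fin (b 1) → 𝓕) : ∀ j, Fin (b j) → 𝓕
  | 0 => ρ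
  | (j + 1) => fun a => gam E M hm g j a + eta E M hm ρ (j + 1) a

theorem x1_mv_add {p q : ℕ} (A : Matrix (Fin p) (Fin q) K) (v w : Fin q → 𝓕) (a : Fin p) :
    mv A (fun c => v c + w c) a = mv A v a + mv A w a := by
  simp only [mv, smul_add, Finset.sum_add_distrib]

theorem x1_mv_sub_mat {p q : ℕ} (A B : Matrix (Fin p) (Fin q) K) (v : Fin q → 𝓕) (a : Fin p) :
    mv (A - B) v a = mv A v a - mv B v a := by
  simp only [mv, Matrix.sub_apply, sub_smul, Finset.sum_sub_distrib]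

theorem x1_mv_mul {p q r : ℕ} (A : Matrix (Fin p) (Fin q) K) (B : Matrix (Fin q) (Fin r) K)
    (v : Fin r → 𝓕) (a : Fin p) : mv (A * B) v a = mv A (mv B v) a := by
  simp only [mv, Matrix.mul_apply, Finset.sum_smul, Finset.smul_sum, mul_smul]
  exact Finset.sum_comm

theorem x1_mv_map {p q : ℕ} (A : Matrix (Fin p) (Fin q) K) (f : 𝓕 →ₗ[K] 𝓕) (v : Fin q → 𝓕)
    (a : Fin p) : mv A (fun c => f (v c)) a = f (mv A v a) := by
  simp only [mv, map_sum, map_smul]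

theorem x1_mv_scalar {p : ℕ} (c : K) (v : Fin p → 𝓕) (a : Fin p) :
    mv (c • (1 : Matrix (Fin p) (Fin p) K)) v a = c • v a := by
  simp only [mv, Matrix.smul_apply, Matrix.one_apply, smul_eq_mul, mul_ite, mul_one, mul_zero, ite_smul, zero_smul]
  rw [Finset.sum_ite_eq, if_pos (Finset.mem_univ a)]

theorem x1_f2 [CharZero K] (n : ℕ) (x y : 𝓕) :
    ((((n + 1 : ℕ) : K))⁻¹) • (x + (((n + 1 : ℕ) : K)) • y + ((n : ℕ) : K) • x) = x + y := by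
  have h1 : (((n + 1 : ℕ) : K)) ≠ 0 := Nat.cast_ne_zero.2 (Nat.succ_ne_zero n)
  have h2 : x + (((n + 1 : ℕ) : K)) • y + ((n : ℕ) : K) • x = (((n + 1 : ℕ) : K)) • (x + y) := by
    rw [Nat.cast_add, Nat.cast_one]
    module
  rw [h2, smul_smul, inv_mul_cancel₀ h1, one_smul]

theorem x1_f1 [CharZero K] (n : ℕ) (x : 𝓕) :
    ((((n + 1 : ℕ) : K))⁻¹) • (x + ((n : ℕ) : K) • x) = x := by
  have h := x1_f2 (K := K) n x (0 : 𝓕)
  rwa [smul_zero, add_zero] at h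

theorem x1_mv_smul {p q : ℕ} (A : Matrix (Fin p) (Fin q) K) (r : K) (v : Fin q → 𝓕) (a : Fin p) :
    mv A (fun c => r • v c) a = r • mv A v a := by
  simp only [mv, Finset.smul_sum, smul_smul, mul_comm]

/-- The operator `∑ β_i E_i`. -/
noncomputable def x1BB (E : ℕ → 𝓕 →ₗ[K] 𝓕) (M : ℕ) (β : ℕ → K) : 𝓕 →ₗ[K] 𝓕 := ∑ i ∈ Finset.range M, β i • E i

theorem x1_BB (E : ℕ → 𝓕 →ₗ[K] 𝓕) (M : ℕ) (β : ℕ → K) (v : 𝓕) :
    x1BB E M β v = ∑ i ∈ Finset.range M, β i • E i v := by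
  rw [x1BB, LinearMap.sum_apply]
  rfl

theorem x1_E_BB (E : ℕ → 𝓕 →ₗ[K] 𝓕) (M : ℕ) (β : ℕ → K) (hE : ∀ i j v, E i (E j v) = -(E j (E i v))) (i : ℕ)
    (v : 𝓕) : E i (x1BB E M β v) = -x1BB E M β (E i v) := by
  rw [x1_BB, x1_BB, map_sum, ← Finset.sum_neg_distrib]
  refine Finset.sum_congr rfl fun j _ => ?_
  rw [map_smul, hE, smul_neg]

theorem x1_core (E : ℕ → 𝓕 →ₗ[K] 𝓕) (M : ℕ) {p q r : ℕ} (H : ℕ → Matrix (Fin q) (Fin r) K)
    (D : Matrix (Fin p) (Fin q) K) (v : Fin r → 𝓕) (a : Fin p) :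
    mv D (fun c => ∑ i ∈ Finset.range M, E i (mv (H i) v c)) a = ∑ i ∈ Finset.range M, E i (mv (D * H i) v a) := by
  have h1 : mv D (fun c => ∑ i ∈ Finset.range M, E i (mv (H i) v c)) a =
      ∑ i ∈ Finset.range M, mv D (fun c => E i (mv (H i) v c)) a := by
    simp only [mv, Finset.smul_sum]
    exact Finset.sum_comm
  rw [h1]
  refine Finset.sum_congr rfl fun i _ => ?_
  rw [x1_mv_map, x1_mv_mul]

theorem x1_step (E : ℕ → 𝓕 →ₗ[K] 𝓕) (M : ℕ)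
    (hm : ℕ → ∀ j, Matrix (Fin (b (j + 1))) (Fin (b j)) K)
    (dm : ∀ j, Matrix (Fin (b j)) (Fin (b (j + 1))) K) (β : ℕ → K)
    (hh : ∀ i < M, ∀ j, dm (j + 1) * hm i (j + 1) + hm i j * dm j =
      β i • (1 : Matrix (Fin (b (j + 1))) (Fin (b (j + 1))) K)) (j : ℕ) (v : Fin (b (j + 1)) → 𝓕)
    (a : Fin (b (j + 1))) :
    mv (dm (j + 1)) (fun c => ∑ i ∈ Finset.range M, E i (mv (hm i (j + 1)) v c)) a =
      x1BB E M β (v a) - ∑ i ∈ Finset.range M, E i (mv (hm i j) (mv (dm j) v) a) := by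
  rw [x1_core, x1_BB, ← Finset.sum_sub_distrib]
  refine Finset.sum_congr rfl fun i hi => ?_
  rw [eq_sub_of_add_eq (hh i (Finset.mem_range.1 hi) j), x1_mv_sub_mat, x1_mv_scalar, x1_mv_mul, map_sub, map_smul]

theorem x1_eta_s [CharZero K] (E : ℕ → 𝓕 →ₗ[K] 𝓕) (M : ℕ)
    (hm : ℕ → ∀ j, Matrix (Fin (b (j + 1))) (Fin (b j)) K) (ρ : Fin (b 0) → 𝓕) (j : ℕ) (a : Fin (b (j + 1))) :
    ∑ i ∈ Finset.range M, E i (mv (hm i j) (eta E M hm ρ j) a) = ((j + 1 : ℕ) : K) • eta E M hm ρ (j + 1) a := by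
  rw [eta, smul_smul, mul_inv_cancel₀ (Nat.cast_ne_zero.2 (Nat.succ_ne_zero j)), one_smul]

theorem x1_gam_s [CharZero K] (E : ℕ → 𝓕 →ₗ[K] 𝓕) (M : ℕ)
    (hm : ℕ → ∀ j, Matrix (Fin (b (j + 1))) (Fin (b j)) K) (g : Fin (b 1) → 𝓕) (j : ℕ) (a : Fin (b (j + 1 + 1))) :
    ∑ i ∈ Finset.range M, E i (mv (hm i (j + 1)) (gam E M hm g j) a) = ((j + 1 : ℕ) : K) • gam E M hm g (j + 1) a := by
  rw [gam, smul_smul, mul_inv_cancel₀ (Nat.cast_ne_zero.2 (Nat.succ_ne_zero j)), one_smul]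

theorem x1_eta [CharZero K] (E : ℕ → 𝓕 →ₗ[K] 𝓕) (M : ℕ)
    (hm : ℕ → ∀ j, Matrix (Fin (b (j + 1))) (Fin (b j)) K)
    (dm : ∀ j, Matrix (Fin (b j)) (Fin (b (j + 1))) K) (β : ℕ → K)
    (hE : ∀ i j v, E i (E j v) = -(E j (E i v)))
    (hh : ∀ i < M, ∀ j, dm (j + 1) * hm i (j + 1) + hm i j * dm j =
      β i • (1 : Matrix (Fin (b (j + 1))) (Fin (b (j + 1))) K))
    (ρ : Fin (b 0) → 𝓕) (hρ : ∀ i < M, ∀ a, mv (dm 0 * hm i 0) ρ a = β i • ρ a) (j : ℕ)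
    (a : Fin (b j)) : mv (dm j) (eta E M hm ρ (j + 1)) a =
      ∑ i ∈ Finset.range M, β i • E i (eta E M hm ρ j a) := by
  rw [← x1_BB]
  induction j with
  | zero =>
    have h1 : mv (dm 0) (eta E M hm ρ (0 + 1)) a =
        ((((0 + 1 : ℕ) : K))⁻¹) • mv (dm 0) (fun c => ∑ i ∈ Finset.range M, E i (mv (hm i 0) (eta E M hm ρ 0) c)) a := by
      rw [← x1_mv_smul]
      rfl
    have hc : (((0 + 1 : ℕ) : K))⁻¹ = 1 := by norm_num
    rw [h1, x1_core, hc, one_smul, x1_BB]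
    refine Finset.sum_congr rfl fun i hi => ?_
    have h2 : eta E M hm ρ 0 = ρ := rfl
    rw [h2, hρ i (Finset.mem_range.1 hi), map_smul]
  | succ j ih =>
    have h1 : mv (dm (j + 1)) (eta E M hm ρ (j + 1 + 1)) a = ((((j + 1 + 1 : ℕ) : K))⁻¹) •
        mv (dm (j + 1)) (fun c => ∑ i ∈ Finset.range M, E i (mv (hm i (j + 1)) (eta E M hm ρ (j + 1)) c)) a := by
      rw [← x1_mv_smul]
      rfl
    have h2 : mv (dm j) (eta E M hm ρ (j + 1)) = fun c => x1BB E M β (eta E M hm ρ j c) := funext ih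
    have h3 : ∑ i ∈ Finset.range M, E i (mv (hm i j) (fun c => x1BB E M β (eta E M hm ρ j c)) a) =
        -(((j + 1 : ℕ) : K) • x1BB E M β (eta E M hm ρ (j + 1) a)) := by
      rw [← map_smul, ← x1_eta_s, map_sum, ← Finset.sum_neg_distrib]
      refine Finset.sum_congr rfl fun i _ => ?_
      rw [x1_mv_map, x1_E_BB E M β hE]
    rw [h1, x1_step E M hm dm β hh, h2, h3, sub_neg_eq_add]
    exact x1_f1 (j + 1) _

theorem x1_Tgam (E : ℕ → 𝓕 →ₗ[K] 𝓕) (M : ℕ)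
    (hm : ℕ → ∀ j, Matrix (Fin (b (j + 1))) (Fin (b j)) K) (T : 𝓕 →ₗ[K] 𝓕)
    (hT : ∀ i v, E i (T v) = -(T (E i v))) (g : Fin (b 1) → 𝓕) (hg : ∀ a, T (g a) = 0) (j : ℕ)
    (a : Fin (b (j + 1))) : T (gam E M hm g j a) = 0 := by
  have hT' : ∀ i v, T (E i v) = -(E i (T v)) := fun i v => by rw [hT, neg_neg]
  induction j with
  | zero => exact hg a
  | succ j ih =>
    rw [gam, map_smul, map_sum, Finset.sum_eq_zero, smul_zero]
    intro i _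
    rw [hT', ← x1_mv_map]
    have h1 : (fun c => T (gam E M hm g j c)) = fun _ => 0 := funext ih
    rw [h1]
    simp [mv]

theorem x1_gam [CharZero K] (E : ℕ → 𝓕 →ₗ[K] 𝓕) (M : ℕ)
    (hm : ℕ → ∀ j, Matrix (Fin (b (j + 1))) (Fin (b j)) K)
    (dm : ∀ j, Matrix (Fin (b j)) (Fin (b (j + 1))) K) (β : ℕ → K) (T : 𝓕 →ₗ[K] 𝓕)
    (hE : ∀ i j v, E i (E j v) = -(E j (E i v))) (hT : ∀ i v, E i (T v) = -(T (E i v)))
    (hh : ∀ i < M, ∀ j, dm (j + 1) * hm i (j + 1) + hm i j * dm j =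
      β i • (1 : Matrix (Fin (b (j + 1))) (Fin (b (j + 1))) K))
    (ρ : Fin (b 0) → 𝓕) (g : Fin (b 1) → 𝓕) (hgρ : ∀ a, mv (dm 0) g a = T (ρ a)) (j : ℕ)
    (a : Fin (b (j + 1))) : mv (dm (j + 1)) (gam E M hm g (j + 1)) a =
      ∑ i ∈ Finset.range M, β i • E i (gam E M hm g j a) + T (eta E M hm ρ (j + 1) a) := by
  rw [← x1_BB]
  have hTs : ∀ (q : ℕ) (v : ℕ → 𝓕), ∑ i ∈ Finset.range q, E i (T (v i)) = -T (∑ i ∈ Finset.range q, E i (v i)) := by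
    intro q v
    rw [map_sum, ← Finset.sum_neg_distrib]
    exact Finset.sum_congr rfl fun i _ => hT _ _
  induction j with
  | zero =>
    have h1 : mv (dm (0 + 1)) (gam E M hm g (0 + 1)) a = ((((0 + 1 : ℕ) : K))⁻¹) •
        mv (dm (0 + 1)) (fun c => ∑ i ∈ Finset.range M, E i (mv (hm i (0 + 1)) (gam E M hm g 0) c)) a := by
      rw [← x1_mv_smul]
      rfl
    have h2 : mv (dm 0) (gam E M hm g 0) = fun c => T (eta E M hm ρ 0 c) := funext hgρ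
    have h3 : ∑ i ∈ Finset.range M, E i (mv (hm i 0) (fun c => T (eta E M hm ρ 0 c)) a) =
        -T (eta E M hm ρ (0 + 1) a) := by
      have h4 := x1_eta_s E M hm ρ 0 a
      have hc : ((0 + 1 : ℕ) : K) = 1 := by norm_num
      rw [hc, one_smul] at h4
      rw [← h4, ← hTs]
      refine Finset.sum_congr rfl fun i _ => ?_
      rw [x1_mv_map]
    have hc : (((0 + 1 : ℕ) : K))⁻¹ = 1 := by norm_num
    rw [h1, x1_step E M hm dm β hh, h2, h3, sub_neg_eq_add, hc, one_smul]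
  | succ j ih =>
    have h1 : mv (dm (j + 1 + 1)) (gam E M hm g (j + 1 + 1)) a = ((((j + 1 + 1 : ℕ) : K))⁻¹) •
        mv (dm (j + 1 + 1)) (fun c => ∑ i ∈ Finset.range M, E i (mv (hm i (j + 1 + 1)) (gam E M hm g (j + 1)) c)) a := by
      rw [← x1_mv_smul]
      rfl
    have h2 : mv (dm (j + 1)) (gam E M hm g (j + 1)) =
        fun c => x1BB E M β (gam E M hm g j c) + T (eta E M hm ρ (j + 1) c) := funext ih
    have h3 : ∑ i ∈ Finset.range M, E i (mv (hm i (j + 1))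
        (fun c => x1BB E M β (gam E M hm g j c) + T (eta E M hm ρ (j + 1) c)) a) =
        -(((j + 1 : ℕ) : K) • x1BB E M β (gam E M hm g (j + 1) a)) -
          ((j + 1 + 1 : ℕ) : K) • T (eta E M hm ρ (j + 1 + 1) a) := by
      rw [← map_smul, ← map_smul, ← x1_eta_s, ← x1_gam_s, map_sum (x1BB E M β), ← Finset.sum_neg_distrib, sub_eq_add_neg, ← hTs,
        ← Finset.sum_add_distrib]
      refine Finset.sum_congr rfl fun i _ => ?_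
      rw [x1_mv_add, x1_mv_map, x1_mv_map, map_add, x1_E_BB E M β hE]
    rw [h1, x1_step E M hm dm β hh, h2, h3, sub_sub_eq_add_sub, sub_neg_eq_add]
    exact x1_f2 (j + 1) _ _

theorem x1_xi [CharZero K] (E : ℕ → 𝓕 →ₗ[K] 𝓕) (M : ℕ)
    (hm : ℕ → ∀ j, Matrix (Fin (b (j + 1))) (Fin (b j)) K)
    (dm : ∀ j, Matrix (Fin (b j)) (Fin (b (j + 1))) K) (β : ℕ → K) (T : 𝓕 →ₗ[K] 𝓕)
    (hE : ∀ i j v, E i (E j v) = -(E j (E i v))) (hT : ∀ i v, E i (T v) = -(T (E i v)))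
    (hh : ∀ i < M, ∀ j, dm (j + 1) * hm i (j + 1) + hm i j * dm j =
      β i • (1 : Matrix (Fin (b (j + 1))) (Fin (b (j + 1))) K))
    (ρ : Fin (b 0) → 𝓕) (hρ : ∀ i < M, ∀ a, mv (dm 0 * hm i 0) ρ a = β i • ρ a)
    (g : Fin (b 1) → 𝓕) (hg : ∀ a, T (g a) = 0) (hgρ : ∀ a, mv (dm 0) g a = T (ρ a)) (j : ℕ)
    (a : Fin (b j)) : mv (dm j) (xi E M hm ρ g (j + 1)) a =
      ∑ i ∈ Finset.range M, β i • E i (xi E M hm ρ g j a) + T (xi E M hm ρ g j a) := by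
  rw [← x1_BB]
  cases j with
  | zero =>
    have h1 := x1_eta E M hm dm β hE hh ρ hρ 0 a
    rw [← x1_BB] at h1
    have h2 : mv (dm 0) (xi E M hm ρ g (0 + 1)) a = mv (dm 0) g a + mv (dm 0) (eta E M hm ρ (0 + 1)) a :=
      x1_mv_add _ _ _ _
    rw [h2, h1, hgρ, add_comm]
    rfl
  | succ j =>
    have h1 := x1_eta E M hm dm β hE hh ρ hρ (j + 1) a
    have h3 := x1_gam E M hm dm β T hE hT hh ρ g hgρ j a
    rw [← x1_BB] at h1 h3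
    have h2 : mv (dm (j + 1)) (xi E M hm ρ g (j + 1 + 1)) a =
        mv (dm (j + 1)) (gam E M hm g (j + 1)) a + mv (dm (j + 1)) (eta E M hm ρ (j + 1 + 1)) a :=
      x1_mv_add _ _ _ _
    have h4 : xi E M hm ρ g (j + 1) a = gam E M hm g j a + eta E M hm ρ (j + 1) a := rfl
    rw [h2, h1, h3, h4, map_add, map_add, x1_Tgam E M hm T hT g hg, zero_add]
    abel

end Pool.Agent.Lib.H44X
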