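import Pool.Agent.Lib.H44X.LDefs
import Pool.Agent.Lib.H44X.R3
import Pool.Agent.Lib.H44X.X1

/-!
Z1 (M). The form `ρ` is killed by the splittings; the homotopies over `K`.

* z1_chain: for a polynomial `f` whose image in `A` is zero, `∑_l (∂_l f) dx_l = 0`, i.e.
  `∑_l (image of ∂_l f in K) • onef (tX A D l) = 0`: the coefficient at `dy_j` is
  `∑_l ∂_l f(x) D_j(x_l) = D_j(f(x)) = D_j(0) = 0` (chain rule for the derivation `D_j` composed
  with `P → K`: Derivation and MvPolynomial: `MvPolynomial.mkDerivation..`, `Derivation.map_aeval`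
  style, or induction on `f` for the statement
  `D_j(image f) = ∑_l image(∂_l f) D_j(x_l)`).
* z1_del: let `del_l : I → S/I` be `S`-linear, with `del_l(f) = ∂_l f` mod `I` for `f ∈ F`; then
  `∑_l φR(del_l y) • th_l = 0` for all `y ∈ I`, if this holds for the generators `f ∈ F`:
  `I = (F) S`, Submodule.span_induction (Ideal.map_span); `del_l` is linear and `φR` a ring map.
* z1_rho: let `DB I q` hold and `φR(u) ≠ 0` for `u ∉ q`. For every `S/I`-linear `τ : N → S/I`:
  `∑_l φR(τ(D_l)) • th_l = 0`, where `toHom D_l = del_l`. Proof: with `(f_j, φ_j, u)` from `DB` and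
  `toHom Φ_j = φ_j` (toHom_surj), `u • D_l = ∑_j del_l(f_j) • Φ_j` in `N` (compare at
  `I.toCotangent y`), so `u τ(D_l) = ∑_j del_l(f_j) τ(Φ_j)` and
  `φR(u) ∑_l φR(τ(D_l)) • th_l = ∑_j φR(τ Φ_j) • ∑_l φR(del_l f_j) • th_l = 0`.
* z1_htpy: for each `i < M` take `σ_i` with `π σ_i = u_i` and `hm` from r3_htpy, mapped to `K`
  entrywise (Matrix.map; for `i ≥ M` take 0). `mv (dm_0 hm_(i,0)) ρ = u_i ρ - (σ_i π)(ρ)`, where
  `ρ_a = ∑_l φR(t_l(a)) • th_l`: write `mv (A.map φR) ρ a = ∑_l φR((A.mulVec t_l) a) • th_l`, and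
  `(dm_0 hm_0) t_l = u t_l - σ(π t_l)`; the last term gives `∑_l φR((σ(π t_l))_a) • th_l = 0` by the
  hypothesis hτ applied to `τ = (a-th coordinate) ∘ σ`.
-/

set_option autoImplicit false
open TensorProduct IsLocalRing
open Pool.Agent.Lib.Helper92 Pool.Agent.Lib.H44V

namespace Pool.Agent.Lib.H44X
universe u

private theorem z1_der {k : Type u} [Field k] {n : ℕ} {A K : Type u} [CommRing A] [Field K]
    [Algebra k K] [Algebra A K] [Algebra (MvPolynomial (Fin n) k) A] [Algebra k A]
    [IsScalarTower k (MvPolynomial (Fin n) k) A] [IsScalarTower k A K]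
    (D : Derivation k K K) (f : MvPolynomial (Fin n) k) :
    D (algebraMap A K (algebraMap (MvPolynomial (Fin n) k) A f)) =
      ∑ l, algebraMap A K (algebraMap (MvPolynomial (Fin n) k) A (MvPolynomial.pderiv l f)) *
        D (algebraMap A K (algebraMap (MvPolynomial (Fin n) k) A (MvPolynomial.X l))) := by
  induction f using MvPolynomial.induction_on with
  | C a =>
    have h1 : algebraMap (MvPolynomial (Fin n) k) A (MvPolynomial.C a) = algebraMap k A a := by
      rw [IsScalarTower.algebraMap_apply k (MvPolynomial (Fin n) k) A, MvPolynomial.algebraMap_eq]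
    rw [h1, ← IsScalarTower.algebraMap_apply k A K, Derivation.map_algebraMap]
    refine (Finset.sum_eq_zero fun l _ => ?_).symm
    rw [MvPolynomial.pderiv_C, map_zero, map_zero, zero_mul]
  | add p q hp hq =>
    rw [map_add, map_add, map_add, hp, hq, ← Finset.sum_add_distrib]
    refine Finset.sum_congr rfl fun l _ => ?_
    rw [map_add, map_add, map_add, add_mul]
  | mul_X p i hp =>
    have h2 : ∀ l, algebraMap A K (algebraMap (MvPolynomial (Fin n) k) A
        (MvPolynomial.pderiv l (p * MvPolynomial.X i))) *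
        D (algebraMap A K (algebraMap (MvPolynomial (Fin n) k) A (MvPolynomial.X l))) =
        (if l = i then algebraMap A K (algebraMap (MvPolynomial (Fin n) k) A p) *
          D (algebraMap A K (algebraMap (MvPolynomial (Fin n) k) A (MvPolynomial.X i))) else 0) +
        algebraMap A K (algebraMap (MvPolynomial (Fin n) k) A (MvPolynomial.X i)) *
          (algebraMap A K (algebraMap (MvPolynomial (Fin n) k) A (MvPolynomial.pderiv l p)) *
          D (algebraMap A K (algebraMap (MvPolynomial (Fin n) k) A (MvPolynomial.X l)))) := by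
      intro l
      rw [Derivation.leibniz]
      by_cases h : l = i
      · subst h
        rw [MvPolynomial.pderiv_X_self, if_pos rfl, smul_eq_mul, smul_eq_mul, mul_one, map_add,
          map_add, map_mul, map_mul]
        ring
      · rw [MvPolynomial.pderiv_X_of_ne (Ne.symm h), if_neg h, smul_eq_mul, smul_eq_mul,
          mul_zero, zero_add, zero_add, map_mul, map_mul]
        ring
    rw [Finset.sum_congr rfl fun l _ => h2 l, Finset.sum_add_distrib, Finset.sum_ite_eq',
      if_pos (Finset.mem_univ _), ← Finset.mul_sum, ← hp, map_mul, map_mul, Derivation.leibniz,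
      smul_eq_mul, smul_eq_mul]

theorem z1_chain {k : Type u} [Field k] {n d : ℕ} {A K : Type u} [CommRing A] [Field K]
    [Algebra k K] [Algebra A K] [Algebra (MvPolynomial (Fin n) k) A] [Algebra k A]
    [IsScalarTower k (MvPolynomial (Fin n) k) A] [IsScalarTower k A K]
    (D : Fin d → Derivation k K K) (f : MvPolynomial (Fin n) k)
    (hf : algebraMap (MvPolynomial (Fin n) k) A f = 0) :
    ∑ l, algebraMap A K (algebraMap (MvPolynomial (Fin n) k) A (MvPolynomial.pderiv l f)) •
      (onef (tX A D l) : VV k d K) = 0 := by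
  have h1 : ∀ l, algebraMap A K (algebraMap (MvPolynomial (Fin n) k) A
      (MvPolynomial.pderiv l f)) • (onef (tX A D l) : VV k d K) =
      ∑ j, (algebraMap A K (algebraMap (MvPolynomial (Fin n) k) A (MvPolynomial.pderiv l f)) *
        D j (algebraMap A K (algebraMap (MvPolynomial (Fin n) k) A (MvPolynomial.X l)))) •
          dy k d K j := by
    intro l
    unfold onef tX
    rw [Finset.smul_sum]
    exact Finset.sum_congr rfl fun j _ => smul_smul _ _ _
  rw [Finset.sum_congr rfl fun l _ => h1 l, Finset.sum_comm]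
  refine Finset.sum_eq_zero fun j _ => ?_
  rw [← Finset.sum_smul, ← z1_der (D j) f, hf, map_zero, map_zero, zero_smul]

theorem z1_del {P S K V : Type u} [CommRing P] [CommRing S] [Algebra P S] [Field K]
    [AddCommGroup V] [Module K V] (F : Set P) {n : ℕ}
    (φR : (S ⧸ (Ideal.span F).map (algebraMap P S)) →+* K) (th : Fin n → V)
    (del : Fin n → ((Ideal.span F).map (algebraMap P S) →ₗ[S]
      (S ⧸ (Ideal.span F).map (algebraMap P S))))
    (h : ∀ f ∈ F, ∀ (hf : algebraMap P S f ∈ (Ideal.span F).map (algebraMap P S)),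
      ∑ l, φR (del l ⟨algebraMap P S f, hf⟩) • th l = 0)
    (y : (Ideal.span F).map (algebraMap P S)) : ∑ l, φR (del l y) • th l = 0 := by
  have hmem : ∀ z : S, z ∈ Submodule.span S (algebraMap P S '' F) →
      z ∈ (Ideal.span F).map (algebraMap P S) := by
    intro z hz
    rw [Ideal.map_span]
    exact hz
  have hmem' : ∀ z : S, z ∈ (Ideal.span F).map (algebraMap P S) →
      z ∈ Submodule.span S (algebraMap P S '' F) := by
    intro z hz
    rw [Ideal.map_span] at hz
    exact hz
  have key : ∀ z : S, z ∈ Submodule.span S (algebraMap P S '' F) →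
      ∀ hz : z ∈ (Ideal.span F).map (algebraMap P S),
      ∑ l, φR (del l ⟨z, hz⟩) • th l = 0 := by
    intro z hz
    induction hz using Submodule.span_induction with
    | mem x hx =>
      obtain ⟨f, hf, rfl⟩ := hx
      exact fun hz => h f hf hz
    | zero =>
      intro hz
      refine Finset.sum_eq_zero fun l _ => ?_
      have h0 : (⟨0, hz⟩ : (Ideal.span F).map (algebraMap P S)) = 0 := rfl
      rw [h0, map_zero, map_zero, zero_smul]
    | add a b ha hb iha ihb =>
      intro hz
      have h0 : (⟨a + b, hz⟩ : (Ideal.span F).map (algebraMap P S)) =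
        ⟨a, hmem a ha⟩ + ⟨b, hmem b hb⟩ := rfl
      have h1 := iha (hmem a ha)
      have h2 := ihb (hmem b hb)
      rw [h0]
      calc ∑ l, φR (del l (⟨a, hmem a ha⟩ + ⟨b, hmem b hb⟩)) • th l
          = ∑ l, φR (del l ⟨a, hmem a ha⟩) • th l + ∑ l, φR (del l ⟨b, hmem b hb⟩) • th l := by
            rw [← Finset.sum_add_distrib]
            refine Finset.sum_congr rfl fun l _ => ?_
            rw [map_add, map_add, add_smul]
        _ = 0 := by rw [h1, h2, add_zero]
    | smul c a ha iha =>
      intro hz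
      have h0 : (⟨c • a, hz⟩ : (Ideal.span F).map (algebraMap P S)) = c • ⟨a, hmem a ha⟩ := rfl
      have h1 := iha (hmem a ha)
      rw [h0]
      calc ∑ l, φR (del l (c • ⟨a, hmem a ha⟩)) • th l
          = φR (algebraMap S _ c) • ∑ l, φR (del l ⟨a, hmem a ha⟩) • th l := by
            rw [Finset.smul_sum]
            refine Finset.sum_congr rfl fun l _ => ?_
            rw [map_smul, Algebra.smul_def, map_mul, mul_smul]
        _ = 0 := by rw [h1, smul_zero]
  exact key y.1 (hmem' y.1 y.2) y.2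

theorem z1_rho {S K V : Type u} [CommRing S] [Field K] [AddCommGroup V] [Module K V]
    (I q : Ideal S) (hDB : DB I q) (φR : (S ⧸ I) →+* K)
    (hq : ∀ u : S, u ∉ q → φR (Ideal.Quotient.mk I u) ≠ 0) {n : ℕ} (th : Fin n → V)
    (Dl : Fin n → NN I) (h : ∀ y : I, ∑ l, φR (toHom (Dl l) y) • th l = 0)
    (τ : NN I →ₗ[S ⧸ I] (S ⧸ I)) : ∑ l, φR (τ (Dl l)) • th l = 0 := by
  obtain ⟨r, f, φ, u, hu, hψ⟩ := hDB
  choose Φ hΦ using fun j => toHom_surj (φ j)
  have h1 : ∀ l, (Ideal.Quotient.mk I u) • Dl l = ∑ j, (toHom (Dl l) (f j)) • Φ j := by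
    intro l
    refine LinearMap.ext fun c => ?_
    obtain ⟨y, rfl⟩ := Ideal.toCotangent_surjective I c
    rw [LinearMap.sum_apply, LinearMap.smul_apply, smul_eq_mul]
    have h2 := hψ (toHom (Dl l)) y
    rw [toHom_apply] at h2
    rw [h2]
    refine Finset.sum_congr rfl fun j _ => ?_
    rw [LinearMap.smul_apply, smul_eq_mul, ← hΦ j, toHom_apply (Φ j)]
  have h3 : ∀ l, Ideal.Quotient.mk I u * τ (Dl l) =
      ∑ j, toHom (Dl l) (f j) * τ (Φ j) := by
    intro l
    have h4 := congrArg τ (h1 l)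
    rw [map_smul, map_sum, smul_eq_mul] at h4
    rw [h4]
    exact Finset.sum_congr rfl fun j _ => by rw [map_smul, smul_eq_mul]
  have h5 : φR (Ideal.Quotient.mk I u) • ∑ l, φR (τ (Dl l)) • th l = 0 := by
    calc φR (Ideal.Quotient.mk I u) • ∑ l, φR (τ (Dl l)) • th l
        = ∑ l, ∑ j, (φR (τ (Φ j)) * φR (toHom (Dl l) (f j))) • th l := by
          rw [Finset.smul_sum]
          refine Finset.sum_congr rfl fun l _ => ?_
          rw [smul_smul, ← map_mul, h3, map_sum, Finset.sum_smul]
          refine Finset.sum_congr rfl fun j _ => ?_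
          rw [map_mul, mul_comm]
      _ = ∑ j, φR (τ (Φ j)) • ∑ l, φR (toHom (Dl l) (f j)) • th l := by
          rw [Finset.sum_comm]
          refine Finset.sum_congr rfl fun j _ => ?_
          rw [Finset.smul_sum]
          exact Finset.sum_congr rfl fun l _ => mul_smul _ _ _
      _ = 0 := Finset.sum_eq_zero fun j _ => by rw [h (f j), smul_zero]
  exact (smul_eq_zero.1 h5).resolve_left (hq u hu)

theorem z1_htpy {R N K V : Type u} [CommRing R] [IsLocalRing R] [AddCommGroup N] [Module R N]
    [Field K] [AddCommGroup V] [Module K V] (G : MRes R N) (φR : R →+* K) (M : ℕ)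
    (u : ℕ → R) (hu : ∀ i < M, u i ∈ splitIdeal G.pi) {n : ℕ} (t : Fin n → Fin (G.b 0) → R)
    (th : Fin n → V) (hτ : ∀ τ : N →ₗ[R] R, ∑ l, φR (τ (G.pi (t l))) • th l = 0) :
    ∃ hm : ℕ → ∀ j, Matrix (Fin (G.b (j + 1))) (Fin (G.b j)) K,
      (∀ i j a c, ∃ r : R, hm i j a c = φR r) ∧
      (∀ i < M, ∀ j, (G.dm (j + 1)).map φR * hm i (j + 1) + hm i j * (G.dm j).map φR =
        φR (u i) • (1 : Matrix (Fin (G.b (j + 1))) (Fin (G.b (j + 1))) K)) ∧
      ∀ i < M, ∀ a, mv ((G.dm 0).map φR * hm i 0) (fun c => ∑ l, φR (t l c) • th l) a =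
        φR (u i) • ∑ l, φR (t l a) • th l := by
  have h1 : ∀ i, ∃ (σ : N →ₗ[R] (Fin (G.b 0) → R))
      (hm : ∀ j, Matrix (Fin (G.b (j + 1))) (Fin (G.b j)) R), i < M →
      (∀ j, G.dm (j + 1) * hm (j + 1) + hm j * G.dm j =
        u i • (1 : Matrix (Fin (G.b (j + 1))) (Fin (G.b (j + 1))) R)) ∧
      ∀ v, (G.dm 0 * hm 0).mulVec v = u i • v - σ (G.pi v) := by
    intro i
    by_cases hi : i < M
    · obtain ⟨σ, hσ⟩ := hu i hi
      obtain ⟨hm, h2, h3⟩ := r3_htpy G (u i) σ hσ
      exact ⟨σ, hm, fun _ => ⟨h2, h3⟩⟩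
    · exact ⟨0, fun _ => 0, fun h => absurd h hi⟩
  choose σ hm0 h2 using h1
  refine ⟨fun i j => (hm0 i j).map φR, fun i j a c => ⟨hm0 i j a c, rfl⟩, ?_, ?_⟩
  · intro i hi j
    have h3 := congrArg (fun A : Matrix (Fin (G.b (j + 1))) (Fin (G.b (j + 1))) R => A.map φR)
      ((h2 i hi).1 j)
    rw [Matrix.map_add φR (map_add φR), Matrix.map_mul, Matrix.map_mul] at h3
    rw [h3]
    ext a c
    rw [Matrix.map_apply, Matrix.smul_apply, Matrix.smul_apply, smul_eq_mul, smul_eq_mul,
      map_mul, Matrix.one_apply, Matrix.one_apply]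
    split_ifs
    · rw [map_one]
    · rw [map_zero]
  · intro i hi a
    have h4 : ∀ l, ∑ c, (G.dm 0 * hm0 i 0) a c * t l c = u i * t l a - σ i (G.pi (t l)) a := by
      intro l
      have h5 := congrFun ((h2 i hi).2 (t l)) a
      exact h5
    have h6 := hτ ((LinearMap.proj a) ∘ₗ σ i)
    have h7 : ∑ l, φR (σ i (G.pi (t l)) a) • th l = 0 := h6
    rw [← Matrix.map_mul]
    calc mv ((G.dm 0 * hm0 i 0).map φR) (fun c => ∑ l, φR (t l c) • th l) a
        = ∑ l, φR (∑ c, (G.dm 0 * hm0 i 0) a c * t l c) • th l := by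
          unfold mv
          simp only [Finset.smul_sum, Matrix.map_apply]
          rw [Finset.sum_comm]
          refine Finset.sum_congr rfl fun l _ => ?_
          rw [map_sum, Finset.sum_smul]
          refine Finset.sum_congr rfl fun c _ => ?_
          rw [map_mul, mul_smul]
      _ = φR (u i) • ∑ l, φR (t l a) • th l - ∑ l, φR (σ i (G.pi (t l)) a) • th l := by
          rw [Finset.smul_sum, ← Finset.sum_sub_distrib]
          refine Finset.sum_congr rfl fun l _ => ?_
          rw [h4, map_sub, map_mul, sub_smul, mul_smul]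
      _ = φR (u i) • ∑ l, φR (t l a) • th l := by rw [h7, sub_zero]

end Pool.Agent.Lib.H44X
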