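import Pool.Agent.Lib.H44X.KDef
import Pool.Agent.Lib.H44X.Z1

/-!
K5 (M). `ρ` vanishes on the kernel of the transpose of `dm_0`.

`ρ_aj = ∑_l φR(tt l a) th_l j`. Let `z : Fin (b 0) → Fin d → K` with `∑_a φR(dm_0 a c) • z_a = 0` for
all `c`. Define `σ : N → (Fin d → K)` by `σ(π v) = ∑_a φR(v_a) • z_a`: well defined, because
`π v = 0` gives `v = dm_0 w` (`G.ex0`) and `∑_a φR((dm_0 w)_a) • z_a =
∑_c φR(w_c) • ∑_a φR(dm_0 a c) • z_a = 0`; it is additive and `σ(r x) = φR(r) • σ(x)`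
(`G.surj`; it is enough to work with the function `v ↦ ∑_a φR(v_a) • z_a` on tuples and to use that
it depends only on `π v`).
With `(r, f, φ, u)` from `DB I q` and `Φ_j ∈ N`, `toHom Φ_j = φ_j` (toHom_surj), `Φ_j = π v_j`:
`u • Dl = ∑_j del_l(f_j) • Φ_j` in `N` where `Dl = π (tt l)`, `toHom (Dl) = del_l` (compare at
`I.toCotangent y`; see the proof of z1_rho in Z1.lean). So, for `w = u • tt l - ∑_j del_l(f_j) • v_j`,
`π w = 0`, hence `φR(u) ∑_a φR(tt l a) z_a = ∑_j φR(del_l f_j) ∑_a φR(v_j a) z_a`.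
Therefore `φR(u) ∑_a ∑_i ρ_ai z_ai = ∑_i ∑_l th_l i (φR(u) ∑_a φR(tt l a) z_a i) =
∑_j ∑_i (∑_a φR(v_j a) z_a i) (∑_l φR(del_l f_j) th_l i) = 0` by hdel0.
-/

set_option autoImplicit false
open IsLocalRing
open Pool.Agent.Lib.Helper92 Pool.Agent.Lib.H44V

namespace Pool.Agent.Lib.H44X
universe u

theorem k5_rho {S K : Type u} [CommRing S] [Field K] {d n : ℕ} (I q : Ideal S) (hDB : DB I q)
    [IsLocalRing (S ⧸ I)] (G : MRes (S ⧸ I) (NN I)) (φR : (S ⧸ I) →+* K)
    (hq : ∀ u : S, u ∉ q → φR (Ideal.Quotient.mk I u) ≠ 0) (th : Fin n → Fin d → K)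
    (tt : Fin n → Fin (G.b 0) → S ⧸ I)
    (hdel0 : ∀ (y : I) (i : Fin d), ∑ l, φR (toHom (G.pi (tt l)) y) * th l i = 0)
    (z : Fin (G.b 0) → Fin d → K) (hz : ∀ c, ∑ a, φR (G.dm 0 a c) • z a = 0) :
    ∑ a, ∑ i, (∑ l, φR (tt l a) * th l i) * z a i = 0 := by
  obtain ⟨r, f, φ, u, hu, hψ⟩ := hDB
  choose Φ hΦ using fun j => toHom_surj (φ j)
  have h1 : ∀ l, (Ideal.Quotient.mk I u) • G.pi (tt l) =
      ∑ j, (toHom (G.pi (tt l)) (f j)) • Φ j := by
    intro l
    refine LinearMap.ext fun c => ?_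
    obtain ⟨y, rfl⟩ := Ideal.toCotangent_surjective I c
    rw [LinearMap.sum_apply, LinearMap.smul_apply, smul_eq_mul]
    have h2 := hψ (toHom (G.pi (tt l))) y
    rw [toHom_apply] at h2
    rw [h2]
    refine Finset.sum_congr rfl fun j _ => ?_
    rw [LinearMap.smul_apply, smul_eq_mul, ← hΦ j, toHom_apply (Φ j)]
  choose v hv using fun j => G.surj (Φ j)
  let L : Fin d → (Fin (G.b 0) → S ⧸ I) → K := fun i w => ∑ a, φR (w a) * z a i
  have hL : ∀ i w, L i w = ∑ a, φR (w a) * z a i := fun i w => rfl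
  have hL0 : ∀ i w, G.pi w = 0 → L i w = 0 := by
    intro i w hw
    obtain ⟨x, rfl⟩ := (G.ex0 w).1 hw
    have h2 : ∀ c, ∑ a, φR (G.dm 0 a c) * z a i = 0 := by
      intro c
      have h3 := congrFun (hz c) i
      rw [Finset.sum_apply] at h3
      simpa only [Pi.smul_apply, smul_eq_mul, Pi.zero_apply] using h3
    calc L i ((G.dm 0).mulVec x) = ∑ a, ∑ c, φR (x c) * (φR (G.dm 0 a c) * z a i) := by
          rw [hL]
          refine Finset.sum_congr rfl fun a _ => ?_
          rw [Matrix.mulVec, dotProduct, map_sum, Finset.sum_mul]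
          refine Finset.sum_congr rfl fun c _ => ?_
          rw [map_mul]
          ring
      _ = ∑ c, φR (x c) * ∑ a, φR (G.dm 0 a c) * z a i := by
          rw [Finset.sum_comm]
          exact Finset.sum_congr rfl fun c _ => (Finset.mul_sum _ _ _).symm
      _ = 0 := Finset.sum_eq_zero fun c _ => by rw [h2 c, mul_zero]
  have h4 : ∀ i l, φR (Ideal.Quotient.mk I u) * L i (tt l) =
      ∑ j, φR (toHom (G.pi (tt l)) (f j)) * L i (v j) := by
    intro i l
    have h5 : G.pi ((Ideal.Quotient.mk I u) • tt l -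
        ∑ j, (toHom (G.pi (tt l)) (f j)) • v j) = 0 := by
      rw [map_sub, map_smul, map_sum, h1 l, sub_eq_zero]
      exact Finset.sum_congr rfl fun j _ => by rw [map_smul, hv]
    have h6 := hL0 i _ h5
    have h7 : L i ((Ideal.Quotient.mk I u) • tt l - ∑ j, (toHom (G.pi (tt l)) (f j)) • v j) =
        φR (Ideal.Quotient.mk I u) * L i (tt l) -
          ∑ j, φR (toHom (G.pi (tt l)) (f j)) * L i (v j) := by
      rw [hL, hL]
      have h8 : ∑ j, φR (toHom (G.pi (tt l)) (f j)) * L i (v j) =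
          ∑ a, (∑ j, φR (toHom (G.pi (tt l)) (f j)) * φR (v j a)) * z a i := by
        simp only [hL, Finset.mul_sum, Finset.sum_mul]
        rw [Finset.sum_comm]
        exact Finset.sum_congr rfl fun a _ => Finset.sum_congr rfl fun j _ => by ring
      rw [h8, Finset.mul_sum, ← Finset.sum_sub_distrib]
      refine Finset.sum_congr rfl fun a _ => ?_
      rw [Pi.sub_apply, Finset.sum_apply, map_sub, map_sum, Pi.smul_apply, smul_eq_mul, map_mul]
      have h9 : ∑ j, φR ((toHom (G.pi (tt l)) (f j) • v j) a) =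
          ∑ j, φR (toHom (G.pi (tt l)) (f j)) * φR (v j a) :=
        Finset.sum_congr rfl fun j _ => by rw [Pi.smul_apply, smul_eq_mul, map_mul]
      rw [h9]
      ring
    rw [h7] at h6
    exact sub_eq_zero.1 h6
  have h10 : ∑ a, ∑ i, (∑ l, φR (tt l a) * th l i) * z a i = ∑ i, ∑ l, th l i * L i (tt l) := by
    rw [Finset.sum_comm]
    refine Finset.sum_congr rfl fun i _ => ?_
    simp only [hL, Finset.sum_mul, Finset.mul_sum]
    rw [Finset.sum_comm]
    exact Finset.sum_congr rfl fun l _ => Finset.sum_congr rfl fun a _ => by ring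
  have h11 : φR (Ideal.Quotient.mk I u) * ∑ i, ∑ l, th l i * L i (tt l) = 0 := by
    rw [Finset.mul_sum]
    refine Finset.sum_eq_zero fun i _ => ?_
    calc φR (Ideal.Quotient.mk I u) * ∑ l, th l i * L i (tt l)
        = ∑ l, ∑ j, L i (v j) * (φR (toHom (G.pi (tt l)) (f j)) * th l i) := by
          rw [Finset.mul_sum]
          refine Finset.sum_congr rfl fun l _ => ?_
          rw [mul_left_comm, h4, Finset.mul_sum]
          exact Finset.sum_congr rfl fun j _ => by ring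
      _ = ∑ j, L i (v j) * ∑ l, φR (toHom (G.pi (tt l)) (f j)) * th l i := by
          rw [Finset.sum_comm]
          exact Finset.sum_congr rfl fun j _ => (Finset.mul_sum _ _ _).symm
      _ = 0 := Finset.sum_eq_zero fun j _ => by rw [hdel0, mul_zero]
  rw [h10]
  exact (mul_eq_zero.1 h11).resolve_left (hq u hu)

end Pool.Agent.Lib.H44X
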