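import Pool.Agent.Lib.H44X.K2

/-!
K6a (S/M). The relations between `Um` and `Xm`.

* k6a_U: `∑_a dm(a, c) • (τ i a * η) = (∑_a dm(a, c) • τ i a) * η = con e (inv τ') * η`, `τ' = τ (i+1) c`
  (smul_mul_assoc, Finset.sum_mul), and by v1_leib with `x = inv τ'` and v1_inv_inv
  `con e (inv τ' * η) = con e (inv τ') * η + τ' * con e η`. Apply `nuc l` (linear) and k2_nuc.
* k6a_X: `inv` of the relation (it is an algebra map): `∑_a dm(a, c) • inv (τ i a) =
  inv (con e (inv τ')) = - con e (inv (inv τ')) = - con e τ'` (v1_con_inv, v1_inv_inv), and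
  `con e τ' * η = con e (τ' * η) - inv τ' * con e η` (v1_leib); apply `coef l` and k2_con.
-/

set_option autoImplicit false
open TensorProduct

namespace Pool.Agent.Lib.H44X
universe u
variable {k : Type u} [Field k] {d : ℕ} {K : Type u} [Field K] [Algebra k K]
  (l : Module.Dual k (Lam k d)) (b : ℕ → ℕ)
  (dm : ∀ j, Matrix (Fin (b j)) (Fin (b (j + 1))) K) (e : Fin d → K)
  (τ : ∀ i, Fin (b (i + 1)) → VV k d K)

theorem k6a_U (hl : ∀ (f : Module.Dual k (Fin d → k)) (x : Lam k d),
      l (CliffordAlgebra.contractLeft (Q := (0 : QuadraticForm k (Fin d → k))) f x) = 0)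
    (hτ : ∀ i c, ∑ a, dm (i + 1) a c • τ i a = con e (inv (τ (i + 1) c))) (i : ℕ)
    (c : Fin (b (i + 2))) (η : VV k d K) :
    ∑ a, dm (i + 1) a c • nuc l (τ i a * η) =
      (fun j => e j * coef l (inv (τ (i + 1) c) * η)) - nuc l (τ (i + 1) c * con e η) := by
  have h1 : ∑ a, dm (i + 1) a c • nuc l (τ i a * η) =
      nuc l (con e (inv (τ (i + 1) c)) * η) := by
    rw [← hτ i c, Finset.sum_mul, map_sum]
    exact Finset.sum_congr rfl fun a _ => by rw [smul_mul_assoc, map_smul]
  have h2 := v1_leib e (inv (τ (i + 1) c)) η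
  rw [v1_inv_inv] at h2
  have h3 : con e (inv (τ (i + 1) c)) * η =
      con e (inv (τ (i + 1) c) * η) - τ (i + 1) c * con e η := by
    rw [h2]
    abel
  rw [h1, h3, map_sub, k2_nuc l hl]

theorem k6a_X (hl : ∀ (f : Module.Dual k (Fin d → k)) (x : Lam k d),
      l (CliffordAlgebra.contractLeft (Q := (0 : QuadraticForm k (Fin d → k))) f x) = 0)
    (hτ : ∀ i c, ∑ a, dm (i + 1) a c • τ i a = con e (inv (τ (i + 1) c))) (i : ℕ)
    (c : Fin (b (i + 2))) (η : VV k d K) :
    ∑ a, dm (i + 1) a c * coef l (inv (τ i a) * η) =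
      coef l (inv (τ (i + 1) c) * con e η) := by
  have h0 : ∑ a, dm (i + 1) a c • inv (τ i a) = -con e (τ (i + 1) c) := by
    have h := congrArg (inv : VV k d K →ₐ[K] VV k d K) (hτ i c)
    rw [map_sum] at h
    have h4 := v1_con_inv e (inv (τ (i + 1) c))
    rw [v1_inv_inv] at h4
    rw [h4, neg_neg, ← h]
    exact Finset.sum_congr rfl fun a _ => by rw [map_smul]
  have h1 : ∑ a, dm (i + 1) a c * coef l (inv (τ i a) * η) =
      coef l (-con e (τ (i + 1) c) * η) := by
    rw [← h0, Finset.sum_mul, map_sum]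
    exact Finset.sum_congr rfl fun a _ => by rw [smul_mul_assoc, map_smul, smul_eq_mul]
  have h2 := v1_leib e (τ (i + 1) c) η
  have h3 : -con e (τ (i + 1) c) * η =
      inv (τ (i + 1) c) * con e η - con e (τ (i + 1) c * η) := by
    rw [h2]
    rw [neg_mul]
    abel
  rw [h1, h3, map_sub, k2_con l hl, sub_zero]

end Pool.Agent.Lib.H44X
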