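import Pool.Agent.Lib.H44X.O5

/-!
O6 (M). The tower of forms over the resolution.

`I = (F) S`. `dS_j` are matrices over `S` with entries in `𝔪` and `dS_j dS_(j+1) ≡ 0` mod `I`;
`c : Fin (b 2) → S` has entries in `𝔪` and `∑_e c_e dS_2(e, a) ∈ I`.

* o6_I: `s • v ∈ JJ F S` for `s ∈ I`, all `v` (Submodule.span_induction on `s`, Ideal.map = span of the
  images of `F`: `Ideal.map_span`).
* o6_inv: `inv` preserves `JJ F S` (`inv (f • v) = f • inv v`, `inv (df * v) = - df * inv v`,
  v1_inv_onef), and `coef l (inv v) ∈ 𝔪` if all `coef l v ∈ 𝔪`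
  (`coef l (inv v) = coef (l ∘ involute) v`, pure tensors).
* o6_z: define `z_0` by o5_exact applied to `c_a • 1` (`con eul (c_a • 1) = 0`; coefficients
  `l(1) c_a ∈ 𝔪`). Given `z_q` put `y_q(a) = - ∑_e dS_(q+2)(e, a) • inv (z_q(e))`, all coefficients
  in `𝔪`. `con eul y_q(a) = ∑_e dS_(q+2)(e, a) • inv (con eul z_q(e))` (v1_con_inv). For `q = 0`,
  modulo `JJ`: `con eul z_0(e) ≡ c_e • 1`, so this is `(∑_e dS_2(e,a) c_e) • 1 ∈ JJ` (o6_I). For
  `q ≥ 1`: `con eul z_q(e) ≡ y_(q-1)(e) = -∑_f dS_(q+1)(f, e) • inv (z_(q-1)(f))`, so (inv inv = 1)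
  it is `-∑_f (∑_e dS_(q+2)(e,a) dS_(q+1)(f,e)) • z_(q-1)(f) ∈ JJ`. So o5_exact gives `z_(q+1)(a)` with
  `y_q(a) - con eul z_(q+1)(a) ∈ JJ`.
  For the recursion use the invariant `Inv q z`: for all `a`,
  `∑_e dS_(q+2)(e, a) • inv (con eul (z e)) ∈ JJ F S`; build a sequence in
  `{z : Fin (b (q+2)) → VV k n S // Inv q z}` by `Nat.rec`, the step being a choice of
  `z'` with `con eul (z' a) + ∑_e dS_(q+2)(e,a) • inv (z e) ∈ JJ` (it satisfies `Inv (q+1) z'`).
-/

set_option autoImplicit false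
open TensorProduct IsLocalRing

namespace Pool.Agent.Lib.H44X
universe u
variable {k : Type u} [Field k] {n : ℕ}

theorem o6_I (F : Set (MvPolynomial (Fin n) k)) (s : SS k n)
    (hs : s ∈ (Ideal.span F).map (algebraMap (MvPolynomial (Fin n) k) (SS k n)))
    (v : VV k n (SS k n)) : s • v ∈ JJ F (SS k n) := by
  rw [Ideal.map_span] at hs
  induction hs using Submodule.span_induction with
  | mem x hx =>
    obtain ⟨f, hf, rfl⟩ := hx
    exact Submodule.subset_span (Or.inl ⟨f, hf, v, rfl⟩)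
  | zero => rw [zero_smul]; exact Submodule.zero_mem _
  | add x y _ _ hx hy => rw [add_smul]; exact Submodule.add_mem _ hx hy
  | smul a x _ hx => rw [smul_assoc]; exact Submodule.smul_mem _ _ hx

theorem o6_inv (F : Set (MvPolynomial (Fin n) k)) (v : VV k n (SS k n))
    (hv : v ∈ JJ F (SS k n)) : inv v ∈ JJ F (SS k n) := by
  unfold JJ at hv
  induction hv using Submodule.span_induction with
  | mem x hx =>
    rcases hx with ⟨f, hf, v, rfl⟩ | ⟨f, hf, v, rfl⟩
    · rw [map_smul]
      exact Submodule.subset_span (Or.inl ⟨f, hf, inv v, rfl⟩)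
    · rw [map_mul, v1_inv_onef, neg_mul]
      exact Submodule.neg_mem _ (Submodule.subset_span (Or.inr ⟨f, hf, inv v, rfl⟩))
  | zero => rw [map_zero]; exact Submodule.zero_mem _
  | add x y _ _ hx hy => rw [map_add]; exact Submodule.add_mem _ hx hy
  | smul a x _ hx => rw [map_smul]; exact Submodule.smul_mem _ _ hx

theorem o6_coef_inv (l : Module.Dual k (Lam k n)) (v : VV k n (SS k n)) :
    coef l (inv v) = coef (l.comp (CliffordAlgebra.involute (Q := (0 : QuadraticForm k (Fin n → k)))).toLinearMap) v := by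
  induction v using TensorProduct.induction_on with
  | zero => simp only [map_zero]
  | tmul p x =>
    rw [v1_inv_tmul]
    unfold coef
    rw [Module.Dual.baseChange_apply_tmul, Module.Dual.baseChange_apply_tmul]
    rfl
  | add a b ha hb => simp only [map_add, ha, hb]

theorem o6_tower [CharZero k] (w : Fin n → ℕ) (hw : ∀ i, 0 < w i)
    (F : Set (MvPolynomial (Fin n) k))
    (hF : ∀ f ∈ F, ∃ m, MvPolynomial.IsWeightedHomogeneous w f m) (b : ℕ → ℕ)
    (dS : ∀ j, Matrix (Fin (b j)) (Fin (b (j + 1))) (SS k n))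
    (hdm : ∀ j a c, dS j a c ∈ maximalIdeal (SS k n))
    (hdd : ∀ j a c, (dS j * dS (j + 1)) a c ∈
      (Ideal.span F).map (algebraMap (MvPolynomial (Fin n) k) (SS k n)))
    (c : Fin (b 2) → SS k n) (hc : ∀ a, c a ∈ maximalIdeal (SS k n))
    (hcd : ∀ a, ∑ e, c e * dS 2 e a ∈
      (Ideal.span F).map (algebraMap (MvPolynomial (Fin n) k) (SS k n))) :
    ∃ z : ∀ q, Fin (b (q + 2)) → VV k n (SS k n),
      (∀ a, con (eul k w (SS k n)) (z 0 a) - c a • (1 : VV k n (SS k n)) ∈ JJ F (SS k n)) ∧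
      ∀ q a, con (eul k w (SS k n)) (z (q + 1) a) + ∑ e, dS (q + 2) e a • inv (z q e) ∈
        JJ F (SS k n) := by
  -- the first step
  have h0 : ∀ a, ∃ z', c a • (1 : VV k n (SS k n)) - con (eul k w (SS k n)) z' ∈ JJ F (SS k n) := by
    intro a
    refine o5_exact w hw F hF _ (fun l => ?_) ?_
    · rw [map_smul, smul_eq_mul]
      exact Ideal.mul_mem_right _ _ (hc a)
    · rw [map_smul, v1_con_one, smul_zero]
      exact Submodule.zero_mem _
  choose z0 hz0 using h0
  have hi0 : ∀ a, ∑ e, dS (0 + 2) e a • inv (con (eul k w (SS k n)) (z0 e)) ∈ JJ F (SS k n) := by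
    intro a
    have h1 : ∑ e, dS (0 + 2) e a • inv (con (eul k w (SS k n)) (z0 e)) =
        (∑ e, c e * dS 2 e a) • (1 : VV k n (SS k n)) -
          ∑ e, dS 2 e a • inv (c e • (1 : VV k n (SS k n)) - con (eul k w (SS k n)) (z0 e)) := by
      rw [Finset.sum_smul, ← Finset.sum_sub_distrib]
      refine Finset.sum_congr rfl fun e _ => ?_
      rw [map_sub, map_smul, map_one, smul_sub, smul_smul, mul_comm (dS 2 e a), sub_sub_cancel]
    rw [h1]
    exact Submodule.sub_mem _ (o6_I F _ (hcd a) _)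
      (Submodule.sum_mem _ fun e _ => Submodule.smul_mem _ _ (o6_inv F _ (hz0 e)))
  -- the step
  have hstep : ∀ (q : ℕ) (z : Fin (b (q + 2)) → VV k n (SS k n)),
      (∀ a, ∑ e, dS (q + 2) e a • inv (con (eul k w (SS k n)) (z e)) ∈ JJ F (SS k n)) →
      ∃ z' : Fin (b (q + 1 + 2)) → VV k n (SS k n),
        (∀ a, con (eul k w (SS k n)) (z' a) + ∑ e, dS (q + 2) e a • inv (z e) ∈ JJ F (SS k n)) ∧
        ∀ a, ∑ e, dS (q + 1 + 2) e a • inv (con (eul k w (SS k n)) (z' e)) ∈ JJ F (SS k n) := by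
    intro q z hz
    have h1 : ∀ a, ∃ z', -(∑ e, dS (q + 2) e a • inv (z e)) - con (eul k w (SS k n)) z' ∈ JJ F (SS k n) := by
      intro a
      refine o5_exact w hw F hF _ (fun l => ?_) ?_
      · rw [map_neg, map_sum]
        refine neg_mem (sum_mem fun e _ => ?_)
        rw [map_smul, smul_eq_mul]
        exact Ideal.mul_mem_right _ _ (hdm _ _ _)
      · have h2 : con (eul k w (SS k n)) (-(∑ e, dS (q + 2) e a • inv (z e))) =
            ∑ e, dS (q + 2) e a • inv (con (eul k w (SS k n)) (z e)) := by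
          rw [map_neg, map_sum, ← Finset.sum_neg_distrib]
          refine Finset.sum_congr rfl fun e _ => ?_
          rw [map_smul, v1_con_inv, smul_neg, neg_neg]
        rw [h2]
        exact hz a
    choose z' hz' using h1
    refine ⟨z', fun a => ?_, fun a => ?_⟩
    · have h2 := Submodule.neg_mem _ (hz' a)
      rwa [neg_sub, sub_neg_eq_add] at h2
    · have h3 : ∑ e, dS (q + 1 + 2) e a • inv (con (eul k w (SS k n)) (z' e)) =
          -(∑ e, dS (q + 1 + 2) e a • inv (-(∑ f, dS (q + 2) f e • inv (z f)) - con (eul k w (SS k n)) (z' e))) -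
            ∑ f, ((dS (q + 2) * dS (q + 2 + 1)) f a) • z f := by
        have h4 : ∀ e, inv (-(∑ f, dS (q + 2) f e • inv (z f)) - con (eul k w (SS k n)) (z' e)) =
            -(∑ f, dS (q + 2) f e • z f) - inv (con (eul k w (SS k n)) (z' e)) := by
          intro e
          rw [map_sub, map_neg, map_sum]
          congr 2
          refine Finset.sum_congr rfl fun f _ => ?_
          rw [map_smul, v1_inv_inv]
        have h5 : ∑ f, ((dS (q + 2) * dS (q + 2 + 1)) f a) • z f =
            ∑ e, dS (q + 1 + 2) e a • ∑ f, dS (q + 2) f e • z f := by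
          simp only [Matrix.mul_apply, Finset.sum_smul, Finset.smul_sum, smul_smul]
          rw [Finset.sum_comm]
          refine Finset.sum_congr rfl fun e _ => Finset.sum_congr rfl fun f _ => ?_
          rw [mul_comm]
        rw [h5, ← Finset.sum_neg_distrib, ← Finset.sum_sub_distrib]
        refine Finset.sum_congr rfl fun e _ => ?_
        rw [h4, smul_sub, smul_neg]
        abel
      rw [h3]
      refine Submodule.sub_mem _ (Submodule.neg_mem _ (Submodule.sum_mem _ fun e _ =>
        Submodule.smul_mem _ _ (o6_inv F _ (hz' e)))) (Submodule.sum_mem _ fun f _ => ?_)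
      exact o6_I F _ (hdd (q + 2) f a) _
  choose! g hg1 hg2 using hstep
  let Z : ∀ q, Fin (b (q + 2)) → VV k n (SS k n) := fun q =>
    Nat.rec (motive := fun q => Fin (b (q + 2)) → VV k n (SS k n)) z0 (fun q z => g q z) q
  have hZ : ∀ q a, ∑ e, dS (q + 2) e a • inv (con (eul k w (SS k n)) (Z q e)) ∈ JJ F (SS k n) := by
    intro q
    induction q with
    | zero => exact hi0
    | succ q ih => exact hg2 q (Z q) ih
  refine ⟨Z, fun a => ?_, fun q a => hg1 q (Z q) (hZ q) a⟩
  have h2 := Submodule.neg_mem _ (hz0 a)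
  rwa [neg_sub] at h2

end Pool.Agent.Lib.H44X
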