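import Pool.Agent.Lib.H44X.RDefs
import Pool.Agent.Lib.H44X.O6
import Pool.Agent.Lib.H44X.V2

/-!
Z2 (M). The forms `ζ_q` over `K`.

`I = (F) S`, `S = SS k n`, `G` a minimal resolution over `S/I`, `φR : S/I → K` with
`φR(mk s) = φ(s)`. Choose lifts `dS_j` of the matrices `dm_j` to `S` (entries in `𝔪`: an element of
`S` whose class is in the maximal ideal of `S/I` is in `𝔪`, since `S → S/I` is a local homomorphism,
`IsLocalRing.surjective_units_map..`, or: a unit of `S` has a unit as class) and lifts `pS` of `p`;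
put `c_a = ∑_e pS_e dS_1(e, a) ∈ 𝔪`. The entries of `dS_j dS_(j+1)` lie in `I` (`dm_j dm_(j+1) = 0`,
r3-type fact: by `G.ex j` applied to the columns of `dm_(j+1)`), and
`∑_e c_e dS_2(e, a) = ∑_f pS_f (dS_1 dS_2)(f, a) ∈ I`. Apply o6_tower to get `z_q` and put
`ζ_q(a) = Psi φ t (z_q a)`. By v2_con (`a = eul`, hypothesis heul), v2_JJ (`Psi` kills `JJ F S`),
v2_smul, v2_inv: `con e ζ_0(a) = φ(c_a) • 1` and
`con e ζ_(q+1)(a) = -∑_c φ(dS_(q+2)(c, a)) • inv ζ_q(c)`.
-/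

set_option autoImplicit false
open TensorProduct IsLocalRing
open Pool.Agent.Lib.Helper92 Pool.Agent.Lib.H44V

namespace Pool.Agent.Lib.H44X
universe u

theorem z2_zeta {k : Type u} [Field k] [CharZero k] {n d : ℕ} {K : Type u} [Field K]
    [Algebra k K] (w : Fin n → ℕ) (hw : ∀ i, 0 < w i) (F : Set (MvPolynomial (Fin n) k))
    (hF : ∀ f ∈ F, ∃ m, MvPolynomial.IsWeightedHomogeneous w f m) (φ : SS k n →ₐ[k] K)
    (t : Fin n → Fin d → K)
    (h1 : ∀ f ∈ F, φ (algebraMap (MvPolynomial (Fin n) k) (SS k n) f) = 0)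
    (h2 : ∀ f ∈ F, ∑ l, φ (grad (SS k n) f l) • (onef (t l) : VV k d K) = 0)
    (e : Fin d → K) (heul : ∀ l, ∑ j, e j * t l j = φ (eul k w (SS k n) l))
    (φR : (SS k n ⧸ (Ideal.span F).map (algebraMap (MvPolynomial (Fin n) k) (SS k n))) →+* K)
    (hφR : ∀ s : SS k n, φR (Ideal.Quotient.mk _ s) = φ s)
    [IsLocalRing (SS k n ⧸ (Ideal.span F).map (algebraMap (MvPolynomial (Fin n) k) (SS k n)))]
    (G : MRes (SS k n ⧸ (Ideal.span F).map (algebraMap (MvPolynomial (Fin n) k) (SS k n)))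
      (NN ((Ideal.span F).map (algebraMap (MvPolynomial (Fin n) k) (SS k n)))))
    (p : Fin (G.b 1) →
      SS k n ⧸ (Ideal.span F).map (algebraMap (MvPolynomial (Fin n) k) (SS k n))) :
    ∃ ζ : ∀ q, Fin (G.b (q + 2)) → VV k d K,
      (∀ q a, ∃ z : VV k n (SS k n), ζ q a = Psi φ t z) ∧
      (∀ a, con e (ζ 0 a) = (∑ c, φR (p c) * (G.dm 1).map φR c a) • (1 : VV k d K)) ∧
      ∀ q a, con e (ζ (q + 1) a) = -∑ c, (G.dm (q + 2)).map φR c a • inv (ζ q c) := by
  classical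
  set I : Ideal (SS k n) :=
    (Ideal.span F).map (algebraMap (MvPolynomial (Fin n) k) (SS k n)) with hI
  have hlift : ∀ x : SS k n ⧸ I, ∃ s : SS k n, Ideal.Quotient.mk I s = x := fun x =>
    Ideal.Quotient.mk_surjective x
  choose lf hlf using hlift
  have hmax : ∀ x : SS k n ⧸ I, x ∈ maximalIdeal (SS k n ⧸ I) → lf x ∈ maximalIdeal (SS k n) := by
    intro x hx
    rw [mem_maximalIdeal, mem_nonunits_iff] at hx ⊢
    intro hu
    apply hx
    rw [← hlf x]
    exact hu.map (Ideal.Quotient.mk I)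
  have hzero : ∀ (j : ℕ) (a : Fin (G.b j)) (c : Fin (G.b (j + 1 + 1))),
      ∑ f, G.dm j a f * G.dm (j + 1) f c = 0 := by
    intro j a c
    have h1 : (G.dm j).mulVec ((G.dm (j + 1)).mulVec (Pi.single c 1)) = 0 :=
      (G.ex j _).2 ⟨_, rfl⟩
    have h2 := congrFun h1 a
    rw [Matrix.mulVec_single_one] at h2
    exact h2
  let dS : ∀ j, Matrix (Fin (G.b j)) (Fin (G.b (j + 1))) (SS k n) :=
    fun j => Matrix.of fun a c => lf (G.dm j a c)
  have hdS : ∀ j a c, Ideal.Quotient.mk I (dS j a c) = G.dm j a c := fun j a c => hlf _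
  have hdm : ∀ j a c, dS j a c ∈ maximalIdeal (SS k n) := fun j a c => hmax _ (G.min j a c)
  have hdd : ∀ j a c, (dS j * dS (j + 1)) a c ∈ I := by
    intro j a c
    rw [← Ideal.Quotient.eq_zero_iff_mem, Matrix.mul_apply, map_sum, ← hzero j a c]
    refine Finset.sum_congr rfl fun f _ => ?_
    rw [map_mul, hdS, hdS]
  let cS : Fin (G.b 2) → SS k n := fun a => ∑ f, lf (p f) * dS 1 f a
  have hc : ∀ a, cS a ∈ maximalIdeal (SS k n) := fun a =>
    Ideal.sum_mem _ fun f _ => Ideal.mul_mem_left _ _ (hdm 1 f a)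
  have hcd : ∀ a, ∑ f, cS f * dS 2 f a ∈ I := by
    intro a
    have h1 : ∑ f, cS f * dS 2 f a = ∑ f, lf (p f) * (dS 1 * dS (1 + 1)) f a := by
      simp only [cS, Finset.sum_mul, Matrix.mul_apply, Finset.mul_sum]
      rw [Finset.sum_comm]
      refine Finset.sum_congr rfl fun f _ => Finset.sum_congr rfl fun g _ => ?_
      rw [mul_assoc]
    rw [h1]
    exact Ideal.sum_mem _ fun f _ => Ideal.mul_mem_left _ _ (hdd 1 f a)
  obtain ⟨z, hz0, hz1⟩ := o6_tower w hw F hF G.b dS hdm hdd cS hc hcd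
  have hcon : ∀ v : VV k n (SS k n), con e (Psi φ t v) = Psi φ t (con (eul k w (SS k n)) v) :=
    fun v => v2_con φ t e (eul k w (SS k n)) heul v
  have hJ : ∀ v ∈ JJ F (SS k n), Psi φ t v = 0 := fun v hv => v2_JJ φ t F h1 h2 v hv
  refine ⟨fun q a => Psi φ t (z q a), fun q a => ⟨z q a, rfl⟩, fun a => ?_, fun q a => ?_⟩
  · have h3 := hJ _ (hz0 a)
    rw [map_sub, sub_eq_zero, v2_smul, map_one] at h3
    rw [hcon, h3]
    congr 1
    simp only [cS, map_sum, map_mul, Matrix.map_apply]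
    refine Finset.sum_congr rfl fun f _ => ?_
    rw [← hφR, ← hφR, hlf, hdS]
  · have h3 := hJ _ (hz1 q a)
    rw [map_add, map_sum] at h3
    rw [hcon, eq_neg_of_add_eq_zero_left h3]
    congr 1
    refine Finset.sum_congr rfl fun f _ => ?_
    rw [v2_smul, v2_inv, ← hφR, hdS, Matrix.map_apply]

end Pool.Agent.Lib.H44X
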