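import Pool.Agent.Lib.H44X.KDef
import Pool.Agent.Lib.H44X.Z2

/-!
K6b (S/M). The forms `τ`.

`ζ` from z2_zeta. Put `τ 0 c = - φR (p c) • 1` and `τ (i+1) c = ζ i c` (definition by `Nat.rec` /
pattern matching on `i`; both are functions on `Fin (G.b (i+1))`).
* `τ i c = Psi φ t z`: for `i = 0` choose `p' : S` with `mk p' = p c` (Ideal.Quotient.mk_surjective),
  `Psi φ t (-(p' • 1)) = -(φ p' • 1)` (v2_smul, map_one, map_neg), `φ p' = φR (mk p')` (hφR).
* relation, `i = 0`: `con e (inv (ζ 0 c)) = - inv (con e (ζ 0 c)) = - (∑_a φR(p a) dm_1(a, c)) • 1`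
  (v1_con_inv; `inv` is a `K`-algebra map, inv 1 = 1), which is `∑_a dm_1(a, c) • (-φR(p a) • 1)`.
* relation, `i + 1`: `con e (inv (ζ (i+1) c)) = - inv (con e (ζ (i+1) c)) =
  inv (∑_a dm_(i+2)(a, c) • inv (ζ i a)) = ∑_a dm_(i+2)(a, c) • ζ i a` (v1_inv_inv).
-/

set_option autoImplicit false
open TensorProduct IsLocalRing
open Pool.Agent.Lib.Helper92 Pool.Agent.Lib.H44V

namespace Pool.Agent.Lib.H44X
universe u

theorem k6b_tau {k : Type u} [Field k] [CharZero k] {n d : ℕ} {K : Type u} [Field K]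
    [Algebra k K] (w : Fin n → ℕ) (hw : ∀ i, 0 < w i) (F : Set (MvPolynomial (Fin n) k))
    (hF : ∀ f ∈ F, ∃ m, MvPolynomial.IsWeightedHomogeneous w f m) (φ : SS k n →ₐ[k] K)
    (t : Fin n → Fin d → K)
    (h1 : ∀ f ∈ F, φ (algebraMap (MvPolynomial (Fin n) k) (SS k n) f) = 0)
    (h2 : ∀ f ∈ F, ∑ l, φ (grad (SS k n) f l) • (onef (t l) : VV k d K) = 0)
    (e : Fin d → K) (heul : ∀ l, ∑ j, e j * t l j = φ (eul k w (SS k n) l))
    (φR : (SS k n ⧸ (Ideal.span F).map (algebraMap (MvPolynomial (Fin n) k) (SS k n))) →+* K)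
    (hφR : ∀ s : SS k n, φR (Ideal.Quotient.mk _ s) = φ s)
    [IsLocalRing (SS k n ⧸ (Ideal.span F).map (algebraMap (MvPolynomial (Fin n) k) (SS k n)))]
    (G : MRes (SS k n ⧸ (Ideal.span F).map (algebraMap (MvPolynomial (Fin n) k) (SS k n)))
      (NN ((Ideal.span F).map (algebraMap (MvPolynomial (Fin n) k) (SS k n)))))
    (p : Fin (G.b 1) →
      SS k n ⧸ (Ideal.span F).map (algebraMap (MvPolynomial (Fin n) k) (SS k n))) :
    ∃ τ : ∀ i, Fin (G.b (i + 1)) → VV k d K,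
      (∀ i c, ∃ z : VV k n (SS k n), τ i c = Psi φ t z) ∧
      (∀ c, τ 0 c = -(φR (p c) • (1 : VV k d K))) ∧
      ∀ i c, ∑ a, (G.dm (i + 1)).map φR a c • τ i a = con e (inv (τ (i + 1) c)) := by
  obtain ⟨ζ, hζ1, hζ2, hζ3⟩ := z2_zeta w hw F hF φ t h1 h2 e heul φR hφR G p
  refine ⟨fun i => match i with
    | 0 => fun c => -(φR (p c) • (1 : VV k d K))
    | (i + 1) => ζ i, ?_, ?_, ?_⟩
  · intro i c
    cases i with
    | zero =>
      obtain ⟨p', hp'⟩ := Ideal.Quotient.mk_surjective (p c)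
      refine ⟨-(p' • 1), ?_⟩
      change -(φR (p c) • (1 : VV k d K)) = _
      rw [map_neg, v2_smul, map_one, ← hp', hφR]
    | succ i => exact hζ1 i c
  · intro c
    rfl
  · intro i c
    cases i with
    | zero =>
      change ∑ a, (G.dm 1).map φR a c • (-(φR (p a) • (1 : VV k d K))) = con e (inv (ζ 0 c))
      rw [v1_con_inv, hζ2, map_smul, map_one, Finset.sum_smul, ← Finset.sum_neg_distrib]
      refine Finset.sum_congr rfl fun a _ => ?_
      rw [smul_neg, smul_smul, mul_comm]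
    | succ i =>
      change ∑ a, (G.dm (i + 2)).map φR a c • ζ i a = con e (inv (ζ (i + 1) c))
      rw [v1_con_inv, hζ3, map_neg, neg_neg, map_sum]
      refine Finset.sum_congr rfl fun a _ => ?_
      rw [map_smul, v1_inv_inv]

end Pool.Agent.Lib.H44X
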