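import Pool.Agent.Lib.H44X.K2
import Pool.Agent.Lib.H44X.K3
import Pool.Agent.Lib.H44X.Z1

/-!
K6c (M). Closure properties of `sT` and `sU` (KDef.lean), the vanishing of `∑ φR(del_l y) th_l` and
the chain rule, componentwise.

* k6c_T, k6c_U: `φ s * coef l v = coef l (φ s • v)`, `φ s • nuc l v = nuc l (φ s • v)`; l1_smul.
* k6c_rho: for `x = nuc l v + (j ↦ e_j coef l v')` and `ρ j = ∑_m c m * tX A D m j` with
  `c m = φ (c' m)`: `∑_j ρ_j nuc l v j = coef l (onef ρ * v)` (k2_onef), `onef ρ * v =
  ∑_m φ (c' m) • (onef (tX A D m) * v)` (v1_onef_smul, v1_onef_add or the definition of `onef` and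
  Finset.sum_comm), in `LocForm` by l1_mul, l1_smul, l1_add (finite sums by induction), and
  `∑_j ρ_j e_j coef l v' = (∑_j e_j ρ_j) coef l v' = φ r₀ coef l v'` by the hypothesis.
* k6c_del: z1_del with `V = Fin d → K` and `th l = tX A D l`; for the generators `f ∈ F`: the `j`-th
  component of `∑_l φ(∂_l f) • tX l` is `D_j (image of f) = 0` (chain rule: proof of z1_chain in
  Z1.lean).
-/

set_option autoImplicit false
open TensorProduct
open Pool.Agent.Lib.Helper92 Pool.Agent.Lib.H44V

namespace Pool.Agent.Lib.H44X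
universe u

theorem k6c_der {k : Type u} [Field k] {n : ℕ} {A K : Type u} [CommRing A] [Field K]
    [Algebra k K] [Algebra A K] [Algebra (MvPolynomial (Fin n) k) A] [Algebra k A]
    [IsScalarTower k (MvPolynomial (Fin n) k) A] [IsScalarTower k A K]
    (D : Derivation k K K) (f : MvPolynomial (Fin n) k) :
    D (algebraMap A K (algebraMap (MvPolynomial (Fin n) k) A f)) =
      ∑ l, algebraMap A K (algebraMap (MvPolynomial (Fin n) k) A (MvPolynomial.pderiv l f)) *
        D (algebraMap A K (algebraMap (MvPolynomial (Fin n) k) A (MvPolynomial.X l))) := by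
  induction f using MvPolynomial.induction_on with
  | C a =>
    have h1 : algebraMap (MvPolynomial (Fin n) k) A (MvPolynomial.C a) = algebraMap k A a := by
      rw [IsScalarTower.algebraMap_apply k (MvPolynomial (Fin n) k) A, MvPolynomial.algebraMap_eq]
    rw [h1, ← IsScalarTower.algebraMap_apply k A K, Derivation.map_algebraMap]
    refine (Finset.sum_eq_zero fun l _ => ?_).symm
    rw [MvPolynomial.pderiv_C, map_zero, map_zero, zero_mul]
  | add p q hp hq =>
    rw [map_add, map_add, map_add, hp, hq, ← Finset.sum_add_distrib]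
    refine Finset.sum_congr rfl fun l _ => ?_
    rw [map_add, map_add, map_add, add_mul]
  | mul_X p i hp =>
    have h2 : ∀ l, algebraMap A K (algebraMap (MvPolynomial (Fin n) k) A
        (MvPolynomial.pderiv l (p * MvPolynomial.X i))) *
        D (algebraMap A K (algebraMap (MvPolynomial (Fin n) k) A (MvPolynomial.X l))) =
        (if l = i then algebraMap A K (algebraMap (MvPolynomial (Fin n) k) A p) *
          D (algebraMap A K (algebraMap (MvPolynomial (Fin n) k) A (MvPolynomial.X i))) else 0) +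
        algebraMap A K (algebraMap (MvPolynomial (Fin n) k) A (MvPolynomial.X i)) *
          (algebraMap A K (algebraMap (MvPolynomial (Fin n) k) A (MvPolynomial.pderiv l p)) *
          D (algebraMap A K (algebraMap (MvPolynomial (Fin n) k) A (MvPolynomial.X l)))) := by
      intro l
      rw [Derivation.leibniz]
      by_cases h : l = i
      · subst h
        rw [MvPolynomial.pderiv_X_self, if_pos rfl, smul_eq_mul, smul_eq_mul, mul_one, map_add,
          map_add, map_mul, map_mul]
        ring
      · rw [MvPolynomial.pderiv_X_of_ne (Ne.symm h), if_neg h, smul_eq_mul, smul_eq_mul,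
          mul_zero, zero_add, zero_add, map_mul, map_mul]
        ring
    rw [Finset.sum_congr rfl fun l _ => h2 l, Finset.sum_add_distrib, Finset.sum_ite_eq',
      if_pos (Finset.mem_univ _), ← Finset.mul_sum, ← hp, map_mul, map_mul, Derivation.leibniz,
      smul_eq_mul, smul_eq_mul]

section
variable {k : Type u} [Field k] [CharZero k] {n d : ℕ} {A K : Type u} [CommRing A] [IsDomain A]
  [Field K] [Algebra k K] [Algebra (MvPolynomial (Fin n) k) A]
  [Algebra (MvPolynomial (Fin d) k) A] [Algebra A K] [IsFractionRing A K]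
  [Algebra (MvPolynomial (Fin d) k) K] [IsScalarTower (MvPolynomial (Fin d) k) A K]
  [IsScalarTower k (MvPolynomial (Fin d) k) K] [Algebra (SS k d) K]
  (D : Fin d → Derivation k K K) (l : Module.Dual k (Lam k d)) (e : Fin d → K)
  (h0 : LocForm A D (0 : VV k d K))
  (ha : ∀ v v' : VV k d K, LocForm A D v → LocForm A D v' → LocForm A D (v + v'))
  (hs : ∀ (c : SS k d) (v : VV k d K), LocForm A D v →
    LocForm A D (algebraMap (SS k d) K c • v))
  (φ : SS k n →ₐ[k] K)
  (hm : ∀ (s : SS k n) (v : VV k d K), LocForm A D v → LocForm A D (φ s • v))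

include hm in
theorem k6c_T (s : SS k n) (x : K) (hx : x ∈ sT A D (SS k d) l h0 ha hs) :
    φ s * x ∈ sT A D (SS k d) l h0 ha hs := by
  obtain ⟨v, hv, rfl⟩ := hx
  exact ⟨φ s • v, hm s v hv, by rw [map_smul, smul_eq_mul]⟩

include hm in
theorem k6c_U (s : SS k n) (x : Fin d → K) (hx : x ∈ sU A D (SS k d) l e h0 ha hs) :
    φ s • x ∈ sU A D (SS k d) l e h0 ha hs := by
  obtain ⟨v, v', hv, hv', rfl⟩ := hx
  refine ⟨φ s • v, φ s • v', hm s v hv, hm s v' hv', ?_⟩
  funext j
  rw [map_smul, map_smul]
  simp only [Pi.smul_apply, Pi.add_apply, smul_eq_mul]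
  ring

include hm in
theorem k6c_rho (hx1 : ∀ (m : Fin n) (v : VV k d K), LocForm A D v →
      LocForm A D ((onef (tX A D m) : VV k d K) * v))
    (c : Fin n → SS k n) (r₀ : SS k n)
    (hr : ∑ j, e j * ∑ m, φ (c m) * tX A D m j = φ r₀)
    (x : Fin d → K) (hx : x ∈ sU A D (SS k d) l e h0 ha hs) :
    ∑ j, (∑ m, φ (c m) * tX A D m j) * x j ∈ sT A D (SS k d) l h0 ha hs := by
  obtain ⟨v, v', hv, hv', rfl⟩ := hx
  refine ⟨∑ m, φ (c m) • ((onef (tX A D m) : VV k d K) * v) + φ r₀ • v', ?_, ?_⟩
  · refine ha _ _ ?_ (hm _ _ hv')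
    exact Finset.sum_induction _ (LocForm A D) ha h0 fun m _ => hm _ _ (hx1 m v hv)
  · rw [map_add, map_sum, map_smul, smul_eq_mul, ← hr]
    have e1 : ∀ m, coef l (φ (c m) • ((onef (tX A D m) : VV k d K) * v)) =
        ∑ j, φ (c m) * tX A D m j * nuc l v j := by
      intro m
      rw [map_smul, smul_eq_mul, k2_onef, Finset.mul_sum]
      exact Finset.sum_congr rfl fun j _ => by ring
    rw [Finset.sum_congr rfl fun m _ => e1 m, Finset.sum_comm, Finset.sum_mul, ← Finset.sum_add_distrib]
    refine Finset.sum_congr rfl fun j _ => ?_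
    rw [Pi.add_apply, ← Finset.sum_mul]
    ring
end

theorem k6c_del {k : Type u} [Field k] {n d : ℕ} {A K : Type u} [CommRing A] [Field K]
    [Algebra k K] [Algebra A K] [Algebra (MvPolynomial (Fin n) k) A] [Algebra k A]
    [IsScalarTower k (MvPolynomial (Fin n) k) A] [IsScalarTower k A K]
    (D : Fin d → Derivation k K K) (F : Set (MvPolynomial (Fin n) k))
    (hFA : ∀ f ∈ F, algebraMap (MvPolynomial (Fin n) k) A f = 0) (φ : SS k n →ₐ[k] K)
    (hφ : ∀ p : MvPolynomial (Fin n) k, φ (algebraMap (MvPolynomial (Fin n) k) (SS k n) p) =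
      algebraMap A K (algebraMap (MvPolynomial (Fin n) k) A p))
    (φR : (SS k n ⧸ (Ideal.span F).map (algebraMap (MvPolynomial (Fin n) k) (SS k n))) →+* K)
    (hφR : ∀ s : SS k n, φR (Ideal.Quotient.mk _ s) = φ s)
    (del : Fin n → ((Ideal.span F).map (algebraMap (MvPolynomial (Fin n) k) (SS k n)) →ₗ[SS k n]
      (SS k n ⧸ (Ideal.span F).map (algebraMap (MvPolynomial (Fin n) k) (SS k n)))))
    (hdel : ∀ l, ∀ f ∈ F, ∀ hf : algebraMap (MvPolynomial (Fin n) k) (SS k n) f ∈
        (Ideal.span F).map (algebraMap (MvPolynomial (Fin n) k) (SS k n)),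
        del l ⟨algebraMap (MvPolynomial (Fin n) k) (SS k n) f, hf⟩ =
          Ideal.Quotient.mk ((Ideal.span F).map (algebraMap (MvPolynomial (Fin n) k) (SS k n)))
            (algebraMap (MvPolynomial (Fin n) k) (SS k n) (MvPolynomial.pderiv l f)))
    (y : (Ideal.span F).map (algebraMap (MvPolynomial (Fin n) k) (SS k n))) (i : Fin d) :
    ∑ l, φR (del l y) * tX A D l i = 0 := by
  have h1 := z1_del F φR (fun l => (tX A D l : Fin d → K)) del (fun f hf hf' => by
    funext j
    rw [Finset.sum_apply]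
    have h2 := k6c_der (A := A) (D j) f
    rw [hFA f hf, map_zero, map_zero] at h2
    refine Eq.trans ?_ h2.symm
    refine Finset.sum_congr rfl fun l _ => ?_
    rw [hdel l f hf hf', hφR, hφ, Pi.smul_apply, smul_eq_mul]
    rfl) y
  have h3 := congrFun h1 i
  rw [Finset.sum_apply] at h3
  exact h3

end Pool.Agent.Lib.H44X
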