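import Pool.Agent.Lib.H44X.K1
import Pool.Agent.Lib.H44X.K2
import Pool.Agent.Lib.H44X.K3
import Pool.Agent.Lib.H44X.K4
import Pool.Agent.Lib.H44X.K5
import Pool.Agent.Lib.H44X.K6a
import Pool.Agent.Lib.H44X.K6b
import Pool.Agent.Lib.H44X.K6c

/-!
K6 (M/L). The core: assembly of the contradiction in case (B), without local hypothesis.

Notation: `P = k[x]`, `B₀ = k[y]`, `S = SS k n`, `B = SS k d`, `I = (F) S`, `R = S/I`; the setting is
the same as in Z5.lean (z5_core, whose proof contains steps 1 and 2).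
1. `φR : R → K` is `Ideal.Quotient.lift` of `φ` (`φ` kills `I`: `Ideal.map_span`,
   Submodule.span_induction, hφ, hFA); k6c_del: `∑_l φR(del_l y) * tX A D l i = 0`, `y ∈ I`.
2. `ρ a j = ∑_l φR(tt l a) * tX A D l j`, with lifts `tt l a = mk (c a l)`; hgρ: the `a`-component of
   hg0 mapped to `K`: `∑_c φR(dm_0 a c) φR(g0 c) = ∑_l φ(eul_l) φR(tt l a) =
   ∑_j eK_j ρ a j`, with `eK j = algebraMap L K (algebraMap B L (e j))` (heul, Finset.sum_comm).
3. `τ` from k6b_tau (`t = tX A D`; `h2` as in z5_core: z1_chain).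
4. `l`, `η₁` from k1_top. `T = sT A D B l ..`, `U = sU A D B l eK ..` (hypotheses by l1_zero, l1_add,
   k3_smul). `W = VV k d B` (free over `B`: base change of a `k`-vector space; `Module.Free B (B ⊗ Λ)`),
   `ι = con e` (v1_con_sq), `f = IsScalarTower.toAlgHom k B K`,
   `Um i c η = nuc l (τ i c * bcV f η)`, `Xm i c η = coef l (inv (τ i c) * bcV f η)`; linear over `B`
   (w1_bc_smul). They have values in `U` (take `v' = 0`) and `T`: k3_bc, k3_psi, v2_inv
   (`inv (Psi z) = Psi (inv z)`). `bcV f (con e η) = con eK (bcV f η)` (w1_bc_con). hU1, hX1: k6a_U,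
   k6a_X. hU0: `τ 0 c = -(φR(p c) • 1)`, k2_nuc, `inv 1 = 1`.
5. hT, hU: k6c_T, k6c_U (`r = mk r'`, l1_smul). hκ: take `v = 0` in `sU`. hρ: k6c_rho with `r₀` a
   lift of `∑_c dm_0 a c * g0 c` (hgρ), l1_mul. htr: `tr = Algebra.trace L K`, l1_trace.
   h0: k5_rho. hann: `φR (mk a) = φ a`, `algebraMap B K β = algebraMap L K (algebraMap B L β)`
   (IsScalarTower.algebraMap_apply).
6. k4_main gives `m`; for `η = 1 ⊗ η₁`: `Xm 0 c η = coef l (inv (τ 0 c) * bcV f η) = -φR(p c)`, so
   `algebraMap B L (m (con e η)) = trace (∑ φR(g0 c) (- φR(p c))) = - trace 1 = - r`,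
   `r = [K:L] > 0` (`Algebra.trace_algebraMap`, hp, mul_comm). By k2_mem and he `m (con e η) ∈ 𝔪`,
   and `B → L` is injective (hinjC), so `(r : B) ∈ 𝔪`, but `(r : B)` is the image of the unit
   `r ∈ k` (see the end of the proof of w3_false). Contradiction.
-/

set_option autoImplicit false
open TensorProduct IsLocalRing
open Pool.Agent.Lib.Helper92 Pool.Agent.Lib.H44V

namespace Pool.Agent.Lib.H44X
universe u

theorem k6_core {k : Type u} [Field k] [CharZero k] {n d : ℕ} {A L K : Type u} [CommRing A]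
    [IsDomain A] [Field L] [Field K] [Algebra k K] [Algebra (MvPolynomial (Fin n) k) A]
    [Algebra (MvPolynomial (Fin d) k) A] [Module.Finite (MvPolynomial (Fin d) k) A]
    [Algebra (MvPolynomial (Fin d) k) L] [IsFractionRing (MvPolynomial (Fin d) k) L]
    [Algebra A K] [IsFractionRing A K] [Algebra L K] [Algebra (MvPolynomial (Fin d) k) K]
    [IsScalarTower (MvPolynomial (Fin d) k) A K] [IsScalarTower (MvPolynomial (Fin d) k) L K]
    [IsScalarTower k (MvPolynomial (Fin d) k) K] [Algebra k A]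
    [IsScalarTower k (MvPolynomial (Fin n) k) A] [IsScalarTower k A K] [Algebra k L]
    [IsScalarTower k L K] [Algebra (SS k d) L]
    [IsScalarTower (MvPolynomial (Fin d) k) (SS k d) L] [IsScalarTower k (SS k d) L]
    [Algebra (SS k d) K] [IsScalarTower (SS k d) L K]
    [IsScalarTower (MvPolynomial (Fin d) k) (SS k d) K] [IsScalarTower k (SS k d) K]
    [FiniteDimensional L K]
    (w : Fin n → ℕ) (hw : ∀ i, 0 < w i) (F : Set (MvPolynomial (Fin n) k))
    (hF : ∀ f ∈ F, ∃ m, MvPolynomial.IsWeightedHomogeneous w f m)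
    (hinjA : Function.Injective (algebraMap (MvPolynomial (Fin d) k) A))
    (hinjC : Function.Injective (algebraMap (SS k d) L)) (D : Fin d → Derivation k K K)
    (hD : ∀ j (b : MvPolynomial (Fin d) k), D j (algebraMap (MvPolynomial (Fin d) k) K b) =
      algebraMap (MvPolynomial (Fin d) k) K (MvPolynomial.pderiv j b))
    (hunit : ∀ f : MvPolynomial (Fin n) k, MvPolynomial.constantCoeff f ≠ 0 →
      ∃ (g : MvPolynomial (Fin n) k) (b : MvPolynomial (Fin d) k),
        MvPolynomial.constantCoeff b ≠ 0 ∧ algebraMap (MvPolynomial (Fin n) k) A (f * g) =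
          algebraMap (MvPolynomial (Fin d) k) A b)
    (φ : SS k n →ₐ[k] K) (hφ : ∀ p : MvPolynomial (Fin n) k,
      φ (algebraMap (MvPolynomial (Fin n) k) (SS k n) p) =
        algebraMap A K (algebraMap (MvPolynomial (Fin n) k) A p))
    (hFA : ∀ f ∈ F, algebraMap (MvPolynomial (Fin n) k) A f = 0)
    (e : Fin d → SS k d) (he : ∀ j, e j ∈ maximalIdeal (SS k d))
    (heul : ∀ l, ∑ j, algebraMap L K (algebraMap (SS k d) L (e j)) * tX A D l j =
      φ (eul k w (SS k n) l))
    [IsLocalRing (SS k n ⧸ (Ideal.span F).map (algebraMap (MvPolynomial (Fin n) k) (SS k n)))]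
    (G : MRes (SS k n ⧸ (Ideal.span F).map (algebraMap (MvPolynomial (Fin n) k) (SS k n)))
      (NN ((Ideal.span F).map (algebraMap (MvPolynomial (Fin n) k) (SS k n)))))
    (s : ℕ) (hb : ∀ j, s < j → G.b j = 0)
    (del : Fin n → ((Ideal.span F).map (algebraMap (MvPolynomial (Fin n) k) (SS k n)) →ₗ[SS k n]
      (SS k n ⧸ (Ideal.span F).map (algebraMap (MvPolynomial (Fin n) k) (SS k n)))))
    (hdel : ∀ l, ∀ f ∈ F, ∀ hf : algebraMap (MvPolynomial (Fin n) k) (SS k n) f ∈
        (Ideal.span F).map (algebraMap (MvPolynomial (Fin n) k) (SS k n)),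
        del l ⟨algebraMap (MvPolynomial (Fin n) k) (SS k n) f, hf⟩ =
          Ideal.Quotient.mk ((Ideal.span F).map (algebraMap (MvPolynomial (Fin n) k) (SS k n)))
            (algebraMap (MvPolynomial (Fin n) k) (SS k n) (MvPolynomial.pderiv l f)))
    (tt : Fin n → Fin (G.b 0) →
      SS k n ⧸ (Ideal.span F).map (algebraMap (MvPolynomial (Fin n) k) (SS k n)))
    (g0 p : Fin (G.b 1) →
      SS k n ⧸ (Ideal.span F).map (algebraMap (MvPolynomial (Fin n) k) (SS k n)))
    (htt : ∀ l, toHom (G.pi (tt l)) = del l)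
    (hg0 : (G.dm 0).mulVec g0 = ∑ l, Ideal.Quotient.mk
      ((Ideal.span F).map (algebraMap (MvPolynomial (Fin n) k) (SS k n)))
        (eul k w (SS k n) l) • tt l)
    (hp : ∑ c, p c * g0 c = 1) (q : Ideal (SS k n)) (hq : ∀ u : SS k n, u ∉ q → φ u ≠ 0)
    (hDB : DB ((Ideal.span F).map (algebraMap (MvPolynomial (Fin n) k) (SS k n))) q)
    (hann : ∀ i, ∃ β : ℕ → SS k d, (∀ j < i + 2, IsSMulRegular (SS k d ⧸ Jx β j) (β j)) ∧
      ∀ j < i + 2, ∃ a : SS k n, Ideal.Quotient.mk
        ((Ideal.span F).map (algebraMap (MvPolynomial (Fin n) k) (SS k n))) a ∈ HJ G i ∧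
        φ a = algebraMap L K (algebraMap (SS k d) L (β j))) : False := by
  have hK0 : CharZero K := charZero_of_injective_algebraMap (algebraMap k K).injective
  -- the map `φR`
  have hker : ∀ x ∈ (Ideal.span F).map (algebraMap (MvPolynomial (Fin n) k) (SS k n)), φ x = 0 := by
    have h1 : (Ideal.span F).map (algebraMap (MvPolynomial (Fin n) k) (SS k n)) ≤ RingHom.ker (φ : SS k n →+* K) := by
      rw [Ideal.map_le_iff_le_comap, Ideal.span_le]
      intro f hf
      show φ (algebraMap (MvPolynomial (Fin n) k) (SS k n) f) = 0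
      rw [hφ, hFA f hf, map_zero]
    exact fun x hx => h1 hx
  obtain ⟨φR, hφR⟩ : ∃ φR : (SS k n ⧸ (Ideal.span F).map (algebraMap (MvPolynomial (Fin n) k) (SS k n))) →+* K,
      ∀ x : SS k n, φR (Ideal.Quotient.mk _ x) = φ x :=
    ⟨Ideal.Quotient.lift _ (φ : SS k n →+* K) hker, fun x => Ideal.Quotient.lift_mk _ _ _⟩
  have hφRr : ∀ r : SS k n ⧸ (Ideal.span F).map (algebraMap (MvPolynomial (Fin n) k) (SS k n)),
      ∃ x : SS k n, φR r = φ x := by
    intro r
    obtain ⟨x, rfl⟩ := Ideal.Quotient.mk_surjective r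
    exact ⟨x, hφR x⟩
  choose lf hlf using hφRr
  -- the chain rule
  have hchain : ∀ f ∈ F, ∑ l, φ (algebraMap (MvPolynomial (Fin n) k) (SS k n) (MvPolynomial.pderiv l f)) •
      (onef (tX A D l) : VV k d K) = 0 := by
    intro f hf
    have h1 := z1_chain (A := A) D f (hFA f hf)
    rw [← h1]
    exact Finset.sum_congr rfl fun l _ => by rw [hφ]
  have hS : ∀ (r : SS k n) (x : VV k d K), LocForm A D x → LocForm A D (φ r • x) := fun r x hx =>
    l1_smul D hunit (φ : SS k n →+* K) hφ r x hx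
  have hsB : ∀ (c : SS k d) (v : VV k d K), LocForm A D v → LocForm A D (algebraMap (SS k d) K c • v) :=
    fun c v hv => k3_smul D c v hv
  have h0' : LocForm A D (0 : VV k d K) := l1_zero D
  have ha' : ∀ v v' : VV k d K, LocForm A D v → LocForm A D v' → LocForm A D (v + v') :=
    fun v v' hv hv' => l1_add D v v' hv hv'
  obtain ⟨eK, heK⟩ : ∃ eK : Fin d → K, ∀ j, eK j = algebraMap L K (algebraMap (SS k d) L (e j)) :=
    ⟨_, fun j => rfl⟩
  have heul' : ∀ l, ∑ j, eK j * tX A D l j = φ (eul k w (SS k n) l) := by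
    intro l
    rw [← heul l]
    exact Finset.sum_congr rfl fun j _ => by rw [heK]
  obtain ⟨τ, hτ1, hτ2, hτ3⟩ := k6b_tau w hw F hF φ (tX A D) (fun f hf => by rw [hφ, hFA f hf, map_zero])
    (fun f hf => hchain f hf) eK heul' φR hφR G p
  obtain ⟨l, hl, η₁, hη₁⟩ := k1_top k d
  have hdel0 : ∀ (y : (Ideal.span F).map (algebraMap (MvPolynomial (Fin n) k) (SS k n))) (i : Fin d),
      ∑ l, φR (del l y) * tX A D l i = 0 := k6c_del D F hFA φ hφ φR hφR del hdel
  obtain ⟨ρ, hρdef⟩ : ∃ ρ : Fin (G.b 0) → Fin d → K, ∀ a j, ρ a j = ∑ m, φR (tt m a) * tX A D m j :=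
    ⟨_, fun a j => rfl⟩
  have hgρ : ∀ a, ∑ c, φR (G.dm 0 a c) * φR (g0 c) = ∑ j, eK j * ρ a j := by
    intro a
    have h1 : ∑ c, G.dm 0 a c * g0 c = ∑ l, Ideal.Quotient.mk
        ((Ideal.span F).map (algebraMap (MvPolynomial (Fin n) k) (SS k n))) (eul k w (SS k n) l) * tt l a := by
      have h2 := congrFun hg0 a
      rw [Finset.sum_apply] at h2
      exact h2
    have h3 := congrArg φR h1
    rw [map_sum, map_sum] at h3
    have h4 : ∀ c, φR (G.dm 0 a c * g0 c) = φR (G.dm 0 a c) * φR (g0 c) := fun c => map_mul _ _ _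
    rw [Finset.sum_congr rfl fun c _ => h4 c] at h3
    rw [h3]
    have h5 : ∀ l, φR (Ideal.Quotient.mk
        ((Ideal.span F).map (algebraMap (MvPolynomial (Fin n) k) (SS k n))) (eul k w (SS k n) l) * tt l a) =
        ∑ j, eK j * (φR (tt l a) * tX A D l j) := by
      intro l
      rw [map_mul, hφR, ← heul' l, Finset.sum_mul]
      exact Finset.sum_congr rfl fun j _ => by ring
    rw [Finset.sum_congr rfl fun l _ => h5 l, Finset.sum_comm]
    refine Finset.sum_congr rfl fun j _ => ?_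
    rw [hρdef, Finset.mul_sum]
  have hfe : ∀ c : SS k d, (IsScalarTower.toAlgHom k (SS k d) K) c = algebraMap (SS k d) K c := fun c => rfl
  have hbcon : ∀ η : VV k d (SS k d), bcV (IsScalarTower.toAlgHom k (SS k d) K) (con e η) =
      con eK (bcV (IsScalarTower.toAlgHom k (SS k d) K) η) := by
    intro η
    rw [w1_bc_con]
    have h1 : (fun j => (IsScalarTower.toAlgHom k (SS k d) K) (e j)) = eK := by
      funext j
      rw [hfe, heK, IsScalarTower.algebraMap_apply (SS k d) L K]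
    rw [h1]
  have hbsmul : ∀ (b : SS k d) (η : VV k d (SS k d)), bcV (IsScalarTower.toAlgHom k (SS k d) K) (b • η) =
      algebraMap (SS k d) K b • bcV (IsScalarTower.toAlgHom k (SS k d) K) η := fun b η => w1_bc_smul _ b η
  have hvec : ∀ (b : SS k d) (x : Fin d → K), algebraMap (SS k d) K b • x = b • x := by
    intro b x
    funext j
    rw [Pi.smul_apply, Pi.smul_apply, smul_eq_mul, Algebra.smul_def]
  obtain ⟨Um, hUm⟩ : ∃ Um : ∀ i, Fin (G.b (i + 1)) → VV k d (SS k d) →ₗ[SS k d] (Fin d → K),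
      ∀ i c η, Um i c η = nuc l (τ i c * bcV (IsScalarTower.toAlgHom k (SS k d) K) η) :=
    ⟨fun i c =>
      { toFun := fun η => nuc l (τ i c * bcV (IsScalarTower.toAlgHom k (SS k d) K) η)
        map_add' := fun x y => by rw [map_add, mul_add, map_add]
        map_smul' := fun b x => by
          rw [hbsmul, mul_smul_comm, map_smul, hvec, RingHom.id_apply] }, fun i c η => rfl⟩
  obtain ⟨Xm, hXm⟩ : ∃ Xm : ∀ i, Fin (G.b (i + 1)) → VV k d (SS k d) →ₗ[SS k d] K,
      ∀ i c η, Xm i c η = coef l (inv (τ i c) * bcV (IsScalarTower.toAlgHom k (SS k d) K) η) :=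
    ⟨fun i c =>
      { toFun := fun η => coef l (inv (τ i c) * bcV (IsScalarTower.toAlgHom k (SS k d) K) η)
        map_add' := fun x y => by rw [map_add, mul_add, map_add]
        map_smul' := fun b x => by
          rw [hbsmul, mul_smul_comm, map_smul, smul_eq_mul, RingHom.id_apply, Algebra.smul_def] },
      fun i c η => rfl⟩
  have hLU : ∀ i c (η : VV k d (SS k d)), LocForm A D (τ i c * bcV (IsScalarTower.toAlgHom k (SS k d) K) η) := by
    intro i c η
    obtain ⟨z, hz⟩ := hτ1 i c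
    rw [hz]
    exact k3_psi D hunit φ hφ z _ (k3_bc D hD η)
  have hLX : ∀ i c (η : VV k d (SS k d)), LocForm A D (inv (τ i c) * bcV (IsScalarTower.toAlgHom k (SS k d) K) η) := by
    intro i c η
    obtain ⟨z, hz⟩ := hτ1 i c
    rw [hz, v2_inv]
    exact k3_psi D hunit φ hφ _ _ (k3_bc D hD η)
  have hX0 : ∀ c η, Xm 0 c η = -φR (p c) * coef l (bcV (IsScalarTower.toAlgHom k (SS k d) K) η) := by
    intro c η
    rw [hXm, hτ2, map_neg, map_smul, map_one, neg_mul, smul_mul_assoc, one_mul, map_neg, map_smul, smul_eq_mul,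
      neg_mul]
  obtain ⟨m, hm⟩ := k4_main hinjC φR G s hb (sT A D (SS k d) l h0' ha' hsB) (sU A D (SS k d) l eK h0' ha' hsB)
    (fun r x hx => by
      rw [hlf r]
      exact k6c_T D l h0' ha' hsB φ hS (lf r) x hx)
    (fun r x hx => by
      rw [hlf r]
      exact k6c_U D l eK h0' ha' hsB φ hS (lf r) x hx)
    eK (fun x hx => by
      obtain ⟨v, hv, rfl⟩ := hx
      refine ⟨0, v, h0', hv, ?_⟩
      rw [map_zero, zero_add])
    (fun i => by
      obtain ⟨β, h1, h2⟩ := hann i
      refine ⟨β, h1, fun j hj => ?_⟩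
      obtain ⟨a, h3, h4⟩ := h2 j hj
      exact ⟨_, h3, by rw [hφR, h4, IsScalarTower.algebraMap_apply (SS k d) L K]⟩)
    (Algebra.trace L K) (fun x hx => by
      obtain ⟨v, hv, rfl⟩ := hx
      obtain ⟨r, hr⟩ := l1_trace (L := L) D hinjA hD v hv l
      exact ⟨r, hr.symm⟩)
    g0 ρ (fun a x hx => by
      have h1 := k6c_rho D l eK h0' ha' hsB φ hS (fun m v hv => l1_mul D m v hv) (fun m => lf (tt m a))
        (lf (∑ c, G.dm 0 a c * g0 c)) (by
          rw [← hlf, map_sum]
          have h2 : ∀ c, φR (G.dm 0 a c * g0 c) = φR (G.dm 0 a c) * φR (g0 c) := fun c => map_mul _ _ _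
          rw [Finset.sum_congr rfl fun c _ => h2 c, hgρ a]
          refine Finset.sum_congr rfl fun j _ => ?_
          rw [hρdef]
          congr 1
          refine Finset.sum_congr rfl fun m _ => ?_
          rw [← hlf]) x hx
      have h3 : ∑ j, ρ a j * x j = ∑ j, (∑ m, φ (lf (tt m a)) * tX A D m j) * x j := by
        refine Finset.sum_congr rfl fun j _ => ?_
        rw [hρdef]
        congr 1
        refine Finset.sum_congr rfl fun m _ => ?_
        rw [← hlf]
      rw [h3]
      exact h1)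
    hgρ (fun z _ hz => by
      have h1 := k5_rho _ q hDB G φR (fun u hu => by
        rw [hφR]
        exact hq u hu) (tX A D) tt (fun y i => by
          simp only [htt]
          exact hdel0 y i) z hz
      rw [← h1]
      refine Finset.sum_congr rfl fun a _ => Finset.sum_congr rfl fun j _ => ?_
      rw [hρdef])
    (con e) (fun x => v1_con_sq e x) Um Xm
    (fun i c η => by
      rw [hUm]
      refine ⟨_, 0, hLU i c η, h0', ?_⟩
      funext j
      rw [Pi.add_apply, map_zero, mul_zero, add_zero])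
    (fun i c η => by
      rw [hXm]
      exact ⟨_, hLX i c η, rfl⟩)
    (fun i c η => by
      simp only [hUm, hXm]
      rw [hbcon]
      exact k6a_U l G.b (fun j => (G.dm j).map φR) eK τ hl hτ3 i c _)
    (fun i c η => by
      simp only [hXm]
      rw [hbcon]
      exact k6a_X l G.b (fun j => (G.dm j).map φR) eK τ hl hτ3 i c _)
    (fun c η => by
      rw [hUm, hX0, hτ2, hbcon, neg_mul, smul_mul_assoc, one_mul, map_neg, map_smul, k2_nuc l hl]
      funext j
      rw [Pi.neg_apply, Pi.smul_apply, smul_eq_mul]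
      ring)
  have hfin := hm ((1 : SS k d) ⊗ₜ[k] η₁)
  have hc1 : coef l (bcV (IsScalarTower.toAlgHom k (SS k d) K) ((1 : SS k d) ⊗ₜ[k] η₁)) = 1 := by
    rw [w1_bct, map_one]
    have h1 : coef l ((1 : K) ⊗ₜ[k] η₁) = (l η₁) • (1 : K) := rfl
    rw [h1, hη₁, one_smul]
  have hsum : ∑ c, φR (g0 c) * Xm 0 c ((1 : SS k d) ⊗ₜ[k] η₁) = -1 := by
    have h1 : ∀ c, φR (g0 c) * Xm 0 c ((1 : SS k d) ⊗ₜ[k] η₁) = -φR (p c * g0 c) := by
      intro c
      rw [hX0, hc1, map_mul]
      ring
    rw [Finset.sum_congr rfl fun c _ => h1 c, Finset.sum_neg_distrib, ← map_sum, hp, map_one]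
  have hr0 : ((Module.finrank L K : ℕ) : k) ≠ 0 := Nat.cast_ne_zero.2 Module.finrank_pos.ne'
  rw [hsum, map_neg, ← map_one (algebraMap L K), Algebra.trace_algebraMap, nsmul_one] at hfin
  have hmem := k2_mem (maximalIdeal (SS k d)) e he m ((1 : SS k d) ⊗ₜ[k] η₁)
  have hme : m (con e ((1 : SS k d) ⊗ₜ[k] η₁)) = -((Module.finrank L K : ℕ) : SS k d) := by
    apply hinjC
    rw [hfin, map_neg, map_natCast]
  rw [hme] at hmem
  have hu : IsUnit (-((Module.finrank L K : ℕ) : SS k d)) := by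
    have h1 : IsUnit (algebraMap k (SS k d) (-((Module.finrank L K : ℕ) : k))) :=
      (IsUnit.mk0 _ (neg_ne_zero.2 hr0)).map _
    rwa [map_neg, map_natCast] at h1
  exact (mem_maximalIdeal _).1 hmem hu

end Pool.Agent.Lib.H44X
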