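import Pool.Agent.Lib.H44X.Defs

/-!
V1 (M). Calculus in `VV k d C = C ⊗[k] Λ(k^d)` (Defs.lean): contraction `con a`, involution `inv`,
one-forms `onef a = ∑ a_j dy_j`.

ExteriorAlgebra k M is by definition CliffordAlgebra (0 : QuadraticForm k M); the file
Mathlib/LinearAlgebra/CliffordAlgebra/Contraction.lean has `contractLeft_ι_mul :
d⌋(ι Q a * b) = d a • b - ι Q a * (d⌋b)`, `contractLeft_comm`, `contractLeft_contractLeft`,
`contractLeft_algebraMap_mul`, and Conjugation.lean has `involute_ι`, `involute_involute`.

* v1_cl (Leibniz in the Clifford algebra): `d⌋(x*y) = (d⌋x)*y + involute x * (d⌋y)`; induction on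
  `x` by CliffordAlgebra.left_induction (or CliffordAlgebra.induction).
* v1_cl_inv: `d⌋(involute x) = -involute (d⌋x)`; induction on `x`.
* v1_leib, v1_con_inv, v1_inv_inv: expand `con` as a finite sum, reduce to pure tensors
  (TensorProduct.induction_on twice; `Algebra.TensorProduct.tmul_mul_tmul`) and use the above.
* v1_con_sq: `con a (con a v) = ∑_i ∑_j a_i a_j c_i c_j v` where `c_i` is the base change of
  `contractLeft (proj i)`; `c_i c_j = - c_j c_i` (contractLeft_comm, on pure tensors), so this sum
  equals its negative; divide by 2 (`VV k d C` is a `k`-vector space, `CharZero k`).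
* v1_con_onef_mul: `con a (onef b * v) = (∑ a_j b_j) • v - onef b * con a v`; from v1_leib, or
  directly from contractLeft_ι_mul. v1_con_one: `con a 1 = 0`.
* v1_onef_sq, v1_onef_anti: `onef a * onef b = - (onef b * onef a)`,
  `onef a * onef a = 0` (ExteriorAlgebra.ι_sq_zero, ι_add_mul_swap; for `dy i * dy j` first).
* v1_inv_onef: `inv (onef a) = - onef a`.
* v1_onef_add, v1_onef_smul.
-/

set_option autoImplicit false
open TensorProduct

namespace Pool.Agent.Lib.H44X
universe u
variable {k : Type u} [Field k] {d : ℕ} {C : Type u} [CommRing C] [Algebra k C]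

theorem v1_cl (f : Module.Dual k (Fin d → k)) (x y : Lam k d) :
    CliffordAlgebra.contractLeft (Q := (0 : QuadraticForm k (Fin d → k))) f (x * y) =
      CliffordAlgebra.contractLeft (Q := (0 : QuadraticForm k (Fin d → k))) f x * y +
      CliffordAlgebra.involute (Q := (0 : QuadraticForm k (Fin d → k))) x *
        CliffordAlgebra.contractLeft (Q := (0 : QuadraticForm k (Fin d → k))) f y := by
  induction x using CliffordAlgebra.left_induction with
  | algebraMap r =>
    rw [CliffordAlgebra.contractLeft_algebraMap_mul, CliffordAlgebra.contractLeft_algebraMap, zero_mul, zero_add,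
      AlgHom.commutes]
  | add x x' hx hx' =>
    rw [add_mul, map_add, hx, hx', map_add, map_add, add_mul, add_mul]
    abel
  | ι_mul x m hx =>
    rw [mul_assoc, CliffordAlgebra.contractLeft_ι_mul, hx, CliffordAlgebra.contractLeft_ι_mul, map_mul,
      CliffordAlgebra.involute_ι, sub_mul, smul_mul_assoc, mul_add, neg_mul, neg_mul, mul_assoc, mul_assoc]
    abel

theorem v1_cl_inv (f : Module.Dual k (Fin d → k)) (x : Lam k d) :
    CliffordAlgebra.contractLeft (Q := (0 : QuadraticForm k (Fin d → k))) f
      (CliffordAlgebra.involute (Q := (0 : QuadraticForm k (Fin d → k))) x) =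
      -CliffordAlgebra.involute (Q := (0 : QuadraticForm k (Fin d → k)))
        (CliffordAlgebra.contractLeft (Q := (0 : QuadraticForm k (Fin d → k))) f x) := by
  induction x using CliffordAlgebra.left_induction with
  | algebraMap r =>
    rw [AlgHom.commutes, CliffordAlgebra.contractLeft_algebraMap, map_zero, neg_zero]
  | add x x' hx hx' =>
    rw [map_add, map_add, hx, hx', map_add, map_add, neg_add]
  | ι_mul x m hx =>
    rw [map_mul, CliffordAlgebra.involute_ι, neg_mul, map_neg, CliffordAlgebra.contractLeft_ι_mul, hx,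
      CliffordAlgebra.contractLeft_ι_mul, map_sub, map_smul, map_mul, CliffordAlgebra.involute_ι, mul_neg, neg_mul]

theorem v1_con_tmul (a : Fin d → C) (c : C) (x : Lam k d) : con a (c ⊗ₜ[k] x) =
    ∑ j, (a j * c) ⊗ₜ[k] CliffordAlgebra.contractLeft (Q := (0 : QuadraticForm k (Fin d → k)))
      (LinearMap.proj (R := k) (φ := fun _ : Fin d => k) j) x := by
  rw [con, LinearMap.sum_apply]
  refine Finset.sum_congr rfl fun j _ => ?_
  rw [LinearMap.smul_apply, LinearMap.baseChange_tmul, TensorProduct.smul_tmul', smul_eq_mul]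

theorem v1_inv_tmul (c : C) (x : Lam k d) : inv (c ⊗ₜ[k] x) =
    c ⊗ₜ[k] CliffordAlgebra.involute (Q := (0 : QuadraticForm k (Fin d → k))) x := by
  rw [inv, Algebra.TensorProduct.map_tmul]
  rfl

theorem v1_asym {W : Type*} [AddCommGroup W] {m : ℕ} (f : Fin m → Fin m → W) (h0 : ∀ i, f i i = 0)
    (h1 : ∀ i j, f i j = -f j i) : ∑ i, ∑ j, f i j = 0 := by
  rw [← Finset.sum_product']
  refine Finset.sum_involution (fun p _ => (p.2, p.1)) ?_ ?_ ?_ ?_
  · intro p _
    rw [h1 p.1 p.2, neg_add_cancel]
  · intro p _ hp h2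
    apply hp
    have h3 : p.2 = p.1 := congrArg Prod.fst h2
    rw [h3]
    exact h0 _
  · intro p _
    exact Finset.mem_product.2 ⟨Finset.mem_univ _, Finset.mem_univ _⟩
  · intro p _
    rfl

theorem v1_onef_tmul (a : Fin d → C) : (onef a : VV k d C) =
    ∑ j, (a j) ⊗ₜ[k] (ExteriorAlgebra.ι k (Pi.single j (1 : k))) := by
  rw [onef]
  refine Finset.sum_congr rfl fun j _ => ?_
  rw [dy, TensorProduct.smul_tmul', smul_eq_mul, mul_one]

theorem v1_leib (a : Fin d → C) (x y : VV k d C) :
    con a (x * y) = con a x * y + inv x * con a y := by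
  induction x using TensorProduct.induction_on with
  | zero => simp only [zero_mul, map_zero, add_zero]
  | add x x' hx hx' =>
    rw [add_mul, map_add, hx, hx', map_add, map_add, add_mul, add_mul]
    abel
  | tmul c x =>
    induction y using TensorProduct.induction_on with
    | zero => simp only [mul_zero, map_zero, add_zero]
    | add y y' hy hy' =>
      rw [mul_add, map_add, hy, hy', map_add, mul_add, mul_add]
      abel
    | tmul c' y =>
      rw [Algebra.TensorProduct.tmul_mul_tmul, v1_con_tmul, v1_con_tmul, v1_con_tmul, v1_inv_tmul, Finset.sum_mul,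
        Finset.mul_sum, ← Finset.sum_add_distrib]
      refine Finset.sum_congr rfl fun j _ => ?_
      rw [v1_cl, TensorProduct.tmul_add, Algebra.TensorProduct.tmul_mul_tmul, Algebra.TensorProduct.tmul_mul_tmul,
        mul_assoc, mul_left_comm c (a j) c']

theorem v1_con_inv (a : Fin d → C) (x : VV k d C) : con a (inv x) = -inv (con a x) := by
  induction x using TensorProduct.induction_on with
  | zero => simp only [map_zero, neg_zero]
  | add x x' hx hx' => rw [map_add, map_add, hx, hx', map_add, map_add, neg_add]
  | tmul c x =>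
    rw [v1_inv_tmul, v1_con_tmul, v1_con_tmul, map_sum, ← Finset.sum_neg_distrib]
    refine Finset.sum_congr rfl fun j _ => ?_
    rw [v1_cl_inv, v1_inv_tmul, TensorProduct.tmul_neg]

theorem v1_inv_inv (x : VV k d C) : inv (inv x) = x := by
  induction x using TensorProduct.induction_on with
  | zero => simp only [map_zero]
  | add x x' hx hx' => rw [map_add, map_add, hx, hx']
  | tmul c x => rw [v1_inv_tmul, v1_inv_tmul, CliffordAlgebra.involute_involute]

theorem v1_con_sq [CharZero k] (a : Fin d → C) (x : VV k d C) : con a (con a x) = 0 := by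
  induction x using TensorProduct.induction_on with
  | zero => simp only [map_zero]
  | add x x' hx hx' => rw [map_add, map_add, hx, hx', add_zero]
  | tmul c x =>
    rw [v1_con_tmul, map_sum]
    have h1 : ∀ j : Fin d, con a ((a j * c) ⊗ₜ[k] CliffordAlgebra.contractLeft (Q := (0 : QuadraticForm k (Fin d → k)))
        (LinearMap.proj (R := k) (φ := fun _ : Fin d => k) j) x) = ∑ i, (a i * (a j * c)) ⊗ₜ[k]
        CliffordAlgebra.contractLeft (Q := (0 : QuadraticForm k (Fin d → k)))
          (LinearMap.proj (R := k) (φ := fun _ : Fin d => k) i) (CliffordAlgebra.contractLeft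
            (Q := (0 : QuadraticForm k (Fin d → k))) (LinearMap.proj (R := k) (φ := fun _ : Fin d => k) j) x) :=
      fun j => v1_con_tmul a _ _
    rw [Finset.sum_congr rfl fun j _ => h1 j]
    refine v1_asym _ (fun i => ?_) fun i j => ?_
    · rw [CliffordAlgebra.contractLeft_contractLeft, TensorProduct.tmul_zero]
    · rw [CliffordAlgebra.contractLeft_comm, TensorProduct.tmul_neg, mul_left_comm]

theorem v1_con_onef_mul (a b : Fin d → C) (x : VV k d C) :
    con a (onef b * x) = (∑ j, a j * b j) • x - onef b * con a x := by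
  have h1 : con a (onef b : VV k d C) = (∑ j, a j * b j) • (1 : VV k d C) := by
    rw [v1_onef_tmul, map_sum]
    have h2 : ∀ j : Fin d, con a (b j ⊗ₜ[k] (ExteriorAlgebra.ι k (Pi.single j (1 : k)) : Lam k d)) =
        (a j * b j) • (1 : VV k d C) := by
      intro j
      rw [v1_con_tmul, Finset.sum_eq_single j]
      · rw [CliffordAlgebra.contractLeft_ι, LinearMap.proj_apply, Pi.single_eq_same, map_one,
          Algebra.TensorProduct.one_def, TensorProduct.smul_tmul', smul_eq_mul, mul_one]
      · intro i _ hne
        rw [CliffordAlgebra.contractLeft_ι, LinearMap.proj_apply, Pi.single_eq_of_ne hne, map_zero,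
          TensorProduct.tmul_zero]
      · intro h3
        exact absurd (Finset.mem_univ j) h3
    rw [Finset.sum_congr rfl fun j _ => h2 j, Finset.sum_smul]
  have h2 : inv (onef b : VV k d C) = -onef b := by
    rw [v1_onef_tmul, map_sum, ← Finset.sum_neg_distrib]
    refine Finset.sum_congr rfl fun j _ => ?_
    rw [v1_inv_tmul, CliffordAlgebra.involute_ι, TensorProduct.tmul_neg]
  rw [v1_leib, h1, h2, smul_mul_assoc, one_mul, neg_mul, ← sub_eq_add_neg]

theorem v1_con_one (a : Fin d → C) : con a (1 : VV k d C) = 0 := by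
  rw [Algebra.TensorProduct.one_def, v1_con_tmul]
  refine Finset.sum_eq_zero fun j _ => ?_
  rw [CliffordAlgebra.contractLeft_one, TensorProduct.tmul_zero]

theorem v1_con_onef (a b : Fin d → C) :
    con a (onef b : VV k d C) = (∑ j, a j * b j) • (1 : VV k d C) := by
  have h1 := v1_con_onef_mul a b (1 : VV k d C)
  rwa [mul_one, v1_con_one, mul_zero, sub_zero] at h1

theorem v1_onef_anti (a b : Fin d → C) :
    (onef a : VV k d C) * onef b = -((onef b : VV k d C) * onef a) := by
  rw [v1_onef_tmul, v1_onef_tmul, Finset.sum_mul_sum, Finset.sum_mul_sum, Finset.sum_comm, ← Finset.sum_neg_distrib]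
  refine Finset.sum_congr rfl fun j _ => ?_
  rw [← Finset.sum_neg_distrib]
  refine Finset.sum_congr rfl fun i _ => ?_
  rw [Algebra.TensorProduct.tmul_mul_tmul, Algebra.TensorProduct.tmul_mul_tmul, mul_comm (a i) (b j), ← TensorProduct.tmul_neg]
  congr 1
  exact eq_neg_of_add_eq_zero_left (ExteriorAlgebra.ι_add_mul_swap _ _)

theorem v1_onef_sq (a : Fin d → C) : (onef a : VV k d C) * onef a = 0 := by
  rw [v1_onef_tmul, Finset.sum_mul_sum]
  refine v1_asym _ (fun i => ?_) fun i j => ?_
  · rw [Algebra.TensorProduct.tmul_mul_tmul, ExteriorAlgebra.ι_sq_zero, TensorProduct.tmul_zero]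
  · rw [Algebra.TensorProduct.tmul_mul_tmul, Algebra.TensorProduct.tmul_mul_tmul, mul_comm (a i) (a j), ← TensorProduct.tmul_neg]
    congr 1
    exact eq_neg_of_add_eq_zero_left (ExteriorAlgebra.ι_add_mul_swap _ _)

theorem v1_inv_onef (a : Fin d → C) : inv (onef a : VV k d C) = -onef a := by
  rw [v1_onef_tmul, map_sum, ← Finset.sum_neg_distrib]
  refine Finset.sum_congr rfl fun j _ => ?_
  rw [v1_inv_tmul, CliffordAlgebra.involute_ι, TensorProduct.tmul_neg]

theorem v1_onef_add (a b : Fin d → C) :
    (onef (fun j => a j + b j) : VV k d C) = onef a + onef b := by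
  simp only [onef, add_smul, Finset.sum_add_distrib]

theorem v1_onef_smul (c : C) (a : Fin d → C) :
    (onef (fun j => c * a j) : VV k d C) = c • onef a := by
  simp only [onef, mul_smul, Finset.smul_sum]

end Pool.Agent.Lib.H44X
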