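import Pool.Agent.Lib.H44X.V1

/-!
W1 (S/M). The trace on forms and base change of forms.

`trV : VV k d K → VV k d L` is `trace ⊗ id`, `bcV : VV k d C → VV k d C'` is base change along a
map of `k`-algebras. All statements are checked on pure tensors (TensorProduct.induction_on).
* w1_coef: `coef l (trV v) = trace (coef l v)`; w1_smul: `trV (c • v) = c • trV v`, `c ∈ L`;
  w1_con: the trace commutes with the contraction by a vector field with coefficients in `L`;
  w1_one: `trV 1 = [K:L] • 1` (Algebra.trace_algebraMap).
* w1_bc_*: the same for the base change; w1_bc_inj: base change along an injective map is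
  injective (`Λ` is flat over the field `k`; Module.Flat.rTensor_preserves_injective_linearMap).
* w1_mem: if all `coef l v` (`v ∈ VV k d C'`) are in the image of `C → C'`, then `v` is in the image
  of the base change: let `(b_i)` be a `k`-basis of `Λ` (Module.Free.chooseBasis; `Λ` need not be
  known to be finite dimensional: `v` is a finite sum `∑ c_i ⊗ b_i`, Algebra.TensorProduct.basis or
  `Basis.baseChange`), `c_i = coef (b.coord i) v = f(c'_i)`; take `∑ c'_i ⊗ b_i` over the (finite)
  support.
-/

set_option autoImplicit false
open TensorProduct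

namespace Pool.Agent.Lib.H44X
universe u
variable {k : Type u} [Field k] {d : ℕ}

section trace
variable {L K : Type u} [Field L] [Field K] [Algebra k L] [Algebra k K] [Algebra L K]
  [IsScalarTower k L K]

/-- the trace on forms. -/
noncomputable def trV : VV k d K →ₗ[k] VV k d L :=
  TensorProduct.map ((Algebra.trace L K).restrictScalars k) LinearMap.id

theorem w1_trt (a : K) (x : Lam k d) : trV (L := L) (a ⊗ₜ[k] x) = (Algebra.trace L K a) ⊗ₜ[k] x := rfl

theorem w1_trm (c : L) (a : K) : Algebra.trace L K (algebraMap L K c * a) = c * Algebra.trace L K a := by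
  rw [← Algebra.smul_def, map_smul, smul_eq_mul]

theorem w1_coef (l : Module.Dual k (Lam k d)) (v : VV k d K) :
    coef l (trV (L := L) v) = Algebra.trace L K (coef l v) := by
  induction v using TensorProduct.induction_on with
  | zero => simp only [map_zero]
  | add x y hx hy => rw [map_add, map_add, map_add, map_add, hx, hy]
  | tmul a x =>
    rw [w1_trt]
    exact (((Algebra.trace L K).restrictScalars k).map_smul (l x) a).symm

theorem w1_smul (c : L) (v : VV k d K) :
    trV (L := L) (algebraMap L K c • v) = c • trV (L := L) v := by
  induction v using TensorProduct.induction_on with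
  | zero => simp only [smul_zero, map_zero]
  | add x y hx hy => rw [smul_add, map_add, map_add, hx, hy, smul_add]
  | tmul a x =>
    rw [TensorProduct.smul_tmul', smul_eq_mul, w1_trt, w1_trt, w1_trm, TensorProduct.smul_tmul', smul_eq_mul]

theorem w1_con (e : Fin d → L) (v : VV k d K) :
    trV (L := L) (con (fun j => algebraMap L K (e j)) v) = con e (trV (L := L) v) := by
  induction v using TensorProduct.induction_on with
  | zero => simp only [map_zero]
  | add x y hx hy => rw [map_add, map_add, map_add, map_add, hx, hy]
  | tmul a x =>
    rw [v1_con_tmul, w1_trt, v1_con_tmul, map_sum]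
    refine Finset.sum_congr rfl fun j _ => ?_
    rw [w1_trt, w1_trm]

theorem w1_one [FiniteDimensional L K] :
    trV (L := L) (1 : VV k d K) = ((Module.finrank L K : ℕ) : L) • (1 : VV k d L) := by
  have h1 : Algebra.trace L K (1 : K) = ((Module.finrank L K : ℕ) : L) := by
    rw [← map_one (algebraMap L K), Algebra.trace_algebraMap, nsmul_one]
  rw [Algebra.TensorProduct.one_def, w1_trt, h1, Algebra.TensorProduct.one_def, TensorProduct.smul_tmul',
    smul_eq_mul, mul_one]

end trace

section bc
variable {C C' : Type u} [CommRing C] [CommRing C'] [Algebra k C] [Algebra k C']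

/-- base change of forms. -/
noncomputable def bcV (f : C →ₐ[k] C') : VV k d C →ₐ[k] VV k d C' :=
  Algebra.TensorProduct.map f (AlgHom.id k (Lam k d))

theorem w1_bct (f : C →ₐ[k] C') (c : C) (x : Lam k d) : bcV f (c ⊗ₜ[k] x) = f c ⊗ₜ[k] x := rfl

theorem w1_bc_smul (f : C →ₐ[k] C') (c : C) (v : VV k d C) :
    bcV f (c • v) = f c • bcV f v := by
  induction v using TensorProduct.induction_on with
  | zero => simp only [smul_zero, map_zero]
  | add x y hx hy => rw [smul_add, map_add, map_add, hx, hy, smul_add]
  | tmul a x =>
    rw [TensorProduct.smul_tmul', smul_eq_mul, w1_bct, w1_bct, map_mul, TensorProduct.smul_tmul', smul_eq_mul]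

theorem w1_bc_con (f : C →ₐ[k] C') (e : Fin d → C) (v : VV k d C) :
    bcV f (con e v) = con (fun j => f (e j)) (bcV f v) := by
  induction v using TensorProduct.induction_on with
  | zero => simp only [map_zero]
  | add x y hx hy => rw [map_add, map_add, map_add, map_add, hx, hy]
  | tmul a x =>
    rw [v1_con_tmul, w1_bct, v1_con_tmul, map_sum]
    refine Finset.sum_congr rfl fun j _ => ?_
    rw [w1_bct, map_mul]

theorem w1_bc_coef (f : C →ₐ[k] C') (l : Module.Dual k (Lam k d)) (v : VV k d C) :
    coef l (bcV f v) = f (coef l v) := by
  induction v using TensorProduct.induction_on with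
  | zero => simp only [map_zero]
  | add x y hx hy => rw [map_add, map_add, map_add, map_add, hx, hy]
  | tmul a x =>
    rw [w1_bct]
    exact (f.toLinearMap.map_smul (l x) a).symm

theorem w1_bc_inj (f : C →ₐ[k] C') (hf : Function.Injective f) :
    Function.Injective (bcV (d := d) f) := by
  have h1 := Module.Flat.rTensor_preserves_injective_linearMap (M := Lam k d) f.toLinearMap hf
  have h2 : ∀ v : VV k d C, bcV f v = LinearMap.rTensor (Lam k d) f.toLinearMap v := by
    intro v
    induction v using TensorProduct.induction_on with
    | zero => simp only [map_zero]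
    | add x y hx hy => rw [map_add, map_add, hx, hy]
    | tmul a x => rfl
  intro v w hvw
  apply h1
  rw [← h2, ← h2]
  exact hvw

theorem w1_mem (f : C →ₐ[k] C') (v : VV k d C') (hv : ∀ l, ∃ c, f c = coef l v) :
    ∃ v', bcV f v' = v := by
  obtain ⟨b⟩ : Nonempty (Module.Basis (Module.Free.ChooseBasisIndex k (Lam k d)) k (Lam k d)) :=
    ⟨Module.Free.chooseBasis k (Lam k d)⟩
  have h1 : ∀ (i : _) (v : VV k d C'), (Algebra.TensorProduct.basis C' b).repr v i = coef (b.coord i) v := by
    intro i v
    induction v using TensorProduct.induction_on with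
    | zero => simp only [map_zero, Finsupp.coe_zero, Pi.zero_apply]
    | add x y hx hy => rw [map_add, map_add, Finsupp.add_apply, hx, hy]
    | tmul a x =>
      rw [Algebra.TensorProduct.basis_repr_tmul, Finsupp.smul_apply, Finsupp.mapRange_apply]
      change a * algebraMap k C' (b.repr x i) = (b.repr x i) • a
      rw [Algebra.smul_def, mul_comm]
  choose c hc using fun i => hv (b.coord i)
  refine ⟨∑ i ∈ ((Algebra.TensorProduct.basis C' b).repr v).support, c i ⊗ₜ[k] b i, ?_⟩
  have h2 := (Algebra.TensorProduct.basis C' b).linearCombination_repr v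
  rw [Finsupp.linearCombination_apply, Finsupp.sum] at h2
  rw [map_sum]
  refine Eq.trans ?_ h2
  refine Finset.sum_congr rfl fun i _ => ?_
  rw [w1_bct, hc, h1, Algebra.TensorProduct.basis_apply, TensorProduct.smul_tmul', smul_eq_mul, mul_one]

end bc

end Pool.Agent.Lib.H44X
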