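import Pool.Agent.Lib.H44X.LDefs
import Pool.Agent.Lib.H44X.W1
import Pool.Agent.Lib.H44X.V1

/-!
Definitions for the module K: the coefficients of a form of degree `d - 1`, and the submodules `sT`,
`sU` of `K` and `K^d`.
-/

set_option autoImplicit false
open TensorProduct

namespace Pool.Agent.Lib.H44X
universe u

/-- `x ↦ (j ↦ l(dy_j x))`. -/
noncomputable def nuc {k : Type u} [Field k] {d : ℕ} {C : Type u} [CommRing C] [Algebra k C]
    (l : Module.Dual k (Lam k d)) : VV k d C →ₗ[C] (Fin d → C) :=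
  LinearMap.pi fun j => coef l ∘ₗ LinearMap.mulLeft C (dy k d C j)

@[simp] theorem nuc_apply {k : Type u} [Field k] {d : ℕ} {C : Type u} [CommRing C] [Algebra k C]
    (l : Module.Dual k (Lam k d)) (x : VV k d C) (j : Fin d) :
    nuc l x j = coef l (dy k d C j * x) := rfl

section
variable {k : Type u} [Field k] {d : ℕ} (A : Type u) {K : Type u} [CommRing A] [Field K]
  [Algebra k K] [Algebra A K] [Algebra (MvPolynomial (Fin d) k) K] (D : Fin d → Derivation k K K)
  (C : Type u) [CommRing C] [Algebra C K] (l : Module.Dual k (Lam k d)) (e : Fin d → K)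

/-- the values `l(v)` for forms `v` over `A_(x)` (a `C`-submodule of `K`; the closure properties of
`LocForm` are hypotheses). -/
def sT (h0 : LocForm A D (0 : VV k d K))
    (ha : ∀ v v' : VV k d K, LocForm A D v → LocForm A D v' → LocForm A D (v + v'))
    (hs : ∀ (c : C) (v : VV k d K), LocForm A D v → LocForm A D (algebraMap C K c • v)) :
    Submodule C K where
  carrier := {x | ∃ v : VV k d K, LocForm A D v ∧ coef l v = x}
  zero_mem' := ⟨0, h0, map_zero _⟩
  add_mem' := by
    rintro x y ⟨v, hv, rfl⟩ ⟨v', hv', rfl⟩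
    exact ⟨v + v', ha v v' hv hv', map_add _ _ _⟩
  smul_mem' := by
    rintro c x ⟨v, hv, rfl⟩
    refine ⟨algebraMap C K c • v, hs c v hv, ?_⟩
    rw [map_smul, smul_eq_mul, Algebra.smul_def]

/-- the vectors `nuc l v + (j ↦ e_j l(v'))` for forms `v`, `v'` over `A_(x)`. -/
def sU (h0 : LocForm A D (0 : VV k d K))
    (ha : ∀ v v' : VV k d K, LocForm A D v → LocForm A D v' → LocForm A D (v + v'))
    (hs : ∀ (c : C) (v : VV k d K), LocForm A D v → LocForm A D (algebraMap C K c • v)) :
    Submodule C (Fin d → K) where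
  carrier := {x | ∃ v v' : VV k d K, LocForm A D v ∧ LocForm A D v' ∧
    x = nuc l v + fun j => e j * coef l v'}
  zero_mem' := ⟨0, 0, h0, h0, by
    funext j
    simp⟩
  add_mem' := by
    rintro x y ⟨v, w, hv, hw, rfl⟩ ⟨v', w', hv', hw', rfl⟩
    refine ⟨v + v', w + w', ha v v' hv hv', ha w w' hw hw', ?_⟩
    funext j
    simp only [Pi.add_apply, map_add]
    ring
  smul_mem' := by
    rintro c x ⟨v, w, hv, hw, rfl⟩
    refine ⟨algebraMap C K c • v, algebraMap C K c • w, hs c v hv, hs c w hw, ?_⟩
    funext j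
    rw [map_smul, map_smul]
    simp only [Pi.smul_apply, Pi.add_apply, smul_eq_mul]
    rw [Algebra.smul_def]
    ring

end

end Pool.Agent.Lib.H44X
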