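import Pool.Agent.Lib.H44X.Defs

/-!
Forms with coefficients in the local ring `A_(x)`.
-/

set_option autoImplicit false
open TensorProduct

namespace Pool.Agent.Lib.H44X
universe u

/-- a form over `K` which becomes a form over `A` after multiplication with a polynomial in `y`
with non-zero constant term. -/
def LocForm {k : Type u} [Field k] {d : ℕ} (A : Type u) {K : Type u} [CommRing A] [Field K]
    [Algebra k K] [Algebra A K] [Algebra (MvPolynomial (Fin d) k) K]
    (D : Fin d → Derivation k K K) (v : VV k d K) : Prop :=
  ∃ b : MvPolynomial (Fin d) k, MvPolynomial.constantCoeff b ≠ 0 ∧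
    IsForm A D (algebraMap (MvPolynomial (Fin d) k) K b • v)

/-- the one-form `dx_l`. -/
noncomputable def tX {k : Type u} [Field k] {n d : ℕ} (A : Type u) {K : Type u} [CommRing A]
    [Field K] [Algebra k K] [Algebra A K] [Algebra (MvPolynomial (Fin n) k) A]
    (D : Fin d → Derivation k K K) : Fin n → Fin d → K :=
  fun l j => D j (algebraMap A K (algebraMap (MvPolynomial (Fin n) k) A (MvPolynomial.X l)))

end Pool.Agent.Lib.H44X
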