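import Pool.Agent.Lib.H44X.Defs

/-!
The de Rham differential `dR` and the degree operator `degop` on `VV k n k[x_1, …, x_n]`.
-/

set_option autoImplicit false
open TensorProduct

namespace Pool.Agent.Lib.H44X
universe u
variable {k : Type u} [Field k] {n : ℕ}

/-- the de Rham differential. -/
noncomputable def dR : VV k n (MvPolynomial (Fin n) k) →ₗ[k] VV k n (MvPolynomial (Fin n) k) :=
  ∑ l : Fin n, TensorProduct.map
    ((MvPolynomial.pderiv (R := k) l : Derivation k (MvPolynomial (Fin n) k)
      (MvPolynomial (Fin n) k)) : MvPolynomial (Fin n) k →ₗ[k] MvPolynomial (Fin n) k)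
    (LinearMap.mulLeft k (ExteriorAlgebra.ι k (Pi.single l (1 : k)) : Lam k n))

/-- the degree operator. -/
noncomputable def degop (w : Fin n → ℕ) :
    VV k n (MvPolynomial (Fin n) k) →ₗ[k] VV k n (MvPolynomial (Fin n) k) :=
  ∑ l : Fin n, ((w l : k) • (TensorProduct.map
    ((LinearMap.mulLeft k (MvPolynomial.X l : MvPolynomial (Fin n) k)) ∘ₗ
      ((MvPolynomial.pderiv (R := k) l : Derivation k (MvPolynomial (Fin n) k)
        (MvPolynomial (Fin n) k)) : MvPolynomial (Fin n) k →ₗ[k] MvPolynomial (Fin n) k))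
      LinearMap.id +
    TensorProduct.map LinearMap.id
      ((LinearMap.mulLeft k (ExteriorAlgebra.ι k (Pi.single l (1 : k)) : Lam k n)) ∘ₗ
        CliffordAlgebra.contractLeft (Q := (0 : QuadraticForm k (Fin n → k)))
          (LinearMap.proj (R := k) (φ := fun _ : Fin n => k) l))))

end Pool.Agent.Lib.H44X
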