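import Pool.Agent.Lib.H44X.V1
import Pool.Agent.Lib.H44X.ODef

/-!
O1 (M). The de Rham differential `dR = ∑_l (∂/∂x_l) ⊗ (dx_l ·)` on `VV k n P = P ⊗ Λ`
(ODef.lean) and the Cartan formula for the weighted Euler field.

* o1_cartan: `con eul (dR v) + dR (con eul v) = degop v`. Both sides are `k`-linear, so take a pure
  tensor `f ⊗ x` (TensorProduct.induction_on): `con eul (dR (f ⊗ x)) = ∑_l ∑_m w_m x_m ∂_l f ⊗
  c_m (dx_l x)` and `dR (con eul (f ⊗ x)) = ∑_m ∑_l w_m ∂_l(x_m f) ⊗ dx_l c_m x`, where `c_m` is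
  `contractLeft (proj m)`, `∂_l (x_m f) = δ_lm f + x_m ∂_l f` (Derivation.leibniz, pderiv_X) and
  `c_m (dx_l x) = δ_lm x - dx_l c_m x` (CliffordAlgebra.contractLeft_ι_mul). The sum is
  `∑_l w_l x_l ∂_l f ⊗ x + ∑_l w_l f ⊗ dx_l c_l x`, which is `degop (f ⊗ x)`.
* o1_dR_smul: `dR (f • v) = onef(grad f) * v + f • dR v`; on a pure tensor `h ⊗ x` this is the
  Leibniz rule for `pderiv l`; `onef (grad f) = ∑_l ∂_l f • dy l`,
  `(c • dy l) * (h ⊗ x) = (c h) ⊗ (dx_l x)` (Algebra.TensorProduct.tmul_mul_tmul).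
* o1_dR_grad: `dR (onef (grad f) * v) = - onef (grad f) * dR v`: on `h ⊗ x`,
  `dR (∑_l ∂_l f h ⊗ dx_l x) = ∑_l ∑_m ∂_m(∂_l f h) ⊗ dx_m dx_l x
   = ∑_l ∑_m (∂_m ∂_l f) h ⊗ dx_m dx_l x + ∑_l ∑_m ∂_l f ∂_m h ⊗ dx_m dx_l x`; the first sum
  vanishes (`∂_m ∂_l f` is symmetric, MvPolynomial.pderiv_pderiv_comm or similar, and
  `dx_m dx_l = - dx_l dx_m`: exchange `l` and `m`, so the sum equals its negative; it is `0` in any
  characteristic by pairing, but you may use the hypothesis CharZero k), the second is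
  `- ∑_l ∑_m ∂_l f ∂_m h ⊗ dx_l dx_m x`.
-/

set_option autoImplicit false
open TensorProduct

namespace Pool.Agent.Lib.H44X
universe u
variable {k : Type u} [Field k] {n : ℕ}

/-- contraction with the coordinate `m`. -/
private noncomputable abbrev o1_c (k : Type u) [Field k] {n : ℕ} (m : Fin n) :
    Lam k n →ₗ[k] Lam k n :=
  CliffordAlgebra.contractLeft (Q := (0 : QuadraticForm k (Fin n → k)))
    (LinearMap.proj (R := k) (φ := fun _ : Fin n => k) m)

/-- the generator `dx_l` of the exterior algebra. -/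
private noncomputable abbrev o1_i (k : Type u) [Field k] {n : ℕ} (l : Fin n) : Lam k n :=
  ExteriorAlgebra.ι k (Pi.single l (1 : k))

private theorem o1_dR_tmul (f : MvPolynomial (Fin n) k) (x : Lam k n) :
    dR (f ⊗ₜ[k] x) = ∑ l : Fin n, (MvPolynomial.pderiv l f) ⊗ₜ[k] (o1_i k l * x) := by
  simp [dR]

private theorem o1_con_tmul (a : Fin n → MvPolynomial (Fin n) k) (f : MvPolynomial (Fin n) k)
    (x : Lam k n) :
    con a (f ⊗ₜ[k] x) = ∑ m : Fin n, (a m * f) ⊗ₜ[k] (o1_c k m x) := by
  simp [con, TensorProduct.smul_tmul']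

private theorem o1_onef_tmul (a : Fin n → MvPolynomial (Fin n) k) (f : MvPolynomial (Fin n) k)
    (x : Lam k n) :
    (onef a : VV k n (MvPolynomial (Fin n) k)) * (f ⊗ₜ[k] x) =
      ∑ m : Fin n, (a m * f) ⊗ₜ[k] (o1_i k m * x) := by
  simp [onef, dy, Finset.sum_mul, TensorProduct.smul_tmul']

private theorem o1_deg_tmul (w : Fin n → ℕ) (f : MvPolynomial (Fin n) k) (x : Lam k n) :
    degop w (f ⊗ₜ[k] x) = ∑ l : Fin n, (((w l : k) • (MvPolynomial.X l * MvPolynomial.pderiv l f))
      ⊗ₜ[k] x + ((w l : k) • f) ⊗ₜ[k] (o1_i k l * o1_c k l x)) := by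
  simp [degop, TensorProduct.smul_tmul', smul_add]

private theorem o1_cl (l m : Fin n) (x : Lam k n) :
    o1_c k m (o1_i k l * x) = (if l = m then x else 0) - o1_i k l * o1_c k m x := by
  have h := CliffordAlgebra.contractLeft_ι_mul (Q := (0 : QuadraticForm k (Fin n → k)))
    (d := LinearMap.proj (R := k) (φ := fun _ : Fin n => k) m) (Pi.single l (1 : k)) x
  refine h.trans ?_
  congr 1
  by_cases hlm : l = m
  · subst hlm
    simp
  · rw [if_neg hlm]
    simp [Pi.single_eq_of_ne (Ne.symm hlm)]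

theorem o1_cartan (w : Fin n → ℕ) (v : VV k n (MvPolynomial (Fin n) k)) :
    con (eul k w (MvPolynomial (Fin n) k)) (dR v) + dR (con (eul k w (MvPolynomial (Fin n) k)) v) =
      degop w v := by
  induction v using TensorProduct.induction_on with
  | zero => simp
  | add x y hx hy =>
    rw [map_add, map_add, map_add, map_add, map_add, ← hx, ← hy]
    abel
  | tmul f x =>
    rw [o1_dR_tmul, o1_con_tmul, o1_deg_tmul, map_sum, map_sum]
    have h1 : ∀ l : Fin n, con (eul k w (MvPolynomial (Fin n) k))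
        ((MvPolynomial.pderiv l f) ⊗ₜ[k] (o1_i k l * x)) =
        ∑ m : Fin n, ((eul k w (MvPolynomial (Fin n) k) m * MvPolynomial.pderiv l f) ⊗ₜ[k]
          (if l = m then x else 0) - (eul k w (MvPolynomial (Fin n) k) m *
            MvPolynomial.pderiv l f) ⊗ₜ[k] (o1_i k l * o1_c k m x)) := by
      intro l
      rw [o1_con_tmul]
      refine Finset.sum_congr rfl fun m _ => ?_
      rw [o1_cl, TensorProduct.tmul_sub]
    have h2 : ∀ m : Fin n, dR ((eul k w (MvPolynomial (Fin n) k) m * f) ⊗ₜ[k] (o1_c k m x)) =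
        ∑ l : Fin n, ((if l = m then (w m : k) • f else 0) ⊗ₜ[k] (o1_i k l * o1_c k m x) +
          (eul k w (MvPolynomial (Fin n) k) m * MvPolynomial.pderiv l f) ⊗ₜ[k]
            (o1_i k l * o1_c k m x)) := by
      intro m
      rw [o1_dR_tmul]
      refine Finset.sum_congr rfl fun l _ => ?_
      rw [← TensorProduct.add_tmul]
      congr 1
      unfold eul
      rw [Derivation.leibniz, Derivation.leibniz]
      by_cases hlm : l = m
      · subst hlm
        have hw : ((w l : k) • f) = ((w l : ℕ) : MvPolynomial (Fin n) k) * f := by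
          rw [← MvPolynomial.C_mul', map_natCast]
        rw [if_pos rfl, hw]
        simp
        ring
      · simp [hlm, MvPolynomial.pderiv_X_of_ne (Ne.symm hlm)]
    rw [Finset.sum_congr rfl fun l _ => h1 l, Finset.sum_congr rfl fun m _ => h2 m,
      Finset.sum_comm (s := Finset.univ) (t := Finset.univ)
        (f := fun m l => ((if l = m then (w m : k) • f else 0) ⊗ₜ[k] (o1_i k l * o1_c k m x) +
          (eul k w (MvPolynomial (Fin n) k) m * MvPolynomial.pderiv l f) ⊗ₜ[k]
            (o1_i k l * o1_c k m x))), ← Finset.sum_add_distrib]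
    refine Finset.sum_congr rfl fun l _ => ?_
    rw [← Finset.sum_add_distrib]
    have h3 : ∀ m : Fin n, ((eul k w (MvPolynomial (Fin n) k) m * MvPolynomial.pderiv l f) ⊗ₜ[k]
          (if l = m then x else 0) - (eul k w (MvPolynomial (Fin n) k) m *
            MvPolynomial.pderiv l f) ⊗ₜ[k] (o1_i k l * o1_c k m x)) +
        ((if l = m then (w m : k) • f else 0) ⊗ₜ[k] (o1_i k l * o1_c k m x) +
          (eul k w (MvPolynomial (Fin n) k) m * MvPolynomial.pderiv l f) ⊗ₜ[k]
            (o1_i k l * o1_c k m x)) =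
        if l = m then ((eul k w (MvPolynomial (Fin n) k) m * MvPolynomial.pderiv l f) ⊗ₜ[k] x +
          ((w m : k) • f) ⊗ₜ[k] (o1_i k l * o1_c k m x)) else 0 := by
      intro m
      by_cases hlm : l = m
      · simp only [hlm, if_true]
        abel
      · simp only [hlm, if_false, TensorProduct.tmul_zero, TensorProduct.zero_tmul]
        abel
    rw [Finset.sum_congr rfl fun m _ => h3 m, Finset.sum_ite_eq, if_pos (Finset.mem_univ _)]
    congr 2
    unfold eul
    rw [← map_natCast (MvPolynomial.C (σ := Fin n)) (w l), ← MvPolynomial.C_mul']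
    simp [mul_assoc]

theorem o1_dR_smul (f : MvPolynomial (Fin n) k) (v : VV k n (MvPolynomial (Fin n) k)) :
    dR (f • v) = onef (grad (MvPolynomial (Fin n) k) f) * v + f • dR v := by
  induction v using TensorProduct.induction_on with
  | zero => simp
  | add x y hx hy =>
    rw [smul_add, map_add, map_add, mul_add, smul_add, hx, hy]
    abel
  | tmul h x =>
    rw [TensorProduct.smul_tmul', smul_eq_mul, o1_dR_tmul, o1_dR_tmul, o1_onef_tmul,
      Finset.smul_sum, ← Finset.sum_add_distrib]
    refine Finset.sum_congr rfl fun l _ => ?_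
    rw [TensorProduct.smul_tmul', ← TensorProduct.add_tmul]
    congr 1
    rw [Derivation.leibniz]
    simp [grad]
    ring

private theorem o1_comm (l m : Fin n) (f : MvPolynomial (Fin n) k) :
    MvPolynomial.pderiv m (MvPolynomial.pderiv l f) =
      MvPolynomial.pderiv l (MvPolynomial.pderiv m f) := by
  have h : ⁅(MvPolynomial.pderiv m : Derivation k (MvPolynomial (Fin n) k)
      (MvPolynomial (Fin n) k)), (MvPolynomial.pderiv l : Derivation k (MvPolynomial (Fin n) k)
      (MvPolynomial (Fin n) k))⁆ = 0 := by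
    refine MvPolynomial.derivation_ext fun i => ?_
    rw [Derivation.commutator_apply]
    by_cases h1 : i = l <;> by_cases h2 : i = m <;>
      simp [h1, h2, MvPolynomial.pderiv_X, Pi.single_apply] <;>
      split_ifs <;> simp
  have h2 := congrArg (fun D : Derivation k (MvPolynomial (Fin n) k)
      (MvPolynomial (Fin n) k) => D f) h
  simp only [Derivation.commutator_apply, Derivation.coe_zero, Pi.zero_apply] at h2
  exact sub_eq_zero.mp h2

private theorem o1_anti (l m : Fin n) (x : Lam k n) :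
    o1_i k m * (o1_i k l * x) = -(o1_i k l * (o1_i k m * x)) := by
  have h := ExteriorAlgebra.ι_add_mul_swap (R := k) (Pi.single m (1 : k) : Fin n → k)
    (Pi.single l (1 : k))
  have h' : o1_i k m * o1_i k l + o1_i k l * o1_i k m = 0 := h
  rw [← mul_assoc, ← mul_assoc, ← neg_mul, eq_neg_of_add_eq_zero_left h']

theorem o1_dR_grad [CharZero k] (f : MvPolynomial (Fin n) k) (v : VV k n (MvPolynomial (Fin n) k)) :
    dR (onef (grad (MvPolynomial (Fin n) k) f) * v) =
      -(onef (grad (MvPolynomial (Fin n) k) f) * dR v) := by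
  induction v using TensorProduct.induction_on with
  | zero => simp
  | add x y hx hy =>
    rw [mul_add, map_add, map_add, mul_add, hx, hy]
    abel
  | tmul h x =>
    rw [o1_onef_tmul, o1_dR_tmul, map_sum, Finset.mul_sum]
    have h1 : ∀ l : Fin n, dR ((grad (MvPolynomial (Fin n) k) f l * h) ⊗ₜ[k] (o1_i k l * x)) =
        ∑ m : Fin n, ((MvPolynomial.pderiv m (MvPolynomial.pderiv l f) * h) ⊗ₜ[k]
          (o1_i k m * (o1_i k l * x)) + (MvPolynomial.pderiv l f * MvPolynomial.pderiv m h) ⊗ₜ[k]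
          (o1_i k m * (o1_i k l * x))) := by
      intro l
      rw [o1_dR_tmul]
      refine Finset.sum_congr rfl fun m _ => ?_
      rw [← TensorProduct.add_tmul]
      congr 1
      rw [Derivation.leibniz]
      simp [grad]
      ring
    have h2 : ∀ m : Fin n, (onef (grad (MvPolynomial (Fin n) k) f) :
        VV k n (MvPolynomial (Fin n) k)) * ((MvPolynomial.pderiv m h) ⊗ₜ[k] (o1_i k m * x)) =
        ∑ l : Fin n, ((MvPolynomial.pderiv l f * MvPolynomial.pderiv m h) ⊗ₜ[k]
          (o1_i k l * (o1_i k m * x))) := by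
      intro m
      rw [o1_onef_tmul]
      rfl
    rw [Finset.sum_congr rfl fun l _ => h1 l, Finset.sum_congr rfl fun m _ => h2 m]
    simp only [Finset.sum_add_distrib]
    have h3 : ∑ l : Fin n, ∑ m : Fin n, ((MvPolynomial.pderiv m (MvPolynomial.pderiv l f) * h)
        ⊗ₜ[k] (o1_i k m * (o1_i k l * x))) = 0 := by
      set S := ∑ l : Fin n, ∑ m : Fin n, ((MvPolynomial.pderiv m (MvPolynomial.pderiv l f) * h)
        ⊗ₜ[k] (o1_i k m * (o1_i k l * x))) with hS
      have h4 : S = -S := by
        conv_lhs => rw [hS, Finset.sum_comm]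
        rw [hS, ← Finset.sum_neg_distrib]
        refine Finset.sum_congr rfl fun l _ => ?_
        rw [← Finset.sum_neg_distrib]
        refine Finset.sum_congr rfl fun m _ => ?_
        rw [o1_comm, o1_anti, TensorProduct.tmul_neg]
      have h5 : (2 : k) • S = 0 := by
        rw [two_smul]
        nth_rewrite 1 [h4]
        simp
      exact (smul_eq_zero.mp h5).resolve_left two_ne_zero
    rw [h3, zero_add, Finset.sum_comm, ← Finset.sum_neg_distrib]
    refine Finset.sum_congr rfl fun m _ => ?_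
    rw [← Finset.sum_neg_distrib]
    refine Finset.sum_congr rfl fun l _ => ?_
    rw [o1_anti, TensorProduct.tmul_neg]

end Pool.Agent.Lib.H44X
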