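import Pool.Agent.Lib.H44X.O1

/-!
O2 (M). The degree operator (ODef.lean), `P = k[x_1, …, x_n]`.

* o2_euler: `∑_l w_l x_l ∂_l f = m f` for a weighted homogeneous `f` of weight `m` (Euler; maybe in
  Mathlib as MvPolynomial.IsWeightedHomogeneous.sum_weight_X_mul_pderiv, else: on monomials).
* o1_deg_one: from o1_cartan and `dR 1 = 0`, `con 1 = 0`; or directly.
* o1_deg_smul: `degop (f • v) = m (f • v) + f • degop v`: by o1_cartan, o1_dR_smul, v1_leib
  (or v1_con_onef_mul): `con eul (dR (f v)) = con eul (onef(grad f) * v) + f con eul (dR v) =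
  (∑ w_l x_l ∂_l f) v - onef(grad f) * con eul v + f con eul (dR v)` and `dR (con eul (f v)) =
  dR (f con eul v) = onef(grad f) * con eul v + f dR (con eul v)`. Add and use o2_euler.
* o1_deg_grad: `con eul (dR (df v)) = - con eul (df dR v) = - (m f) dR v + df con eul (dR v)`,
  `dR (con eul (df v)) = dR ((m f) v - df con eul v) = m df v + m f dR v + df dR (con eul v)`
  where `df = onef (grad f)`, by o1_dR_grad, v1_con_onef_mul, o2_euler. Add.
* o1_deg_con: from o1_cartan and v1_con_sq both sides are `con eul (dR (con eul v))`.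
-/

set_option autoImplicit false
open TensorProduct

namespace Pool.Agent.Lib.H44X
universe u
variable {k : Type u} [Field k] {n : ℕ}

theorem o2_euler (w : Fin n → ℕ) (m : ℕ) (f : MvPolynomial (Fin n) k)
    (hf : MvPolynomial.IsWeightedHomogeneous w f m) :
    ∑ l, (w l : MvPolynomial (Fin n) k) * MvPolynomial.X l * MvPolynomial.pderiv l f =
      (m : MvPolynomial (Fin n) k) * f := by
  have h := hf.sum_weight_X_mul_pderiv
  simp only [nsmul_eq_mul] at h
  rw [← h]
  refine Finset.sum_congr rfl fun l _ => ?_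
  rw [mul_assoc]

theorem o2_pair (w : Fin n → ℕ) (m : ℕ) (f : MvPolynomial (Fin n) k)
    (hf : MvPolynomial.IsWeightedHomogeneous w f m) (x : VV k n (MvPolynomial (Fin n) k)) :
    (∑ j, eul k w (MvPolynomial (Fin n) k) j * grad (MvPolynomial (Fin n) k) f j) • x = (m : k) • (f • x) := by
  have h1 : ∑ j, eul k w (MvPolynomial (Fin n) k) j * grad (MvPolynomial (Fin n) k) f j =
      (m : MvPolynomial (Fin n) k) * f := by
    rw [← o2_euler w m f hf]
    refine Finset.sum_congr rfl fun l _ => ?_
    rfl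
  rw [h1, mul_smul, Nat.cast_smul_eq_nsmul, Nat.cast_smul_eq_nsmul]

theorem o1_deg_one [CharZero k] (w : Fin n → ℕ) :
    degop w (1 : VV k n (MvPolynomial (Fin n) k)) = 0 := by
  rw [← o1_cartan, v1_con_one, map_zero, add_zero]
  have h1 : dR (1 : VV k n (MvPolynomial (Fin n) k)) = 0 := by
    rw [dR, LinearMap.sum_apply]
    refine Finset.sum_eq_zero fun l _ => ?_
    rw [Algebra.TensorProduct.one_def, TensorProduct.map_tmul]
    have h2 : ((MvPolynomial.pderiv (R := k) l : Derivation k (MvPolynomial (Fin n) k)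
      (MvPolynomial (Fin n) k)) : MvPolynomial (Fin n) k →ₗ[k] MvPolynomial (Fin n) k) 1 = 0 :=
      Derivation.map_one_eq_zero _
    rw [h2, TensorProduct.zero_tmul]
  rw [h1, map_zero]

theorem o1_deg_smul [CharZero k] (w : Fin n → ℕ) (m : ℕ) (f : MvPolynomial (Fin n) k)
    (hf : MvPolynomial.IsWeightedHomogeneous w f m) (v : VV k n (MvPolynomial (Fin n) k)) :
    degop w (f • v) = (m : k) • (f • v) + f • degop w v := by
  rw [← o1_cartan, ← o1_cartan, map_smul (con _) f v, o1_dR_smul, o1_dR_smul, map_add, v1_con_onef_mul, o2_pair w m f hf,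
    map_smul (con _) f (dR v), smul_add]
  abel

theorem o1_deg_grad [CharZero k] (w : Fin n → ℕ) (m : ℕ) (f : MvPolynomial (Fin n) k)
    (hf : MvPolynomial.IsWeightedHomogeneous w f m) (v : VV k n (MvPolynomial (Fin n) k)) :
    degop w (onef (grad (MvPolynomial (Fin n) k) f) * v) =
      (m : k) • (onef (grad (MvPolynomial (Fin n) k) f) * v) +
        onef (grad (MvPolynomial (Fin n) k) f) * degop w v := by
  rw [← o1_cartan, ← o1_cartan, o1_dR_grad, map_neg, v1_con_onef_mul, v1_con_onef_mul, o2_pair w m f hf, o2_pair w m f hf,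
    map_sub, map_smul dR (m : k), o1_dR_smul, o1_dR_grad, mul_add, smul_add]
  abel

theorem o1_deg_con [CharZero k] (w : Fin n → ℕ) (v : VV k n (MvPolynomial (Fin n) k)) :
    degop w (con (eul k w (MvPolynomial (Fin n) k)) v) =
      con (eul k w (MvPolynomial (Fin n) k)) (degop w v) := by
  rw [← o1_cartan, ← o1_cartan, v1_con_sq, map_zero, add_zero, map_add, v1_con_sq, zero_add]

end Pool.Agent.Lib.H44X
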