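import Pool.Agent.Lib.H44X.O2

/-!
O3 (M). `VV k n P` is spanned by `1` and eigenvectors of `degop w` with positive eigenvalues.

Let `aug z = constantCoeff (coef l₀ z)`, `l₀ = ExteriorAlgebra.algebraMapInv`.
* o3_aug_one, o3_aug_X, o3_aug_dy: `aug 1 = 1`, `aug (x_l • v) = 0`, `aug (dy_l * v) = 0`
  (pure tensors; `algebraMapInv (ι v * x) = 0`), and `aug` is `k`-linear.
* o3_span: `v - aug(v) • 1` lies in the `k`-span `W` of the eigenvectors with eigenvalue `m > 0`.
  The set of `v` with this property is a `k`-subspace; it contains `1` (`1 - 1 = 0`); it is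
  closed under `x_l •`: `x_l • v = aug(v) • (x_l • 1) + x_l • w`, `x_l • 1` is an eigenvector with
  eigenvalue `w_l` and `x_l •` raises the eigenvalue by `w_l` (o1_deg_smul with `f = X l`,
  o1_deg_one), `aug (x_l • v) = 0`; in the same way closed under `dy_l *` (o1_deg_grad with
  `f = X l`, `onef (grad (X l)) = dy l`). Every `v` is obtained: pure tensors `f ⊗ x`, first `x` by
  induction (ExteriorAlgebra / CliffordAlgebra.left_induction: `1 ⊗ ι(v) x = ∑ v_l dy_l * (1 ⊗ x)`),
  then `f` by MvPolynomial.induction_on (`f ⊗ x = f • (1 ⊗ x)`).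
-/

set_option autoImplicit false
open TensorProduct

namespace Pool.Agent.Lib.H44X
universe u
variable {k : Type u} [Field k] {n : ℕ}

/-- the value of the function part at the origin. -/
noncomputable def aug (v : VV k n (MvPolynomial (Fin n) k)) : k :=
  MvPolynomial.constantCoeff (coef (ExteriorAlgebra.algebraMapInv (R := k)
    (M := Fin n → k)).toLinearMap v)

theorem o3_aug_add (v v' : VV k n (MvPolynomial (Fin n) k)) : aug (v + v') = aug v + aug v' := by
  unfold aug
  rw [map_add, map_add]

private theorem o3_smul (f : MvPolynomial (Fin n) k) (v : VV k n (MvPolynomial (Fin n) k)) :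
    aug (f • v) = MvPolynomial.constantCoeff f * aug v := by
  unfold aug
  rw [map_smul, smul_eq_mul, map_mul]

private theorem o3_csmul (c : k) (v : VV k n (MvPolynomial (Fin n) k)) :
    c • v = (MvPolynomial.C c : MvPolynomial (Fin n) k) • v := by
  rw [← MvPolynomial.algebraMap_eq, algebraMap_smul]

theorem o3_aug_C (c : k) (v : VV k n (MvPolynomial (Fin n) k)) : aug (c • v) = c * aug v := by
  rw [o3_csmul, o3_smul, MvPolynomial.constantCoeff_C]

theorem o3_aug_one : aug (1 : VV k n (MvPolynomial (Fin n) k)) = 1 := by
  unfold aug coef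
  rw [Algebra.TensorProduct.one_def, Module.Dual.baseChange_apply_tmul]
  simp

theorem o3_aug_smul (f : MvPolynomial (Fin n) k) (v : VV k n (MvPolynomial (Fin n) k)) :
    aug (f • v) = MvPolynomial.constantCoeff f * aug v := o3_smul f v

theorem o3_aug_dy (l : Fin n) (v : VV k n (MvPolynomial (Fin n) k)) :
    aug (dy k n (MvPolynomial (Fin n) k) l * v) = 0 := by
  induction v using TensorProduct.induction_on with
  | zero =>
    rw [mul_zero]
    unfold aug
    rw [map_zero, map_zero]
  | tmul p x =>
    unfold aug coef dy
    rw [Algebra.TensorProduct.tmul_mul_tmul, Module.Dual.baseChange_apply_tmul]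
    simp [ExteriorAlgebra.algebraMapInv]
  | add a b ha hb => rw [mul_add, o3_aug_add, ha, hb, add_zero]

private theorem o3_gradX (l : Fin n) :
    (onef (grad (MvPolynomial (Fin n) k) (MvPolynomial.X l : MvPolynomial (Fin n) k)) :
      VV k n (MvPolynomial (Fin n) k)) = dy k n (MvPolynomial (Fin n) k) l := by
  unfold onef grad
  rw [Finset.sum_eq_single l]
  · rw [MvPolynomial.pderiv_X_self, map_one, one_smul]
  · intro j _ hj
    rw [MvPolynomial.pderiv_X_of_ne (Ne.symm hj), map_zero, zero_smul]
  · intro h
    exact absurd (Finset.mem_univ l) h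

/-- the span of the eigenvectors with positive eigenvalues. -/
private noncomputable abbrev o3_W (k : Type u) [Field k] {n : ℕ} (w : Fin n → ℕ) :
    Submodule k (VV k n (MvPolynomial (Fin n) k)) :=
  Submodule.span k {z : VV k n (MvPolynomial (Fin n) k) |
    ∃ m : ℕ, 0 < m ∧ degop w z = (m : k) • z}

private theorem o3_WX [CharZero k] (w : Fin n → ℕ) (l : Fin n)
    (z : VV k n (MvPolynomial (Fin n) k)) (hz : z ∈ o3_W k w) :
    (MvPolynomial.X l : MvPolynomial (Fin n) k) • z ∈ o3_W k w := by
  induction hz using Submodule.span_induction with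
  | mem x hx =>
    obtain ⟨m, hm, hx⟩ := hx
    refine Submodule.subset_span ⟨w l + m, by omega, ?_⟩
    rw [o1_deg_smul w (w l) _ (MvPolynomial.isWeightedHomogeneous_X k w l), hx, Nat.cast_add,
      add_smul, smul_comm (MvPolynomial.X l : MvPolynomial (Fin n) k) (m : k) x]
  | zero => rw [smul_zero]; exact Submodule.zero_mem _
  | add x y _ _ hx hy => rw [smul_add]; exact Submodule.add_mem _ hx hy
  | smul a x _ hx => rw [smul_comm]; exact Submodule.smul_mem _ _ hx

private theorem o3_Wdy [CharZero k] (w : Fin n → ℕ) (l : Fin n)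
    (z : VV k n (MvPolynomial (Fin n) k)) (hz : z ∈ o3_W k w) :
    dy k n (MvPolynomial (Fin n) k) l * z ∈ o3_W k w := by
  induction hz using Submodule.span_induction with
  | mem x hx =>
    obtain ⟨m, hm, hx⟩ := hx
    refine Submodule.subset_span ⟨w l + m, by omega, ?_⟩
    rw [← o3_gradX, o1_deg_grad w (w l) _ (MvPolynomial.isWeightedHomogeneous_X k w l), hx,
      Nat.cast_add, add_smul, mul_smul_comm]
  | zero => rw [mul_zero]; exact Submodule.zero_mem _
  | add x y _ _ hx hy => rw [mul_add]; exact Submodule.add_mem _ hx hy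
  | smul a x _ hx => rw [mul_smul_comm]; exact Submodule.smul_mem _ _ hx

theorem o3_span [CharZero k] (w : Fin n → ℕ) (hw : ∀ i, 0 < w i)
    (v : VV k n (MvPolynomial (Fin n) k)) :
    v - aug v • (1 : VV k n (MvPolynomial (Fin n) k)) ∈
      Submodule.span k {z : VV k n (MvPolynomial (Fin n) k) |
        ∃ m : ℕ, 0 < m ∧ degop w z = (m : k) • z} := by
  have key : ∀ v : VV k n (MvPolynomial (Fin n) k),
      v - aug v • (1 : VV k n (MvPolynomial (Fin n) k)) ∈ o3_W k w := by
    have hadd : ∀ a b : VV k n (MvPolynomial (Fin n) k),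
        a - aug a • (1 : VV k n (MvPolynomial (Fin n) k)) ∈ o3_W k w →
        b - aug b • (1 : VV k n (MvPolynomial (Fin n) k)) ∈ o3_W k w →
        (a + b) - aug (a + b) • (1 : VV k n (MvPolynomial (Fin n) k)) ∈ o3_W k w := by
      intro a b ha hb
      rw [o3_aug_add, add_smul, add_sub_add_comm]
      exact Submodule.add_mem _ ha hb
    have hC : ∀ (c : k) (a : VV k n (MvPolynomial (Fin n) k)),
        a - aug a • (1 : VV k n (MvPolynomial (Fin n) k)) ∈ o3_W k w →
        c • a - aug (c • a) • (1 : VV k n (MvPolynomial (Fin n) k)) ∈ o3_W k w := by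
      intro c a ha
      rw [o3_aug_C, mul_smul, ← smul_sub]
      exact Submodule.smul_mem _ _ ha
    have h1 : (1 : VV k n (MvPolynomial (Fin n) k)) -
        aug (1 : VV k n (MvPolynomial (Fin n) k)) •
          (1 : VV k n (MvPolynomial (Fin n) k)) ∈ o3_W k w := by
      rw [o3_aug_one, one_smul, sub_self]
      exact Submodule.zero_mem _
    have hX : ∀ (l : Fin n) (a : VV k n (MvPolynomial (Fin n) k)),
        a - aug a • (1 : VV k n (MvPolynomial (Fin n) k)) ∈ o3_W k w →
        (MvPolynomial.X l : MvPolynomial (Fin n) k) • a -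
          aug ((MvPolynomial.X l : MvPolynomial (Fin n) k) • a) •
            (1 : VV k n (MvPolynomial (Fin n) k)) ∈ o3_W k w := by
      intro l a ha
      rw [o3_aug_smul, MvPolynomial.constantCoeff_X, zero_mul, zero_smul, sub_zero]
      have e : (MvPolynomial.X l : MvPolynomial (Fin n) k) • a =
          (MvPolynomial.X l : MvPolynomial (Fin n) k) •
            (a - aug a • (1 : VV k n (MvPolynomial (Fin n) k))) +
          aug a • ((MvPolynomial.X l : MvPolynomial (Fin n) k) •
            (1 : VV k n (MvPolynomial (Fin n) k))) := by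
        rw [smul_sub, smul_comm (aug a) (MvPolynomial.X l : MvPolynomial (Fin n) k),
          sub_add_cancel]
      rw [e]
      refine Submodule.add_mem _ (o3_WX w l _ ha) (Submodule.smul_mem _ _
        (Submodule.subset_span ⟨w l, hw l, ?_⟩))
      rw [o1_deg_smul w (w l) _ (MvPolynomial.isWeightedHomogeneous_X k w l), o1_deg_one,
        smul_zero, add_zero]
    have hD : ∀ (l : Fin n) (a : VV k n (MvPolynomial (Fin n) k)),
        a - aug a • (1 : VV k n (MvPolynomial (Fin n) k)) ∈ o3_W k w →
        dy k n (MvPolynomial (Fin n) k) l * a -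
          aug (dy k n (MvPolynomial (Fin n) k) l * a) •
            (1 : VV k n (MvPolynomial (Fin n) k)) ∈ o3_W k w := by
      intro l a ha
      rw [o3_aug_dy, zero_smul, sub_zero]
      have e : dy k n (MvPolynomial (Fin n) k) l * a =
          dy k n (MvPolynomial (Fin n) k) l *
            (a - aug a • (1 : VV k n (MvPolynomial (Fin n) k))) +
          aug a • (dy k n (MvPolynomial (Fin n) k) l *
            (1 : VV k n (MvPolynomial (Fin n) k))) := by
        rw [mul_sub, mul_smul_comm, sub_add_cancel]
      rw [e]
      refine Submodule.add_mem _ (o3_Wdy w l _ ha) (Submodule.smul_mem _ _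
        (Submodule.subset_span ⟨w l, hw l, ?_⟩))
      rw [← o3_gradX, o1_deg_grad w (w l) _ (MvPolynomial.isWeightedHomogeneous_X k w l),
        o1_deg_one, mul_zero, add_zero]
    have hx : ∀ x : Lam k n, (1 : MvPolynomial (Fin n) k) ⊗ₜ[k] x -
        aug ((1 : MvPolynomial (Fin n) k) ⊗ₜ[k] x) •
          (1 : VV k n (MvPolynomial (Fin n) k)) ∈ o3_W k w := by
      intro x
      induction x using CliffordAlgebra.left_induction with
      | algebraMap r =>
        have e : (1 : MvPolynomial (Fin n) k) ⊗ₜ[k] (algebraMap k (Lam k n) r) =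
            r • (1 : VV k n (MvPolynomial (Fin n) k)) := by
          rw [Algebra.algebraMap_eq_smul_one, TensorProduct.tmul_smul,
            Algebra.TensorProduct.one_def]
        have h2 := hC r _ h1
        rw [← e] at h2
        exact h2
      | add a b ha hb =>
        rw [TensorProduct.tmul_add]
        exact hadd _ _ ha hb
      | ι_mul x m hx =>
        have e : (1 : MvPolynomial (Fin n) k) ⊗ₜ[k]
            ((CliffordAlgebra.ι (0 : QuadraticForm k (Fin n → k)) m * x : Lam k n)) =
            ∑ l : Fin n, m l • (dy k n (MvPolynomial (Fin n) k) l *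
              ((1 : MvPolynomial (Fin n) k) ⊗ₜ[k] x)) := by
          have e1 : m = ∑ l : Fin n, m l • (Pi.single l (1 : k) : Fin n → k) := by
            rw [← pi_eq_sum_univ' m]
          have e2 : (CliffordAlgebra.ι (0 : QuadraticForm k (Fin n → k)) m : Lam k n) =
              ∑ l : Fin n, m l • (ExteriorAlgebra.ι k (Pi.single l (1 : k)) : Lam k n) := by
            conv_lhs => rw [e1]
            rw [map_sum]
            exact Finset.sum_congr rfl fun l _ => map_smul _ _ _
          rw [e2, Finset.sum_mul, TensorProduct.tmul_sum]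
          refine Finset.sum_congr rfl fun l _ => ?_
          unfold dy
          rw [Algebra.TensorProduct.tmul_mul_tmul, one_mul, smul_mul_assoc,
            TensorProduct.tmul_smul]
        rw [e]
        have hsum : ∀ s : Finset (Fin n), (∑ l ∈ s, m l • (dy k n (MvPolynomial (Fin n) k) l *
              ((1 : MvPolynomial (Fin n) k) ⊗ₜ[k] x))) -
            aug (∑ l ∈ s, m l • (dy k n (MvPolynomial (Fin n) k) l *
              ((1 : MvPolynomial (Fin n) k) ⊗ₜ[k] x))) •
            (1 : VV k n (MvPolynomial (Fin n) k)) ∈ o3_W k w := by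
          intro s
          classical
          induction s using Finset.induction_on with
          | empty =>
            rw [Finset.sum_empty]
            have h0 : aug (0 : VV k n (MvPolynomial (Fin n) k)) = 0 := by
              unfold aug
              rw [map_zero, map_zero]
            rw [h0, zero_smul, sub_zero]
            exact Submodule.zero_mem _
          | insert a s ha ih =>
            rw [Finset.sum_insert ha]
            exact hadd _ _ (hC _ _ (hD _ _ hx)) ih
        exact hsum Finset.univ
    intro v
    induction v using TensorProduct.induction_on with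
    | zero =>
      have h0 : aug (0 : VV k n (MvPolynomial (Fin n) k)) = 0 := by
        unfold aug
        rw [map_zero, map_zero]
      rw [h0, zero_smul, sub_zero]
      exact Submodule.zero_mem _
    | tmul p x =>
      induction p using MvPolynomial.induction_on with
      | C a =>
        have e : (MvPolynomial.C a : MvPolynomial (Fin n) k) ⊗ₜ[k] x =
            a • ((1 : MvPolynomial (Fin n) k) ⊗ₜ[k] x) := by
          rw [TensorProduct.smul_tmul', MvPolynomial.smul_eq_C_mul, mul_one]
        rw [e]
        exact hC _ _ (hx x)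
      | add p q hp hq =>
        rw [TensorProduct.add_tmul]
        exact hadd _ _ hp hq
      | mul_X p l hp =>
        have e : (p * MvPolynomial.X l : MvPolynomial (Fin n) k) ⊗ₜ[k] x =
            (MvPolynomial.X l : MvPolynomial (Fin n) k) • (p ⊗ₜ[k] x) := by
          rw [TensorProduct.smul_tmul', smul_eq_mul, mul_comm]
        rw [e]
        exact hX _ _ hp
    | add a b ha hb => exact hadd _ _ ha hb
  exact key v

end Pool.Agent.Lib.H44X
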