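import Pool.Agent.Lib.H44X.O3

/-!
O4 (M). Exactness of the contraction with the Euler field on `VV k n P / 𝓙`, `𝓙 = JJ F P`,
`F` a set of weighted homogeneous polynomials.

* o4_ind: induction principle: `𝓙` is the additive group generated by the `f • v` and
  `onef (grad f) * v` (`f ∈ F`), because this set is stable under multiplication by `P`
  (`grad (MvPolynomial ..) f l = pderiv l f`). So a `k`-linear (additive) map which maps these
  elements to `𝓙` preserves `𝓙`.
* o4_deg, o4_con, o4_dR: `degop w`, `con eul`, `dR` preserve `𝓙`. By o4_ind and: o1_deg_smul,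
  o1_deg_grad; `con eul (f • v) = f • con eul v` and `con eul (df * v) = (∑ w_l x_l ∂_l f) • v -
  df * con eul v = m f • v - df * con eul v` (v1_con_onef_mul, o2_euler); o1_dR_smul, o1_dR_grad.
* o4_sep: let `M` be a finite set of natural numbers and `u_m` (`m ∈ M`) with
  `degop u_m = m u_m`, `∑_{m ∈ M} u_m ∈ 𝓙`. Then every `u_m ∈ 𝓙`. Induction on `M`
  (Finset.induction, for all `u`): apply `degop - m₀` to the sum over `insert m₀ M`:
  `∑_{m ∈ M} (m - m₀) u_m ∈ 𝓙`, so `(m - m₀) u_m ∈ 𝓙` and `u_m ∈ 𝓙` for `m ∈ M` (`m ≠ m₀`,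
  characteristic 0, `𝓙` is a `k`-subspace), then `u_(m₀) ∈ 𝓙`.
* o4_exact: let `aug z = 0` and `con eul z ∈ 𝓙`. By o3_span (`aug z = 0`) `z` is a finite sum of
  eigenvectors with positive eigenvalues, group them: `z = ∑_{m ∈ M} z_m`, `m > 0`,
  `degop z_m = m z_m` (Submodule.span_induction for the statement: exists a finitely supported
  family `z : ℕ →₀ VV`, `z_0 = 0`, `degop (z m) = m (z m)`, with sum `z`).
  `con eul z_m` is again an eigenvector with eigenvalue `m` (o1_deg_con), and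
  `∑ con eul z_m = con eul z ∈ 𝓙`, so `con eul z_m ∈ 𝓙` by o4_sep. By o1_cartan
  `m z_m = con eul (dR z_m) + dR (con eul z_m)` and the last term is in `𝓙`; so
  `z_m - con eul (m⁻¹ • dR z_m) ∈ 𝓙`. Sum over `m`.
-/

set_option autoImplicit false
open TensorProduct

namespace Pool.Agent.Lib.H44X
universe u
variable {k : Type u} [Field k] {n : ℕ}

theorem o4_ind (F : Set (MvPolynomial (Fin n) k)) (p : VV k n (MvPolynomial (Fin n) k) → Prop)
    (h0 : p 0) (hadd : ∀ x y, p x → p y → p (x + y)) (h1 : ∀ f ∈ F, ∀ v, p (f • v))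
    (h2 : ∀ f ∈ F, ∀ v, p (onef (grad (MvPolynomial (Fin n) k) f) * v))
    (v : VV k n (MvPolynomial (Fin n) k)) (hv : v ∈ JJ F (MvPolynomial (Fin n) k)) : p v := by
  unfold JJ at hv
  induction hv using Submodule.closure_induction with
  | zero => exact h0
  | add x y _ _ hx hy => exact hadd x y hx hy
  | smul_mem r x hx =>
    rcases hx with ⟨f, hf, v, rfl⟩ | ⟨f, hf, v, rfl⟩
    · rw [smul_comm]
      exact h1 f hf (r • v)
    · rw [← mul_smul_comm]
      exact h2 f hf (r • v)

theorem o4_g1 (F : Set (MvPolynomial (Fin n) k)) (f : MvPolynomial (Fin n) k) (hf : f ∈ F)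
    (v : VV k n (MvPolynomial (Fin n) k)) : f • v ∈ JJ F (MvPolynomial (Fin n) k) :=
  Submodule.subset_span (Or.inl ⟨f, hf, v, rfl⟩)

theorem o4_g2 (F : Set (MvPolynomial (Fin n) k)) (f : MvPolynomial (Fin n) k) (hf : f ∈ F)
    (v : VV k n (MvPolynomial (Fin n) k)) :
    onef (grad (MvPolynomial (Fin n) k) f) * v ∈ JJ F (MvPolynomial (Fin n) k) :=
  Submodule.subset_span (Or.inr ⟨f, hf, v, rfl⟩)

theorem o4_k (F : Set (MvPolynomial (Fin n) k)) (c : k) (v : VV k n (MvPolynomial (Fin n) k))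
    (hv : v ∈ JJ F (MvPolynomial (Fin n) k)) : c • v ∈ JJ F (MvPolynomial (Fin n) k) :=
  Submodule.smul_of_tower_mem _ c hv

theorem o4_fam (w : Fin n → ℕ) (z : VV k n (MvPolynomial (Fin n) k))
    (hz : z ∈ Submodule.span k {z : VV k n (MvPolynomial (Fin n) k) |
        ∃ m : ℕ, 0 < m ∧ degop w z = (m : k) • z}) :
    ∃ u : ℕ →₀ VV k n (MvPolynomial (Fin n) k), u 0 = 0 ∧ (∀ m, degop w (u m) = (m : k) • u m) ∧
      z = u.sum fun _ x => x := by
  induction hz using Submodule.span_induction with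
  | mem x hx =>
    obtain ⟨m, hm, hx⟩ := hx
    refine ⟨Finsupp.single m x, ?_, ?_, ?_⟩
    · rw [Finsupp.single_apply, if_neg hm.ne']
    · intro j
      rw [Finsupp.single_apply]
      by_cases h : m = j
      · rw [if_pos h, ← h, hx]
      · rw [if_neg h, map_zero, smul_zero]
    · rw [Finsupp.sum_single_index rfl]
  | zero => exact ⟨0, rfl, fun m => by simp, by simp⟩
  | add x y _ _ hx hy =>
    obtain ⟨u, hu0, hu1, hu2⟩ := hx
    obtain ⟨u', hu0', hu1', hu2'⟩ := hy
    refine ⟨u + u', ?_, ?_, ?_⟩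
    · rw [Finsupp.add_apply, hu0, hu0', add_zero]
    · intro m
      rw [Finsupp.add_apply, map_add, hu1, hu1', smul_add]
    · rw [Finsupp.sum_add_index' (fun _ => rfl) (fun _ _ _ => rfl), ← hu2, ← hu2']
  | smul c x _ hx =>
    obtain ⟨u, hu0, hu1, hu2⟩ := hx
    refine ⟨c • u, ?_, ?_, ?_⟩
    · rw [Finsupp.smul_apply, hu0, smul_zero]
    · intro m
      rw [Finsupp.smul_apply, map_smul, hu1, smul_comm]
    · rw [Finsupp.sum_smul_index' (fun _ => rfl), hu2, Finsupp.smul_sum]

theorem o4_deg [CharZero k] (w : Fin n → ℕ) (F : Set (MvPolynomial (Fin n) k))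
    (hF : ∀ f ∈ F, ∃ m, MvPolynomial.IsWeightedHomogeneous w f m)
    (v : VV k n (MvPolynomial (Fin n) k)) (hv : v ∈ JJ F (MvPolynomial (Fin n) k)) :
    degop w v ∈ JJ F (MvPolynomial (Fin n) k) := by
  refine o4_ind F (fun v => degop w v ∈ JJ F (MvPolynomial (Fin n) k)) ?_ ?_ ?_ ?_ v hv
  · change degop w 0 ∈ _
    rw [map_zero]
    exact zero_mem _
  · intro x y hx hy
    change degop w (x + y) ∈ _
    rw [map_add]
    exact add_mem hx hy
  · intro f hf v
    obtain ⟨m, hm⟩ := hF f hf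
    change degop w (f • v) ∈ _
    rw [o1_deg_smul w m f hm]
    exact add_mem (o4_k F _ _ (o4_g1 F f hf _)) (o4_g1 F f hf _)
  · intro f hf v
    obtain ⟨m, hm⟩ := hF f hf
    change degop w (onef (grad (MvPolynomial (Fin n) k) f) * v) ∈ _
    rw [o1_deg_grad w m f hm]
    exact add_mem (o4_k F _ _ (o4_g2 F f hf _)) (o4_g2 F f hf _)

theorem o4_con [CharZero k] (w : Fin n → ℕ) (F : Set (MvPolynomial (Fin n) k))
    (hF : ∀ f ∈ F, ∃ m, MvPolynomial.IsWeightedHomogeneous w f m)
    (v : VV k n (MvPolynomial (Fin n) k)) (hv : v ∈ JJ F (MvPolynomial (Fin n) k)) :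
    con (eul k w (MvPolynomial (Fin n) k)) v ∈ JJ F (MvPolynomial (Fin n) k) := by
  refine o4_ind F (fun v => con (eul k w (MvPolynomial (Fin n) k)) v ∈ JJ F (MvPolynomial (Fin n) k)) ?_ ?_ ?_ ?_ v hv
  · change con (eul k w (MvPolynomial (Fin n) k)) 0 ∈ _
    rw [map_zero]
    exact zero_mem _
  · intro x y hx hy
    change con (eul k w (MvPolynomial (Fin n) k)) (x + y) ∈ _
    rw [map_add]
    exact add_mem hx hy
  · intro f hf v
    change con (eul k w (MvPolynomial (Fin n) k)) (f • v) ∈ _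
    rw [map_smul]
    exact o4_g1 F f hf _
  · intro f hf v
    obtain ⟨m, hm⟩ := hF f hf
    change con (eul k w (MvPolynomial (Fin n) k)) (onef (grad (MvPolynomial (Fin n) k) f) * v) ∈ _
    rw [v1_con_onef_mul, o2_pair w m f hm]
    exact sub_mem (o4_k F _ _ (o4_g1 F f hf _)) (o4_g2 F f hf _)

theorem o4_dR [CharZero k] (F : Set (MvPolynomial (Fin n) k))
    (v : VV k n (MvPolynomial (Fin n) k)) (hv : v ∈ JJ F (MvPolynomial (Fin n) k)) :
    dR v ∈ JJ F (MvPolynomial (Fin n) k) := by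
  refine o4_ind F (fun v => dR v ∈ JJ F (MvPolynomial (Fin n) k)) ?_ ?_ ?_ ?_ v hv
  · change dR 0 ∈ _
    rw [map_zero]
    exact zero_mem _
  · intro x y hx hy
    change dR (x + y) ∈ _
    rw [map_add]
    exact add_mem hx hy
  · intro f hf v
    change dR (f • v) ∈ _
    rw [o1_dR_smul]
    exact add_mem (o4_g2 F f hf _) (o4_g1 F f hf _)
  · intro f hf v
    change dR (onef (grad (MvPolynomial (Fin n) k) f) * v) ∈ _
    rw [o1_dR_grad]
    exact neg_mem (o4_g2 F f hf _)

theorem o4_sep [CharZero k] (w : Fin n → ℕ) (F : Set (MvPolynomial (Fin n) k))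
    (hF : ∀ f ∈ F, ∃ m, MvPolynomial.IsWeightedHomogeneous w f m) (M : Finset ℕ)
    (u : ℕ → VV k n (MvPolynomial (Fin n) k)) (hu : ∀ m ∈ M, degop w (u m) = (m : k) • u m)
    (hs : ∑ m ∈ M, u m ∈ JJ F (MvPolynomial (Fin n) k)) :
    ∀ m ∈ M, u m ∈ JJ F (MvPolynomial (Fin n) k) := by
  classical
  induction M using Finset.induction_on generalizing u with
  | empty => intro m hm; exact absurd hm (Finset.notMem_empty m)
  | insert a M ha ih =>
    have h1 : ∀ m ∈ M, ((m : k) - (a : k)) • u m ∈ JJ F (MvPolynomial (Fin n) k) := by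
      refine ih (fun m => ((m : k) - (a : k)) • u m) ?_ ?_
      · intro m hm
        change degop w (((m : k) - (a : k)) • u m) = _
        rw [map_smul, hu m (Finset.mem_insert_of_mem hm), smul_comm]
      · have h2 := sub_mem (o4_deg w F hF _ hs) (o4_k F (a : k) _ hs)
        have h3 : degop w (∑ m ∈ insert a M, u m) - (a : k) • ∑ m ∈ insert a M, u m =
            ∑ m ∈ M, ((m : k) - (a : k)) • u m := by
          rw [map_sum, Finset.smul_sum, ← Finset.sum_sub_distrib, Finset.sum_insert ha,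
            hu a (Finset.mem_insert_self a M), sub_self, zero_add]
          refine Finset.sum_congr rfl fun m hm => ?_
          rw [hu m (Finset.mem_insert_of_mem hm), sub_smul]
        rw [h3] at h2
        exact h2
    have h4 : ∀ m ∈ M, u m ∈ JJ F (MvPolynomial (Fin n) k) := by
      intro m hm
      have hne : (m : k) - (a : k) ≠ 0 := by
        rw [sub_ne_zero]
        intro h
        have : m = a := by exact_mod_cast h
        exact ha (this ▸ hm)
      have h5 := o4_k F ((m : k) - (a : k))⁻¹ _ (h1 m hm)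
      rw [smul_smul, inv_mul_cancel₀ hne, one_smul] at h5
      exact h5
    intro m hm
    rcases Finset.mem_insert.1 hm with h | h
    · have h6 : u a = ∑ m ∈ insert a M, u m - ∑ m ∈ M, u m := by
        rw [Finset.sum_insert ha]
        abel
      rw [h, h6]
      exact sub_mem hs (sum_mem h4)
    · exact h4 m h

theorem o4_exact [CharZero k] (w : Fin n → ℕ) (hw : ∀ i, 0 < w i)
    (F : Set (MvPolynomial (Fin n) k))
    (hF : ∀ f ∈ F, ∃ m, MvPolynomial.IsWeightedHomogeneous w f m)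
    (z : VV k n (MvPolynomial (Fin n) k)) (haug : aug z = 0)
    (hz : con (eul k w (MvPolynomial (Fin n) k)) z ∈ JJ F (MvPolynomial (Fin n) k)) :
    ∃ z', z - con (eul k w (MvPolynomial (Fin n) k)) z' ∈ JJ F (MvPolynomial (Fin n) k) := by
  have h0 := o3_span w hw z
  rw [haug, zero_smul, sub_zero] at h0
  obtain ⟨u, hu0, hu1, hu2⟩ := o4_fam w z h0
  have h1 : ∀ m ∈ u.support, con (eul k w (MvPolynomial (Fin n) k)) (u m) ∈ JJ F (MvPolynomial (Fin n) k) := by
    refine o4_sep w F hF u.support (fun m => con (eul k w (MvPolynomial (Fin n) k)) (u m)) ?_ ?_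
    · intro m _
      rw [o1_deg_con, hu1, LinearMap.map_smul_of_tower]
    · rw [← map_sum]
      have h2 : ∑ m ∈ u.support, u m = z := by rw [hu2]; rfl
      rw [h2]
      exact hz
  refine ⟨∑ m ∈ u.support, (m : k)⁻¹ • dR (u m), ?_⟩
  have h3 : z - con (eul k w (MvPolynomial (Fin n) k)) (∑ m ∈ u.support, (m : k)⁻¹ • dR (u m)) =
      ∑ m ∈ u.support, (m : k)⁻¹ • dR (con (eul k w (MvPolynomial (Fin n) k)) (u m)) := by
    have h2 : z = ∑ m ∈ u.support, u m := by rw [hu2]; rfl
    rw [h2, map_sum, ← Finset.sum_sub_distrib]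
    refine Finset.sum_congr rfl fun m hm => ?_
    have hm0 : (m : k) ≠ 0 := by
      intro h
      have : m = 0 := by exact_mod_cast h
      rw [Finsupp.mem_support_iff] at hm
      exact hm (this ▸ hu0)
    have h4 := o1_cartan w (u m)
    rw [hu1] at h4
    have h5 : u m = (m : k)⁻¹ • ((m : k) • u m) := by rw [smul_smul, inv_mul_cancel₀ hm0, one_smul]
    rw [LinearMap.map_smul_of_tower]
    nth_rewrite 1 [h5]
    rw [← h4, smul_add]
    abel
  rw [h3]
  exact sum_mem fun m hm => o4_k F _ _ (o4_dR F _ (h1 m hm))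

end Pool.Agent.Lib.H44X
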