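import Pool.Agent.Lib.H44X.O4

/-!
O5 (M). Exactness of the contraction with the Euler field over the local ring `S = k[x]_(x)`.

`P = MvPolynomial (Fin n) k`, `S = SS k n`. `toS : VV k n P → VV k n S` is the base change
(`Algebra.TensorProduct.map` of `P → S` and the identity).
* o5_smul, o5_con, o5_JJ, o5_inj: `toS (f • v) = f • toS v`, `toS` commutes with contraction by
  `eul`, maps `JJ F P` into `JJ F S`, and is injective (`Λ` is free over `k`:
  `Module.Flat.rTensor_preserves_injective_linearMap`, and `P → S` is injective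
  (IsLocalization.injective, `org` is prime, `P` a domain)).
* o5_den: for every `z ∈ VV k n S` there are `u ∈ P`, `constantCoeff u ≠ 0`, and `z_P` with
  `u • z = toS z_P` (pure tensors `(p/u) ⊗ x`; sums: common denominators).
* o5_denJ: for every `v ∈ JJ F S` there are `u`, `constantCoeff u ≠ 0`, and `v_P ∈ JJ F P` with
  `u • v = toS v_P` (Submodule.span_induction; use o5_den for the form in a generator).
* o5_coef: `coef l (toS v) = algebraMap (coef l v)`.
* o5_exact: let `coef l z ∈ 𝔪` for all `l` and `con eul z ∈ JJ F S`. Choose `u`, `z_P` for `z` and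
  `u'`, `v_P` for `con eul z`. Then `toS (u' • con eul z_P) = u' u • con eul z = toS (u • v_P)`, so
  `con eul (u' • z_P) = u • v_P ∈ JJ F P`. `aug (u' • z_P) = 0` because
  `algebraMap (coef l₀ z_P) = u • coef l₀ z ∈ 𝔪`, so `coef l₀ z_P ∈ org` (contraction of `𝔪` is
  `org`, IsLocalization.AtPrime.comap_maximalIdeal; `o3_aug_smul`). By o4_exact
  `u' z_P - con eul z'' ∈ JJ F P`; apply `toS`: `u' u z - con eul (toS z'') ∈ JJ F S`; `u' u` is a
  unit of `S`: `z' = (u' u)⁻¹ • toS z''`.
-/

set_option autoImplicit false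
open TensorProduct IsLocalRing

namespace Pool.Agent.Lib.H44X
universe u
variable {k : Type u} [Field k] {n : ℕ}

/-- base change of forms from `k[x]` to `k[x]_(x)`. -/
noncomputable def toS : VV k n (MvPolynomial (Fin n) k) →ₐ[k] VV k n (SS k n) :=
  Algebra.TensorProduct.map (IsScalarTower.toAlgHom k (MvPolynomial (Fin n) k) (SS k n))
    (AlgHom.id k (Lam k n))

theorem o5_tmul (p : MvPolynomial (Fin n) k) (x : Lam k n) :
    toS (p ⊗ₜ[k] x) = (algebraMap (MvPolynomial (Fin n) k) (SS k n) p) ⊗ₜ[k] x := rfl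

theorem o5_smul (f : MvPolynomial (Fin n) k) (v : VV k n (MvPolynomial (Fin n) k)) :
    toS (f • v) = algebraMap (MvPolynomial (Fin n) k) (SS k n) f • toS v := by
  induction v using TensorProduct.induction_on with
  | zero => rw [smul_zero, map_zero, smul_zero]
  | tmul p x =>
    rw [TensorProduct.smul_tmul', o5_tmul, o5_tmul, TensorProduct.smul_tmul', smul_eq_mul,
      smul_eq_mul, map_mul]
  | add a b ha hb => rw [smul_add, map_add, ha, hb, map_add, smul_add]

theorem o5_base (φ : Lam k n →ₗ[k] Lam k n) (v : VV k n (MvPolynomial (Fin n) k)) :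
    toS (LinearMap.baseChange (MvPolynomial (Fin n) k) φ v) =
      LinearMap.baseChange (SS k n) φ (toS v) := by
  induction v using TensorProduct.induction_on with
  | zero => simp only [map_zero]
  | tmul p x => rw [LinearMap.baseChange_tmul, o5_tmul, o5_tmul, LinearMap.baseChange_tmul]
  | add a b ha hb => simp only [map_add, ha, hb]

theorem o5_eul (w : Fin n → ℕ) (j : Fin n) :
    algebraMap (MvPolynomial (Fin n) k) (SS k n) (eul k w (MvPolynomial (Fin n) k) j) =
      eul k w (SS k n) j := by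
  unfold eul
  rw [map_mul, map_natCast]
  rfl

theorem o5_dy (j : Fin n) : toS (dy k n (MvPolynomial (Fin n) k) j) = dy k n (SS k n) j := by
  unfold dy
  rw [o5_tmul, map_one]

theorem o5_onef (a : Fin n → MvPolynomial (Fin n) k) :
    toS (onef a) = (onef fun j => algebraMap (MvPolynomial (Fin n) k) (SS k n) (a j) :
      VV k n (SS k n)) := by
  unfold onef
  rw [map_sum]
  exact Finset.sum_congr rfl fun j _ => by rw [o5_smul, o5_dy]

theorem o5_grad (f : MvPolynomial (Fin n) k) :
    toS (onef (grad (MvPolynomial (Fin n) k) f)) = (onef (grad (SS k n) f) : VV k n (SS k n)) := by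
  rw [o5_onef]
  rfl

theorem o5_con (w : Fin n → ℕ) (v : VV k n (MvPolynomial (Fin n) k)) :
    toS (con (eul k w (MvPolynomial (Fin n) k)) v) = con (eul k w (SS k n)) (toS v) := by
  unfold con
  rw [LinearMap.sum_apply, LinearMap.sum_apply, map_sum]
  refine Finset.sum_congr rfl fun j _ => ?_
  rw [LinearMap.smul_apply, LinearMap.smul_apply, o5_smul, o5_eul, o5_base]

theorem o5_JJ (F : Set (MvPolynomial (Fin n) k)) (v : VV k n (MvPolynomial (Fin n) k))
    (hv : v ∈ JJ F (MvPolynomial (Fin n) k)) : toS v ∈ JJ F (SS k n) := by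
  unfold JJ at hv
  induction hv using Submodule.span_induction with
  | mem x hx =>
    rcases hx with ⟨f, hf, v, rfl⟩ | ⟨f, hf, v, rfl⟩
    · refine Submodule.subset_span (Or.inl ⟨f, hf, toS v, ?_⟩)
      rw [o5_smul]
      rfl
    · refine Submodule.subset_span (Or.inr ⟨f, hf, toS v, ?_⟩)
      rw [map_mul, o5_grad]
  | zero => rw [map_zero]; exact Submodule.zero_mem _
  | add x y _ _ hx hy => rw [map_add]; exact Submodule.add_mem _ hx hy
  | smul a x _ hx => rw [o5_smul]; exact Submodule.smul_mem _ _ hx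

theorem o5_algInj : Function.Injective (algebraMap (MvPolynomial (Fin n) k) (SS k n)) :=
  IsLocalization.injective (SS k n) (M := (org k n).primeCompl)
    (Ideal.primeCompl_le_nonZeroDivisors _)

theorem o5_inj : Function.Injective (toS (k := k) (n := n)) := by
  have h := Module.Flat.rTensor_preserves_injective_linearMap (M := Lam k n)
    (IsScalarTower.toAlgHom k (MvPolynomial (Fin n) k) (SS k n)).toLinearMap o5_algInj
  exact h

theorem o5_den (z : VV k n (SS k n)) : ∃ (u : MvPolynomial (Fin n) k)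
    (zP : VV k n (MvPolynomial (Fin n) k)), MvPolynomial.constantCoeff u ≠ 0 ∧
    algebraMap (MvPolynomial (Fin n) k) (SS k n) u • z = toS zP := by
  induction z using TensorProduct.induction_on with
  | zero => exact ⟨1, 0, by rw [map_one]; exact one_ne_zero, by rw [smul_zero, map_zero]⟩
  | tmul s x =>
    obtain ⟨⟨p, u⟩, hu⟩ := IsLocalization.surj (org k n).primeCompl s
    refine ⟨u, p ⊗ₜ[k] x, fun h => u.2 h, ?_⟩
    rw [TensorProduct.smul_tmul', o5_tmul, smul_eq_mul, mul_comm, hu]
  | add a b ha hb =>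
    obtain ⟨u, p, hu, hp⟩ := ha
    obtain ⟨v, q, hv, hq⟩ := hb
    refine ⟨u * v, v • p + u • q, by rw [map_mul]; exact mul_ne_zero hu hv, ?_⟩
    rw [map_add, o5_smul, o5_smul, ← hp, ← hq, smul_add, map_mul, smul_smul, smul_smul,
      mul_comm (algebraMap _ _ v)]

theorem o5_denJ (F : Set (MvPolynomial (Fin n) k)) (v : VV k n (SS k n))
    (hv : v ∈ JJ F (SS k n)) : ∃ (u : MvPolynomial (Fin n) k)
    (vP : VV k n (MvPolynomial (Fin n) k)), MvPolynomial.constantCoeff u ≠ 0 ∧
    vP ∈ JJ F (MvPolynomial (Fin n) k) ∧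
    algebraMap (MvPolynomial (Fin n) k) (SS k n) u • v = toS vP := by
  unfold JJ at hv
  induction hv using Submodule.span_induction with
  | mem x hx =>
    rcases hx with ⟨f, hf, v, rfl⟩ | ⟨f, hf, v, rfl⟩
    · obtain ⟨u, p, hu, hp⟩ := o5_den v
      refine ⟨u, f • p, hu, Submodule.subset_span (Or.inl ⟨f, hf, p, rfl⟩), ?_⟩
      rw [o5_smul, ← hp, smul_smul, smul_smul, mul_comm]
    · obtain ⟨u, p, hu, hp⟩ := o5_den v
      refine ⟨u, onef (grad (MvPolynomial (Fin n) k) f) * p, hu,
        Submodule.subset_span (Or.inr ⟨f, hf, p, rfl⟩), ?_⟩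
      rw [map_mul, o5_grad, ← hp, mul_smul_comm]
  | zero => exact ⟨1, 0, by rw [map_one]; exact one_ne_zero, Submodule.zero_mem _,
      by rw [smul_zero, map_zero]⟩
  | add x y _ _ hx hy =>
    obtain ⟨u, p, hu, hpJ, hp⟩ := hx
    obtain ⟨v, q, hv, hqJ, hq⟩ := hy
    refine ⟨u * v, v • p + u • q, by rw [map_mul]; exact mul_ne_zero hu hv,
      Submodule.add_mem _ (Submodule.smul_mem _ _ hpJ) (Submodule.smul_mem _ _ hqJ), ?_⟩
    rw [map_add, o5_smul, o5_smul, ← hp, ← hq, smul_add, map_mul, smul_smul, smul_smul,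
      mul_comm (algebraMap _ _ v)]
  | smul a x _ hx =>
    obtain ⟨u, p, hu, hpJ, hp⟩ := hx
    obtain ⟨⟨q, v⟩, hv⟩ := IsLocalization.surj (org k n).primeCompl a
    have hv' : a * algebraMap (MvPolynomial (Fin n) k) (SS k n) v =
      algebraMap (MvPolynomial (Fin n) k) (SS k n) q := hv
    refine ⟨u * v, q • p, by rw [map_mul]; exact mul_ne_zero hu (fun h => v.2 h),
      Submodule.smul_mem _ _ hpJ, ?_⟩
    rw [o5_smul, ← hp, ← hv', map_mul, smul_smul, smul_smul]
    exact congrArg (fun t : SS k n => t • x) (by ring)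

theorem o5_coef (l : Module.Dual k (Lam k n)) (v : VV k n (MvPolynomial (Fin n) k)) :
    coef l (toS v) = algebraMap (MvPolynomial (Fin n) k) (SS k n) (coef l v) := by
  induction v using TensorProduct.induction_on with
  | zero => simp only [map_zero]
  | tmul p x =>
    rw [o5_tmul]
    unfold coef
    rw [Module.Dual.baseChange_apply_tmul, Module.Dual.baseChange_apply_tmul]
    exact (map_smul (IsScalarTower.toAlgHom k (MvPolynomial (Fin n) k) (SS k n)) (l x) p).symm
  | add a b ha hb => simp only [map_add, ha, hb]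

theorem o5_exact [CharZero k] (w : Fin n → ℕ) (hw : ∀ i, 0 < w i)
    (F : Set (MvPolynomial (Fin n) k))
    (hF : ∀ f ∈ F, ∃ m, MvPolynomial.IsWeightedHomogeneous w f m)
    (z : VV k n (SS k n)) (hm : ∀ l, coef l z ∈ maximalIdeal (SS k n))
    (hz : con (eul k w (SS k n)) z ∈ JJ F (SS k n)) :
    ∃ z', z - con (eul k w (SS k n)) z' ∈ JJ F (SS k n) := by
  obtain ⟨u, zP, hu, hzP⟩ := o5_den z
  obtain ⟨v, vP, hv, hvJ, hvP⟩ := o5_denJ F _ hz
  have h1 : con (eul k w (MvPolynomial (Fin n) k)) (v • zP) = u • vP := by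
    apply o5_inj
    rw [o5_con, o5_smul, o5_smul, ← hzP, ← hvP, map_smul, map_smul, smul_smul, smul_smul,
      mul_comm]
  have h2 : con (eul k w (MvPolynomial (Fin n) k)) (v • zP) ∈ JJ F (MvPolynomial (Fin n) k) := by
    rw [h1]
    exact Submodule.smul_mem _ _ hvJ
  have h3 : aug (v • zP) = 0 := by
    rw [o3_aug_smul]
    have h4 : coef (ExteriorAlgebra.algebraMapInv (R := k) (M := Fin n → k)).toLinearMap
        (toS zP) ∈ maximalIdeal (SS k n) := by
      rw [← hzP, map_smul]
      exact Ideal.mul_mem_left _ _ (hm _)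
    rw [o5_coef] at h4
    have h5 : coef (ExteriorAlgebra.algebraMapInv (R := k) (M := Fin n → k)).toLinearMap zP ∈
        org k n := by
      rw [← IsLocalization.AtPrime.under_maximalIdeal (SS k n) (org k n)]
      exact h4
    have h6 : aug zP = 0 := h5
    rw [h6, mul_zero]
  obtain ⟨z2, hz2⟩ := o4_exact w hw F hF (v • zP) h3 h2
  have h7 := o5_JJ F _ hz2
  rw [map_sub, o5_smul, o5_con, ← hzP, smul_smul] at h7
  have h8 : IsUnit (algebraMap (MvPolynomial (Fin n) k) (SS k n) v *
      algebraMap (MvPolynomial (Fin n) k) (SS k n) u) := by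
    have h9 : ∀ t : MvPolynomial (Fin n) k, MvPolynomial.constantCoeff t ≠ 0 →
        IsUnit (algebraMap (MvPolynomial (Fin n) k) (SS k n) t) := fun t ht =>
      IsLocalization.map_units (SS k n) (⟨t, fun h => ht h⟩ : (org k n).primeCompl)
    exact (h9 v hv).mul (h9 u hu)
  obtain ⟨e, he⟩ := h8
  rw [← he] at h7
  refine ⟨(↑e⁻¹ : SS k n) • toS z2, ?_⟩
  have h9 := Submodule.smul_mem _ (↑e⁻¹ : SS k n) h7
  rw [smul_sub, smul_smul, Units.inv_mul, one_smul] at h9
  rw [map_smul]
  exact h9

end Pool.Agent.Lib.H44X
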