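import Pool.Agent.Lib.H44X.Defs

/-!
P1 (M). The partial derivatives as elements of `Hom_S(I, S/I)`, `I = (F) S`, `S = k[x]_(x)`.

Let `P = MvPolynomial (Fin n) k`, `I₀ = span F ≤ P`, `I = I₀ S`. The map
`g : I₀ → S/I`, `g(p) = [∂_l p]`, is `P`-linear: `∂_l(p q) = p ∂_l q + q ∂_l p` and `q ∈ I₀` maps to 0.
`I₀ → I` (`algebraMap` on elements) is a localisation of the `P`-module `I₀` at
`(org k n).primeCompl` (`Submodule.toLocalized'`, `Ideal.localized'_eq_map`; compare
H44V/L1.lean `L1_qt` and H44V/L2.lean; or check `IsLocalizedModule` directly), and the elements of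
`(org k n).primeCompl` act bijectively on `S/I` (they are units of `S`). So
`IsLocalizedModule.lift` gives a `P`-linear map `I → S/I` extending `g`, which is `S`-linear
(`LinearMap.extendScalarsOfIsLocalization` or directly).
Alternative without localisation of modules: define the derivation `∂ : S → S`,
`∂(a/u) = (u ∂_l a - a ∂_l u)/u²` and restrict to `I`.
-/

set_option autoImplicit false

namespace Pool.Agent.Lib.H44X
universe u

theorem p1_der {k : Type u} [Field k] {n : ℕ} (l : Fin n) :
    ∃ D : Derivation k (SS k n) (SS k n), ∀ p : MvPolynomial (Fin n) k,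
      D (algebraMap (MvPolynomial (Fin n) k) (SS k n) p) =
        algebraMap (MvPolynomial (Fin n) k) (SS k n) (MvPolynomial.pderiv l p) := by
  have h1 : Algebra.FormallyEtale (MvPolynomial (Fin n) k) (SS k n) :=
    Algebra.FormallyEtale.of_isLocalization (org k n).primeCompl
  refine ⟨((((Algebra.linearMap (MvPolynomial (Fin n) k) (SS k n)).compDer
    (MvPolynomial.pderiv l)).liftKaehlerDifferential.liftBaseChange (SS k n)) ∘ₗ
      (KaehlerDifferential.tensorKaehlerEquivOfFormallyEtale k (MvPolynomial (Fin n) k)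
        (SS k n)).symm.toLinearMap).compDer (KaehlerDifferential.D k (SS k n)), fun p => ?_⟩
  change (((Algebra.linearMap (MvPolynomial (Fin n) k) (SS k n)).compDer
    (MvPolynomial.pderiv l)).liftKaehlerDifferential.liftBaseChange (SS k n))
      ((KaehlerDifferential.tensorKaehlerEquivOfFormallyEtale k (MvPolynomial (Fin n) k) (SS k n)).symm
        (KaehlerDifferential.D k (SS k n) (algebraMap (MvPolynomial (Fin n) k) (SS k n) p))) = _
  rw [KaehlerDifferential.tensorKaehlerEquivOfFormallyEtale_symm_D_algebraMap, LinearMap.liftBaseChange_tmul,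
    one_smul, Derivation.liftKaehlerDifferential_comp_D]
  rfl

theorem p1_del {k : Type u} [Field k] {n : ℕ} (F : Set (MvPolynomial (Fin n) k)) (l : Fin n) :
    ∃ del : (Ideal.span F).map (algebraMap (MvPolynomial (Fin n) k) (SS k n)) →ₗ[SS k n]
      (SS k n ⧸ (Ideal.span F).map (algebraMap (MvPolynomial (Fin n) k) (SS k n))),
      ∀ f ∈ F, ∀ hf : algebraMap (MvPolynomial (Fin n) k) (SS k n) f ∈
        (Ideal.span F).map (algebraMap (MvPolynomial (Fin n) k) (SS k n)),
        del ⟨algebraMap (MvPolynomial (Fin n) k) (SS k n) f, hf⟩ =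
          Ideal.Quotient.mk _ (algebraMap (MvPolynomial (Fin n) k) (SS k n)
            (MvPolynomial.pderiv l f)) := by
  obtain ⟨D, hD⟩ := p1_der (k := k) (n := n) l
  refine ⟨{ toFun := fun y => Ideal.Quotient.mk _ (D (y : SS k n)), map_add' := ?_, map_smul' := ?_ }, ?_⟩
  · intro x y
    rw [AddMemClass.coe_add, map_add, map_add]
  · intro c y
    rw [RingHom.id_apply, SetLike.val_smul, smul_eq_mul, D.leibniz, smul_eq_mul, smul_eq_mul, map_add]
    have h1 : Ideal.Quotient.mk ((Ideal.span F).map (algebraMap (MvPolynomial (Fin n) k) (SS k n)))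
        ((y : SS k n) * D c) = 0 := Ideal.Quotient.eq_zero_iff_mem.2 (Ideal.mul_mem_right _ _ y.2)
    rw [h1, add_zero]
    rfl
  · intro f _ hf
    change Ideal.Quotient.mk _ (D (algebraMap (MvPolynomial (Fin n) k) (SS k n) f)) = _
    rw [hD]

end Pool.Agent.Lib.H44X
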