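import Pool.Agent.Lib.H44X.V1
import Pool.Agent.Lib.H44X.ODef

/-!
The map of forms `Psi φ t : VV k n S → VV k d C`, `s ⊗ dx_l ↦ φ(s) ∑_j t_lj dy_j`.
-/

set_option autoImplicit false
open TensorProduct

namespace Pool.Agent.Lib.H44X
universe u
variable {k : Type u} [Field k] {n d : ℕ} {C : Type u} [CommRing C] [Algebra k C]

/-- `v ↦ ∑_l v_l (∑_j t_lj dy_j)`. -/
noncomputable def lamLin (t : Fin n → Fin d → C) : (Fin n → k) →ₗ[k] VV k d C :=
  ∑ l, (LinearMap.proj (R := k) (φ := fun _ : Fin n => k) l).smulRight (onef (t l) : VV k d C)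

theorem lamLin_apply (t : Fin n → Fin d → C) (v : Fin n → k) :
    lamLin t v = ∑ l, v l • (onef (t l) : VV k d C) := by
  simp [lamLin, LinearMap.sum_apply]

theorem lamLin_onef (t : Fin n → Fin d → C) (v : Fin n → k) :
    lamLin t v = (onef (fun j => ∑ l, algebraMap k C (v l) * t l j) : VV k d C) := by
  rw [lamLin_apply]
  simp only [onef, Finset.sum_smul, Finset.smul_sum, mul_smul, algebraMap_smul]
  exact Finset.sum_comm

theorem lamLin_sq (t : Fin n → Fin d → C) (v : Fin n → k) :
    lamLin t v * lamLin t v = 0 := by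
  rw [lamLin_onef]
  exact v1_onef_sq _

/-- the algebra map `Λ(k^n) → VV k d C`. -/
noncomputable def lamMap (t : Fin n → Fin d → C) : Lam k n →ₐ[k] VV k d C :=
  ExteriorAlgebra.lift k ⟨lamLin t, lamLin_sq t⟩

theorem lamMap_ι (t : Fin n → Fin d → C) (v : Fin n → k) :
    lamMap t (ExteriorAlgebra.ι k v) = lamLin t v := by
  simp [lamMap]

variable {S : Type u} [CommRing S] [Algebra k S]

/-- the map of forms attached to `φ : S → C` and `dx_l ↦ ∑_j t_lj dy_j`. -/
noncomputable def Psi (φ : S →ₐ[k] C) (t : Fin n → Fin d → C) : VV k n S →ₐ[k] VV k d C :=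
  Algebra.TensorProduct.lift
    ((Algebra.TensorProduct.includeLeft : C →ₐ[k] VV k d C).comp φ) (lamMap t) (by
      intro s x
      exact Algebra.commutes (φ s) (lamMap t x))

end Pool.Agent.Lib.H44X
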