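import Pool.Agent.Lib.H44X.RDefs

/-!
R1 (M). Existence of minimal free resolutions in matrix form, of any length.

For every finite module `X` over the Noetherian local ring `R`,
`Helper92.exists_minimal_presentation` gives `b` and a surjection `f : (Fin b → R) → X` whose kernel
has all coordinates in `𝔪`; the kernel is again finite (Noetherian). Iterate: build by recursion on
`j` a sequence of states `(X_j, finite)`, e.g. in the type
`Σ' (X : ModuleCat R), Module.Finite R X` (or choose submodules: `X_(j+1) ≤ (Fin b_j → R)`),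
`X_0 = N`, `X_(j+1) = ker (f_j : (Fin b_j → R) → X_j)`. `dm_j` is the matrix of
`(Fin b_(j+1) → R) → X_(j+1) ⊆ (Fin b_j → R)` (LinearMap.toMatrix'); `ex0`: `ker π = X_1 =
range dm_0`; `ex`: `ker dm_j = ker f_(j+1) = X_(j+2) = range dm_(j+1)`; `min`: the columns of `dm_j`
lie in `X_(j+1) = ker f_j ⊆ 𝔪 (Fin b_j → R)`.
Hint: to avoid dependent types prove first the lemma: for every `b` and every submodule
`X ≤ (Fin b → R)` there are `b'` and a matrix `D : Matrix (Fin b) (Fin b') R` with range `X` and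
kernel in `𝔪`; then define by `Nat.rec` on `Σ b b', Matrix (Fin b) (Fin b') R` with property
(kernel has coordinates in `𝔪`), the next state being `(b', b'', D')` with `range D' = ker D`.
-/

set_option autoImplicit false
open CategoryTheory CategoryTheory.Abelian IsLocalRing
open Pool.Agent.Lib.Helper92 Pool.Agent.Lib.H44V

namespace Pool.Agent.Lib.H44X
universe u

section
variable {R : Type u} [CommRing R] [IsLocalRing R]

theorem r1_step [IsNoetherianRing R] {b : ℕ} (X : Submodule R (Fin b → R)) :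
    ∃ (b' : ℕ) (D : Matrix (Fin b) (Fin b') R), (∀ v, v ∈ X ↔ ∃ w, v = D.mulVec w) ∧
      ∀ w, D.mulVec w = 0 → ∀ i, w i ∈ maximalIdeal R := by
  obtain ⟨b', f, hf, hmin⟩ := exists_minimal_presentation (R := R) X
  refine ⟨b', LinearMap.toMatrix' (X.subtype ∘ₗ f), fun v => ⟨fun hv => ?_, ?_⟩, fun w hw => ?_⟩
  · obtain ⟨w, hw⟩ := hf ⟨v, hv⟩
    refine ⟨w, ?_⟩
    rw [LinearMap.toMatrix'_mulVec, LinearMap.comp_apply, hw]
    rfl
  · rintro ⟨w, rfl⟩
    rw [LinearMap.toMatrix'_mulVec, LinearMap.comp_apply]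
    exact (f w).2
  · rw [LinearMap.toMatrix'_mulVec, LinearMap.comp_apply] at hw
    exact hmin w (Subtype.ext hw)

/-- a state of the construction. -/
structure R1St (R : Type u) [CommRing R] [IsLocalRing R] where
  b : ℕ
  b' : ℕ
  D : Matrix (Fin b) (Fin b') R
  h : ∀ w, D.mulVec w = 0 → ∀ i, w i ∈ maximalIdeal R

theorem r1_next [IsNoetherianRing R] (s : R1St R) : ∃ (b'' : ℕ) (D' : Matrix (Fin s.b') (Fin b'') R),
    (∀ v, s.D.mulVec v = 0 ↔ ∃ w, v = D'.mulVec w) ∧ ∀ w, D'.mulVec w = 0 → ∀ i, w i ∈ maximalIdeal R := by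
  obtain ⟨b'', D', h1, h2⟩ := r1_step (LinearMap.ker (Matrix.toLin' s.D))
  refine ⟨b'', D', fun v => ?_, h2⟩
  rw [← h1 v, LinearMap.mem_ker, Matrix.toLin'_apply]

/-- the next state. -/
noncomputable def r1nx [IsNoetherianRing R] (s : R1St R) : R1St R :=
  ⟨s.b', (r1_next s).choose, (r1_next s).choose_spec.choose, (r1_next s).choose_spec.choose_spec.2⟩

theorem r1nx_spec [IsNoetherianRing R] (s : R1St R) (v : Fin s.b' → R) :
    s.D.mulVec v = 0 ↔ ∃ w, v = (r1nx s).D.mulVec w := (r1_next s).choose_spec.choose_spec.1 v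

/-- the sequence of the states. -/
noncomputable def r1seq [IsNoetherianRing R] (s : R1St R) (j : ℕ) : R1St R :=
  Nat.rec s (fun _ t => r1nx t) j

end

theorem r1_exists {R : Type u} [CommRing R] [IsNoetherianRing R] [IsLocalRing R] (N : Type u)
    [AddCommGroup N] [Module R N] [Module.Finite R N] : Nonempty (MRes R N) := by
  obtain ⟨b0, f, hf, hmin⟩ := exists_minimal_presentation (R := R) N
  obtain ⟨b1, D0, hD, hD0⟩ := r1_step (LinearMap.ker f)
  have hex0 : ∀ v : Fin b0 → R, f v = 0 ↔ ∃ w, v = D0.mulVec w :=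
    fun v => LinearMap.mem_ker.symm.trans (hD v)
  refine ⟨{ b := fun j => (r1seq ⟨b0, b1, D0, hD0⟩ j).b
            dm := fun j => (r1seq ⟨b0, b1, D0, hD0⟩ j).D
            pi := f
            surj := hf
            ex0 := hex0
            ex := fun j v => r1nx_spec (r1seq ⟨b0, b1, D0, hD0⟩ j) v
            min := ?_ }⟩
  intro j a c
  cases j with
  | zero =>
    have h1 : D0.mulVec (Pi.single c 1) ∈ LinearMap.ker f := (hD _).2 ⟨_, rfl⟩
    have h2 := hmin _ h1 a
    rw [Matrix.mulVec_single_one] at h2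
    exact h2
  | succ j =>
    have h1 := (r1nx_spec (r1seq ⟨b0, b1, D0, hD0⟩ j)
      ((r1nx (r1seq ⟨b0, b1, D0, hD0⟩ j)).D.mulVec (Pi.single c 1))).2 ⟨_, rfl⟩
    have h2 := (r1seq ⟨b0, b1, D0, hD0⟩ j).h _ h1 a
    rw [Matrix.mulVec_single_one] at h2
    exact h2

end Pool.Agent.Lib.H44X
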