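import Pool.Agent.Lib.H44X.RDefs

/-!
R4 (S/M). A dual basis outside `q` gives an element of the splitting ideal outside `q`.

`N = NN I = Hom_(S/I)(I/I², S/I)`; `Helper92.toHom f : I → S/I` is the restriction of `f ∈ N` and
`Helper92.toHom_surj` says that every `S`-linear `I → S/I` is of this form.
Let `(f_j, φ_j, u)` be as in `DB` and choose `Φ_j ∈ N` with `toHom Φ_j = φ_j` and
`v_j : Fin b → S/I` with `π v_j = Φ_j`. Put `σ ψ = ∑_j toHom ψ (f_j) • v_j`; this is `S/I`-linear in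
`ψ` (`toHom ψ (f_j) = ψ (I.toCotangent (f_j))`), and `π(σ ψ) = ∑_j ψ(f_j) Φ_j = u ψ`: both sides
are elements of `N`, compare them at `I.toCotangent y` (surjective), `DB` says
`u ψ(y) = ∑_j ψ(f_j) φ_j(y)`.
-/

set_option autoImplicit false
open IsLocalRing
open Pool.Agent.Lib.Helper92 Pool.Agent.Lib.H44V

namespace Pool.Agent.Lib.H44X
universe u

theorem r4_mem {S : Type u} [CommRing S] (I q : Ideal S) (h : DB I q) {b : ℕ}
    (π : (Fin b → S ⧸ I) →ₗ[S ⧸ I] NN I) (hπ : Function.Surjective π) :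
    ∃ u : S, u ∉ q ∧ Ideal.Quotient.mk I u ∈ splitIdeal π := by
  obtain ⟨r, f, φ, u, hu, hφ⟩ := h
  choose Φ hΦ using fun j => toHom_surj (φ j)
  choose v hv using fun j => hπ (Φ j)
  refine ⟨u, hu, ?_⟩
  let σ : NN I →ₗ[S ⧸ I] (Fin b → S ⧸ I) :=
    { toFun := fun ψ => ∑ j, ψ (I.toCotangent (f j)) • v j
      map_add' := fun ψ ψ' => by
        simp only [LinearMap.add_apply, add_smul, Finset.sum_add_distrib]
      map_smul' := fun c ψ => by
        simp only [LinearMap.smul_apply, smul_eq_mul, mul_smul, Finset.smul_sum, RingHom.id_apply] }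
  refine ⟨σ, fun ψ => ?_⟩
  have h1 : π (σ ψ) = ∑ j, ψ (I.toCotangent (f j)) • Φ j := by
    show π (∑ j, ψ (I.toCotangent (f j)) • v j) = _
    rw [map_sum]
    exact Finset.sum_congr rfl fun j _ => by rw [map_smul, hv]
  rw [h1]
  refine LinearMap.ext fun z => ?_
  obtain ⟨y, rfl⟩ := I.toCotangent_surjective z
  rw [LinearMap.sum_apply, LinearMap.smul_apply, smul_eq_mul]
  have h2 := hφ (toHom ψ) y
  rw [toHom_apply] at h2
  rw [h2]
  refine Finset.sum_congr rfl fun j _ => ?_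
  rw [LinearMap.smul_apply, smul_eq_mul, ← hΦ j]
  rfl

end Pool.Agent.Lib.H44X
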