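import Pool.Agent.Lib.H44X.RDefs
import Pool.Agent.Lib.H44V.P5
import Pool.Agent.Lib.H44V.R1

/-!
R5 (M/L). If `I` is generated by a regular sequence at the prime `q ⊇ I` then the normal module has
a dual basis outside `q` (`DB I q`).

Let `A = Localization.AtPrime q`, `J = I A` (`I.map (algebraMap S A)`), `Jx x r = J`, `x` regular.
`H44V.P5_dual` gives `λ_k : J → A/J` with `λ_k(x_j) = δ_kj`, and every element of `J` is
`∑ a_j x_j` (`H44V.P5_mem`), so `λ_k(∑ a_j x_j) = a_k` mod `J` and, for every `A`-linear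
`ψ' : J → A/J`: `ψ'(y) = ∑_j λ_j(y) ψ'(x_j)` (representing `λ_j(y)` by an element of `A`).
(1) Every `x_j` is `f_j/s_j` with `f_j ∈ I`, `s_j ∉ q`.
(2) Let `y_1, …, y_m` generate `I`. For each `k` there are `t_k ∉ q` and an `S`-linear
`φ_k : I → S/I` with `algebraMap (φ_k y) = t_k λ_k(y)` for all `y ∈ I`: `Hom_S(I, S/I)` localises
because `I` is finitely presented: take the instance `IsLocalizedModule.map` /
`Module.FinitePresentation.linearEquivMap..` (search for `IsLocalizedModule S (IsLocalizedModule.map`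
in Mathlib/Algebra/Module/FinitePresentation.lean; `IsLocalizedModule.surj`), applied to the
localisations `I → J` and `S/I → A/J` (`Submodule.toLocalized'`, `Submodule.toLocalizedQuotient'`;
see H44V/L1.lean (L1_qt), H44V/L2.lean for how these are used; H44V/L2.lean proves a very similar
statement).
(3) Replace by a common `t` (multiply by all `t_k`), and put `f_j`, `φ'_j = (t s_j)-multiple` such
that for `ψ : I → S/I` with localisation `ψ'`: `t ψ'(y) = ∑_j t λ_j(y) ψ'(x_j)` and
`s_j ψ'(x_j) = ψ(f_j)`: multiply by `s = ∏ s_j`: `s t ψ'(y) = ∑_j (∏_(i ≠ j) s_i) φ_j(y) ψ(f_j)`.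
So with `φ'_j = (∏_(i≠j) s_i) φ_j` and `u_0 = s t` the elements `u_0 ψ(y)` and
`∑_j ψ(f_j) φ'_j(y)` of `S/I` have the same image in `A/J` (the localisation of `S/I`), for all
`ψ`, `y`.
(4) `Hom_S(I, S/I)` is a finite `S`-module (Noetherian), `I` too: for the finitely many pairs of
generators `(ψ, y)` there is `v ∉ q` with `v (u_0 ψ(y) - ∑_j ψ(f_j) φ'_j(y)) = 0` in `S/I`; by
bilinearity this holds for all `ψ`, `y`. So `u = v u_0` and `φ''_j = v φ'_j`.
-/

set_option autoImplicit false
open IsLocalRing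
open Pool.Agent.Lib.Helper92 Pool.Agent.Lib.H44V

namespace Pool.Agent.Lib.H44X
universe u

theorem r5_gen {S : Type u} [CommRing S] [IsNoetherianRing S] (I q : Ideal S) [q.IsPrime]
    (r : ℕ) (J : Ideal (Localization.AtPrime q))
    (hJ : Submodule.localized' (Localization.AtPrime q) q.primeCompl
      (Algebra.linearMap S (Localization.AtPrime q)) I = J)
    (h : CI J r) : DB I q := by
  classical
  subst hJ
  let A := Localization.AtPrime q
  let T := q.primeCompl
  let J : Ideal A := Submodule.localized' A T (Algebra.linearMap S A) I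
  let f : I →ₗ[S] J := Submodule.toLocalized' A T (Algebra.linearMap S A) I
  let g : (S ⧸ I) →ₗ[S] (A ⧸ J) := Submodule.toLocalizedQuotient' A T (Algebra.linearMap S A) I
  have hfp : Module.FinitePresentation S I := Module.finitePresentation_of_finite S I
  have hlf : IsLocalizedModule T f := inferInstance
  have hlg : IsLocalizedModule T g := inferInstance
  let Φ : (I →ₗ[S] (S ⧸ I)) →ₗ[S] (J →ₗ[A] (A ⧸ J)) := IsLocalizedModule.mapExtendScalars T f g A
  have hΦ : IsLocalizedModule T Φ :=
    Module.FinitePresentation.isLocalizedModule_mapExtendScalars T f g A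
  have hΦa : ∀ (ψ : I →ₗ[S] (S ⧸ I)) (y : I), Φ ψ (f y) = g (ψ y) := fun ψ y =>
    IsLocalizedModule.map_apply T f g ψ y
  have hgm : ∀ a b : S ⧸ I, g (a * b) = g a * g b := by
    intro a b
    obtain ⟨a, rfl⟩ := Ideal.Quotient.mk_surjective a
    obtain ⟨b, rfl⟩ := Ideal.Quotient.mk_surjective b
    change g (Ideal.Quotient.mk I (a * b)) = _
    have h1 : ∀ c : S, g (Ideal.Quotient.mk I c) = Ideal.Quotient.mk J (algebraMap S A c) :=
      fun c => rfl
    rw [h1, h1, h1, map_mul, map_mul]
  obtain ⟨x, hreg, hx⟩ := h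
  have hxJ : ∀ j : Fin r, x j ∈ J := fun j => by
    have h1 := P5_x_mem x r j j.2
    rw [hx] at h1
    exact h1
  obtain ⟨lam, -, hlam⟩ := P5_dual (I := J) x r hreg hx hxJ
  -- the fundamental identity
  have key : ∀ (ψ' : J →ₗ[A] (A ⧸ J)) (y : J), ψ' y = ∑ j, lam j y * ψ' ⟨x j, hxJ j⟩ := by
    intro ψ' y
    obtain ⟨a, ha⟩ := P5_mem x r (y : A) (by rw [hx]; exact y.2)
    have hy : y = ∑ j : Fin r, a j • (⟨x j, hxJ j⟩ : J) := by
      refine Subtype.ext ?_
      rw [ha]
      simp
    have hl : ∀ k, lam k y = Ideal.Quotient.mk J (a k) := by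
      intro k
      conv_lhs => rw [hy, map_sum]
      rw [Finset.sum_eq_single k]
      · rw [map_smul, hlam, if_pos rfl]
        change a k • (Ideal.Quotient.mk J 1) = _
        rw [map_one, Algebra.smul_def, mul_one]
        rfl
      · intro j _ hj
        rw [map_smul, hlam, if_neg (Ne.symm hj)]
        exact smul_zero _
      · intro hk
        exact absurd (Finset.mem_univ k) hk
    conv_lhs => rw [hy, map_sum]
    refine Finset.sum_congr rfl fun j _ => ?_
    rw [map_smul, hl j, Algebra.smul_def]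
    rfl
  -- numerators
  have hs1 : ∀ j : Fin r, ∃ (fj : I) (s : T), (s : S) • (⟨x j, hxJ j⟩ : J) = f fj := by
    intro j
    obtain ⟨⟨fj, s⟩, hs⟩ := IsLocalizedModule.surj T f (⟨x j, hxJ j⟩ : J)
    exact ⟨fj, s, hs⟩
  choose F s hs using hs1
  have ht1 : ∀ j : Fin r, ∃ (φ : I →ₗ[S] (S ⧸ I)) (t : T), (t : S) • lam j = Φ φ := by
    intro j
    obtain ⟨⟨φ, t⟩, ht⟩ := IsLocalizedModule.surj T Φ (lam j)
    exact ⟨φ, t, ht⟩
  choose φ t ht using ht1
  let w : Fin r → S := fun j => (s j : S) * (t j : S)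
  let W : S := ∏ j, w j
  let w' : Fin r → S := fun j => ∏ i ∈ Finset.univ.erase j, w i
  have hW : ∀ j, W = w' j * w j := fun j => (Finset.prod_erase_mul _ _ (Finset.mem_univ j)).symm
  have hW1 : W ∉ q := by
    have h1 : W ∈ T := Submonoid.prod_mem _ fun j _ => T.mul_mem (s j).2 (t j).2
    exact h1
  have hloc : ∀ (ψ : I →ₗ[S] (S ⧸ I)) (y : I),
      g (W • ψ y - ∑ j, ψ (F j) * (w' j • φ j) y) = 0 := by
    intro ψ y
    rw [map_sub, map_smul, ← hΦa, key, map_sum, Finset.smul_sum, ← Finset.sum_sub_distrib]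
    refine Finset.sum_eq_zero fun j _ => ?_
    have h1 : g (ψ (F j)) = (s j : S) • Φ ψ ⟨x j, hxJ j⟩ := by
      rw [← hΦa, ← hs j]
      exact (Φ ψ).map_smul_of_tower _ _
    have h2 : g ((φ j) y) = (t j : S) • lam j (f y) := by
      rw [← hΦa, ← ht j]
      rfl
    rw [hgm, h1, LinearMap.smul_apply, map_smul, h2, hW j]
    simp only [Algebra.smul_def, map_mul, w]
    ring
  let B : (I →ₗ[S] (S ⧸ I)) →ₗ[S] (I →ₗ[S] (S ⧸ I)) :=
    { toFun := fun ψ =>
        { toFun := fun y => W • ψ y - ∑ j, ψ (F j) * (w' j • φ j) y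
          map_add' := fun y z => by
            simp only [map_add, mul_add, Finset.sum_add_distrib, smul_add]
            ring
          map_smul' := fun c y => by
            simp only [map_smul, RingHom.id_apply, mul_smul_comm, ← Finset.smul_sum, smul_sub]
            rw [smul_comm W c] }
      map_add' := fun ψ ψ' => by
        refine LinearMap.ext fun y => ?_
        simp only [LinearMap.coe_mk, AddHom.coe_mk, LinearMap.add_apply, add_mul,
          Finset.sum_add_distrib, smul_add]
        ring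
      map_smul' := fun c ψ => by
        refine LinearMap.ext fun y => ?_
        simp only [LinearMap.coe_mk, AddHom.coe_mk, LinearMap.smul_apply, RingHom.id_apply,
          smul_mul_assoc, ← Finset.smul_sum, smul_sub]
        rw [smul_comm W c] }
  have hB : ∀ ψ y, B ψ y = W • ψ y - ∑ j, ψ (F j) * (w' j • φ j) y := fun ψ y => rfl
  have hB0 : ∀ ψ, ∃ v : T, (v : S) • B ψ = 0 := by
    intro ψ
    have h1 : Φ (B ψ) = 0 := by
      refine LinearMap.ext fun z => ?_
      obtain ⟨⟨y, a⟩, hy⟩ := IsLocalizedModule.surj T f z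
      have hy' : algebraMap S A (a : S) • z = f y := by
        rw [algebraMap_smul]
        exact hy
      have h2 : algebraMap S A (a : S) • Φ (B ψ) z = 0 := by
        rw [← map_smul, hy', hΦa]
        exact hloc ψ y
      obtain ⟨c, hc⟩ := IsLocalization.map_units A a
      have h3 : Φ (B ψ) z = (↑c⁻¹ : A) • (algebraMap S A (a : S) • Φ (B ψ) z) := by
        rw [smul_smul, ← hc, Units.inv_mul, one_smul]
      rw [h3, h2, smul_zero, LinearMap.zero_apply]
    obtain ⟨v, hv⟩ := (IsLocalizedModule.eq_zero_iff T Φ).1 h1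
    exact ⟨v, hv⟩
  have hfin : Module.Finite S (I →ₗ[S] (S ⧸ I)) := inferInstance
  obtain ⟨G, hG⟩ := hfin.fg_top
  choose v hv using hB0
  let V : S := ∏ ψ ∈ G, (v ψ : S)
  have hV1 : V ∉ q := by
    have h1 : V ∈ T := Submonoid.prod_mem _ fun ψ _ => (v ψ).2
    exact h1
  have hV : ∀ ψ, V • B ψ = 0 := by
    intro ψ
    have hψ : ψ ∈ Submodule.span S (G : Set (I →ₗ[S] (S ⧸ I))) := by
      rw [hG]
      exact Submodule.mem_top
    induction hψ using Submodule.span_induction with
    | mem χ hχ =>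
      have h1 : V = (∏ ψ ∈ G.erase χ, (v ψ : S)) * (v χ : S) :=
        (Finset.prod_erase_mul _ _ hχ).symm
      rw [h1, mul_smul, hv, smul_zero]
    | zero => rw [map_zero, smul_zero]
    | add a b _ _ ha hb => rw [map_add, smul_add, ha, hb, add_zero]
    | smul c a _ ha => rw [map_smul, smul_comm, ha, smul_zero]
  refine ⟨r, F, fun j => (V * w' j) • φ j, V * W, ?_, ?_⟩
  · intro hVW
    rcases (Ideal.IsPrime.mem_or_mem inferInstance hVW) with h1 | h1
    · exact hV1 h1
    · exact hW1 h1
  · intro ψ y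
    have h1 := DFunLike.congr_fun (hV ψ) y
    rw [LinearMap.smul_apply, hB, LinearMap.zero_apply, smul_sub, sub_eq_zero, Finset.smul_sum] at h1
    have h2 : Ideal.Quotient.mk I (V * W) * ψ y = V • (W • ψ y) := by
      rw [smul_smul, Algebra.smul_def]
      rfl
    rw [h2, h1]
    refine Finset.sum_congr rfl fun j _ => ?_
    simp only [LinearMap.smul_apply, mul_smul, mul_smul_comm]

theorem r5_db {S : Type u} [CommRing S] [IsNoetherianRing S] (I q : Ideal S) [q.IsPrime]
    (hIq : I ≤ q) (r : ℕ) (h : CI (I.map (algebraMap S (Localization.AtPrime q))) r) :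
    DB I q :=
  r5_gen I q r _ (Ideal.localized'_eq_map _ _ _) h

end Pool.Agent.Lib.H44X
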