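import Pool.Agent.Lib.H44X.RDefs

/-!
R6 (M). If the normal module separates the points of `I/𝔪I` and `pd S/I < ∞` then `I` is
generated by a regular sequence.

Induction on the number `r` of generators, for all `S`; copy the structure of
`H44V.A11_depthOne` (H44V/A11.lean). If `I = ⊥`: `CI I 0` (see there). Otherwise `I ≠ 𝔪 I`
(Nakayama, Submodule.eq_bot_of_le_smul_of_le_jacobson_bot), so there is `y₀ ∈ I`, `y₀ ∉ 𝔪I`, and by
`Sep` a `φ : I → S/I` with `φ y₀ = mk a`, `a ∉ 𝔪`, i.e. `a` a unit. (`r = 0` is impossible here.)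
`A4_nzd` and `A6_regular_unit` give `y ∈ I` regular in `S` with `φ y = mk a`; `A8_pd_quot` the
finite projective dimension of `S'/I'`, `S' = S/(y)`, `I' = I S'`; `A10_lift` lifts `CI I' m` to
`CI I (m+1)`.
* r6_gen: `I'` is generated by `r - 1` elements: `y = ∑ c_j f_j`; some `c_j` is a unit, since
  otherwise `y ∈ 𝔪I` and `φ y ∈ 𝔪 (S/I)`, contradiction with `φ y = mk a`, `a` a unit, `I ≤ 𝔪`;
  so `f_j` is in the span of `y` and the other `f_i`; index the others by `Fin (r-1)`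
  (Fin.succAbove).
* r6_sep: `Sep I'`. Let `y' ∈ I'` with `φ' y' ∈ 𝔪'` for all `φ' : I' → S'/I'`; lift `y'` to
  `z ∈ I` and let `z' = z - a⁻¹ c y` where `φ z = mk c`. For every `ψ : I → S/I` with `ψ y = mk e` the
  map `ψ - a⁻¹ e φ` kills `y`, so it is induced from some `φ' : I' → S'/I'` (`A9_Ψ_surj`,
  `A9_Ψ_apply`, `A9_θ_mk` in H44V/A9.lean) and `ψ z - a⁻¹ e c = φ' y'` lies in `𝔪`; but
  `ψ z' = ψ z - a⁻¹ c e`. So `ψ z' ∈ 𝔪` for all `ψ`, `z' ∈ 𝔪I` by `Sep I`, and the image of `z'`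
  in `I'` is `y'`, so `y' ∈ 𝔪' I'` (`Ideal.map_mul`, `𝔪' = 𝔪 S'`).
-/

set_option autoImplicit false
open CategoryTheory CategoryTheory.Abelian IsLocalRing
open Pool.Agent.Lib.Helper92 Pool.Agent.Lib.H44V

namespace Pool.Agent.Lib.H44X
universe u

theorem r6_gen {S : Type u} [CommRing S] [IsLocalRing S] {I : Ideal S} (hI : I ≠ ⊤) (r : ℕ)
    (f : Fin (r + 1) → S) (hf : Ideal.span (Set.range f) = I) (y : I)
    (φ : I →ₗ[S] (S ⧸ I)) (a : S) (ha : IsUnit a) (hy : φ y = Ideal.Quotient.mk I a) :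
    ∃ f' : Fin r → S ⧸ Ideal.span {(y : S)}, Ideal.span (Set.range f') =
      I.map (Ideal.Quotient.mk (Ideal.span {(y : S)})) := by
  have hle : I ≤ maximalIdeal S := IsLocalRing.le_maximalIdeal hI
  have hfI : ∀ j, f j ∈ I := fun j => by
    rw [← hf]
    exact Ideal.subset_span (Set.mem_range_self j)
  obtain ⟨c, hc⟩ := (Ideal.mem_span_range_iff_exists_fun (v := f)).1 (hf.symm ▸ y.2 : (y : S) ∈ Ideal.span (Set.range f))
  have hj : ∃ j, IsUnit (c j) := by
    by_contra hcon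
    push Not at hcon
    choose g hg using fun j => Ideal.Quotient.mk_surjective (φ ⟨f j, hfI j⟩)
    have h1 : y = ∑ j, c j • (⟨f j, hfI j⟩ : I) := by
      apply Subtype.ext
      rw [← hc, AddSubmonoidClass.coe_finsetSum]
      rfl
    have h2 : φ y = Ideal.Quotient.mk I (∑ j, c j * g j) := by
      rw [h1, map_sum, map_sum]
      refine Finset.sum_congr rfl fun j _ => ?_
      rw [map_smul, ← hg j]
      rfl
    rw [hy, Ideal.Quotient.mk_eq_mk_iff_sub_mem] at h2
    have h3 : ∑ j, c j * g j ∈ maximalIdeal S :=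
      Ideal.sum_mem _ fun j _ => Ideal.mul_mem_right _ _ ((IsLocalRing.mem_maximalIdeal _).2 (hcon j))
    have h4 : a ∈ maximalIdeal S := by
      have h5 := (maximalIdeal S).add_mem (hle h2) h3
      rwa [sub_add_cancel] at h5
    exact (IsLocalRing.mem_maximalIdeal _).1 h4 ha
  obtain ⟨j, hj⟩ := hj
  refine ⟨fun i => Ideal.Quotient.mk _ (f (j.succAbove i)), ?_⟩
  have hq : ∀ (T : Type u) [CommRing T] (q : S →+* T), I.map q = Ideal.span (Set.range (q ∘ f)) := by
    intro T _ q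
    rw [← hf, Ideal.map_span, ← Set.range_comp]
  rw [hq]
  apply le_antisymm
  · rw [Ideal.span_le]
    rintro _ ⟨i, rfl⟩
    exact Ideal.subset_span ⟨j.succAbove i, rfl⟩
  · rw [Ideal.span_le]
    rintro _ ⟨k, rfl⟩
    rcases Fin.eq_self_or_eq_succAbove j k with h1 | ⟨i, h1⟩
    · rw [h1]
      obtain ⟨d, hd⟩ := hj.exists_left_inv
      have h2 : Ideal.Quotient.mk (Ideal.span {(y : S)}) (y : S) = 0 :=
        Ideal.Quotient.eq_zero_iff_mem.2 (Ideal.mem_span_singleton_self _)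
      have h3 : (y : S) = c j * f j + ∑ i, c (j.succAbove i) * f (j.succAbove i) := by
        rw [← hc, Fin.sum_univ_succAbove _ j]
      have h4 : Ideal.Quotient.mk (Ideal.span {(y : S)}) (f j) =
          Ideal.Quotient.mk (Ideal.span {(y : S)}) d * (Ideal.Quotient.mk (Ideal.span {(y : S)}) (y : S) -
            ∑ i, Ideal.Quotient.mk (Ideal.span {(y : S)}) (c (j.succAbove i)) *
              Ideal.Quotient.mk (Ideal.span {(y : S)}) (f (j.succAbove i))) := by
        have h5 : f j = d * ((y : S) - ∑ i, c (j.succAbove i) * f (j.succAbove i)) := by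
          rw [h3, add_sub_cancel_right, ← mul_assoc, hd, one_mul]
        conv_lhs => rw [h5]
        rw [map_mul, map_sub, map_sum]
        simp only [map_mul]
      show Ideal.Quotient.mk (Ideal.span {(y : S)}) (f j) ∈ _
      rw [h4, h2, zero_sub]
      refine Ideal.mul_mem_left _ _ (neg_mem ?_)
      exact Ideal.sum_mem _ fun i _ => Ideal.mul_mem_left _ _ (Ideal.subset_span ⟨i, rfl⟩)
    · rw [h1]
      exact Ideal.subset_span ⟨i, rfl⟩

theorem r6_sep {S : Type u} [CommRing S] [IsLocalRing S] {I : Ideal S} (hI : I ≠ ⊤)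
    (hsep : Sep I) (y : I) (φ : I →ₗ[S] (S ⧸ I)) (a : S) (ha : IsUnit a)
    (hy : φ y = Ideal.Quotient.mk I a) [IsLocalRing (S ⧸ Ideal.span {(y : S)})] :
    Sep (I.map (Ideal.Quotient.mk (Ideal.span {(y : S)}))) := by
  have hJ : Ideal.span {(y : S)} ≤ I := (Ideal.span_singleton_le_iff_mem I).2 y.2
  have hle : I ≤ maximalIdeal S := IsLocalRing.le_maximalIdeal hI
  have hmk : ∀ x : S, Ideal.Quotient.mk (Ideal.span {(y : S)}) x ∈ maximalIdeal (S ⧸ Ideal.span {(y : S)}) ↔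
      x ∈ maximalIdeal S := by
    intro x
    rw [IsLocalRing.mem_maximalIdeal, IsLocalRing.mem_maximalIdeal, mem_nonunits_iff, mem_nonunits_iff]
    refine not_congr ⟨fun hu => ?_, fun hu => hu.map _⟩
    obtain ⟨t', ht'⟩ := hu.exists_right_inv
    obtain ⟨t, rfl⟩ := Ideal.Quotient.mk_surjective t'
    rw [← map_mul, ← map_one (Ideal.Quotient.mk _), Ideal.Quotient.mk_eq_mk_iff_sub_mem] at ht'
    have h1 : x * t - 1 ∈ maximalIdeal S := hle (hJ ht')
    by_contra hx
    have h2 : x * t ∈ maximalIdeal S := Ideal.mul_mem_right _ _ ((IsLocalRing.mem_maximalIdeal _).2 hx)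
    have h3 : (1 : S) ∈ maximalIdeal S := by
      have := (maximalIdeal S).sub_mem h2 h1
      rwa [sub_sub_cancel] at this
    exact (IsLocalRing.maximalIdeal.isMaximal S).ne_top ((Ideal.eq_top_iff_one _).2 h3)
  intro y' hy'
  obtain ⟨z, rfl⟩ := A9_q_surj I (Ideal.span {(y : S)}) y'
  obtain ⟨c, hc⟩ := Ideal.Quotient.mk_surjective (φ z)
  obtain ⟨b, hb⟩ := ha.exists_right_inv
  have key : (((z - (b * c) • y : I)) : S) ∈ maximalIdeal S * I := by
    refine hsep _ fun ψ => ?_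
    obtain ⟨e, he⟩ := Ideal.Quotient.mk_surjective (ψ y)
    have h1 : (ψ - (b * e) • φ) y = 0 := by
      rw [LinearMap.sub_apply, LinearMap.smul_apply, ← he, hy]
      show Ideal.Quotient.mk I e - Ideal.Quotient.mk I ((b * e) * a) = 0
      have h2 : b * e * a = e := by
        rw [mul_comm, ← mul_assoc, hb, one_mul]
      rw [h2, sub_self]
    obtain ⟨g', hg'⟩ := A9_Ψ_surj y hJ _ h1
    obtain ⟨a', ha', hga⟩ := hy' g'
    obtain ⟨α, rfl⟩ := Ideal.Quotient.mk_surjective a'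
    have hα := (hmk α).1 ha'
    refine ⟨α, hα, ?_⟩
    have h2 := A9_Ψ_apply I _ hJ g' z
    rw [hg', hga] at h2
    have h3 : (ψ - (b * e) • φ) z = Ideal.Quotient.mk I α := by
      apply (A9_θ_bij I _ hJ).1
      rw [h2]
      rfl
    rw [← h3, LinearMap.sub_apply, LinearMap.smul_apply, map_sub, map_smul, ← he, ← hc]
    congr 1
    show Ideal.Quotient.mk I ((b * c) * e) = Ideal.Quotient.mk I ((b * e) * c)
    congr 1
    ring
  have h5 : ((A9_q I (Ideal.span {(y : S)}) z : (I.map (Ideal.Quotient.mk (Ideal.span {(y : S)})) :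
      Ideal (S ⧸ Ideal.span {(y : S)}))) : S ⧸ Ideal.span {(y : S)}) =
      Ideal.Quotient.mk (Ideal.span {(y : S)}) (((z - (b * c) • y : I)) : S) := by
    show Ideal.Quotient.mk (Ideal.span {(y : S)}) (z : S) = Ideal.Quotient.mk (Ideal.span {(y : S)}) ((z : S) - (b * c) * (y : S))
    rw [map_sub, map_mul, Ideal.Quotient.eq_zero_iff_mem.2 (Ideal.mem_span_singleton_self (y : S)), mul_zero, sub_zero]
  rw [h5]
  have h6 : Ideal.Quotient.mk (Ideal.span {(y : S)}) (((z - (b * c) • y : I)) : S) ∈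
      (maximalIdeal S * I).map (Ideal.Quotient.mk (Ideal.span {(y : S)})) := Ideal.mem_map_of_mem _ key
  rw [Ideal.map_mul] at h6
  refine Ideal.mul_mono_left ?_ h6
  rw [Ideal.map_le_iff_le_comap]
  intro x hx
  exact (hmk x).2 hx

theorem r6_ci (r : ℕ) : ∀ (S : Type u) [CommRing S] [IsNoetherianRing S] [IsLocalRing S]
    (I : Ideal S) (_ : I ≠ ⊤) (n : ℕ) (_ : HasProjectiveDimensionLT (Qt I) n)
    (f : Fin r → S) (_ : Ideal.span (Set.range f) = I) (_ : Sep I), ∃ m, CI I m := by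
  induction r with
  | zero =>
    intro S _ _ _ I hI n hpd f hf hsep
    have hI0 : I = ⊥ := by
      rw [← hf, Set.range_eq_empty, Ideal.span_empty]
    exact ⟨0, fun _ => 0, fun j hj => absurd hj (Nat.not_lt_zero j), hI0.symm⟩
  | succ r ih =>
    intro S _ _ _ I hI n hpd f hf hsep
    by_cases h0 : I = ⊥
    · exact ⟨0, fun _ => 0, fun j hj => absurd hj (Nat.not_lt_zero j), h0.symm⟩
    obtain ⟨z, hzI, hz⟩ := A4_nzd h0 n hpd
    have h1 : ∃ y₀ : I, (y₀ : S) ∉ maximalIdeal S * I := by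
      by_contra hcon
      push Not at hcon
      refine h0 (Submodule.eq_bot_of_le_smul_of_le_jacobson_bot (maximalIdeal S) I (IsNoetherian.noetherian I) ?_
        (IsLocalRing.maximalIdeal_le_jacobson _))
      intro y hy
      exact hcon ⟨y, hy⟩
    obtain ⟨y₀, hy₀⟩ := h1
    have h2 : ∃ φ : I →ₗ[S] (S ⧸ I), ∃ a : S, IsUnit a ∧ φ y₀ = Ideal.Quotient.mk I a := by
      by_contra hcon
      push Not at hcon
      refine hy₀ (hsep y₀ fun φ => ?_)
      obtain ⟨a, ha⟩ := Ideal.Quotient.mk_surjective (φ y₀)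
      refine ⟨a, ?_, ha.symm⟩
      by_contra ha'
      rw [IsLocalRing.mem_maximalIdeal, mem_nonunits_iff, not_not] at ha'
      exact hcon φ a ha' ha.symm
    obtain ⟨φ, a, ha, hφ⟩ := h2
    obtain ⟨y, hyreg, hy⟩ := A6_regular_unit hI z hzI hz φ y₀ a hφ
    obtain ⟨n', hn'⟩ := A8_pd_quot y hyreg φ a ha hy n hpd
    have hle : Ideal.span {(y : S)} ≤ I := (Ideal.span_singleton_le_iff_mem I).2 y.2
    have hne : Ideal.span {(y : S)} ≠ ⊤ := fun h1 => hI (top_le_iff.1 (h1 ▸ hle))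
    have hnt : Nontrivial (S ⧸ Ideal.span {(y : S)}) := Ideal.Quotient.nontrivial_iff.mpr hne
    have hloc : IsLocalRing (S ⧸ Ideal.span {(y : S)}) :=
      IsLocalRing.of_surjective' (Ideal.Quotient.mk (Ideal.span {(y : S)}))
        Ideal.Quotient.mk_surjective
    have hI' : I.map (Ideal.Quotient.mk (Ideal.span {(y : S)})) ≠ ⊤ := by
      intro h1
      have h2 : Nontrivial (S ⧸ I) := Ideal.Quotient.nontrivial_iff.mpr hI
      have h3 : Nontrivial ((S ⧸ Ideal.span {(y : S)}) ⧸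
          I.map (Ideal.Quotient.mk (Ideal.span {(y : S)}))) :=
        (DoubleQuot.quotQuotEquivQuotOfLE hle).toEquiv.nontrivial
      exact (Ideal.Quotient.nontrivial_iff.1 h3) h1
    obtain ⟨f', hf'⟩ := r6_gen hI r f hf y φ a ha hy
    obtain ⟨m, hm⟩ := ih (S ⧸ Ideal.span {(y : S)}) (I.map (Ideal.Quotient.mk (Ideal.span {(y : S)})))
      hI' n' hn' f' hf' (r6_sep hI hsep y φ a ha hy)
    exact ⟨m + 1, A10_lift (y : S) y.2 hyreg hm⟩

end Pool.Agent.Lib.H44X
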