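import Pool.Agent.Lib.H44X.RDefs

/-!
R7 (M). The Euler relation and the alternative (A) / (B).

Data: `S` local, `𝔪 = (x_1, …, x_n)`, generators `f_v` (`v ∈ Fin m`) of `I`, partial derivatives
`g_vl ∈ S` with `∑_l w_l x_l g_vl = δ_v f_v`, `δ_v` a unit of `S`, and linear maps
`∂_l : I → S/I` with `∂_l f_v = g_vl` mod `I`.

* r7_sep: suppose `a_l : Fin b → S/I` (`l ≤ n`) satisfy `π(a_l) = w_l ∂_l` in the normal module
  (written: `toHom (π (a l)) = w l • del l`) and `∑_l x_l a_l = 0`. Then `Sep I`.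
  Proof: `φ_j = toHom (π e_j) : I → S/I` (`e_j` the unit vector), so `w_l ∂_l = ∑_j a_lj φ_j`.
  Choose lifts `A_lj ∈ S` of `a_lj` and put `F_j = ∑_l x_l A_lj ∈ I`. For lifts `c_jv` of `φ_j f_v`:
  `w_l g_vl - ∑_j A_lj c_jv ∈ I`; multiply by `x_l` and sum over `l`:
  `δ_v f_v - ∑_j c_jv F_j ∈ 𝔪 I`. (1)
  Consider `Q = I/𝔪I` (an `S`-module: `↥I ⧸ (𝔪 • ⊤)`), and `Φ : I → Q`, `Φ(y) = ∑_j φ_j(y) • [F_j]`
  (`S/I` acts on `Q` because `I Q = 0`; to avoid this module structure use: the map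
  `(S/I) → Q`, `mk c ↦ [c F_j]`, is well defined and linear, e.g.
  `Submodule.liftQ`/`Submodule.mapQ` of `c ↦ [c F_j]`). `Φ` kills `𝔪 I` (`𝔪 Q = 0`), so it induces
  `E : Q → Q`, and `E [f_v] = δ_v [f_v]` by (1). The `[f_v]` generate `Q` and `δ_v` is a unit, so `E`
  is surjective, hence injective (OrzechProperty.injective_of_surjective_endomorphism, `Q` finite).
  If `φ(y) ∈ 𝔪` for all `φ` then `φ_j(y) ∈ 𝔪` for all `j`, so `Φ(y) = 0`, `[y] = 0`,
  `y ∈ 𝔪 I` (Submodule.mem_smul_top_iff or map_smul'').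
* r7_alt: let `G` be a minimal resolution of the normal module over `S/I`. Choose `∂~_l` with
  `π ∂~_l = ∂_l`. `∑_l w_l x_l ∂_l = 0` on `I` (on the generators it is
  `∑_l w_l x_l g_vl = δ_v f_v ∈ I`), so `∑_l w_l x_l ∂~_l = dm_0 g` for some `g` (`ex0`). If
  all entries of `g` lie in `𝔪 = (x_1, …, x_n)` write `g = ∑_l x_l g_l` and apply r7_sep with
  `a_l = w_l ∂~_l - dm_0 g_l` (`π (dm_0 g_l) = 0`). Otherwise some entry is a unit `g_a` and
  `p = g_a⁻¹ · e_a`.
-/

set_option autoImplicit false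
open IsLocalRing
open Pool.Agent.Lib.Helper92 Pool.Agent.Lib.H44V

namespace Pool.Agent.Lib.H44X
universe u
variable {S : Type u} [CommRing S] [IsNoetherianRing S] [IsLocalRing S] {I : Ideal S}

theorem r7_sep (hI : I ≠ ⊤) {n m : ℕ} (x : Fin n → S)
    (hx : Ideal.span (Set.range x) = maximalIdeal S) (w : Fin n → ℕ) (f : Fin m → S)
    (hf : Ideal.span (Set.range f) = I) (hfI : ∀ v, f v ∈ I) (g : Fin m → Fin n → S)
    (δ : Fin m → ℕ) (hδ : ∀ v, IsUnit ((δ v : ℕ) : S))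
    (heul : ∀ v, ∑ l, (w l : S) * x l * g v l = (δ v : S) * f v)
    (del : Fin n → (I →ₗ[S] (S ⧸ I)))
    (hdel : ∀ l v, del l ⟨f v, hfI v⟩ = Ideal.Quotient.mk I (g v l))
    {b : ℕ} (π : (Fin b → S ⧸ I) →ₗ[S ⧸ I] NN I) (a : Fin n → Fin b → S ⧸ I)
    (ha : ∀ l, toHom (π (a l)) = (w l : S) • del l)
    (hxa : ∀ j, ∑ l, Ideal.Quotient.mk I (x l) * a l j = 0) : Sep I := by
  have hIm : I ≤ maximalIdeal S := IsLocalRing.le_maximalIdeal hI
  have hxm : ∀ l, x l ∈ maximalIdeal S := fun l => by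
    rw [← hx]
    exact Ideal.subset_span ⟨l, rfl⟩
  obtain ⟨φ, hφ⟩ : ∃ φ : Fin b → (I →ₗ[S] (S ⧸ I)), ∀ j, φ j = toHom (π (Pi.single j 1)) := ⟨_, fun _ => rfl⟩
  have hsum : ∀ (c : Fin b → S ⧸ I) (y : I), toHom (π c) y = ∑ j, c j * φ j y := by
    intro c y
    have h1 : c = ∑ j, c j • (Pi.single j (1 : S ⧸ I) : Fin b → S ⧸ I) := by
      funext i
      rw [Finset.sum_apply]
      simp [Pi.single_apply]
    rw [toHom_apply]
    conv_lhs => rw [h1]
    rw [map_sum, LinearMap.sum_apply]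
    refine Finset.sum_congr rfl fun j _ => ?_
    rw [map_smul, LinearMap.smul_apply, hφ, toHom_apply, smul_eq_mul]
  choose A hA using fun (l : Fin n) (j : Fin b) => Ideal.Quotient.mk_surjective (a l j)
  obtain ⟨F, hF⟩ : ∃ F : Fin b → S, ∀ j, F j = ∑ l, x l * A l j := ⟨_, fun _ => rfl⟩
  have hFI : ∀ j, F j ∈ I := by
    intro j
    rw [← Ideal.Quotient.eq_zero_iff_mem, hF, map_sum, ← hxa j]
    refine Finset.sum_congr rfl fun l _ => ?_
    rw [map_mul, hA]
  choose c hc using fun (j : Fin b) (v : Fin m) => Ideal.Quotient.mk_surjective (φ j ⟨f v, hfI v⟩)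
  have h1 : ∀ v, (δ v : S) * f v - ∑ j, c j v * F j ∈ maximalIdeal S * I := by
    intro v
    have h2 : ∀ l, (w l : S) * g v l - ∑ j, A l j * c j v ∈ I := by
      intro l
      rw [← Ideal.Quotient.eq_zero_iff_mem, map_sub, map_sum, sub_eq_zero]
      have h3 := hsum (a l) ⟨f v, hfI v⟩
      rw [ha l, LinearMap.smul_apply, hdel] at h3
      have h4 : (w l : S) • (Ideal.Quotient.mk I (g v l)) = Ideal.Quotient.mk I ((w l : S) * g v l) := rfl
      rw [h4] at h3
      rw [h3]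
      refine Finset.sum_congr rfl fun j _ => ?_
      rw [map_mul, hA, hc]
    have h5 : (δ v : S) * f v - ∑ j, c j v * F j = ∑ l, x l * ((w l : S) * g v l - ∑ j, A l j * c j v) := by
      rw [← heul v]
      simp only [mul_sub, Finset.sum_sub_distrib]
      refine congrArg₂ (fun p q => p - q) (Finset.sum_congr rfl fun l _ => by ring) ?_
      simp only [hF, Finset.mul_sum]
      rw [Finset.sum_comm]
      exact Finset.sum_congr rfl fun l _ => Finset.sum_congr rfl fun j _ => by ring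
    rw [h5]
    exact Ideal.sum_mem _ fun l _ => Ideal.mul_mem_mul (hxm l) (h2 l)
  -- the module `Q`
  obtain ⟨MI, hMI⟩ : ∃ MI : Submodule S I, MI = maximalIdeal S • (⊤ : Submodule S I) := ⟨_, rfl⟩
  have hmem : ∀ y : I, y ∈ MI ↔ (y : S) ∈ maximalIdeal S * I := by
    intro y
    rw [hMI, Submodule.mem_smul_top_iff, smul_eq_mul]
  have hkill : ∀ (r : S), r ∈ maximalIdeal S → ∀ q : I ⧸ MI, r • q = 0 := by
    intro r hr q
    obtain ⟨y, rfl⟩ := Submodule.Quotient.mk_surjective MI q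
    rw [← Submodule.Quotient.mk_smul, Submodule.Quotient.mk_eq_zero, hmem]
    exact Ideal.mul_mem_mul hr y.2
  let ψ : Fin b → ((S ⧸ I) →ₗ[S] (I ⧸ MI)) := fun j =>
    Submodule.liftQ I (LinearMap.toSpanSingleton S (I ⧸ MI) (Submodule.Quotient.mk ⟨F j, hFI j⟩))
      (fun r hr => by
        rw [LinearMap.mem_ker, LinearMap.toSpanSingleton_apply]
        exact hkill r (hIm hr) _)
  have hψ : ∀ j (r : S), ψ j (Ideal.Quotient.mk I r) = r • Submodule.Quotient.mk ⟨F j, hFI j⟩ := fun j r => rfl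
  let Φ : I →ₗ[S] (I ⧸ MI) := ∑ j, ψ j ∘ₗ φ j
  have hΦ : ∀ y, Φ y = ∑ j, ψ j (φ j y) := by
    intro y
    simp only [Φ, LinearMap.sum_apply, LinearMap.comp_apply]
  have hΦk' : maximalIdeal S • (⊤ : Submodule S I) ≤ LinearMap.ker Φ := by
    rw [Submodule.smul_le]
    intro r hr y _
    rw [LinearMap.mem_ker, map_smul]
    exact hkill r hr _
  have hΦk : MI ≤ LinearMap.ker Φ := hMI.le.trans hΦk'
  let E : (I ⧸ MI) →ₗ[S] (I ⧸ MI) := MI.liftQ Φ hΦk
  have hE : ∀ y : I, E (Submodule.Quotient.mk y) = Φ y := fun y => rfl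
  have hEf : ∀ v, E (Submodule.Quotient.mk ⟨f v, hfI v⟩) = (δ v : S) • Submodule.Quotient.mk ⟨f v, hfI v⟩ := by
    intro v
    rw [hE, hΦ]
    have h2 : ∀ j, ψ j (φ j ⟨f v, hfI v⟩) = Submodule.Quotient.mk (c j v • (⟨F j, hFI j⟩ : I)) := by
      intro j
      rw [← hc j v, hψ, Submodule.Quotient.mk_smul]
    rw [Finset.sum_congr rfl fun j _ => h2 j]
    have h3 : ∑ j, (Submodule.Quotient.mk (c j v • (⟨F j, hFI j⟩ : I)) : I ⧸ MI) =
        Submodule.Quotient.mk (∑ j, c j v • (⟨F j, hFI j⟩ : I)) := by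
      rw [← Submodule.mkQ_apply, map_sum]
      rfl
    rw [h3, ← Submodule.Quotient.mk_smul, eq_comm, ← sub_eq_zero, ← Submodule.Quotient.mk_sub,
      Submodule.Quotient.mk_eq_zero, hmem]
    have h4 : (((δ v : S) • (⟨f v, hfI v⟩ : I) - ∑ j, c j v • (⟨F j, hFI j⟩ : I) : I) : S) =
        (δ v : S) * f v - ∑ j, c j v * F j := by
      rw [Submodule.coe_sub, Submodule.coe_sum]
      rfl
    rw [h4]
    exact h1 v
  have hsurj : Function.Surjective E := by
    intro q
    obtain ⟨y, rfl⟩ := Submodule.Quotient.mk_surjective MI q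
    have hy : (y : S) ∈ Ideal.span (Set.range f) := by rw [hf]; exact y.2
    obtain ⟨s, hs⟩ := (Ideal.mem_span_range_iff_exists_fun).1 hy
    have hfr : ∀ v, ∃ z, E z = Submodule.Quotient.mk ⟨f v, hfI v⟩ := by
      intro v
      obtain ⟨u, hu⟩ := hδ v
      refine ⟨(↑u⁻¹ : S) • Submodule.Quotient.mk ⟨f v, hfI v⟩, ?_⟩
      rw [map_smul, hEf, ← hu, smul_smul, Units.inv_mul, one_smul]
    choose z hz using hfr
    refine ⟨∑ v, s v • z v, ?_⟩
    rw [map_sum]
    have h5 : y = ∑ v, s v • (⟨f v, hfI v⟩ : I) := by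
      apply Subtype.ext
      rw [Submodule.coe_sum, ← hs]
      rfl
    rw [h5, ← Submodule.mkQ_apply, map_sum]
    refine Finset.sum_congr rfl fun v _ => ?_
    rw [map_smul, map_smul, hz, Submodule.mkQ_apply]
  have hinj : Function.Injective E := OrzechProperty.injective_of_surjective_endomorphism E hsurj
  intro y hy
  rw [← hmem, ← Submodule.Quotient.mk_eq_zero]
  apply hinj
  rw [hE, hΦ, map_zero]
  refine Finset.sum_eq_zero fun j _ => ?_
  obtain ⟨r, hr, e⟩ := hy (φ j)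
  rw [e, hψ]
  exact hkill r hr _

theorem r7_hom (s : S) (h : NN I) : toHom (Ideal.Quotient.mk I s • h) = s • toHom h := by
  refine LinearMap.ext fun y => ?_
  rw [toHom_apply, LinearMap.smul_apply, LinearMap.smul_apply, toHom_apply]
  rfl

theorem r7_inj {h : NN I} (h0 : toHom h = 0) : h = 0 := by
  refine LinearMap.ext fun c => ?_
  obtain ⟨y, rfl⟩ := I.toCotangent_surjective c
  rw [← toHom_apply, h0]
  rfl

theorem r7_alt (hI : I ≠ ⊤) [IsLocalRing (S ⧸ I)] {n m : ℕ} (x : Fin n → S)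
    (hx : Ideal.span (Set.range x) = maximalIdeal S) (w : Fin n → ℕ) (f : Fin m → S)
    (hf : Ideal.span (Set.range f) = I) (hfI : ∀ v, f v ∈ I) (g : Fin m → Fin n → S)
    (δ : Fin m → ℕ) (hδ : ∀ v, IsUnit ((δ v : ℕ) : S))
    (heul : ∀ v, ∑ l, (w l : S) * x l * g v l = (δ v : S) * f v)
    (del : Fin n → (I →ₗ[S] (S ⧸ I)))
    (hdel : ∀ l v, del l ⟨f v, hfI v⟩ = Ideal.Quotient.mk I (g v l))
    (G : MRes (S ⧸ I) (NN I)) :
    Sep I ∨ ∃ (t : Fin n → Fin (G.b 0) → S ⧸ I) (g0 p : Fin (G.b 1) → S ⧸ I),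
      (∀ l, toHom (G.pi (t l)) = del l) ∧
      (G.dm 0).mulVec g0 = ∑ l, Ideal.Quotient.mk I ((w l : S) * x l) • t l ∧
      ∑ c, p c * g0 c = 1 := by
  have hex : ∀ l, ∃ t : Fin (G.b 0) → S ⧸ I, toHom (G.pi t) = del l := by
    intro l
    obtain ⟨h, hh⟩ := toHom_surj (del l)
    obtain ⟨t, ht⟩ := G.surj h
    exact ⟨t, by rw [ht, hh]⟩
  choose t ht using hex
  have hV : G.pi (∑ l, Ideal.Quotient.mk I ((w l : S) * x l) • t l) = 0 := by
    apply r7_inj
    rw [map_sum]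
    have h1 : toHom (∑ l, G.pi (Ideal.Quotient.mk I ((w l : S) * x l) • t l)) =
        ∑ l, ((w l : S) * x l) • del l := by
      refine LinearMap.ext fun y => ?_
      rw [toHom_apply, LinearMap.sum_apply, LinearMap.sum_apply]
      refine Finset.sum_congr rfl fun l _ => ?_
      rw [map_smul, ← toHom_apply, r7_hom, ht]
    rw [h1]
    refine LinearMap.ext fun y => ?_
    have hy : (y : S) ∈ Ideal.span (Set.range f) := by rw [hf]; exact y.2
    obtain ⟨s, hs⟩ := (Ideal.mem_span_range_iff_exists_fun).1 hy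
    have h5 : y = ∑ v, s v • (⟨f v, hfI v⟩ : I) := by
      apply Subtype.ext
      rw [Submodule.coe_sum, ← hs]
      rfl
    rw [h5, map_sum, LinearMap.zero_apply]
    refine Finset.sum_eq_zero fun v _ => ?_
    rw [map_smul, LinearMap.sum_apply]
    have h6 : ∑ l, (((w l : S) * x l) • del l) ⟨f v, hfI v⟩ = 0 := by
      have h7 : ∀ l, (((w l : S) * x l) • del l) ⟨f v, hfI v⟩ = Ideal.Quotient.mk I ((w l : S) * x l * g v l) := by
        intro l
        rw [LinearMap.smul_apply, hdel]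
        rfl
      rw [Finset.sum_congr rfl fun l _ => h7 l, ← map_sum, heul v, Ideal.Quotient.eq_zero_iff_mem]
      exact I.mul_mem_left _ (hfI v)
    rw [h6, smul_zero]
  obtain ⟨g0, hg0⟩ := (G.ex0 _).1 hV
  by_cases hu : ∃ c, IsUnit (g0 c)
  · right
    obtain ⟨c, u, hc⟩ := hu
    refine ⟨t, g0, Pi.single c (↑u⁻¹ : S ⧸ I), ht, hg0.symm, ?_⟩
    rw [Finset.sum_eq_single c]
    · rw [Pi.single_eq_same, ← hc, Units.inv_mul]
    · intro c' _ hne
      rw [Pi.single_eq_of_ne hne, zero_mul]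
    · intro h
      exact absurd (Finset.mem_univ c) h
  · left
    push Not at hu
    have hlift : ∀ c, ∃ r : Fin n → S, g0 c = Ideal.Quotient.mk I (∑ l, r l * x l) := by
      intro c
      obtain ⟨s, hs⟩ := Ideal.Quotient.mk_surjective (g0 c)
      have h1 : s ∈ maximalIdeal S := by
        rw [IsLocalRing.mem_maximalIdeal]
        intro h2
        apply hu c
        rw [← hs]
        exact h2.map _
      rw [← hx] at h1
      obtain ⟨r, hr⟩ := (Ideal.mem_span_range_iff_exists_fun).1 h1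
      exact ⟨r, by rw [hr, hs]⟩
    choose r hr using hlift
    obtain ⟨gl, hgl⟩ : ∃ gl : Fin n → Fin (G.b 1) → S ⧸ I, ∀ l c, gl l c = Ideal.Quotient.mk I (r c l) :=
      ⟨_, fun _ _ => rfl⟩
    have hg : g0 = ∑ l, Ideal.Quotient.mk I (x l) • gl l := by
      funext c
      rw [hr c, map_sum, Finset.sum_apply]
      refine Finset.sum_congr rfl fun l _ => ?_
      rw [Pi.smul_apply, hgl, smul_eq_mul, map_mul, mul_comm]
    refine r7_sep hI x hx w f hf hfI g δ hδ heul del hdel G.pi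
      (fun l => Ideal.Quotient.mk I (w l : S) • t l - (G.dm 0).mulVec (gl l)) (fun l => ?_) (fun j => ?_)
    · rw [map_sub, (G.ex0 _).2 ⟨gl l, rfl⟩, sub_zero, map_smul, r7_hom, ht]
    · have h8 : ∑ l, Ideal.Quotient.mk I (x l) •
          (Ideal.Quotient.mk I (w l : S) • t l - (G.dm 0).mulVec (gl l)) = 0 := by
        have h9 : (G.dm 0).mulVec g0 = ∑ l, Ideal.Quotient.mk I (x l) • (G.dm 0).mulVec (gl l) := by
          rw [hg]
          have h10 := map_sum (Matrix.mulVecLin (G.dm 0)) (fun l => Ideal.Quotient.mk I (x l) • gl l) Finset.univ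
          simp only [Matrix.mulVecLin_apply, Matrix.mulVec_smul] at h10
          exact h10
        simp only [smul_sub, Finset.sum_sub_distrib]
        rw [← h9, ← hg0, sub_eq_zero]
        refine Finset.sum_congr rfl fun l _ => ?_
        rw [smul_smul, ← map_mul, mul_comm (x l)]
      have h11 := congrFun h8 j
      rw [Finset.sum_apply, Pi.zero_apply] at h11
      exact h11

end Pool.Agent.Lib.H44X
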