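import Pool.Agent.Lib.H44V.Fin
import Pool.Agent.Lib.H44X.Defs

/-!
Definitions for the module R: minimal resolutions as matrices, splitting ideal, dual bases.
-/

set_option autoImplicit false
open CategoryTheory CategoryTheory.Abelian IsLocalRing
open Pool.Agent.Lib.Helper92 Pool.Agent.Lib.H44V

namespace Pool.Agent.Lib.H44X
universe u

/-- the normal module `Hom(I/I², S/I)`. -/
abbrev NN {S : Type u} [CommRing S] (I : Ideal S) : Type u := I.Cotangent →ₗ[S ⧸ I] (S ⧸ I)

/-- a minimal free resolution of `N`, in matrix form. -/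
structure MRes (R : Type u) [CommRing R] [IsLocalRing R] (N : Type u) [AddCommGroup N]
    [Module R N] where
  b : ℕ → ℕ
  dm : ∀ j, Matrix (Fin (b j)) (Fin (b (j + 1))) R
  pi : (Fin (b 0) → R) →ₗ[R] N
  surj : Function.Surjective pi
  ex0 : ∀ v, pi v = 0 ↔ ∃ w, v = (dm 0).mulVec w
  ex : ∀ j v, (dm j).mulVec v = 0 ↔ ∃ w, v = (dm (j + 1)).mulVec w
  min : ∀ j a c, dm j a c ∈ maximalIdeal R

/-- the elements `u` such that `u` times the identity of `N` factors through `π`. -/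
def splitIdeal {R : Type u} [CommRing R] {b : ℕ} {N : Type u} [AddCommGroup N] [Module R N]
    (π : (Fin b → R) →ₗ[R] N) : Ideal R where
  carrier := {u | ∃ σ : N →ₗ[R] (Fin b → R), ∀ x, π (σ x) = u • x}
  zero_mem' := ⟨0, fun x => by simp⟩
  add_mem' := by
    rintro u v ⟨σ, hσ⟩ ⟨τ, hτ⟩
    exact ⟨σ + τ, fun x => by rw [LinearMap.add_apply, map_add, hσ, hτ, add_smul]⟩
  smul_mem' := by
    rintro c u ⟨σ, hσ⟩
    exact ⟨c • σ, fun x => by rw [LinearMap.smul_apply, map_smul, hσ, smul_assoc]⟩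

/-- the normal module has a dual basis in `I`, up to an element outside `q`. -/
def DB {S : Type u} [CommRing S] (I q : Ideal S) : Prop :=
  ∃ (r : ℕ) (f : Fin r → I) (φ : Fin r → (I →ₗ[S] (S ⧸ I))) (u : S), u ∉ q ∧
    ∀ (ψ : I →ₗ[S] (S ⧸ I)) (y : I), Ideal.Quotient.mk I u * ψ y = ∑ j, ψ (f j) * φ j y

/-- the normal module separates the points of `I/𝔪I`. -/
def Sep {S : Type u} [CommRing S] [IsLocalRing S] (I : Ideal S) : Prop :=
  ∀ y : I, (∀ φ : I →ₗ[S] (S ⧸ I), ∃ a ∈ maximalIdeal S, φ y = Ideal.Quotient.mk I a) →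
    (y : S) ∈ maximalIdeal S * I

end Pool.Agent.Lib.H44X
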