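import Pool.Agent.Lib.H21V.Z6B
import Pool.Agent.Lib.H21V.Z6A
import Pool.Agent.Lib.H44V.F3
import Pool.Agent.Lib.H44X.RDefs

/-!
T9. Transport of the statement along a ring isomorphism.
-/

set_option autoImplicit false
open CategoryTheory CategoryTheory.Abelian IsLocalRing
open Pool.Agent.Lib.Helper92 Pool.Agent.Lib.H44V Pool.Agent.H21V

namespace Pool.Agent.Lib.H44X
universe u

theorem t9_pd {S S' : Type u} [CommRing S] [CommRing S'] (e : S ≃+* S') (I : Ideal S)
    (I' : Ideal S') (hI : I' = I.map (e : S →+* S')) (n : ℕ)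
    (h : HasProjectiveDimensionLT (ModuleCat.of (S' ⧸ I') (NN I')) n) :
    HasProjectiveDimensionLT (ModuleCat.of (S ⧸ I) (NN I)) n := by
  classical
  have hmem : ∀ y : I, e (y : S) ∈ I' := fun y => by
    rw [hI]
    exact Ideal.mem_map_of_mem (e : S →+* S') y.2
  have hmem' : ∀ y ∈ I', e.symm y ∈ I := fun y hy => by
    rw [hI] at hy
    obtain ⟨z, hz, rfl⟩ := (Ideal.mem_map_of_equiv e y).mp hy
    simpa using hz
  let eq : (S ⧸ I) ≃+* (S' ⧸ I') := Ideal.quotientEquiv I I' e hI
  have heq : ∀ s : S, eq (Ideal.Quotient.mk I s) = Ideal.Quotient.mk I' (e s) := fun s => rfl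
  letI alg : Algebra (S' ⧸ I') (S ⧸ I) := (eq.symm : (S' ⧸ I') →+* (S ⧸ I)).toAlgebra
  have halg : ∀ z, algebraMap (S' ⧸ I') (S ⧸ I) z = eq.symm z := fun z => rfl
  haveI : IsLocalization (⊥ : Submonoid (S' ⧸ I')) (S ⧸ I) := by
    refine ⟨⟨?_, ?_, ?_⟩⟩
    · rintro ⟨y, hy⟩
      rw [Submonoid.mem_bot] at hy
      subst hy
      simp
    · intro z
      refine ⟨(eq z, 1), ?_⟩
      simp [halg]
    · intro x y hxy
      refine ⟨1, ?_⟩
      have : x = y := eq.symm.injective hxy
      rw [this]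
  -- the map on homomorphisms
  let g : (I' →ₗ[S'] (S' ⧸ I')) → (I →ₗ[S] (S ⧸ I)) := fun f =>
    { toFun := fun y => eq.symm (f ⟨e y, hmem y⟩)
      map_add' := fun y z => by
        have h1 : (⟨e ((y + z : I) : S), hmem (y + z)⟩ : I') = ⟨e y, hmem y⟩ + ⟨e z, hmem z⟩ := by
          apply Subtype.ext
          simp
        rw [h1, map_add, map_add]
      map_smul' := fun s y => by
        have h1 : (⟨e ((s • y : I) : S), hmem (s • y)⟩ : I') = e s • ⟨e y, hmem y⟩ := by
          apply Subtype.ext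
          simp
        rw [h1, map_smul, RingHom.id_apply]
        obtain ⟨c, hc⟩ := Ideal.Quotient.mk_surjective (f ⟨e y, hmem y⟩)
        rw [← hc]
        have h2 : e s • Ideal.Quotient.mk I' c = Ideal.Quotient.mk I' (e s) * Ideal.Quotient.mk I' c := rfl
        rw [h2, map_mul, ← heq s, RingEquiv.symm_apply_apply]
        rfl }
  have hg : ∀ f y, g f y = eq.symm (f ⟨e y, hmem y⟩) := fun f y => rfl
  choose F hF using fun f : NN I' => toHom_surj (g (toHom f))
  have hadd : ∀ f f', F (f + f') = F f + F f' := by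
    intro f f'
    apply z6b_inj
    rw [z6b_add, hF, hF, hF, z6b_add]
    ext y
    rw [LinearMap.add_apply, hg, hg, hg, LinearMap.add_apply, map_add]
  have hzero : F 0 = 0 := by
    have := hadd 0 0
    rw [add_zero] at this
    exact left_eq_add.mp this
  refine pd_base (⊥ : Submonoid (S' ⧸ I')) n (NN I') h (NN I)
    { toFun := F, map_zero' := hzero, map_add' := hadd } ?_ ?_ ?_
  · intro r f
    show F (r • f) = algebraMap (S' ⧸ I') (S ⧸ I) r • F f
    obtain ⟨r, rfl⟩ := Ideal.Quotient.mk_surjective r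
    have h1 : algebraMap (S' ⧸ I') (S ⧸ I) (Ideal.Quotient.mk I' r) = Ideal.Quotient.mk I (e.symm r) := by
      rw [halg, RingEquiv.symm_apply_eq, heq, RingEquiv.apply_symm_apply]
    apply z6b_inj
    rw [hF]
    ext y
    rw [hg]
    obtain ⟨c, hc⟩ := Ideal.Quotient.mk_surjective (toHom f ⟨e y, hmem y⟩)
    have h2 : toHom (Ideal.Quotient.mk I' r • f) ⟨e y, hmem y⟩ = Ideal.Quotient.mk I' r * toHom f ⟨e y, hmem y⟩ := rfl
    have h3 : toHom (algebraMap (S' ⧸ I') (S ⧸ I) (Ideal.Quotient.mk I' r) • F f) y =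
        algebraMap (S' ⧸ I') (S ⧸ I) (Ideal.Quotient.mk I' r) * toHom (F f) y := rfl
    rw [h2, h3, hF, hg, map_mul]
    rfl
  · intro z
    refine ⟨1, Submonoid.one_mem _, ?_⟩
    -- surjectivity
    let g' : I' →ₗ[S'] (S' ⧸ I') :=
      { toFun := fun y => eq (toHom z ⟨e.symm y, hmem' y y.2⟩)
        map_add' := fun y y' => by
          have h1 : (⟨e.symm ((y + y' : I') : S'), hmem' _ (y + y').2⟩ : I) =
              ⟨e.symm y, hmem' y y.2⟩ + ⟨e.symm y', hmem' y' y'.2⟩ := by
            apply Subtype.ext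
            simp
          rw [h1, map_add, map_add]
        map_smul' := fun s y => by
          have h1 : (⟨e.symm ((s • y : I') : S'), hmem' _ (s • y).2⟩ : I) =
              e.symm s • ⟨e.symm y, hmem' y y.2⟩ := by
            apply Subtype.ext
            simp
          rw [h1, map_smul, RingHom.id_apply]
          obtain ⟨c, hc⟩ := Ideal.Quotient.mk_surjective (toHom z ⟨e.symm y, hmem' y y.2⟩)
          rw [← hc]
          have h2 : e.symm s • Ideal.Quotient.mk I c = Ideal.Quotient.mk I (e.symm s) * Ideal.Quotient.mk I c := rfl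
          rw [h2, map_mul, heq, RingEquiv.apply_symm_apply]
          rfl }
    obtain ⟨f, hf⟩ := toHom_surj g'
    refine ⟨f, ?_⟩
    show algebraMap (S' ⧸ I') (S ⧸ I) 1 • z = F f
    rw [map_one, one_smul]
    apply z6b_inj
    rw [hF, hf]
    ext y
    rw [hg]
    show toHom z y = eq.symm (eq (toHom z ⟨e.symm (e y), _⟩))
    rw [RingEquiv.symm_apply_apply]
    congr 1
    apply Subtype.ext
    simp
  · intro f hf
    refine ⟨1, Submonoid.one_mem _, ?_⟩
    rw [one_smul]
    have hf' : F f = 0 := hf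
    apply z6b_inj
    rw [z6b_zero]
    ext y
    have h1 : toHom (F f) ⟨e.symm y, hmem' y y.2⟩ = 0 := by
      rw [hf', z6b_zero]
      rfl
    rw [hF, hg] at h1
    have h2 : toHom f ⟨e (e.symm y), hmem ⟨e.symm y, hmem' y y.2⟩⟩ = 0 := by
      have := congrArg eq h1
      rwa [RingEquiv.apply_symm_apply, map_zero] at this
    have h3 : (⟨e (e.symm (y : S')), hmem ⟨e.symm y, hmem' y y.2⟩⟩ : I') = y := by
      apply Subtype.ext
      simp
    rw [h3] at h2
    exact h2

theorem t9_ci {S S' : Type u} [CommRing S] [CommRing S'] (e : S ≃+* S') (I : Ideal S)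
    (I' : Ideal S') (hI : I' = I.map (e : S →+* S')) (r : ℕ) (h : CI I r) : CI I' r := by
  obtain ⟨x, hreg, hx⟩ := h
  refine ⟨fun i => e (x i), fun j hj => ?_, ?_⟩
  · have hJ : Jx (fun i => e (x i)) j = (Jx x j).map (e : S →+* S') :=
      (F3_Jx_map (e : S →+* S') x j).symm
    let q : (S ⧸ Jx x j) ≃+* (S' ⧸ Jx (fun i => e (x i)) j) :=
      Ideal.quotientEquiv (Jx x j) (Jx (fun i => e (x i)) j) e hJ
    intro a b hab
    obtain ⟨a, rfl⟩ := q.surjective a
    obtain ⟨b, rfl⟩ := q.surjective b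
    have h1 : ∀ c : S ⧸ Jx x j, e (x j) • q c = q (x j • c) := by
      intro c
      obtain ⟨c, rfl⟩ := Ideal.Quotient.mk_surjective c
      show Ideal.Quotient.mk _ (e (x j) * e c) = q (Ideal.Quotient.mk _ (x j * c))
      rw [← map_mul]
      rfl
    have h2 : e (x j) • q a = e (x j) • q b := hab
    rw [h1, h1] at h2
    rw [hreg j hj (q.injective h2)]
  · rw [hI, ← hx]
    exact (F3_Jx_map (e : S →+* S') x r).symm

end Pool.Agent.Lib.H44X
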