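import Pool.Agent.Lib.H44V.Defs
import Pool.Agent.Lib.H44X.Cone
import Pool.Agent.Lib.H44X.Defs

/-!
W2 (S/M). Regular sequences on the free module of forms, and contraction modulo an ideal.

* w2_mem: for an ideal `𝔞` of `C`: `v ∈ 𝔞 • ⊤` (in `VV k d C`) iff `coef l v ∈ 𝔞` for all `l`.
  `→`: linearity of `coef l`. `←`: `v = ∑_i c_i ⊗ b_i` for a `k`-basis `b` of `Λ`
  (`Basis.baseChange` or Algebra.TensorProduct.basis), `c_i = coef (b.coord i) v ∈ 𝔞`,
  `c ⊗ b = c • (1 ⊗ b)`.
* w2_jx: `Ideal.span (β '' {i | i < j}) = Jx β j` (induction on `j`, `Jx β (j+1) = Jx β j ⊔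
  span {β j}`).
* w2_reg: if `β_j` is regular on `C/(β_0, …, β_(j-1))` for `j < M` then `RegSeq β (VV k d C) M`:
  by w2_mem and w2_jx this is: `β_j coef l v ∈ Jx β j → coef l v ∈ Jx β j`
  (`H44V.R1_reg_iff` or directly: `IsSMulRegular (C ⧸ Jx β j) (β j)` applied to the class).
* w2_con: if all `e_j ∈ 𝔪` then `coef l (con e v) ∈ 𝔪` for all `l` and `v`: `con e v` is a sum of
  multiples `e_j • (..)` (definition of `con`), `coef l` is linear.
* w2_one: `coef l₀ 1 = 1` for `l₀ = ExteriorAlgebra.algebraMapInv`.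
-/

set_option autoImplicit false
open TensorProduct
open Pool.Agent.Lib.Helper92 Pool.Agent.Lib.H44V

namespace Pool.Agent.Lib.H44X
universe u
variable {k : Type u} [Field k] {d : ℕ} {C : Type u} [CommRing C] [Algebra k C]

theorem w2_tmul (l : Module.Dual k (Lam k d)) (c : C) (x : Lam k d) :
    coef l (c ⊗ₜ[k] x) = l x • c := by
  unfold coef
  rw [Module.Dual.baseChange_apply_tmul]

theorem w2_mem (𝔞 : Ideal C) (v : VV k d C) :
    v ∈ 𝔞 • (⊤ : Submodule C (VV k d C)) ↔ ∀ l, coef l v ∈ 𝔞 := by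
  constructor
  · intro hv l
    refine Submodule.smul_induction_on hv (fun a ha x _ => ?_) (fun x y hx hy => ?_)
    · rw [map_smul, smul_eq_mul]
      exact Ideal.mul_mem_right _ _ ha
    · rw [map_add]
      exact add_mem hx hy
  · intro h
    let b := Module.Basis.ofVectorSpace k (Lam k d)
    have hr : ∀ (v : VV k d C) i, (b.baseChange C).repr v i = coef (b.coord i) v := by
      intro v i
      induction v using TensorProduct.induction_on with
      | zero => rw [map_zero, map_zero, Finsupp.zero_apply]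
      | add x y hx hy => rw [map_add, Finsupp.add_apply, hx, hy, map_add]
      | tmul c x =>
        rw [Module.Basis.baseChange_repr_tmul, w2_tmul]
        rfl
    have h1 := (b.baseChange C).linearCombination_repr v
    rw [Finsupp.linearCombination_apply, Finsupp.sum] at h1
    rw [← h1]
    refine Submodule.sum_mem _ fun i _ => Submodule.smul_mem_smul ?_ Submodule.mem_top
    rw [hr]
    exact h _

theorem w2_jx (β : ℕ → C) (j : ℕ) : Ideal.span (β '' {i | i < j}) = Jx β j := by
  induction j with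
  | zero =>
    have h1 : {i : ℕ | i < 0} = ∅ := by
      ext i
      simp
    rw [h1, Set.image_empty, Ideal.span_empty]
    rfl
  | succ j ih =>
    have h1 : {i : ℕ | i < j + 1} = {i | i < j} ∪ {j} := by
      ext i
      simp only [Set.mem_ofPred_eq, Set.mem_union, Set.mem_singleton_iff]
      omega
    rw [h1, Set.image_union, Ideal.span_union, ih, Set.image_singleton]
    rfl

theorem w2_reg (β : ℕ → C) (M : ℕ) (h : ∀ j < M, IsSMulRegular (C ⧸ Jx β j) (β j)) :
    RegSeq β (VV k d C) M := by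
  intro j hj v hv
  rw [w2_jx, w2_mem] at hv ⊢
  intro l
  have h1 := hv l
  rw [map_smul, smul_eq_mul] at h1
  have h2 : β j • (Ideal.Quotient.mk (Jx β j) (coef l v)) = β j • (0 : C ⧸ Jx β j) := by
    rw [smul_zero]
    exact Ideal.Quotient.eq_zero_iff_mem.2 h1
  exact Ideal.Quotient.eq_zero_iff_mem.1 (h j hj h2)

theorem w2_con (𝔪 : Ideal C) (e : Fin d → C) (he : ∀ j, e j ∈ 𝔪) (v : VV k d C)
    (l : Module.Dual k (Lam k d)) : coef l (con e v) ∈ 𝔪 := by
  unfold con
  rw [LinearMap.sum_apply, map_sum]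
  refine sum_mem fun j _ => ?_
  rw [LinearMap.smul_apply, map_smul, smul_eq_mul]
  exact Ideal.mul_mem_right _ _ (he j)

theorem w2_one : coef (ExteriorAlgebra.algebraMapInv (R := k)
    (M := Fin d → k)).toLinearMap (1 : VV k d C) = 1 := by
  rw [Algebra.TensorProduct.one_def, w2_tmul, AlgHom.toLinearMap_apply, map_one, one_smul]

end Pool.Agent.Lib.H44X
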