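import Pool.Agent.Lib.H44X.F4
import Pool.Agent.Lib.H44X.F5
import Pool.Agent.Lib.H44X.W1
import Pool.Agent.Lib.H44X.W2

/-!
W3 (M). The final contradiction: there is no closed element `Θ` of the iterated cone over `K` with
bottom component 1, no top component, and coefficients whose traces lie in the local ring `C`.

`C` is a local ring inside the field `L`, `K/L` finite, `β_0, …, β_(M-1)` a regular sequence of
`C`, `e_j ∈ 𝔪_C`, and `D = DD β (con e)`.
Proof. `Θ₁ = mapF trV M Θ : FF (VV k d L) M` satisfies `DD β_L (con e_L) M Θ₁ = 0` (f4_map_DD with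
`f = trV`, w1_smul, w1_con; f4_map_zero), `top Θ₁ = trV (top Θ) = 0`, `bot Θ₁ = trV 1 = r • 1`,
`r = [K:L]` (f4_map_top, f4_map_bot, w1_one). All coefficients of `Θ₁` are in the image of
`bcV : VV k d C → VV k d L` (f4_map_all, w1_coef, w1_mem), so `Θ₁ = mapF bcV M Θ₂` (f4_lift).
By injectivity of `bcV` (w1_bc_inj, f4_inj, and f4_map_DD, f4_map_bot, f4_map_top with `f = bcV`):
`DD β (con e) M Θ₂ = 0`, `top Θ₂ = 0` and `bcV (bot Θ₂) = r • 1`. f5_claim (`T = con e`, v1_con_sq,
RegSeq by w2_reg) gives `bot Θ₂ = con e x`. So `coef l₀ (bot Θ₂) ∈ 𝔪_C` (w2_con) while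
`algebraMap (coef l₀ (bot Θ₂)) = coef l₀ (r • 1) = r` (w1_bc_coef, w2_one). `C → L` is injective, so
`(r : C) ∈ 𝔪_C`; but `r > 0` is invertible in `k`, so `(r : C)` is a unit. Contradiction.
-/

set_option autoImplicit false
open TensorProduct IsLocalRing
open Pool.Agent.Lib.Helper92 Pool.Agent.Lib.H44V

namespace Pool.Agent.Lib.H44X
universe u

theorem w3_false {k : Type u} [Field k] [CharZero k] {d : ℕ} {C L K : Type u} [CommRing C]
    [IsLocalRing C] [Field L] [Field K] [Algebra k C] [Algebra k L] [Algebra k K] [Algebra C L]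
    [Algebra L K] [IsScalarTower k C L] [IsScalarTower k L K] [FiniteDimensional L K]
    (hinj : Function.Injective (algebraMap C L)) (β : ℕ → C) (e : Fin d → C)
    (he : ∀ j, e j ∈ maximalIdeal C) (M : ℕ)
    (hreg : ∀ j < M, IsSMulRegular (C ⧸ Jx β j) (β j)) (Θ : FF (VV k d K) M)
    (hD : DD (fun i => algebraMap L K (algebraMap C L (β i)))
      (con fun j => algebraMap L K (algebraMap C L (e j))) M Θ = 0)
    (htop : topF K (VV k d K) M Θ = 0) (hbot : botF K (VV k d K) M Θ = 1)
    (hall : AllIn (fun v : VV k d K => ∀ l : Module.Dual k (Lam k d), ∃ r : C,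
      Algebra.trace L K (coef l v) = algebraMap C L r) M Θ) : False := by
  obtain ⟨trA, htrA⟩ : ∃ trA : VV k d K →+ VV k d L, ∀ v, trA v = trV (L := L) v :=
    ⟨(trV (k := k) (d := d) (L := L) (K := K)).toAddMonoidHom, fun _ => rfl⟩
  obtain ⟨f, hf⟩ : ∃ f : C →ₐ[k] L, ∀ c, f c = algebraMap C L c := ⟨IsScalarTower.toAlgHom k C L, fun _ => rfl⟩
  obtain ⟨bcA, hbcA⟩ : ∃ bcA : VV k d C →+ VV k d L, ∀ v, bcA v = bcV f v :=
    ⟨(bcV (d := d) f).toLinearMap.toAddMonoidHom, fun _ => rfl⟩
  have hfinj : Function.Injective f := fun a b hab => hinj (by rw [← hf, ← hf, hab])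
  have hbinj : Function.Injective bcA := fun a b hab => w1_bc_inj f hfinj (by rw [← hbcA, ← hbcA, hab])
  -- the trace of `Θ`
  have h1 : DD (fun i => algebraMap C L (β i)) (con fun j => algebraMap C L (e j)) M (mapF trA M Θ) = 0 := by
    rw [← f4_map_DD trA (fun i => algebraMap L K (algebraMap C L (β i))) (fun i => algebraMap C L (β i))
      (con fun j => algebraMap L K (algebraMap C L (e j))) (con fun j => algebraMap C L (e j)), hD, f4_map_zero]
    · intro i x
      rw [htrA, htrA, w1_smul]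
    · intro x
      rw [htrA, htrA, w1_con]
  have h2 : topF L (VV k d L) M (mapF trA M Θ) = 0 := by
    rw [f4_map_top (C := K), htop, map_zero]
  have h3 : botF L (VV k d L) M (mapF trA M Θ) = ((Module.finrank L K : ℕ) : L) • (1 : VV k d L) := by
    rw [f4_map_bot (C := K), hbot, htrA, w1_one]
  have h4 : AllIn (fun y => ∃ x, bcA x = y) M (mapF trA M Θ) := by
    refine f4_map_all trA _ _ ?_ M Θ hall
    intro v hv
    obtain ⟨v', hv'⟩ := w1_mem f (trA v) (fun l => by
      obtain ⟨r, hr⟩ := hv l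
      refine ⟨r, ?_⟩
      rw [hf, htrA, w1_coef, hr])
    exact ⟨v', by rw [hbcA, hv']⟩
  obtain ⟨Θ₂, hΘ₂⟩ := f4_lift bcA M _ h4
  rw [← hΘ₂] at h1 h2 h3
  have h5 : DD β (con e) M Θ₂ = 0 := by
    apply f4_inj bcA hbinj M
    rw [f4_map_zero, ← h1]
    refine f4_map_DD bcA β (fun i => algebraMap C L (β i)) (con e) (con fun j => algebraMap C L (e j)) ?_ ?_ M Θ₂
    · intro i x
      rw [hbcA, hbcA, w1_bc_smul, hf]
    · intro x
      rw [hbcA, hbcA, w1_bc_con]
      have : (fun j => f (e j)) = fun j => algebraMap C L (e j) := funext fun j => hf _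
      rw [this]
  have h6 : topF C (VV k d C) M Θ₂ = 0 := by
    apply hbinj
    rw [map_zero, ← f4_map_top (C := C) (C' := L), h2]
  have h7 := f5_claim β (con e) (fun x => v1_con_sq e x) M (w2_reg β M hreg) Θ₂ h5 h6
  obtain ⟨x, hx⟩ := h7
  have h8 : coef (ExteriorAlgebra.algebraMapInv (R := k) (M := Fin d → k)).toLinearMap
      (botF C (VV k d C) M Θ₂) ∈ maximalIdeal C := by
    rw [← hx]
    exact w2_con (maximalIdeal C) e he x _
  have h9 : algebraMap C L (coef (ExteriorAlgebra.algebraMapInv (R := k) (M := Fin d → k)).toLinearMap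
      (botF C (VV k d C) M Θ₂)) = algebraMap C L ((Module.finrank L K : ℕ) : C) := by
    rw [← hf, ← w1_bc_coef, ← hbcA, ← f4_map_bot (C := C) (C' := L), h3, map_smul, w2_one, smul_eq_mul, mul_one,
      map_natCast]
  rw [hinj h9] at h8
  have h10 : 0 < Module.finrank L K := Module.finrank_pos
  have h11 : IsUnit ((Module.finrank L K : ℕ) : C) := by
    have h12 : ((Module.finrank L K : ℕ) : C) = algebraMap k C ((Module.finrank L K : ℕ) : k) := by
      rw [map_natCast]
    rw [h12]
    refine IsUnit.map _ (IsUnit.mk0 _ ?_)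
    exact_mod_cast h10.ne'
  exact (IsLocalRing.mem_maximalIdeal _).1 h8 h11

end Pool.Agent.Lib.H44X
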