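import Pool.Agent.Lib.H44X.F1
import Pool.Agent.Lib.H44X.F2
import Pool.Agent.Lib.H44X.X1

/-!
X2 (M). The closed element `Θ = p·ξ_1 - ∑_q ζ_q·ξ_(q+2)` of the iterated cone.

Notation: `D = DD β T M`; by f1_DD `D v = ∑_{i<M} β_i e_i v + TT v`, so x1_xi (with `E i = EE K V M i`,
`T = TT T M`, hypotheses f1_anti, f1_TT) says `mv (dm j) ξ_(j+1) a = D (ξ_j a)`.

* x2_xi: that statement.
* x2_theta: `D Θ = 0`. `D (∑_a p_a ξ_1(a)) = ∑_a p_a D ξ_1(a) = ∑_a p_a ∑_c dm_1(a,c) ξ_2(c)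
  = ∑_c (∑_a p_a dm_1(a,c)) ξ_2(c)`. By f2_leib, `D (ζ_q(a)·ξ_(q+2)(a)) = T(ζ_q(a))·ξ_(q+2)(a) +
  σ(ζ_q(a))·D ξ_(q+2)(a)` and `D ξ_(q+2)(a) = ∑_c dm_(q+2)(a,c) ξ_(q+3)(c)`. Put
  `S_q = ∑_a T(ζ_q(a))·ξ_(q+2)(a)`. By hζ, `∑_a σ(ζ_q(a))·∑_c dm_(q+2)(a,c) ξ_(q+3)(c) =
  ∑_c (∑_a dm_(q+2)(a,c) σ(ζ_q(a)))·ξ_(q+3)(c) = - ∑_c T(ζ_(q+1)(c))·ξ_(q+3)(c) = - S_(q+1)`
  (f2_LM_add, f2_LM_smul, f2_LM_neg; write a lemma for finite sums). So `D` of the q-th sum is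
  `S_q - S_(q+1)`; telescoping (Finset.sum_range_sub'), `∑_{q<s} = S_0 - S_s`, `S_s = 0` because
  `b (s+2) = 0` (`Fin (b (s+2))` is empty), and `S_0 = ∑_a (c_a • 1)·ξ_2(a) = ∑_a c_a ξ_2(a)` by hc
  (f2_LM_smul and `LM 1 v = v`, induction, `σ 1 = 1`: hypothesis hσ1).
-/

set_option autoImplicit false

namespace Pool.Agent.Lib.H44X
universe u
variable {K : Type u} [Field K] {V : Type u} [Ring V] [Algebra K V] {b : ℕ → ℕ}

/-- the element `Θ`. -/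
noncomputable def theta (σ : V →ₗ[K] V) (M : ℕ)
    (hm : ℕ → ∀ j, Matrix (Fin (b (j + 1))) (Fin (b j)) K) (ρ : Fin (b 0) → FF V M)
    (g : Fin (b 1) → FF V M) (p : Fin (b 1) → K) (ζ : ∀ q, Fin (b (q + 2)) → V) (s : ℕ) :
    FF V M :=
  ∑ a, p a • xi (EE K V M) M hm ρ g 1 a -
    ∑ q ∈ Finset.range s, ∑ a, LM K σ M (ζ q a) (xi (EE K V M) M hm ρ g (q + 2) a)

theorem x2_xi [CharZero K] (M : ℕ)
    (hm : ℕ → ∀ j, Matrix (Fin (b (j + 1))) (Fin (b j)) K)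
    (dm : ∀ j, Matrix (Fin (b j)) (Fin (b (j + 1))) K) (β : ℕ → K) (T : V →ₗ[K] V)
    (hh : ∀ i < M, ∀ j, dm (j + 1) * hm i (j + 1) + hm i j * dm j =
      β i • (1 : Matrix (Fin (b (j + 1))) (Fin (b (j + 1))) K))
    (ρ : Fin (b 0) → FF V M) (hρ : ∀ i < M, ∀ a, mv (dm 0 * hm i 0) ρ a = β i • ρ a)
    (g : Fin (b 1) → FF V M) (hg : ∀ a, TT T M (g a) = 0)
    (hgρ : ∀ a, mv (dm 0) g a = TT T M (ρ a)) (j : ℕ) (a : Fin (b j)) :
    mv (dm j) (xi (EE K V M) M hm ρ g (j + 1)) a = DD β T M (xi (EE K V M) M hm ρ g j a) := by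
  rw [x1_xi (EE K V M) M hm dm β (TT T M) (fun i j v => f1_anti M i j v) (fun i v => f1_TT T M i v) hh ρ hρ g hg
    hgρ j a, f1_DD]

theorem x2_LM_sum {ι : Type*} (σ : V →ₗ[K] V) (M : ℕ) (s : Finset ι) (f : ι → V) (v : FF V M) :
    LM K σ M (∑ i ∈ s, f i) v = ∑ i ∈ s, LM K σ M (f i) v := by
  let h : V →+ FF V M :=
    { toFun := fun x => LM K σ M x v
      map_zero' := f2_LM_zero σ M v
      map_add' := fun x y => f2_LM_add σ M x y v }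
  exact map_sum h f s

theorem x2_LM_one (σ : V →ₗ[K] V) (hσ1 : σ 1 = 1) (M : ℕ) (v : FF V M) : LM K σ M 1 v = v := by
  induction M with
  | zero => exact one_mul (show V from v)
  | succ M ih =>
    rw [LM_succ, hσ1]
    exact extF (ih _) (ih _)

theorem x2_theta [CharZero K] (σ : V →ₗ[K] V) (hσ : ∀ x, σ (σ x) = x) (hσ1 : σ 1 = 1) (M : ℕ)
    (hm : ℕ → ∀ j, Matrix (Fin (b (j + 1))) (Fin (b j)) K)
    (dm : ∀ j, Matrix (Fin (b j)) (Fin (b (j + 1))) K) (β : ℕ → K) (T : V →ₗ[K] V)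
    (hT : ∀ x y, T (x * y) = T x * y + σ x * T y) (hTσ : ∀ x, T (σ x) = -(σ (T x)))
    (hh : ∀ i < M, ∀ j, dm (j + 1) * hm i (j + 1) + hm i j * dm j =
      β i • (1 : Matrix (Fin (b (j + 1))) (Fin (b (j + 1))) K))
    (ρ : Fin (b 0) → FF V M) (hρ : ∀ i < M, ∀ a, mv (dm 0 * hm i 0) ρ a = β i • ρ a)
    (g : Fin (b 1) → FF V M) (hg : ∀ a, TT T M (g a) = 0)
    (hgρ : ∀ a, mv (dm 0) g a = TT T M (ρ a))
    (p : Fin (b 1) → K) (ζ : ∀ q, Fin (b (q + 2)) → V)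
    (hc : ∀ a, T (ζ 0 a) = (∑ c, p c * dm 1 c a) • (1 : V))
    (hζ : ∀ q a, T (ζ (q + 1) a) = -∑ c, dm (q + 2) c a • σ (ζ q c))
    (s : ℕ) (hb : ∀ j, s < j → b j = 0) :
    DD β T M (theta σ M hm ρ g p ζ s) = 0 := by
  have hD : ∀ j a, DD β T M (xi (EE K V M) M hm ρ g j a) = ∑ c, dm j a c • xi (EE K V M) M hm ρ g (j + 1) c :=
    fun j a => (x2_xi M hm dm β T hh ρ hρ g hg hgρ j a).symm
  have hS0 : ∑ a, LM K σ M (T (ζ 0 a)) (xi (EE K V M) M hm ρ g (0 + 2) a) =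
      ∑ a, (∑ c, p c * dm 1 c a) • xi (EE K V M) M hm ρ g 2 a := by
    refine Finset.sum_congr rfl fun a _ => ?_
    rw [hc, f2_LM_smul, x2_LM_one σ hσ1]
  have h1 : DD β T M (∑ a, p a • xi (EE K V M) M hm ρ g 1 a) =
      ∑ a, (∑ c, p c * dm 1 c a) • xi (EE K V M) M hm ρ g 2 a := by
    rw [map_sum]
    have h2 : ∀ a ∈ Finset.univ, DD β T M (p a • xi (EE K V M) M hm ρ g 1 a) =
        ∑ c, (p a * dm 1 a c) • xi (EE K V M) M hm ρ g 2 c := by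
      intro a _
      rw [map_smul, hD, Finset.smul_sum]
      exact Finset.sum_congr rfl fun c _ => (mul_smul _ _ _).symm
    rw [Finset.sum_congr rfl h2, Finset.sum_comm]
    exact Finset.sum_congr rfl fun a _ => (Finset.sum_smul).symm
  have h3 : ∀ q, DD β T M (∑ a, LM K σ M (ζ q a) (xi (EE K V M) M hm ρ g (q + 2) a)) =
      ∑ a, LM K σ M (T (ζ q a)) (xi (EE K V M) M hm ρ g (q + 2) a) -
        ∑ a, LM K σ M (T (ζ (q + 1) a)) (xi (EE K V M) M hm ρ g (q + 1 + 2) a) := by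
    intro q
    rw [map_sum]
    have h4 : ∀ a ∈ Finset.univ, DD β T M (LM K σ M (ζ q a) (xi (EE K V M) M hm ρ g (q + 2) a)) =
        LM K σ M (T (ζ q a)) (xi (EE K V M) M hm ρ g (q + 2) a) +
          ∑ c, dm (q + 2) a c • LM K σ M (σ (ζ q a)) (xi (EE K V M) M hm ρ g (q + 1 + 2) c) := by
      intro a _
      rw [f2_leib σ hσ T hT hTσ, hD, map_sum]
      congr 1
      exact Finset.sum_congr rfl fun c _ => map_smul _ _ _
    have h5 : ∀ a ∈ Finset.univ, LM K σ M (T (ζ (q + 1) a)) (xi (EE K V M) M hm ρ g (q + 1 + 2) a) =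
        -∑ c, dm (q + 2) c a • LM K σ M (σ (ζ q c)) (xi (EE K V M) M hm ρ g (q + 1 + 2) a) := by
      intro a _
      rw [hζ, f2_LM_neg, x2_LM_sum]
      congr 1
      exact Finset.sum_congr rfl fun c _ => f2_LM_smul _ _ _ _ _
    rw [Finset.sum_congr rfl h4, Finset.sum_congr rfl h5, Finset.sum_add_distrib, Finset.sum_neg_distrib,
      sub_neg_eq_add]
    congr 1
    exact Finset.sum_comm
  have h6 : ∑ a, LM K σ M (T (ζ s a)) (xi (EE K V M) M hm ρ g (s + 2) a) = 0 := by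
    have : IsEmpty (Fin (b (s + 2))) := by
      rw [hb (s + 2) (by omega)]
      infer_instance
    rw [Finset.univ_eq_empty, Finset.sum_empty]
  unfold theta
  rw [map_sub, h1, map_sum, Finset.sum_congr rfl fun q _ => h3 q,
    Finset.sum_range_sub' (fun q => ∑ a, LM K σ M (T (ζ q a)) (xi (EE K V M) M hm ρ g (q + 2) a)), h6, sub_zero, hS0,
    sub_self]

end Pool.Agent.Lib.H44X
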