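import Pool.Agent.Lib.H44X.F3
import Pool.Agent.Lib.H44X.F4
import Pool.Agent.Lib.H44X.X2

/-!
X3 (M). Bottom component, degree and coefficients of `Θ` (X2.lean).

* x3_ele: if `ρ a` and `g a` have degree 0 (`Ele M 0`), then `ξ_j(a)` has degree at most `j`:
  by induction `η_j`, `γ_j` have degree at most `j` (f3_ele_smul, f3_ele_sum, f3_ele_EE; `mv` is a
  finite sum of scalar multiples), and `ξ_(j+1) = γ_j + η_(j+1)`, f3_ele_mono.
* x3_theta_ele: `Θ` has degree at most `s` if `1 ≤ s` and `b j = 0` for `j > s` (f3_ele_LM; for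
  `q + 2 > s` the sum over the empty type `Fin (b (q+2))` is zero).
* x3_bot: `bot Θ = ∑_a p_a bot(g a)`. `bot (η_(j+1) a) = 0`, `bot (γ_(j+1) a) = 0` (f3_bot_EE,
  linearity of `botF`), so `bot (ξ_1 a) = bot (g a)` and `bot (ξ_(q+2) a) = 0`; f3_bot_LM.
* x3_all: coefficients. Here `A0` is a set of allowed scalars.
-/

set_option autoImplicit false

namespace Pool.Agent.Lib.H44X
universe u
variable {K : Type u} [Field K] {V : Type u} [Ring V] [Algebra K V] {b : ℕ → ℕ}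

theorem x3_ele_mv (M r : ℕ) {p q : ℕ} (A : Matrix (Fin p) (Fin q) K) (v : Fin q → FF V M)
    (hv : ∀ c, Ele M r (v c)) (a : Fin p) : Ele M r (mv A v a) :=
  f3_ele_sum M r _ _ fun c _ => f3_ele_smul M r _ _ (hv c)

theorem x3_ele_eta (M : ℕ) (hm : ℕ → ∀ j, Matrix (Fin (b (j + 1))) (Fin (b j)) K)
    (ρ : Fin (b 0) → FF V M) (hρ : ∀ a, Ele M 0 (ρ a)) (j : ℕ) (a : Fin (b j)) :
    Ele M j (eta (EE K V M) M hm ρ j a) := by
  induction j with
  | zero => exact hρ a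
  | succ j ih =>
    exact f3_ele_smul M _ _ _ (f3_ele_sum M _ _ _ fun i _ => f3_ele_EE M i j _ (x3_ele_mv M j _ _ ih a))

theorem x3_ele_gam (M : ℕ) (hm : ℕ → ∀ j, Matrix (Fin (b (j + 1))) (Fin (b j)) K)
    (g : Fin (b 1) → FF V M) (hg : ∀ a, Ele M 0 (g a)) (j : ℕ) (a : Fin (b (j + 1))) :
    Ele M j (gam (EE K V M) M hm g j a) := by
  induction j with
  | zero => exact hg a
  | succ j ih =>
    exact f3_ele_smul M _ _ _ (f3_ele_sum M _ _ _ fun i _ => f3_ele_EE M i j _ (x3_ele_mv M j _ _ ih a))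

theorem x3_ele_neg (K' : Type u) [Field K'] {V' : Type u} [AddCommGroup V'] [Module K' V'] (M r : ℕ) (v : FF V' M)
    (hv : Ele M r v) : Ele M r (-v) := by
  rw [← neg_one_smul K' v]
  exact f3_ele_smul M r _ _ hv

theorem x3_bot_eta (M : ℕ) (hm : ℕ → ∀ j, Matrix (Fin (b (j + 1))) (Fin (b j)) K)
    (ρ : Fin (b 0) → FF V M) (j : ℕ) (a : Fin (b (j + 1))) :
    botF K V M (eta (EE K V M) M hm ρ (j + 1) a) = 0 := by
  rw [eta, map_smul, map_sum, Finset.sum_eq_zero fun i _ => f3_bot_EE M i _, smul_zero]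

theorem x3_bot_gam (M : ℕ) (hm : ℕ → ∀ j, Matrix (Fin (b (j + 1))) (Fin (b j)) K)
    (g : Fin (b 1) → FF V M) (j : ℕ) (a : Fin (b (j + 1 + 1))) :
    botF K V M (gam (EE K V M) M hm g (j + 1) a) = 0 := by
  rw [gam, map_smul, map_sum, Finset.sum_eq_zero fun i _ => f3_bot_EE M i _, smul_zero]

theorem x3_all_mv (M : ℕ) (P : V → Prop) (A0 : K → Prop) (h0 : P 0)
    (hadd : ∀ x y, P x → P y → P (x + y)) (hsmul : ∀ c x, A0 c → P x → P (c • x))
    {p q : ℕ} (A : Matrix (Fin p) (Fin q) K) (hA : ∀ a c, A0 (A a c)) (v : Fin q → FF V M)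
    (hv : ∀ c, AllIn P M (v c)) (a : Fin p) : AllIn P M (mv A v a) :=
  f4_sum P h0 hadd M _ _ fun c _ => f4_smul P (A a c) (fun x hx => hsmul _ x (hA a c) hx) M _ (hv c)

theorem x3_ele (M : ℕ) (hm : ℕ → ∀ j, Matrix (Fin (b (j + 1))) (Fin (b j)) K)
    (ρ : Fin (b 0) → FF V M) (g : Fin (b 1) → FF V M) (hρ : ∀ a, Ele M 0 (ρ a))
    (hg : ∀ a, Ele M 0 (g a)) (j : ℕ) (a : Fin (b j)) :
    Ele M j (xi (EE K V M) M hm ρ g j a) := by
  cases j with
  | zero => exact hρ a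
  | succ j =>
    exact f3_ele_add M _ _ _ (f3_ele_mono M j (j + 1) (by omega) _ (x3_ele_gam M hm g hg j a))
      (x3_ele_eta M hm ρ hρ (j + 1) a)

theorem x3_theta_ele (σ : V →ₗ[K] V) (M : ℕ)
    (hm : ℕ → ∀ j, Matrix (Fin (b (j + 1))) (Fin (b j)) K)
    (ρ : Fin (b 0) → FF V M) (g : Fin (b 1) → FF V M) (hρ : ∀ a, Ele M 0 (ρ a))
    (hg : ∀ a, Ele M 0 (g a)) (p : Fin (b 1) → K) (ζ : ∀ q, Fin (b (q + 2)) → V)
    (s : ℕ) (hs : 1 ≤ s) (hb : ∀ j, s < j → b j = 0) :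
    Ele M s (theta σ M hm ρ g p ζ s) := by
  rw [theta, sub_eq_add_neg]
  refine f3_ele_add M _ _ _ (f3_ele_sum M _ _ _ fun a _ => f3_ele_smul M _ _ _
    (f3_ele_mono M 1 s hs _ (x3_ele M hm ρ g hρ hg 1 a))) (x3_ele_neg K M s _
    (f3_ele_sum M _ _ _ fun q _ => f3_ele_sum M _ _ _ fun a _ => f3_ele_LM _ M s _ _ ?_))
  by_cases hq : q + 2 ≤ s
  · exact f3_ele_mono M (q + 2) s hq _ (x3_ele M hm ρ g hρ hg (q + 2) a)
  · have h1 := hb (q + 2) (by omega)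
    have h2 := a.isLt
    omega

theorem x3_bot (σ : V →ₗ[K] V) (M : ℕ)
    (hm : ℕ → ∀ j, Matrix (Fin (b (j + 1))) (Fin (b j)) K)
    (ρ : Fin (b 0) → FF V M) (g : Fin (b 1) → FF V M) (p : Fin (b 1) → K)
    (ζ : ∀ q, Fin (b (q + 2)) → V) (s : ℕ) :
    botF K V M (theta σ M hm ρ g p ζ s) = ∑ a, p a • botF K V M (g a) := by
  rw [theta, map_sub, map_sum, map_sum, sub_eq_self.2]
  · refine Finset.sum_congr rfl fun a _ => ?_
    have h1 : xi (EE K V M) M hm ρ g 1 a = g a + eta (EE K V M) M hm ρ (0 + 1) a := rfl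
    rw [map_smul, h1, map_add, x3_bot_eta, add_zero]
  · refine Finset.sum_eq_zero fun q _ => ?_
    rw [map_sum]
    refine Finset.sum_eq_zero fun a _ => ?_
    have h1 : xi (EE K V M) M hm ρ g (q + 2) a =
        gam (EE K V M) M hm g (q + 1) a + eta (EE K V M) M hm ρ (q + 1 + 1) a := rfl
    rw [f3_bot_LM, h1, map_add, x3_bot_eta, x3_bot_gam, add_zero, mul_zero]

theorem x3_all (σ : V →ₗ[K] V) (M : ℕ)
    (hm : ℕ → ∀ j, Matrix (Fin (b (j + 1))) (Fin (b j)) K)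
    (ρ : Fin (b 0) → FF V M) (g : Fin (b 1) → FF V M) (p : Fin (b 1) → K)
    (ζ : ∀ q, Fin (b (q + 2)) → V) (s : ℕ) (P Q : V → Prop) (A0 : K → Prop) (h0 : P 0)
    (hadd : ∀ x y, P x → P y → P (x + y)) (hneg : ∀ x, P x → P (-x))
    (hsmul : ∀ c x, A0 c → P x → P (c • x)) (hmul : ∀ x y, Q x → P y → P (x * y))
    (hQσ : ∀ x, Q x → Q (σ x)) (hinv : ∀ j : ℕ, A0 (((j + 1 : ℕ) : K))⁻¹)
    (hhm : ∀ i j a c, A0 (hm i j a c)) (hp : ∀ a, A0 (p a)) (hζ : ∀ q a, Q (ζ q a))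
    (hρ : ∀ a, AllIn P M (ρ a)) (hg : ∀ a, AllIn P M (g a)) :
    AllIn P M (theta σ M hm ρ g p ζ s) := by
  have hnegA : ∀ v : FF V M, AllIn P M v → AllIn P M (-v) := by
    intro v hv
    rw [← neg_one_smul K v]
    refine f4_smul P (-1 : K) (fun x hx => ?_) M v hv
    rw [neg_one_smul]
    exact hneg x hx
  have heta : ∀ j a, AllIn P M (eta (EE K V M) M hm ρ j a) := by
    intro j
    induction j with
    | zero => exact hρ
    | succ j ih =>
      intro a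
      exact f4_smul P _ (fun x hx => hsmul _ x (hinv j) hx) M _ (f4_sum P h0 hadd M _ _ fun i _ =>
        f4_EE P h0 hneg M i _ (x3_all_mv M P A0 h0 hadd hsmul _ (hhm i j) _ ih a))
  have hgam : ∀ j a, AllIn P M (gam (EE K V M) M hm g j a) := by
    intro j
    induction j with
    | zero => exact hg
    | succ j ih =>
      intro a
      exact f4_smul P _ (fun x hx => hsmul _ x (hinv j) hx) M _ (f4_sum P h0 hadd M _ _ fun i _ =>
        f4_EE P h0 hneg M i _ (x3_all_mv M P A0 h0 hadd hsmul _ (hhm i (j + 1)) _ ih a))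
  have hxi : ∀ j a, AllIn P M (xi (EE K V M) M hm ρ g j a) := by
    intro j
    cases j with
    | zero => exact hρ
    | succ j => exact fun a => f4_add P hadd M _ _ (hgam j a) (heta (j + 1) a)
  rw [theta, sub_eq_add_neg]
  refine f4_add P hadd M _ _ (f4_sum P h0 hadd M _ _ fun a _ => f4_smul P _ (fun x hx => hsmul _ x (hp a) hx) M _
    (hxi 1 a)) (hnegA _ (f4_sum P h0 hadd M _ _ fun q _ => f4_sum P h0 hadd M _ _ fun a _ =>
      f4_LM _ P Q hmul hQσ M _ (hζ q a) _ (hxi (q + 2) a)))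

end Pool.Agent.Lib.H44X
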