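import Pool.Agent.Lib.H44X.Yb
import Pool.Agent.Lib.H44X.J5
import Pool.Agent.Lib.H44X.J6
import Pool.Agent.Lib.H44X.P1
import Pool.Agent.Lib.H44X.R1
import Pool.Agent.Lib.H44X.R2
import Pool.Agent.Lib.H44X.R6
import Pool.Agent.Lib.H44X.R7
import Pool.Agent.Lib.H44X.H2
import Pool.Agent.Lib.H44X.H3

/-!
Y9. Final assembly: homogeneous ideals in characteristic zero.
-/

set_option autoImplicit false
open CategoryTheory CategoryTheory.Abelian IsLocalRing
open Pool.Agent.Lib.Helper92 Pool.Agent.Lib.H44V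

namespace Pool.Agent.Lib.H44X
universe u

/-- Euler's relation. -/
theorem y9_euler {k : Type u} [Field k] {n : ℕ} (w : Fin n → ℕ) (f : MvPolynomial (Fin n) k)
    (m : ℕ) (hf : MvPolynomial.IsWeightedHomogeneous w f m) :
    ∑ l, (w l : MvPolynomial (Fin n) k) * MvPolynomial.X l * MvPolynomial.pderiv l f =
      (m : MvPolynomial (Fin n) k) * f := by
  have h := hf.sum_weight_X_mul_pderiv
  rw [nsmul_eq_mul] at h
  rw [← h]
  refine Finset.sum_congr rfl fun l _ => ?_
  rw [nsmul_eq_mul]
  ring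

theorem y9_span {k : Type u} [Field k] (n : ℕ) :
    Ideal.span (Set.range fun l : Fin n => algebraMap (MvPolynomial (Fin n) k) (SS k n)
      (MvPolynomial.X l)) = maximalIdeal (SS k n) := by
  have h1 : org k n = Ideal.span (Set.range (MvPolynomial.X : Fin n → MvPolynomial (Fin n) k)) := by
    ext p
    rw [← Set.image_univ, MvPolynomial.mem_ideal_span_X_image]
    constructor
    · intro hp m hm
      by_contra hcon
      push Not at hcon
      have hm0 : m = 0 := by
        ext i
        exact hcon i (Set.mem_univ i)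
      have h0 : MvPolynomial.constantCoeff p = 0 := hp
      rw [MvPolynomial.constantCoeff_eq, ← hm0] at h0
      exact (MvPolynomial.mem_support_iff.mp hm) h0
    · intro hp
      show MvPolynomial.constantCoeff p = 0
      rw [MvPolynomial.constantCoeff_eq]
      by_contra h0
      obtain ⟨i, -, hi⟩ := hp 0 (MvPolynomial.mem_support_iff.mpr h0)
      exact hi rfl
  have h2 : (org k n).map (algebraMap (MvPolynomial (Fin n) k) (SS k n)) = maximalIdeal (SS k n) :=
    Localization.AtPrime.map_eq_maximalIdeal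
  have h3 := congrArg (Ideal.map (algebraMap (MvPolynomial (Fin n) k) (SS k n))) h1
  rw [h2, Ideal.map_span, ← Set.range_comp] at h3
  exact h3.symm

theorem y9_res {S : Type u} [CommRing S] [IsNoetherianRing S] (I : Ideal S) [IsLocalRing (S ⧸ I)]
    (hpd : ∃ m, HasProjectiveDimensionLT (ModuleCat.of (S ⧸ I) (NN I)) m) :
    ∃ (G : MRes (S ⧸ I) (NN I)) (s : ℕ), ∀ j, s < j → G.b j = 0 := by
  have : Module.Finite S I.Cotangent := Module.Finite.of_surjective _ I.toCotangent_surjective
  have : Module.Finite (S ⧸ I) I.Cotangent := Module.Finite.of_restrictScalars_finite S _ _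
  have : IsNoetherian (S ⧸ I) (NN I) := isNoetherian_linearMap _ _ _
  obtain ⟨G⟩ := r1_exists (R := S ⧸ I) (NN I)
  obtain ⟨s, hs⟩ := hpd
  exact ⟨G, s, r2_zero (NN I) G s (hasProjectiveDimensionLT_of_ge _ s (s + 1) (by omega))⟩

theorem y9_ci {k : Type u} [Field k] [CharZero k] {n m : ℕ} (w : Fin n → ℕ) (hw : ∀ i, 0 < w i)
    (f : Fin m → MvPolynomial (Fin n) k) (δ : Fin m → ℕ) (hδ : ∀ v, 0 < δ v)
    (hf : ∀ v, MvPolynomial.IsWeightedHomogeneous w (f v) (δ v))
    (hpd : ∃ M, HasProjectiveDimensionLT (ModuleCat.of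
      (SS k n ⧸ (Ideal.span (Set.range f)).map (algebraMap (MvPolynomial (Fin n) k) (SS k n)))
      (NN ((Ideal.span (Set.range f)).map (algebraMap (MvPolynomial (Fin n) k) (SS k n))))) M) :
    ∃ r, CI ((Ideal.span (Set.range f)).map
      (algebraMap (MvPolynomial (Fin n) k) (SS k n))) r := by
  set F : Set (MvPolynomial (Fin n) k) := Set.range f with hFdef
  have hF : ∀ g ∈ F, ∃ m, MvPolynomial.IsWeightedHomogeneous w g m := by
    rintro g ⟨v, rfl⟩
    exact ⟨δ v, hf v⟩
  have hF0 : ∀ g ∈ F, g ∈ org k n := by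
    rintro g ⟨v, rfl⟩
    show MvPolynomial.constantCoeff (f v) = 0
    rw [MvPolynomial.constantCoeff_eq]
    by_contra hne
    have := hf v hne
    rw [map_zero] at this
    exact (hδ v).ne this
  set I : Ideal (SS k n) := (Ideal.span F).map (algebraMap (MvPolynomial (Fin n) k) (SS k n))
    with hIdef
  have hIle : I ≤ maximalIdeal (SS k n) := by
    rw [hIdef, Ideal.map_le_iff_le_comap, Ideal.span_le]
    intro g hg
    show algebraMap _ (SS k n) g ∈ maximalIdeal (SS k n)
    exact (IsLocalization.AtPrime.to_map_mem_maximal_iff (SS k n) (org k n) g).mpr (hF0 g hg)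
  have hI : I ≠ ⊤ := fun h => (maximalIdeal.isMaximal (SS k n)).ne_top (top_le_iff.mp (h ▸ hIle))
  have hnt : Nontrivial (SS k n ⧸ I) := Ideal.Quotient.nontrivial_iff.mpr hI
  have hloc : IsLocalRing (SS k n ⧸ I) := IsLocalRing.of_surjective' _ Ideal.Quotient.mk_surjective
  obtain ⟨G, s, hb⟩ := y9_res I hpd
  choose del hdel using fun l => p1_del F l
  have hfI : ∀ v, algebraMap (MvPolynomial (Fin n) k) (SS k n) (f v) ∈ I := fun v =>
    Ideal.mem_map_of_mem _ (Ideal.subset_span ⟨v, rfl⟩)
  have hspan : Ideal.span (Set.range fun v => algebraMap (MvPolynomial (Fin n) k) (SS k n) (f v)) =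
      I := by
    rw [hIdef, Ideal.map_span, hFdef]
    congr 1
    ext x
    simp
  have hunit : ∀ v, IsUnit ((δ v : ℕ) : SS k n) := by
    intro v
    have h1 : ((δ v : ℕ) : SS k n) = algebraMap k (SS k n) ((δ v : ℕ) : k) := by simp
    rw [h1]
    exact (IsUnit.mk0 _ (by exact_mod_cast (hδ v).ne')).map _
  rcases r7_alt hI (fun l => algebraMap (MvPolynomial (Fin n) k) (SS k n) (MvPolynomial.X l))
    (y9_span n) w (fun v => algebraMap (MvPolynomial (Fin n) k) (SS k n) (f v)) hspan hfI
    (fun v l => algebraMap (MvPolynomial (Fin n) k) (SS k n) (MvPolynomial.pderiv l (f v))) δ hunit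
    (fun v => by
      have h1 := congrArg (algebraMap (MvPolynomial (Fin n) k) (SS k n)) (y9_euler w (f v) (δ v) (hf v))
      simpa using h1) del (fun l v => hdel l (f v) ⟨v, rfl⟩ (hfI v)) G with hsep | ⟨tt, g0, p, htt, hg0, hp⟩
  · exact r6_ci m (SS k n) I hI (n + 1) (h2_loc k n _) _ hspan hsep
  · exfalso
    obtain ⟨Q₀, hQp, hFQ, hQ0, hQ, hdimQ⟩ := G_prime w hw F hF hF0
    obtain ⟨N, d, Y, hN, hY, hinj, hfinY⟩ := Z_main w hw Q₀ hQ
    have hY0 : ∀ j, MvPolynomial.constantCoeff (Y j) = 0 := by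
      intro j
      rw [MvPolynomial.constantCoeff_eq]
      by_contra hne
      have := hY j hne
      rw [map_zero] at this
      exact hN.ne this
    have hDB : DB I (Q₀.map (algebraMap (MvPolynomial (Fin n) k) (SS k n))) := by
      have hQS : (Q₀.map (algebraMap (MvPolynomial (Fin n) k) (SS k n))).IsPrime := by
        refine IsLocalization.isPrime_of_isPrime_disjoint (org k n).primeCompl (SS k n) Q₀ hQp ?_
        rw [Set.disjoint_left]
        exact fun x hx hx' => hx (hQ0 hx')
      refine j_db I ⟨n + 1, h2_loc k n _⟩ hpd _ ?_ hdimQ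
      exact Ideal.map_mono (Ideal.span_le.mpr hFQ)
    exact yb_false w hw F hF Q₀ hQ hFQ hQ0 N d Y hN hY hY0 hinj hfinY G s hb del hdel tt g0 p htt
      (by simpa [eul] using hg0) hp hDB
      (fun i => j_beta w hw F Q₀ hQ hdimQ N d Y hN hY hY0 hinj hfinY G hpd i)

/-- the maximal ideal `(x_1, …, x_n)`. -/
theorem y9_org (k : Type u) [Field k] (n : ℕ) :
    Ideal.span (Set.range (MvPolynomial.X : Fin n → MvPolynomial (Fin n) k)) = org k n := by
  ext p
  rw [← Set.image_univ, MvPolynomial.mem_ideal_span_X_image]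
  constructor
  · intro hp
    show MvPolynomial.constantCoeff p = 0
    rw [MvPolynomial.constantCoeff_eq]
    by_contra h0
    obtain ⟨i, -, hi⟩ := hp 0 (MvPolynomial.mem_support_iff.mpr h0)
    exact hi rfl
  · intro hp m hm
    by_contra hcon
    push Not at hcon
    have hm0 : m = 0 := by
      ext i
      exact hcon i (Set.mem_univ i)
    have h0 : MvPolynomial.constantCoeff p = 0 := hp
    rw [MvPolynomial.constantCoeff_eq, ← hm0] at h0
    exact (MvPolynomial.mem_support_iff.mp hm) h0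

/-- Homogeneous ideals in characteristic zero. -/
theorem y9_main {k : Type u} [Field k] [CharZero k] {n : ℕ} (w : Fin n → ℕ) (hw : ∀ i, 0 < w i)
    (I₀ : Ideal (MvPolynomial (Fin n) k))
    (hI : ∀ f ∈ I₀, ∀ m, MvPolynomial.weightedHomogeneousComponent w m f ∈ I₀) (hne : I₀ ≠ ⊤)
    (hpd : ∃ M, HasProjectiveDimensionLT (ModuleCat.of
      (SS k n ⧸ I₀.map (algebraMap (MvPolynomial (Fin n) k) (SS k n)))
      (NN (I₀.map (algebraMap (MvPolynomial (Fin n) k) (SS k n))))) M) :
    I₀.map (algebraMap (MvPolynomial (Fin n) k) (SS k n)) ≠ ⊤ ∧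
      ∃ r, CI (I₀.map (algebraMap (MvPolynomial (Fin n) k) (SS k n))) r := by
  obtain ⟨m, f, δ, hδ, hf, rfl⟩ := h3_gen w hw I₀ hI hne
  refine ⟨?_, y9_ci w hw f δ hδ hf hpd⟩
  intro h
  have hle : (Ideal.span (Set.range f)).map (algebraMap (MvPolynomial (Fin n) k) (SS k n)) ≤
      maximalIdeal (SS k n) := by
    rw [Ideal.map_le_iff_le_comap, Ideal.span_le]
    rintro g ⟨v, rfl⟩
    refine (IsLocalization.AtPrime.to_map_mem_maximal_iff (SS k n) (org k n) (f v)).mpr ?_
    show MvPolynomial.constantCoeff (f v) = 0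
    rw [MvPolynomial.constantCoeff_eq]
    by_contra hne
    have := hf v hne
    rw [map_zero] at this
    exact (hδ v).ne this
  exact (maximalIdeal.isMaximal (SS k n)).ne_top (top_le_iff.mp (h ▸ hle))

end Pool.Agent.Lib.H44X
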