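import Pool.Agent.Lib.H44X.Tr
import Pool.Agent.Lib.H78A.T10

/-!
Ya (M). The Euler field in the coordinates `y`: `∑_j N y_j D_j(x_l) = w_l x_l` in `K`.

`A = P/Q₀`, `P = k[x_1, …, x_n]`, `Q₀` weighted homogeneous prime, `Y_j` weighted homogeneous of
weight `N`, `B = k[y_1, …, y_d] → A`, `y_j ↦ Y_j`, injective, `K ⊇ A` a field algebraic over `B`,
`D_j` the extensions of the partial derivatives of `B`.
Let `E : P → K` be the derivation `E(p) = ` image of `∑_l w_l x_l ∂_l p` (`K` is a `P`-module via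
`P → A → K`). It vanishes on `Q₀`: for `p ∈ Q₀` all weighted homogeneous components `p_m` are in
`Q₀` and `∑_l w_l x_l ∂_l p = ∑_m m p_m` (Euler; on monomials). So it induces a derivation
`E₁ : A → K` (additive, `E₁(uv) = u E₁ v + v E₁ u`). Let `E₂ = ∑_j N y_j D_j` restricted to `A`.
Both vanish on `k` and `E₁(y_j) = N y_j = E₂(y_j)` (`Y_j` is homogeneous of weight `N`;
`D_i(y_j) = δ_ij`), so they agree on `B`. Let `Δ = E₁ - E₂`: zero on `B`. Every `u ∈ A` is
algebraic over `B`: let `f ∈ B[T]` be a non-zero polynomial of minimal degree with `f(u) = 0` in `K`.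
Then `0 = Δ(f(u)) = f'(u) Δ(u)` and `f'(u) ≠ 0` (characteristic 0, smaller degree, `f' ≠ 0` because
`f` is not constant), so `Δ(u) = 0`. Take `u = x_l`: `E₁(x_l) = w_l x_l`.
(Alternatively extend `E₁` to a derivation of `K` and use T_unique.)
-/

set_option autoImplicit false

namespace Pool.Agent.Lib.H44X
universe u

section ya
variable {k : Type u} [Field k] {n : ℕ} {K : Type u} [Field K] [Algebra k K]

/-- the Euler derivation of the polynomial ring with values in `K`. -/
noncomputable def yaE (w : Fin n → ℕ) (π : MvPolynomial (Fin n) k →ₐ[k] K) (p : MvPolynomial (Fin n) k) : K :=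
  ∑ l, (w l : K) * π (MvPolynomial.X l) * π (MvPolynomial.pderiv l p)

theorem ya_add (w : Fin n → ℕ) (π : MvPolynomial (Fin n) k →ₐ[k] K) (p q : MvPolynomial (Fin n) k) :
    yaE w π (p + q) = yaE w π p + yaE w π q := by
  unfold yaE
  rw [← Finset.sum_add_distrib]
  refine Finset.sum_congr rfl fun l _ => ?_
  rw [map_add, map_add]
  ring

theorem ya_zero (w : Fin n → ℕ) (π : MvPolynomial (Fin n) k →ₐ[k] K) : yaE w π 0 = 0 := by
  unfold yaE
  refine Finset.sum_eq_zero fun l _ => ?_
  rw [map_zero, map_zero, mul_zero]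

theorem ya_sum (w : Fin n → ℕ) (π : MvPolynomial (Fin n) k →ₐ[k] K) {ι : Type*} (s : Finset ι)
    (f : ι → MvPolynomial (Fin n) k) : yaE w π (∑ i ∈ s, f i) = ∑ i ∈ s, yaE w π (f i) := by
  classical
  induction s using Finset.induction_on with
  | empty => rw [Finset.sum_empty, Finset.sum_empty, ya_zero]
  | insert a s ha ih => rw [Finset.sum_insert ha, Finset.sum_insert ha, ya_add, ih]

theorem ya_mul (w : Fin n → ℕ) (π : MvPolynomial (Fin n) k →ₐ[k] K) (p q : MvPolynomial (Fin n) k) :
    yaE w π (p * q) = π p * yaE w π q + π q * yaE w π p := by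
  unfold yaE
  rw [Finset.mul_sum, Finset.mul_sum, ← Finset.sum_add_distrib]
  refine Finset.sum_congr rfl fun l _ => ?_
  rw [Derivation.leibniz, smul_eq_mul, smul_eq_mul, map_add, map_mul, map_mul]
  ring

theorem ya_C (w : Fin n → ℕ) (π : MvPolynomial (Fin n) k →ₐ[k] K) (a : k) :
    yaE w π (MvPolynomial.C a) = 0 := by
  unfold yaE
  refine Finset.sum_eq_zero fun l _ => ?_
  rw [MvPolynomial.pderiv_C, map_zero, mul_zero]

theorem ya_one (w : Fin n → ℕ) (π : MvPolynomial (Fin n) k →ₐ[k] K) : yaE w π 1 = 0 := by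
  rw [← MvPolynomial.C_1, ya_C]

theorem ya_pow (w : Fin n → ℕ) (π : MvPolynomial (Fin n) k →ₐ[k] K) (p : MvPolynomial (Fin n) k) (i : ℕ) :
    yaE w π (p ^ i) = (i : K) * π p ^ (i - 1) * yaE w π p := by
  induction i with
  | zero => rw [pow_zero, ya_one, Nat.cast_zero, zero_mul, zero_mul]
  | succ i ih =>
    rw [pow_succ, ya_mul, ih, map_pow, Nat.add_sub_cancel]
    rcases Nat.eq_zero_or_pos i with h | h
    · subst h
      simp
    · obtain ⟨j, rfl⟩ : ∃ j, i = j + 1 := ⟨i - 1, by omega⟩
      rw [Nat.add_sub_cancel]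
      push_cast
      ring

theorem ya_X (w : Fin n → ℕ) (π : MvPolynomial (Fin n) k →ₐ[k] K) (l : Fin n) :
    yaE w π (MvPolynomial.X l) = (w l : K) * π (MvPolynomial.X l) := by
  classical
  unfold yaE
  rw [Finset.sum_eq_single l]
  · rw [MvPolynomial.pderiv_X_self, map_one, mul_one]
  · intro j _ hj
    rw [MvPolynomial.pderiv_X_of_ne hj.symm, map_zero, mul_zero]
  · intro h
    exact absurd (Finset.mem_univ l) h

theorem ya_hom (w : Fin n → ℕ) (π : MvPolynomial (Fin n) k →ₐ[k] K) (m : ℕ) (f : MvPolynomial (Fin n) k)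
    (hf : MvPolynomial.IsWeightedHomogeneous w f m) : yaE w π f = (m : K) * π f := by
  have h := congrArg π hf.sum_weight_X_mul_pderiv
  rw [map_sum, map_nsmul, nsmul_eq_mul] at h
  rw [← h]
  unfold yaE
  refine Finset.sum_congr rfl fun l _ => ?_
  rw [map_nsmul, nsmul_eq_mul, map_mul, mul_assoc]

theorem ya_ideal (w : Fin n → ℕ) (π : MvPolynomial (Fin n) k →ₐ[k] K) (Q : Ideal (MvPolynomial (Fin n) k))
    (hQ : ∀ f ∈ Q, ∀ m, MvPolynomial.weightedHomogeneousComponent w m f ∈ Q) (hπ : ∀ f ∈ Q, π f = 0)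
    (f : MvPolynomial (Fin n) k) (hf : f ∈ Q) : yaE w π f = 0 := by
  have h1 := MvPolynomial.sum_weightedHomogeneousComponent w f
  rw [finsum_eq_sum _ (MvPolynomial.weightedHomogeneousComponent_finsupp f)] at h1
  rw [← h1, ya_sum]
  refine Finset.sum_eq_zero fun m _ => ?_
  rw [ya_hom w π m _ (MvPolynomial.weightedHomogeneousComponent_isWeightedHomogeneous _ _), hπ _ (hQ f hf m),
    mul_zero]

end ya

theorem ya_eul {k : Type u} [Field k] [CharZero k] {n d : ℕ} (w : Fin n → ℕ)
    (Q₀ : Ideal (MvPolynomial (Fin n) k)) [Q₀.IsPrime]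
    (hQ : ∀ f ∈ Q₀, ∀ m, MvPolynomial.weightedHomogeneousComponent w m f ∈ Q₀)
    (N : ℕ) (Y : Fin d → MvPolynomial (Fin n) k)
    (hY : ∀ j, MvPolynomial.IsWeightedHomogeneous w (Y j) N)
    {K : Type u} [Field K] [Algebra k K] [Algebra (MvPolynomial (Fin n) k ⧸ Q₀) K]
    [IsScalarTower k (MvPolynomial (Fin n) k ⧸ Q₀) K]
    (hAK : Function.Injective (algebraMap (MvPolynomial (Fin n) k ⧸ Q₀) K))
    [Algebra (MvPolynomial (Fin d) k) K] [IsScalarTower k (MvPolynomial (Fin d) k) K]
    (hBK : ∀ b : MvPolynomial (Fin d) k, algebraMap (MvPolynomial (Fin d) k) K b =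
      algebraMap (MvPolynomial (Fin n) k ⧸ Q₀) K (Ideal.Quotient.mk Q₀ (MvPolynomial.aeval Y b)))
    (hinj : Function.Injective (algebraMap (MvPolynomial (Fin d) k) K))
    (halg : Algebra.IsAlgebraic (MvPolynomial (Fin d) k) K) (D : Fin d → Derivation k K K)
    (hD : ∀ j (b : MvPolynomial (Fin d) k), D j (algebraMap (MvPolynomial (Fin d) k) K b) =
      algebraMap (MvPolynomial (Fin d) k) K (MvPolynomial.pderiv j b)) (l : Fin n) :
    ∑ j, (N : K) * algebraMap (MvPolynomial (Fin d) k) K (MvPolynomial.X j) *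
      D j (algebraMap (MvPolynomial (Fin n) k ⧸ Q₀) K (Ideal.Quotient.mk Q₀ (MvPolynomial.X l))) =
    (w l : K) * algebraMap (MvPolynomial (Fin n) k ⧸ Q₀) K
      (Ideal.Quotient.mk Q₀ (MvPolynomial.X l)) := by
  classical
  obtain ⟨π, hπ⟩ : ∃ π : MvPolynomial (Fin n) k →ₐ[k] K, ∀ p, π p =
      algebraMap (MvPolynomial (Fin n) k ⧸ Q₀) K (Ideal.Quotient.mk Q₀ p) :=
    ⟨(IsScalarTower.toAlgHom k (MvPolynomial (Fin n) k ⧸ Q₀) K).comp (Ideal.Quotient.mkₐ k Q₀), fun _ => rfl⟩
  have hπQ : ∀ f ∈ Q₀, π f = 0 := by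
    intro f hf
    rw [hπ, Ideal.Quotient.eq_zero_iff_mem.2 hf, map_zero]
  have hBK' : ∀ b : MvPolynomial (Fin d) k, algebraMap (MvPolynomial (Fin d) k) K b =
      π (MvPolynomial.aeval Y b) := fun b => by rw [hBK, hπ]
  -- the values on `B`
  have hδ : ∀ b : MvPolynomial (Fin d) k, yaE w π (MvPolynomial.aeval Y b) =
      ∑ j, (N : K) * algebraMap (MvPolynomial (Fin d) k) K (MvPolynomial.X j) *
        algebraMap (MvPolynomial (Fin d) k) K (MvPolynomial.pderiv j b) := by
    intro b
    induction b using MvPolynomial.induction_on with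
    | C a =>
      rw [MvPolynomial.aeval_C, MvPolynomial.algebraMap_eq, ya_C]
      symm
      refine Finset.sum_eq_zero fun j _ => ?_
      rw [MvPolynomial.pderiv_C, map_zero, mul_zero]
    | add p q hp hq =>
      rw [map_add, ya_add, hp, hq, ← Finset.sum_add_distrib]
      refine Finset.sum_congr rfl fun j _ => ?_
      rw [map_add, map_add]
      ring
    | mul_X p i hp =>
      rw [map_mul, MvPolynomial.aeval_X, ya_mul, hp, ya_hom w π N _ (hY i), ← hBK' p]
      have hYi : π (Y i) = algebraMap (MvPolynomial (Fin d) k) K (MvPolynomial.X i) := by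
        rw [hBK', MvPolynomial.aeval_X]
      rw [hYi]
      have h1 : ∀ j, (N : K) * algebraMap (MvPolynomial (Fin d) k) K (MvPolynomial.X j) *
          algebraMap (MvPolynomial (Fin d) k) K (MvPolynomial.pderiv j (p * MvPolynomial.X i)) =
          (if j = i then algebraMap (MvPolynomial (Fin d) k) K p *
            ((N : K) * algebraMap (MvPolynomial (Fin d) k) K (MvPolynomial.X i)) else 0) +
          algebraMap (MvPolynomial (Fin d) k) K (MvPolynomial.X i) *
            ((N : K) * algebraMap (MvPolynomial (Fin d) k) K (MvPolynomial.X j) *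
              algebraMap (MvPolynomial (Fin d) k) K (MvPolynomial.pderiv j p)) := by
        intro j
        rw [Derivation.leibniz, smul_eq_mul, smul_eq_mul, map_add, map_mul, map_mul]
        by_cases h : j = i
        · rw [if_pos h, h, MvPolynomial.pderiv_X_self, map_one]
          ring
        · rw [if_neg h, MvPolynomial.pderiv_X_of_ne (fun h' => h h'.symm), map_zero]
          ring
      rw [Finset.sum_congr rfl fun j _ => h1 j, Finset.sum_add_distrib, Finset.sum_ite_eq' Finset.univ i,
        if_pos (Finset.mem_univ i), Finset.mul_sum]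
  -- the derivation of `K`
  obtain ⟨Δ, hΔ⟩ : ∃ Δ : Derivation ℤ K K, ∀ x, Δ x =
      ∑ j, (N : K) * algebraMap (MvPolynomial (Fin d) k) K (MvPolynomial.X j) * D j x := by
    refine ⟨(∑ j, ((N : K) * algebraMap (MvPolynomial (Fin d) k) K (MvPolynomial.X j)) • D j).restrictScalars ℤ,
      fun x => ?_⟩
    rw [Derivation.restrictScalars_apply]
    have h1 : ∀ s : Finset (Fin d), (∑ j ∈ s,
        ((N : K) * algebraMap (MvPolynomial (Fin d) k) K (MvPolynomial.X j)) • D j) x =
        ∑ j ∈ s, (N : K) * algebraMap (MvPolynomial (Fin d) k) K (MvPolynomial.X j) * D j x := by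
      intro s
      induction s using Finset.induction_on with
      | empty => rw [Finset.sum_empty, Finset.sum_empty, Derivation.zero_apply]
      | insert a s ha ih =>
        rw [Finset.sum_insert ha, Finset.sum_insert ha, Derivation.add_apply, ih, Derivation.smul_apply, smul_eq_mul]
    exact h1 Finset.univ
  have hΔb : ∀ b : MvPolynomial (Fin d) k, Δ (algebraMap (MvPolynomial (Fin d) k) K b) =
      yaE w π (MvPolynomial.aeval Y b) := by
    intro b
    rw [hΔ, hδ]
    refine Finset.sum_congr rfl fun j _ => ?_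
    rw [hD]
  obtain ⟨G, hG0, hG1⟩ := Pool.Agent.H78A.T10_sep hinj (π (MvPolynomial.X l)) (halg.isAlgebraic _)
  have h1 := Pool.Agent.H78A.T10_aeval Δ (π (MvPolynomial.X l)) G
  rw [hG0, map_zero] at h1
  -- in the polynomial ring
  have hev : ∀ H : Polynomial (MvPolynomial (Fin d) k),
      π (Polynomial.eval₂ (MvPolynomial.aeval Y : MvPolynomial (Fin d) k →ₐ[k] MvPolynomial (Fin n) k).toRingHom
        (MvPolynomial.X l) H) = Polynomial.aeval (π (MvPolynomial.X l)) H := by
    intro H
    rw [← AlgHom.coe_toRingHom π, Polynomial.hom_eval₂, Polynomial.aeval_def]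
    have h2 : (π : MvPolynomial (Fin n) k →+* K).comp (MvPolynomial.aeval Y : MvPolynomial (Fin d) k →ₐ[k]
        MvPolynomial (Fin n) k).toRingHom = algebraMap (MvPolynomial (Fin d) k) K := by
      refine RingHom.ext fun b => ?_
      rw [hBK']
      rfl
    rw [h2]
  have hEG : ∀ H : Polynomial (MvPolynomial (Fin d) k),
      yaE w π (Polynomial.eval₂ (MvPolynomial.aeval Y : MvPolynomial (Fin d) k →ₐ[k]
        MvPolynomial (Fin n) k).toRingHom (MvPolynomial.X l) H) =
      H.sum (fun i b => yaE w π (MvPolynomial.aeval Y b) * π (MvPolynomial.X l) ^ i) +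
        Polynomial.aeval (π (MvPolynomial.X l)) (Polynomial.derivative H) * yaE w π (MvPolynomial.X l) := by
    intro H
    induction H using Polynomial.induction_on' with
    | add p q hp hq =>
      rw [Polynomial.eval₂_add, ya_add, hp, hq, map_add, map_add, Polynomial.sum_add_index]
      · ring
      · intro i
        rw [map_zero, ya_zero, zero_mul]
      · intro i a b
        rw [map_add, ya_add, add_mul]
    | monomial i a =>
      rw [Polynomial.sum_monomial_index (hf := by rw [map_zero, ya_zero, zero_mul]), Polynomial.eval₂_monomial,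
        ya_mul, ya_pow, Polynomial.derivative_monomial, Polynomial.aeval_monomial, map_pow, hBK', map_mul, map_mul,
        map_natCast, map_natCast]
      change π (MvPolynomial.aeval Y a) * _ + _ * yaE w π (MvPolynomial.aeval Y a) = _
      ring
  have h3 : yaE w π (Polynomial.eval₂ (MvPolynomial.aeval Y : MvPolynomial (Fin d) k →ₐ[k]
        MvPolynomial (Fin n) k).toRingHom (MvPolynomial.X l) G) = 0 := by
    refine ya_ideal w π Q₀ hQ hπQ _ ?_
    have h4 := hev G
    rw [hG0, hπ] at h4
    exact Ideal.Quotient.eq_zero_iff_mem.1 (hAK (by rw [h4, map_zero]))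
  rw [hEG] at h3
  have h5 : G.sum (fun i b => Δ (algebraMap (MvPolynomial (Fin d) k) K b) * π (MvPolynomial.X l) ^ i) =
      G.sum (fun i b => yaE w π (MvPolynomial.aeval Y b) * π (MvPolynomial.X l) ^ i) := by
    unfold Polynomial.sum
    refine Finset.sum_congr rfl fun i _ => ?_
    change Δ (algebraMap (MvPolynomial (Fin d) k) K (G.coeff i)) * _ = _
    rw [hΔb]
  rw [h5] at h1
  have h6 : Polynomial.aeval (π (MvPolynomial.X l)) (Polynomial.derivative G) *
      (Δ (π (MvPolynomial.X l)) - yaE w π (MvPolynomial.X l)) = 0 := by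
    linear_combination (-1 : K) * h1 - h3
  have h7 := (mul_eq_zero.1 h6).resolve_left hG1
  rw [sub_eq_zero, hΔ, ya_X, hπ] at h7
  exact h7

end Pool.Agent.Lib.H44X
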