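import Pool.Agent.Lib.H44X.Defs

/-!
Yb1 (S/M). The map `φ : k[x]_(x) → K`, for a prime `Q₀ ≤ (x)` of `k[x]` and a field `K ⊇ k[x]/Q₀`.

`φ` = `IsLocalization.lift` of `P → P/Q₀ → K`: an element outside `org k n` is not in `Q₀`, so its
image is non-zero in the field `K`. It is a `k`-algebra map (compare on `k`; `algebraMap k (SS k n)`
factors through `P`; `MvPolynomial.algebraMap_eq`, IsScalarTower). Every `s ∈ S` is
`mk' p u`, and `φ s = 0` iff the image of `p` is zero iff `p ∈ Q₀`, and then `s ∈ Q₀ S`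
(`IsLocalization.mk'_mem_map_algebraMap_iff` or directly `s * u = p`, `u` a unit).
-/

set_option autoImplicit false

namespace Pool.Agent.Lib.H44X
universe u

theorem yb1_phi {k : Type u} [Field k] {n : ℕ} (Q₀ : Ideal (MvPolynomial (Fin n) k)) [Q₀.IsPrime]
    (hQ0 : Q₀ ≤ org k n) {K : Type u} [Field K] [Algebra k K]
    [Algebra (MvPolynomial (Fin n) k ⧸ Q₀) K] [IsScalarTower k (MvPolynomial (Fin n) k ⧸ Q₀) K]
    (hAK : Function.Injective (algebraMap (MvPolynomial (Fin n) k ⧸ Q₀) K)) :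
    ∃ φ : SS k n →ₐ[k] K, (∀ p : MvPolynomial (Fin n) k,
      φ (algebraMap (MvPolynomial (Fin n) k) (SS k n) p) =
        algebraMap (MvPolynomial (Fin n) k ⧸ Q₀) K (Ideal.Quotient.mk Q₀ p)) ∧
      (∀ u : SS k n, u ∉ Q₀.map (algebraMap (MvPolynomial (Fin n) k) (SS k n)) → φ u ≠ 0) ∧
      ∀ u : SS k n, u ∈ Q₀.map (algebraMap (MvPolynomial (Fin n) k) (SS k n)) → φ u = 0 := by
  obtain ⟨f, hf⟩ : ∃ f : MvPolynomial (Fin n) k →ₐ[k] K,
      f = (IsScalarTower.toAlgHom k (MvPolynomial (Fin n) k ⧸ Q₀) K).comp (Ideal.Quotient.mkₐ k Q₀) := ⟨_, rfl⟩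
  have hfp : ∀ p, f p = algebraMap (MvPolynomial (Fin n) k ⧸ Q₀) K (Ideal.Quotient.mk Q₀ p) := by
    intro p
    rw [hf]
    rfl
  have hf0 : ∀ p, f p = 0 ↔ p ∈ Q₀ := by
    intro p
    rw [hfp, ← Ideal.Quotient.eq_zero_iff_mem, ← map_zero (algebraMap (MvPolynomial (Fin n) k ⧸ Q₀) K)]
    exact hAK.eq_iff
  have hu : ∀ y : (org k n).primeCompl, IsUnit (f y) := by
    intro y
    rw [isUnit_iff_ne_zero]
    intro h
    exact y.2 (hQ0 ((hf0 _).1 h))
  obtain ⟨φ, hφ⟩ : ∃ φ : SS k n →ₐ[k] K, ∀ p, φ (algebraMap (MvPolynomial (Fin n) k) (SS k n) p) = f p := by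
    refine ⟨IsLocalization.liftAlgHom (M := (org k n).primeCompl) (S := SS k n) (f := f) hu, fun p => ?_⟩
    rw [IsLocalization.liftAlgHom_apply]
    exact IsLocalization.lift_eq _ _
  refine ⟨φ, fun p => (hφ p).trans (hfp p), fun u hu' h => hu' ?_, fun u hu' => ?_⟩
  · obtain ⟨p, s, rfl⟩ := IsLocalization.exists_mk'_eq (org k n).primeCompl u
    have h1 := IsLocalization.mk'_spec (SS k n) p s
    have h2 := congrArg φ h1
    rw [map_mul, h, zero_mul, hφ] at h2
    have h3 := (hf0 p).1 h2.symm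
    have h4 : IsLocalization.mk' (SS k n) p s * algebraMap (MvPolynomial (Fin n) k) (SS k n) s ∈
        Q₀.map (algebraMap (MvPolynomial (Fin n) k) (SS k n)) := by
      rw [h1]
      exact Ideal.mem_map_of_mem _ h3
    exact (Ideal.mul_unit_mem_iff_mem _ (IsLocalization.map_units (SS k n) s)).1 h4
  · have h1 : Q₀.map (algebraMap (MvPolynomial (Fin n) k) (SS k n)) ≤ RingHom.ker φ.toRingHom := by
      rw [Ideal.map_le_iff_le_comap]
      intro p hp
      rw [Ideal.mem_comap, RingHom.mem_ker]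
      exact (hφ p).trans ((hf0 p).2 hp)
    exact h1 hu'

theorem yb1_psi {k : Type u} [Field k] {n d : ℕ} {K : Type u} [Field K]
    (φ : SS k n →+* K) (Y : Fin d → MvPolynomial (Fin n) k)
    (hY0 : ∀ j, MvPolynomial.constantCoeff (Y j) = 0) (g : SS k d →+* K)
    (h : ∀ b : MvPolynomial (Fin d) k, g (algebraMap (MvPolynomial (Fin d) k) (SS k d) b) =
      φ (algebraMap (MvPolynomial (Fin n) k) (SS k n) (MvPolynomial.aeval Y b)))
    (β : SS k d) : φ (psi Y hY0 β) = g β := by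
  have h1 : φ.comp (psi Y hY0) = g := by
    apply IsLocalization.ringHom_ext (org k d).primeCompl
    refine RingHom.ext fun b => ?_
    rw [RingHom.comp_apply, RingHom.comp_apply, RingHom.comp_apply, h]
    exact congrArg φ (Localization.localRingHom_to_map _ _ _ _ _)
  exact RingHom.congr_fun h1 β

end Pool.Agent.Lib.H44X
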