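import Pool.Agent.Lib.H44X.K6
import Pool.Agent.Lib.H44X.Ya
import Pool.Agent.Lib.H44X.Tr
import Pool.Agent.Lib.H44X.Yb1

/-!
Yb (M/L). Instantiation of k6_core.

`P = k[x]`, `B₀ = k[y]`, `S = SS k n`, `C = SS k d`, `I = (F) S`.
* `A = P ⧸ Q₀` (a domain), `Algebra B₀ A` by `aeval (fun j => Ideal.Quotient.mk Q₀ (Y j))`
  (RingHom.toAlgebra), finite (hfin), injective (hinj). `K = FractionRing A`,
  `L = FractionRing B₀`, `Algebra B₀ K` (composite), `Algebra L K`: `FractionRing.liftAlgebra` (or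
  `IsFractionRing.lift`), finite dimensional (`A` finite over `B₀`:
  `FiniteDimensional` of fraction fields, e.g. `IsFractionRing` + `Module.Finite` lemma, or
  integral + finite generation; see how Lib/H78A (T16.lean, T15.lean) obtained it, they have a
  chunk for `Algebra.IsAlgebraic`/finite). Algebra `C → L`: `IsLocalization.lift` (elements outside
  `org k d` are non-zero in `L`); injective (`C` is a localisation of a domain at elements which are
  non zero divisors). `C → K` is the composite.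
* `φ : S → K` from yb1_phi (Yb1.lean).
* `D` from T_der (Tr.lean; `K` is algebraic over `B₀`: hfin), hD.
* hunit: Z_unit (Tr.lean) with `f g - aeval Y b ∈ Q₀`; `mk (aeval Y b) = algebraMap B₀ A b`.
* hFA: hFQ. `e j = N y_j = algebraMap B₀ C (N • X j)`; in the maximal ideal because
  `constantCoeff (X j) = 0` (IsLocalization.AtPrime.to_map_mem_maximal_iff or
  `algebraMap_mem_maximalIdeal`-type). heul: ya_eul (Ya.lean); `eul k w S l = w_l x_l`.
* hann: from `psi (β j) - a ∈ Q₀ S`: `φ a = φ (psi (β j))`, and `φ (psi x) = algebraMap C K x` by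
  yb1_psi (on `b ∈ B₀`: `φ (aeval Y b) = mk (aeval Y b) = algebraMap B₀ K b`).
-/

set_option autoImplicit false
open TensorProduct IsLocalRing
open Pool.Agent.Lib.Helper92 Pool.Agent.Lib.H44V

namespace Pool.Agent.Lib.H44X
universe u

theorem yb_abs {k : Type u} [Field k] [CharZero k] {n d : ℕ} (w : Fin n → ℕ)
    (hw : ∀ i, 0 < w i) (F : Set (MvPolynomial (Fin n) k))
    (hF : ∀ f ∈ F, ∃ m, MvPolynomial.IsWeightedHomogeneous w f m)
    (Q₀ : Ideal (MvPolynomial (Fin n) k)) [Q₀.IsPrime]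
    (hQ : ∀ f ∈ Q₀, ∀ m, MvPolynomial.weightedHomogeneousComponent w m f ∈ Q₀)
    (hFQ : F ⊆ Q₀) (hQ0 : Q₀ ≤ org k n)
    (N : ℕ) (Y : Fin d → MvPolynomial (Fin n) k) (hN : 0 < N)
    (hY : ∀ j, MvPolynomial.IsWeightedHomogeneous w (Y j) N)
    (hY0 : ∀ j, MvPolynomial.constantCoeff (Y j) = 0)
    (hinj : Function.Injective (MvPolynomial.aeval (R := k) fun j => Ideal.Quotient.mk Q₀ (Y j)))
    (hfin : (MvPolynomial.aeval (R := k) fun j => Ideal.Quotient.mk Q₀ (Y j)).toRingHom.Finite)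
    {L K : Type u} [Field L] [Field K] [Algebra k K]
    [Algebra (MvPolynomial (Fin d) k) (MvPolynomial (Fin n) k ⧸ Q₀)]
    (hBA : ∀ b, algebraMap (MvPolynomial (Fin d) k) (MvPolynomial (Fin n) k ⧸ Q₀) b =
      Ideal.Quotient.mk Q₀ (MvPolynomial.aeval Y b))
    [Module.Finite (MvPolynomial (Fin d) k) (MvPolynomial (Fin n) k ⧸ Q₀)]
    [Algebra (MvPolynomial (Fin d) k) L] [IsFractionRing (MvPolynomial (Fin d) k) L]
    [Algebra (MvPolynomial (Fin n) k ⧸ Q₀) K] [IsFractionRing (MvPolynomial (Fin n) k ⧸ Q₀) K]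
    [Algebra L K] [Algebra (MvPolynomial (Fin d) k) K]
    [IsScalarTower (MvPolynomial (Fin d) k) (MvPolynomial (Fin n) k ⧸ Q₀) K]
    [IsScalarTower (MvPolynomial (Fin d) k) L K]
    [IsScalarTower k (MvPolynomial (Fin d) k) K]
    [IsScalarTower k (MvPolynomial (Fin n) k ⧸ Q₀) K]
    [Algebra k L] [IsScalarTower k (MvPolynomial (Fin d) k) L]
    [IsLocalRing (SS k n ⧸ (Ideal.span F).map (algebraMap (MvPolynomial (Fin n) k) (SS k n)))]
    (G : MRes (SS k n ⧸ (Ideal.span F).map (algebraMap (MvPolynomial (Fin n) k) (SS k n)))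
      (NN ((Ideal.span F).map (algebraMap (MvPolynomial (Fin n) k) (SS k n)))))
    (s : ℕ) (hb : ∀ j, s < j → G.b j = 0)
    (del : Fin n → ((Ideal.span F).map (algebraMap (MvPolynomial (Fin n) k) (SS k n)) →ₗ[SS k n]
      (SS k n ⧸ (Ideal.span F).map (algebraMap (MvPolynomial (Fin n) k) (SS k n)))))
    (hdel : ∀ l, ∀ f ∈ F, ∀ hf : algebraMap (MvPolynomial (Fin n) k) (SS k n) f ∈
        (Ideal.span F).map (algebraMap (MvPolynomial (Fin n) k) (SS k n)),
        del l ⟨algebraMap (MvPolynomial (Fin n) k) (SS k n) f, hf⟩ =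
          Ideal.Quotient.mk ((Ideal.span F).map (algebraMap (MvPolynomial (Fin n) k) (SS k n)))
            (algebraMap (MvPolynomial (Fin n) k) (SS k n) (MvPolynomial.pderiv l f)))
    (tt : Fin n → Fin (G.b 0) →
      SS k n ⧸ (Ideal.span F).map (algebraMap (MvPolynomial (Fin n) k) (SS k n)))
    (g0 p : Fin (G.b 1) →
      SS k n ⧸ (Ideal.span F).map (algebraMap (MvPolynomial (Fin n) k) (SS k n)))
    (htt : ∀ l, toHom (G.pi (tt l)) = del l)
    (hg0 : (G.dm 0).mulVec g0 = ∑ l, Ideal.Quotient.mk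
      ((Ideal.span F).map (algebraMap (MvPolynomial (Fin n) k) (SS k n)))
        (eul k w (SS k n) l) • tt l)
    (hp : ∑ c, p c * g0 c = 1)
    (hDB : DB ((Ideal.span F).map (algebraMap (MvPolynomial (Fin n) k) (SS k n)))
      (Q₀.map (algebraMap (MvPolynomial (Fin n) k) (SS k n))))
    (hann : ∀ i, ∃ β : ℕ → SS k d, (∀ j < i + 2, IsSMulRegular (SS k d ⧸ Jx β j) (β j)) ∧
      ∀ j < i + 2, ∃ a : SS k n, Ideal.Quotient.mk
        ((Ideal.span F).map (algebraMap (MvPolynomial (Fin n) k) (SS k n))) a ∈ HJ G i ∧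
        psi Y hY0 (β j) - a ∈ Q₀.map (algebraMap (MvPolynomial (Fin n) k) (SS k n))) : False := by
  classical
  have hAK : Function.Injective (algebraMap (MvPolynomial (Fin n) k ⧸ Q₀) K) :=
    IsFractionRing.injective _ _
  have hcomp : (MvPolynomial.aeval (R := k) fun j => Ideal.Quotient.mk Q₀ (Y j)) =
      (Ideal.Quotient.mkₐ k Q₀).comp (MvPolynomial.aeval Y) := by
    apply MvPolynomial.algHom_ext
    intro j
    rw [MvPolynomial.aeval_X, AlgHom.comp_apply, MvPolynomial.aeval_X]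
    rfl
  have hinjBA : Function.Injective
      (algebraMap (MvPolynomial (Fin d) k) (MvPolynomial (Fin n) k ⧸ Q₀)) := by
    intro b b' h
    rw [hBA, hBA] at h
    apply hinj
    rw [hcomp]
    exact h
  have hinjBL : Function.Injective (algebraMap (MvPolynomial (Fin d) k) L) :=
    IsFractionRing.injective _ _
  have hinjBK : Function.Injective (algebraMap (MvPolynomial (Fin d) k) K) := by
    rw [IsScalarTower.algebraMap_eq (MvPolynomial (Fin d) k) (MvPolynomial (Fin n) k ⧸ Q₀) K]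
    exact hAK.comp hinjBA
  have tkLK : IsScalarTower k L K := IsScalarTower.of_algebraMap_eq fun c => by
    rw [IsScalarTower.algebraMap_apply k (MvPolynomial (Fin d) k) K,
      IsScalarTower.algebraMap_apply k (MvPolynomial (Fin d) k) L,
      ← IsScalarTower.algebraMap_apply (MvPolynomial (Fin d) k) L K]
  have hg : ∀ y : (org k d).primeCompl, IsUnit (algebraMap (MvPolynomial (Fin d) k) L y) := by
    intro y
    rw [isUnit_iff_ne_zero]
    intro h0
    apply y.2
    rw [(map_eq_zero_iff _ hinjBL).1 h0]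
    exact zero_mem _
  let aSL : Algebra (SS k d) L :=
    (IsLocalization.lift (M := (org k d).primeCompl) (S := SS k d) hg).toAlgebra
  have tBSL : IsScalarTower (MvPolynomial (Fin d) k) (SS k d) L :=
    IsScalarTower.of_algebraMap_eq fun b =>
      (IsLocalization.lift_eq (M := (org k d).primeCompl) (S := SS k d) hg b).symm
  have tkSL : IsScalarTower k (SS k d) L := IsScalarTower.of_algebraMap_eq fun c => by
    rw [IsScalarTower.algebraMap_apply k (MvPolynomial (Fin d) k) L,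
      IsScalarTower.algebraMap_apply k (MvPolynomial (Fin d) k) (SS k d),
      ← IsScalarTower.algebraMap_apply (MvPolynomial (Fin d) k) (SS k d) L]
  let aSK : Algebra (SS k d) K := ((algebraMap L K).comp (algebraMap (SS k d) L)).toAlgebra
  have tSLK : IsScalarTower (SS k d) L K := IsScalarTower.of_algebraMap_eq fun _ => rfl
  have tBSK : IsScalarTower (MvPolynomial (Fin d) k) (SS k d) K :=
    IsScalarTower.of_algebraMap_eq fun b => by
      rw [IsScalarTower.algebraMap_apply (SS k d) L K,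
        ← IsScalarTower.algebraMap_apply (MvPolynomial (Fin d) k) (SS k d) L,
        ← IsScalarTower.algebraMap_apply (MvPolynomial (Fin d) k) L K]
  have tkSK : IsScalarTower k (SS k d) K := IsScalarTower.of_algebraMap_eq fun c => by
    rw [IsScalarTower.algebraMap_apply (SS k d) L K, ← IsScalarTower.algebraMap_apply k (SS k d) L,
      ← IsScalarTower.algebraMap_apply k L K]
  have hfd : FiniteDimensional L K :=
    Pool.Agent.H78A.t16_fin (B := MvPolynomial (Fin d) k) (A := MvPolynomial (Fin n) k ⧸ Q₀)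
  have halg : Algebra.IsAlgebraic (MvPolynomial (Fin d) k) K :=
    (IsFractionRing.comap_isAlgebraic_iff (A := MvPolynomial (Fin d) k) (K := L) (C := K)).2
      inferInstance
  have hinjC : Function.Injective (algebraMap (SS k d) L) := by
    rw [injective_iff_map_eq_zero]
    intro x hx
    obtain ⟨⟨b, s⟩, hb⟩ := IsLocalization.surj (org k d).primeCompl x
    have hb' : x * algebraMap (MvPolynomial (Fin d) k) (SS k d) s =
      algebraMap (MvPolynomial (Fin d) k) (SS k d) b := hb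
    have h1 := congrArg (algebraMap (SS k d) L) hb'
    rw [map_mul, hx, zero_mul, ← IsScalarTower.algebraMap_apply (MvPolynomial (Fin d) k) (SS k d) L] at h1
    have h2 : b = 0 := (map_eq_zero_iff _ hinjBL).1 h1.symm
    rw [h2, map_zero] at hb'
    have hu : IsUnit (algebraMap (MvPolynomial (Fin d) k) (SS k d) s) :=
      IsLocalization.map_units (SS k d) s
    exact (hu.mul_left_eq_zero).1 hb'
  obtain ⟨D, hD⟩ := T_der (k := k) (d := d) (K := K) hinjBK halg
  obtain ⟨φ, hφ, hφ1, hφ2⟩ := yb1_phi Q₀ hQ0 (K := K) hAK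
  have hunit : ∀ f : MvPolynomial (Fin n) k, MvPolynomial.constantCoeff f ≠ 0 →
      ∃ (g : MvPolynomial (Fin n) k) (b : MvPolynomial (Fin d) k),
        MvPolynomial.constantCoeff b ≠ 0 ∧
        algebraMap (MvPolynomial (Fin n) k) (MvPolynomial (Fin n) k ⧸ Q₀) (f * g) =
          algebraMap (MvPolynomial (Fin d) k) (MvPolynomial (Fin n) k ⧸ Q₀) b := by
    intro f hf
    obtain ⟨g, b, hb, hfg⟩ := Z_unit w hw Q₀ hQ N d Y hN hY hinj hfin f hf
    refine ⟨g, b, hb, ?_⟩
    rw [hBA]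
    exact (Ideal.Quotient.eq).2 hfg
  have hFA : ∀ f ∈ F, algebraMap (MvPolynomial (Fin n) k) (MvPolynomial (Fin n) k ⧸ Q₀) f = 0 :=
    fun f hf => Ideal.Quotient.eq_zero_iff_mem.2 (hFQ hf)
  have he : ∀ j : Fin d, algebraMap (MvPolynomial (Fin d) k) (SS k d) ((N : MvPolynomial (Fin d) k) *
      MvPolynomial.X j) ∈ maximalIdeal (SS k d) := by
    intro j
    refine (IsLocalization.AtPrime.to_map_mem_maximal_iff (SS k d) (org k d) _).2 ?_
    rw [org, RingHom.mem_ker, map_mul, MvPolynomial.constantCoeff_X, mul_zero]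
  have hBK : ∀ b : MvPolynomial (Fin d) k, algebraMap (MvPolynomial (Fin d) k) K b =
      algebraMap (MvPolynomial (Fin n) k ⧸ Q₀) K (Ideal.Quotient.mk Q₀ (MvPolynomial.aeval Y b)) := by
    intro b
    rw [IsScalarTower.algebraMap_apply (MvPolynomial (Fin d) k) (MvPolynomial (Fin n) k ⧸ Q₀) K, hBA]
  have heul : ∀ l, ∑ j, algebraMap L K (algebraMap (SS k d) L
      (algebraMap (MvPolynomial (Fin d) k) (SS k d) ((N : MvPolynomial (Fin d) k) * MvPolynomial.X j))) *
        tX (MvPolynomial (Fin n) k ⧸ Q₀) D l j = φ (eul k w (SS k n) l) := by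
    intro l
    have h1 := ya_eul w Q₀ hQ N Y hY hAK hBK hinjBK halg D hD l
    have h2 : φ (eul k w (SS k n) l) = (w l : K) * algebraMap (MvPolynomial (Fin n) k ⧸ Q₀) K
        (Ideal.Quotient.mk Q₀ (MvPolynomial.X l)) := by
      unfold eul
      rw [map_mul, map_natCast, hφ]
    rw [h2, ← h1]
    refine Finset.sum_congr rfl fun j _ => ?_
    rw [← IsScalarTower.algebraMap_apply (MvPolynomial (Fin d) k) (SS k d) L,
      ← IsScalarTower.algebraMap_apply (MvPolynomial (Fin d) k) L K, map_mul, map_natCast]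
    rfl
  refine k6_core (A := MvPolynomial (Fin n) k ⧸ Q₀) (L := L) (K := K) w hw F hF hinjBA hinjC D hD hunit
    φ hφ hFA _ he heul G s hb del hdel tt g0 p htt hg0 hp
    (Q₀.map (algebraMap (MvPolynomial (Fin n) k) (SS k n))) hφ1 hDB ?_
  intro i
  obtain ⟨β, h1, h2⟩ := hann i
  refine ⟨β, h1, fun j hj => ?_⟩
  obtain ⟨a, ha, hpa⟩ := h2 j hj
  refine ⟨a, ha, ?_⟩
  have e1 : φ (psi Y hY0 (β j)) = algebraMap (SS k d) K (β j) :=
    yb1_psi (φ : SS k n →+* K) Y hY0 (algebraMap (SS k d) K) (fun b => by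
      rw [← IsScalarTower.algebraMap_apply (MvPolynomial (Fin d) k) (SS k d) K, hBK]
      exact (hφ _).symm) (β j)
  have e2 := hφ2 _ hpa
  rw [map_sub, e1, sub_eq_zero] at e2
  rw [← e2]
  rfl

theorem yb_false {k : Type u} [Field k] [CharZero k] {n : ℕ} (w : Fin n → ℕ)
    (hw : ∀ i, 0 < w i) (F : Set (MvPolynomial (Fin n) k))
    (hF : ∀ f ∈ F, ∃ m, MvPolynomial.IsWeightedHomogeneous w f m)
    (Q₀ : Ideal (MvPolynomial (Fin n) k)) [Q₀.IsPrime]
    (hQ : ∀ f ∈ Q₀, ∀ m, MvPolynomial.weightedHomogeneousComponent w m f ∈ Q₀)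
    (hFQ : F ⊆ Q₀) (hQ0 : Q₀ ≤ org k n)
    (N d : ℕ) (Y : Fin d → MvPolynomial (Fin n) k) (hN : 0 < N)
    (hY : ∀ j, MvPolynomial.IsWeightedHomogeneous w (Y j) N)
    (hY0 : ∀ j, MvPolynomial.constantCoeff (Y j) = 0)
    (hinj : Function.Injective (MvPolynomial.aeval (R := k) fun j => Ideal.Quotient.mk Q₀ (Y j)))
    (hfin : (MvPolynomial.aeval (R := k) fun j => Ideal.Quotient.mk Q₀ (Y j)).toRingHom.Finite)
    [IsLocalRing (SS k n ⧸ (Ideal.span F).map (algebraMap (MvPolynomial (Fin n) k) (SS k n)))]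
    (G : MRes (SS k n ⧸ (Ideal.span F).map (algebraMap (MvPolynomial (Fin n) k) (SS k n)))
      (NN ((Ideal.span F).map (algebraMap (MvPolynomial (Fin n) k) (SS k n)))))
    (s : ℕ) (hb : ∀ j, s < j → G.b j = 0)
    (del : Fin n → ((Ideal.span F).map (algebraMap (MvPolynomial (Fin n) k) (SS k n)) →ₗ[SS k n]
      (SS k n ⧸ (Ideal.span F).map (algebraMap (MvPolynomial (Fin n) k) (SS k n)))))
    (hdel : ∀ l, ∀ f ∈ F, ∀ hf : algebraMap (MvPolynomial (Fin n) k) (SS k n) f ∈
        (Ideal.span F).map (algebraMap (MvPolynomial (Fin n) k) (SS k n)),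
        del l ⟨algebraMap (MvPolynomial (Fin n) k) (SS k n) f, hf⟩ =
          Ideal.Quotient.mk ((Ideal.span F).map (algebraMap (MvPolynomial (Fin n) k) (SS k n)))
            (algebraMap (MvPolynomial (Fin n) k) (SS k n) (MvPolynomial.pderiv l f)))
    (tt : Fin n → Fin (G.b 0) →
      SS k n ⧸ (Ideal.span F).map (algebraMap (MvPolynomial (Fin n) k) (SS k n)))
    (g0 p : Fin (G.b 1) →
      SS k n ⧸ (Ideal.span F).map (algebraMap (MvPolynomial (Fin n) k) (SS k n)))
    (htt : ∀ l, toHom (G.pi (tt l)) = del l)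
    (hg0 : (G.dm 0).mulVec g0 = ∑ l, Ideal.Quotient.mk
      ((Ideal.span F).map (algebraMap (MvPolynomial (Fin n) k) (SS k n)))
        (eul k w (SS k n) l) • tt l)
    (hp : ∑ c, p c * g0 c = 1)
    (hDB : DB ((Ideal.span F).map (algebraMap (MvPolynomial (Fin n) k) (SS k n)))
      (Q₀.map (algebraMap (MvPolynomial (Fin n) k) (SS k n))))
    (hann : ∀ i, ∃ β : ℕ → SS k d, (∀ j < i + 2, IsSMulRegular (SS k d ⧸ Jx β j) (β j)) ∧
      ∀ j < i + 2, ∃ a : SS k n, Ideal.Quotient.mk
        ((Ideal.span F).map (algebraMap (MvPolynomial (Fin n) k) (SS k n))) a ∈ HJ G i ∧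
        psi Y hY0 (β j) - a ∈ Q₀.map (algebraMap (MvPolynomial (Fin n) k) (SS k n))) : False := by
  classical
  let aBA : Algebra (MvPolynomial (Fin d) k) (MvPolynomial (Fin n) k ⧸ Q₀) :=
    (MvPolynomial.aeval (R := k) fun j => Ideal.Quotient.mk Q₀ (Y j)).toRingHom.toAlgebra
  have hmf : Module.Finite (MvPolynomial (Fin d) k) (MvPolynomial (Fin n) k ⧸ Q₀) := hfin
  have tkBA : IsScalarTower k (MvPolynomial (Fin d) k) (MvPolynomial (Fin n) k ⧸ Q₀) :=
    IsScalarTower.of_algebraMap_eq fun c =>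
      ((MvPolynomial.aeval (R := k) fun j => Ideal.Quotient.mk Q₀ (Y j)).commutes c).symm
  have hcomp : (MvPolynomial.aeval (R := k) fun j => Ideal.Quotient.mk Q₀ (Y j)) =
      (Ideal.Quotient.mkₐ k Q₀).comp (MvPolynomial.aeval Y) := by
    apply MvPolynomial.algHom_ext
    intro j
    rw [MvPolynomial.aeval_X, AlgHom.comp_apply, MvPolynomial.aeval_X]
    rfl
  have hBA : ∀ b, algebraMap (MvPolynomial (Fin d) k) (MvPolynomial (Fin n) k ⧸ Q₀) b =
      Ideal.Quotient.mk Q₀ (MvPolynomial.aeval Y b) := by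
    intro b
    exact AlgHom.congr_fun hcomp b
  have hinjK : Function.Injective (algebraMap (MvPolynomial (Fin d) k)
      (FractionRing (MvPolynomial (Fin n) k ⧸ Q₀))) := by
    rw [IsScalarTower.algebraMap_eq (MvPolynomial (Fin d) k) (MvPolynomial (Fin n) k ⧸ Q₀)
      (FractionRing (MvPolynomial (Fin n) k ⧸ Q₀))]
    have h1 : Function.Injective (algebraMap (MvPolynomial (Fin n) k ⧸ Q₀)
        (FractionRing (MvPolynomial (Fin n) k ⧸ Q₀))) := IsFractionRing.injective _ _
    exact h1.comp hinj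
  let aLK : Algebra (FractionRing (MvPolynomial (Fin d) k))
      (FractionRing (MvPolynomial (Fin n) k ⧸ Q₀)) :=
    (IsFractionRing.lift (K := FractionRing (MvPolynomial (Fin d) k)) hinjK).toAlgebra
  have tBLK : IsScalarTower (MvPolynomial (Fin d) k) (FractionRing (MvPolynomial (Fin d) k))
      (FractionRing (MvPolynomial (Fin n) k ⧸ Q₀)) :=
    IsScalarTower.of_algebraMap_eq fun b => (IsFractionRing.lift_algebraMap hinjK b).symm
  have tkBK : IsScalarTower k (MvPolynomial (Fin d) k)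
      (FractionRing (MvPolynomial (Fin n) k ⧸ Q₀)) := IsScalarTower.of_algebraMap_eq fun c => by
    rw [IsScalarTower.algebraMap_apply k (MvPolynomial (Fin n) k ⧸ Q₀)
        (FractionRing (MvPolynomial (Fin n) k ⧸ Q₀)),
      IsScalarTower.algebraMap_apply k (MvPolynomial (Fin d) k) (MvPolynomial (Fin n) k ⧸ Q₀),
      ← IsScalarTower.algebraMap_apply (MvPolynomial (Fin d) k) (MvPolynomial (Fin n) k ⧸ Q₀)
        (FractionRing (MvPolynomial (Fin n) k ⧸ Q₀))]
  exact yb_abs (L := FractionRing (MvPolynomial (Fin d) k))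
    (K := FractionRing (MvPolynomial (Fin n) k ⧸ Q₀)) w hw F hF Q₀ hQ hFQ hQ0 N Y hN hY hY0 hinj hfin
    hBA G s hb del hdel tt g0 p htt hg0 hp hDB hann

end Pool.Agent.Lib.H44X
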