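import Pool.Agent.Lib.H44X.X3
import Pool.Agent.Lib.H44X.W3
import Pool.Agent.Lib.H44X.L1
import Pool.Agent.Lib.H44X.Z1
import Pool.Agent.Lib.H44X.Z2

/-!
Z5 (M/L). The core: assembly of the contradiction in case (B).

Notation: `P = k[x]`, `B = k[y]`, `S = SS k n`, `C = SS k d`, `I = (F) S`, `R = S/I`.
1. `φR : R → K` is `Ideal.Quotient.lift` of `φ` (`φ` kills `I`: `Ideal.map_span`,
   Submodule.span_induction, hφ, hFA). `th l = onef (tX A D l)`.
2. z1_del with z1_chain: `∑_l φR(del_l y) • th l = 0` for `y ∈ I`; z1_rho (`Dl l = G.pi (tt l)`)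
   gives the hypothesis hτ of z1_htpy (`u i = mk (a i)`, `M = s + 1`, `V = VV k d K`): `hm`.
3. `ζ` from z2_zeta (`t = tX A D`, `h2` is z1_chain with `grad`; heul).
4. Let `σ = inv` (as a linear map), `T = con eK`, `eK j = algebraMap L K (algebraMap C L (e j))`,
   `βK i = algebraMap L K (algebraMap C L (β i))`, `b = G.b`, `dm j = (G.dm j).map φR`,
   `ρ c = incF (∑_l φR(tt l c) • th l)`, `g c = incF (φR(g0 c) • 1)`, `Θ = theta σ (s+1) hm ρ g
   (φR ∘ p) ζ s`. Lemma z5_inc: `TT T M (incF x) = incF (T x)` (induction), and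
   `mv A (fun c => incF (v c)) a = incF (mv A v a)` (map_sum, map_smul). x2_theta gives
   `DD βK T Θ = 0`: hσ v1_inv_inv, hσ1 map_one, hT v1_leib, hTσ v1_con_inv, hh and hρ from z1_htpy
   with hβ, hg: `T (c • 1) = 0` (v1_con_one), hgρ: the `a`-component of `dm_0 g0 =
   ∑_l mk(w_l x_l) • tt l` mapped to `K` against `T (∑_l φR(tt l a) • th l) =
   ∑_l φR(tt l a) φ(eul_l) • 1` (v1_con_onef, heul).
5. `bot Θ = ∑ φR(p_a) φR(g0_a) • 1 = 1` (x3_bot, f3_bot_inc, hp); `top Θ = 0` (x3_theta_ele,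
   f3_ele_inc, f3_top).
6. Coefficients: x3_all with `P = LocForm A D`, `Q x = ∃ z, x = Psi φ (tX A D) z`,
   `A0 c = ∃ r : S, c = φ r` (`(j+1)⁻¹ = φ (algebraMap k S (j+1)⁻¹)`; entries of `hm` are `φR r`, and
   `r = mk r'`); closure by l1_zero, l1_add, l1_neg, l1_smul, v2_closed (with l1_mul), v2_inv;
   `AllIn` of `ρ`, `g`: f4_inc, l1_one, l1_mul (`onef .. = onef .. * 1`). Then pass from `LocForm` to
   the trace condition by l1_trace (lemma z5_mono: `AllIn` is monotone in the predicate).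
7. w3_false (with `M = s + 1`).
-/

set_option autoImplicit false
open TensorProduct IsLocalRing
open Pool.Agent.Lib.Helper92 Pool.Agent.Lib.H44V

namespace Pool.Agent.Lib.H44X
universe u

theorem z5_inc {C : Type u} [CommRing C] {V : Type u} [AddCommGroup V] [Module C V] (T : V →ₗ[C] V) (M : ℕ) (x : V) :
    TT T M (incF C V M x) = incF C V M (T x) := by
  induction M with
  | zero => rfl
  | succ M ih =>
    rw [TT_succ]
    refine extF ih ?_
    show -(TT T M (0 : FF V M)) = 0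
    rw [map_zero, neg_zero]

theorem z5_mv {K : Type u} [Field K] {V : Type u} [AddCommGroup V] [Module K V] (M : ℕ) {p q : ℕ}
    (A : Matrix (Fin p) (Fin q) K) (v : Fin q → V) (a : Fin p) :
    mv A (fun c => incF K V M (v c)) a = incF K V M (mv A v a) := by
  simp only [mv, map_sum, map_smul]

theorem z5_mono {V : Type u} (P Q : V → Prop) (h : ∀ x, P x → Q x) (M : ℕ) (v : FF V M)
    (hv : AllIn P M v) : AllIn Q M v := by
  induction M with
  | zero => exact h _ hv
  | succ M ih => exact ⟨ih _ hv.1, ih _ hv.2⟩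

/-- The algebra of step 2. -/
theorem z5_tau {P S K V : Type u} [CommRing P] [CommRing S] [Algebra P S] [Field K]
    [AddCommGroup V] [Module K V] (F : Set P) {n : ℕ}
    (φR : (S ⧸ (Ideal.span F).map (algebraMap P S)) →+* K) (th : Fin n → V)
    (del : Fin n → ((Ideal.span F).map (algebraMap P S) →ₗ[S]
      (S ⧸ (Ideal.span F).map (algebraMap P S))))
    (h : ∀ f ∈ F, ∀ (hf : algebraMap P S f ∈ (Ideal.span F).map (algebraMap P S)),
      ∑ l, φR (del l ⟨algebraMap P S f, hf⟩) • th l = 0)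
    (q : Ideal S) (hDB : DB ((Ideal.span F).map (algebraMap P S)) q)
    (hq : ∀ u : S, u ∉ q → φR (Ideal.Quotient.mk _ u) ≠ 0)
    (Dl : Fin n → NN ((Ideal.span F).map (algebraMap P S))) (hD : ∀ l, toHom (Dl l) = del l)
    (τ : NN ((Ideal.span F).map (algebraMap P S)) →ₗ[S ⧸ (Ideal.span F).map (algebraMap P S)]
      (S ⧸ (Ideal.span F).map (algebraMap P S))) : ∑ l, φR (τ (Dl l)) • th l = 0 := by
  refine z1_rho _ q hDB φR hq th Dl (fun y => ?_) τ
  simp only [hD]
  exact z1_del F φR th del h y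

/-- The relation between `g` and `ρ`. -/
theorem z5_gr {R K : Type u} [CommRing R] [Field K] {V : Type u} [Ring V] [Algebra K V] (φR : R →+* K) {p q n : ℕ}
    (A : Matrix (Fin p) (Fin q) R) (g0 : Fin q → R) (w : Fin n → R) (tt : Fin n → Fin p → R)
    (h : A.mulVec g0 = ∑ l, w l • tt l) (T : V →ₗ[K] V) (th : Fin n → V) (hT : ∀ l, T (th l) = φR (w l) • (1 : V))
    (M : ℕ) (a : Fin p) :
    mv (A.map φR) (fun c => incF K V M (φR (g0 c) • (1 : V))) a =
      TT T M (incF K V M (∑ l, φR (tt l a) • th l)) := by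
  rw [z5_mv, z5_inc]
  congr 1
  have h1 : (A.mulVec g0) a = ∑ l, w l * tt l a := by
    rw [h, Finset.sum_apply]
    rfl
  have h2 : mv (A.map φR) (fun c => φR (g0 c) • (1 : V)) a = φR ((A.mulVec g0) a) • (1 : V) := by
    rw [Matrix.mulVec, dotProduct, map_sum, Finset.sum_smul]
    refine Finset.sum_congr rfl fun c _ => ?_
    rw [Matrix.map_apply, smul_smul, map_mul]
  rw [h2, h1, map_sum, Finset.sum_smul, map_sum]
  refine Finset.sum_congr rfl fun l _ => ?_
  rw [map_smul, hT, smul_smul, map_mul, mul_comm]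

theorem z5_core {k : Type u} [Field k] [CharZero k] {n d : ℕ} {A L K : Type u} [CommRing A]
    [IsDomain A] [Field L] [Field K] [Algebra k K] [Algebra (MvPolynomial (Fin n) k) A]
    [Algebra (MvPolynomial (Fin d) k) A] [Module.Finite (MvPolynomial (Fin d) k) A]
    [Algebra (MvPolynomial (Fin d) k) L] [IsFractionRing (MvPolynomial (Fin d) k) L]
    [Algebra A K] [IsFractionRing A K] [Algebra L K] [Algebra (MvPolynomial (Fin d) k) K]
    [IsScalarTower (MvPolynomial (Fin d) k) A K] [IsScalarTower (MvPolynomial (Fin d) k) L K]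
    [IsScalarTower k (MvPolynomial (Fin d) k) K] [Algebra k A]
    [IsScalarTower k (MvPolynomial (Fin n) k) A] [IsScalarTower k A K] [Algebra k L]
    [IsScalarTower k L K] [Algebra (SS k d) L]
    [IsScalarTower (MvPolynomial (Fin d) k) (SS k d) L] [IsScalarTower k (SS k d) L]
    [FiniteDimensional L K]
    (w : Fin n → ℕ) (hw : ∀ i, 0 < w i) (F : Set (MvPolynomial (Fin n) k))
    (hF : ∀ f ∈ F, ∃ m, MvPolynomial.IsWeightedHomogeneous w f m)
    (hinjA : Function.Injective (algebraMap (MvPolynomial (Fin d) k) A))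
    (hinjC : Function.Injective (algebraMap (SS k d) L)) (D : Fin d → Derivation k K K)
    (hD : ∀ j (b : MvPolynomial (Fin d) k), D j (algebraMap (MvPolynomial (Fin d) k) K b) =
      algebraMap (MvPolynomial (Fin d) k) K (MvPolynomial.pderiv j b))
    (hunit : ∀ f : MvPolynomial (Fin n) k, MvPolynomial.constantCoeff f ≠ 0 →
      ∃ (g : MvPolynomial (Fin n) k) (b : MvPolynomial (Fin d) k),
        MvPolynomial.constantCoeff b ≠ 0 ∧ algebraMap (MvPolynomial (Fin n) k) A (f * g) =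
          algebraMap (MvPolynomial (Fin d) k) A b)
    (φ : SS k n →ₐ[k] K) (hφ : ∀ p : MvPolynomial (Fin n) k,
      φ (algebraMap (MvPolynomial (Fin n) k) (SS k n) p) =
        algebraMap A K (algebraMap (MvPolynomial (Fin n) k) A p))
    (hFA : ∀ f ∈ F, algebraMap (MvPolynomial (Fin n) k) A f = 0)
    (e : Fin d → SS k d) (he : ∀ j, e j ∈ maximalIdeal (SS k d))
    (heul : ∀ l, ∑ j, algebraMap L K (algebraMap (SS k d) L (e j)) * tX A D l j =
      φ (eul k w (SS k n) l))
    [IsLocalRing (SS k n ⧸ (Ideal.span F).map (algebraMap (MvPolynomial (Fin n) k) (SS k n)))]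
    (G : MRes (SS k n ⧸ (Ideal.span F).map (algebraMap (MvPolynomial (Fin n) k) (SS k n)))
      (NN ((Ideal.span F).map (algebraMap (MvPolynomial (Fin n) k) (SS k n)))))
    (s : ℕ) (hs : 1 ≤ s) (hb : ∀ j, s < j → G.b j = 0)
    (del : Fin n → ((Ideal.span F).map (algebraMap (MvPolynomial (Fin n) k) (SS k n)) →ₗ[SS k n]
      (SS k n ⧸ (Ideal.span F).map (algebraMap (MvPolynomial (Fin n) k) (SS k n)))))
    (hdel : ∀ l, ∀ f ∈ F, ∀ hf : algebraMap (MvPolynomial (Fin n) k) (SS k n) f ∈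
        (Ideal.span F).map (algebraMap (MvPolynomial (Fin n) k) (SS k n)),
        del l ⟨algebraMap (MvPolynomial (Fin n) k) (SS k n) f, hf⟩ =
          Ideal.Quotient.mk ((Ideal.span F).map (algebraMap (MvPolynomial (Fin n) k) (SS k n)))
            (algebraMap (MvPolynomial (Fin n) k) (SS k n) (MvPolynomial.pderiv l f)))
    (tt : Fin n → Fin (G.b 0) →
      SS k n ⧸ (Ideal.span F).map (algebraMap (MvPolynomial (Fin n) k) (SS k n)))
    (g0 p : Fin (G.b 1) →
      SS k n ⧸ (Ideal.span F).map (algebraMap (MvPolynomial (Fin n) k) (SS k n)))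
    (htt : ∀ l, toHom (G.pi (tt l)) = del l)
    (hg0 : (G.dm 0).mulVec g0 = ∑ l, Ideal.Quotient.mk
      ((Ideal.span F).map (algebraMap (MvPolynomial (Fin n) k) (SS k n))) (eul k w (SS k n) l) • tt l)
    (hp : ∑ c, p c * g0 c = 1) (q : Ideal (SS k n)) (hq : ∀ u : SS k n, u ∉ q → φ u ≠ 0)
    (hDB : DB ((Ideal.span F).map (algebraMap (MvPolynomial (Fin n) k) (SS k n))) q)
    (β : ℕ → SS k d) (hreg : ∀ j < s + 1, IsSMulRegular (SS k d ⧸ Jx β j) (β j))
    (a : ℕ → SS k n) (ha : ∀ i < s + 1, Ideal.Quotient.mk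
      ((Ideal.span F).map (algebraMap (MvPolynomial (Fin n) k) (SS k n))) (a i) ∈ splitIdeal G.pi)
    (hβ : ∀ i < s + 1, φ (a i) = algebraMap L K (algebraMap (SS k d) L (β i))) : False := by
  have hK0 : CharZero K := charZero_of_injective_algebraMap (algebraMap k K).injective
  -- the map `φR`
  have hker : ∀ x ∈ (Ideal.span F).map (algebraMap (MvPolynomial (Fin n) k) (SS k n)), φ x = 0 := by
    have h1 : (Ideal.span F).map (algebraMap (MvPolynomial (Fin n) k) (SS k n)) ≤ RingHom.ker (φ : SS k n →+* K) := by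
      rw [Ideal.map_le_iff_le_comap, Ideal.span_le]
      intro f hf
      show φ (algebraMap (MvPolynomial (Fin n) k) (SS k n) f) = 0
      rw [hφ, hFA f hf, map_zero]
    exact fun x hx => h1 hx
  obtain ⟨φR, hφR⟩ : ∃ φR : (SS k n ⧸ (Ideal.span F).map (algebraMap (MvPolynomial (Fin n) k) (SS k n))) →+* K,
      ∀ x : SS k n, φR (Ideal.Quotient.mk _ x) = φ x :=
    ⟨Ideal.Quotient.lift _ (φ : SS k n →+* K) hker, fun x => Ideal.Quotient.lift_mk _ _ _⟩
  have hφRr : ∀ r : SS k n ⧸ (Ideal.span F).map (algebraMap (MvPolynomial (Fin n) k) (SS k n)),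
      ∃ x : SS k n, φR r = φ x := by
    intro r
    obtain ⟨x, rfl⟩ := Ideal.Quotient.mk_surjective r
    exact ⟨x, hφR x⟩
  -- the chain rule
  have hchain : ∀ f ∈ F, ∑ l, φ (algebraMap (MvPolynomial (Fin n) k) (SS k n) (MvPolynomial.pderiv l f)) •
      (onef (tX A D l) : VV k d K) = 0 := by
    intro f hf
    have h1 := z1_chain (A := A) D f (hFA f hf)
    rw [← h1]
    exact Finset.sum_congr rfl fun l _ => by rw [hφ]
  have hτ := z5_tau F φR (fun l => (onef (tX A D l) : VV k d K)) del (fun f hf hf' => by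
    rw [← hchain f hf]
    refine Finset.sum_congr rfl fun l _ => ?_
    rw [hdel l f hf hf', hφR]) q hDB (fun u hu => by
    rw [hφR]
    exact hq u hu) (fun l => G.pi (tt l)) htt
  obtain ⟨hm, hm1, hh, hρ⟩ := z1_htpy G φR (s + 1) (fun i => Ideal.Quotient.mk _ (a i)) ha tt
    (fun l => (onef (tX A D l) : VV k d K)) hτ
  obtain ⟨ζ, hζ1, hζ2, hζ3⟩ := z2_zeta w hw F hF φ (tX A D) (fun f hf => by rw [hφ, hFA f hf, map_zero])
    (fun f hf => hchain f hf) (fun j => algebraMap L K (algebraMap (SS k d) L (e j))) heul φR hφR G p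
  have hb1 : ∀ i < s + 1, φR (Ideal.Quotient.mk _ (a i)) = algebraMap L K (algebraMap (SS k d) L (β i)) :=
    fun i hi => by rw [hφR, hβ i hi]
  have hT1 : ∀ c : K, con (fun j => algebraMap L K (algebraMap (SS k d) L (e j))) (c • (1 : VV k d K)) = 0 := by
    intro c
    rw [map_smul, v1_con_one, smul_zero]
  have hS : ∀ (r : SS k n) (x : VV k d K), LocForm A D x → LocForm A D (φ r • x) := fun r x hx =>
    l1_smul D hunit (φ : SS k n →+* K) hφ r x hx
  have hth : ∀ l : Fin n, LocForm A D (onef (tX A D l) : VV k d K) := by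
    intro l
    have h1 := l1_mul (A := A) D l (1 : VV k d K) (l1_one (A := A) D)
    rwa [mul_one] at h1
  refine w3_false (L := L) (K := K) hinjC β e he (s + 1) hreg
    (theta ((inv : VV k d K →ₐ[K] VV k d K).toLinearMap) (s + 1) hm
      (fun c => incF K (VV k d K) (s + 1) (∑ l, φR (tt l c) • (onef (tX A D l) : VV k d K)))
      (fun c => incF K (VV k d K) (s + 1) (φR (g0 c) • (1 : VV k d K))) (fun c => φR (p c)) ζ s) ?_ ?_ ?_ ?_
  · refine x2_theta ((inv : VV k d K →ₐ[K] VV k d K).toLinearMap) (fun x => v1_inv_inv x)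
      (map_one (inv : VV k d K →ₐ[K] VV k d K)) (s + 1) hm
      (fun j => (G.dm j).map φR) _ _ (fun x y => v1_leib _ x y) (fun x => v1_con_inv _ x) ?_ _ ?_ _ ?_ ?_ _ ζ hζ2 hζ3
      s hb
    · intro i hi j
      rw [hh i hi j, hb1 i hi]
    · intro i hi c
      rw [z5_mv, hρ i hi c, hb1 i hi, map_smul]
    · intro c
      rw [z5_inc, hT1, map_zero]
    · intro c
      refine z5_gr φR (G.dm 0) g0 _ tt hg0 _ _ (fun l => ?_) (s + 1) c
      rw [v1_con_onef, heul l, hφR]
  · exact f3_top (s + 1) s (Nat.lt_succ_self s) _ (x3_theta_ele _ (s + 1) hm _ _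
      (fun c => f3_ele_inc (s + 1) _) (fun c => f3_ele_inc (s + 1) _) _ ζ s hs hb)
  · rw [x3_bot]
    have h1 : ∀ c ∈ (Finset.univ : Finset (Fin (G.b 1))), φR (p c) • botF K (VV k d K) (s + 1)
        (incF K (VV k d K) (s + 1) (φR (g0 c) • (1 : VV k d K))) = φR (p c * g0 c) • (1 : VV k d K) := by
      intro c _
      rw [f3_bot_inc, smul_smul, map_mul]
    rw [Finset.sum_congr rfl h1, ← Finset.sum_smul, ← map_sum, hp, map_one, one_smul]
  · refine z5_mono (LocForm A D) _ (fun v hv l => l1_trace D hinjA hD v hv l) (s + 1) _ ?_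
    refine x3_all _ (s + 1) hm _ _ _ ζ s (LocForm A D) (fun x => ∃ z, x = Psi φ (tX A D) z) (fun c => ∃ r : SS k n, c = φ r)
      (l1_zero D) (fun x y hx hy => l1_add D x y hx hy) (fun x hx => l1_neg D x hx) ?_ ?_ ?_ ?_ ?_ ?_ hζ1 ?_ ?_
    · rintro c x ⟨r, rfl⟩ hx
      exact hS r x hx
    · rintro x y ⟨z, rfl⟩ hy
      exact v2_closed φ (tX A D) (LocForm A D) (l1_zero D) (fun x y hx hy => l1_add D x y hx hy) hS
        (fun l x hx => l1_mul D l x hx) z y hy
    · rintro x ⟨z, rfl⟩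
      exact ⟨inv z, v2_inv φ (tX A D) z⟩
    · intro j
      refine ⟨algebraMap k (SS k n) (((j + 1 : ℕ) : k))⁻¹, ?_⟩
      rw [AlgHom.commutes, map_inv₀, map_natCast]
    · intro i j c c'
      obtain ⟨r, hr⟩ := hm1 i j c c'
      obtain ⟨x, hx⟩ := hφRr r
      exact ⟨x, by rw [hr, hx]⟩
    · intro c
      exact hφRr _
    · intro c
      refine f4_inc _ (l1_zero D) (s + 1) _ ?_
      refine Finset.sum_induction _ (LocForm A D) (fun x y hx hy => l1_add D x y hx hy) (l1_zero D) fun l _ => ?_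
      obtain ⟨x, hx⟩ := hφRr (tt l c)
      rw [hx]
      exact hS x _ (hth l)
    · intro c
      refine f4_inc _ (l1_zero D) (s + 1) _ ?_
      obtain ⟨x, hx⟩ := hφRr (g0 c)
      rw [hx]
      exact hS x _ (l1_one D)

end Pool.Agent.Lib.H44X
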